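import Pool.Agent.W3.CutRow
import Pool.Agent.W3.LeafRow

/-!
# The search tree, part 0
-/

set_option autoImplicit false

namespace Pool.Agent.W3.Data

/-- the state above part 0 of the tree -/
def s0 : St := ⟨[0, 0, 0], [0], [0],
  [],
  [⟨true, 0, 4, 13, 20⟩],
  [.spn 0 0 443556]⟩

/-- part 0 of the tree -/
noncomputable def t0 : Tree :=
(.ask 1
(.mark 1 1 2 3
(.spn
(.haz 3 5 1 4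
(.haz 1 9 1 5
(.maj 2 3
(.haz 1 5 3 10
(.haz 1 9 3 10
(.ask 2
(.mark 3 2 3 4
(.lp [2] [0, 3] [1, 4] [(.mj 0 1, 50), (.mj 1 2, 25), (.mj 2 3, 24), (.hz 0 4, 321), (.hz 3 5, 2493), (.hz 1 5, 3112), (.hz 4 9, 1558)]))
(.ask 3
(.mark 3 2 3 4
(.spn
(.haz 3 3 3 10
(.lp [2] [0, 3] [1, 4] [(.mj 0 1, 8), (.mj 1 2, 8), (.mj 2 3, 9), (.mj 2 4, 1), (.hz 0 4, 29), (.hz 5 3, 523), (.hz 1 5, 951), (.hz 5 19, 901)])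
(.haz 3 19 1 5
(.lp [2] [0, 3] [1, 4] [(.mj 0 1, 21), (.mj 1 2, 19), (.mj 2 3, 11), (.mj 2 4, 7), (.hz 5 1, 603), (.hz 0 4, 17), (.hz 1 5, 2359), (.hz 6 19, 4177)])
(.lp [2] [0, 3] [1, 4] [(.mj 0 1, 7), (.mj 1 2, 6), (.mj 2 4, 4), (.hz 6 1, 739), (.hz 6 3, 796), (.hz 1 5, 739)])))
(.con 3 2)
(.lp [2] [0, 3] [1, 4] [(.mj 0 1, 8561), (.mj 4 3, 878), (.rw 2, 1), (.hz 0 4, 95521), (.hz 3 5, 977542), (.hz 1 5, 219575), (.hz 4 9, 267542), (.hz 1 7, 658724)])))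
(.lp [1] [2] [0, 3] [(.mj 1 2, 3), (.mj 2 3, 2), (.hz 0 4, 167), (.hz 1 5, 323)])))
(.lp [1] [2] [0, 3] [(.mj 1 2, 1341), (.mj 2 3, 2442), (.rw 1, 4), (.hz 4 1, 569843), (.hz 3 5, 67040), (.hz 1 5, 167601), (.hz 2 9, 488437)]))
(.lp [1] [2] [0, 3] [(.mj 1 2, 35027), (.mj 2 3, 57544), (.rw 1, 94), (.hz 3 1, 13426929), (.hz 1 5, 5254016), (.hz 2 9, 11508796), (.hz 2 13, 3502677)]))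
(.haz 1 4 1 5
(.ask 2
(.mark 3 2 3 4
(.spn
(.con 2 3)
(.ask 9
(.mark 11 2 4 5
(.spn
(.haz 4 15 3 20
(.haz 5 27 1 4
(.haz 5 15 1 4
(.lp [2] [1, 4] [0, 3, 5] [(.mj 0 1, 44065), (.mj 1 3, 22033), (.mj 2 4, 4407), (.mj 2 5, 11751), (.mj 3 2, 33783), (.rw 3, 32), (.hz 4 15, 9253733), (.hz 6 15, 4039328), (.hz 5 27, 11016349)])
(.lp [2] [1, 4] [0, 3, 5] [(.mj 0 1, 4), (.mj 1 3, 2), (.mj 2 4, 3), (.mj 3 2, 5), (.hz 6 9, 483), (.hz 6 11, 1562), (.hz 5 27, 1333)]))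
(.lp [2] [1, 4] [0, 3, 5] [(.mj 0 1, 2), (.mj 1 3, 2), (.mj 2 4, 3), (.mj 3 2, 4), (.hz 5 9, 416), (.hz 5 11, 1532), (.hz 4 15, 820)]))
(.lp [2] [1, 4] [0, 3, 5] [(.mj 0 1, 6), (.mj 1 3, 34), (.mj 2 5, 17), (.mj 3 2, 29), (.hz 4 2, 688), (.hz 4 3, 1677), (.hz 4 11, 1832)]))
(.cut 2 [(0, 1), (1, 1), (2, 1), (3, 1), (9, 1), (11, 1)]
(.lp [2] [1, 4] [0, 3, 5] [(.mj 0 1, 12378), (.mj 1 3, 6189), (.mj 4 2, 6189), (.rw 3, 1), (.rw 4, 12)]))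
(.cut 2 [(0, 1), (1, 1), (2, 1), (3, 1), (9, 1), (11, 1)]
(.lp [2] [1, 4] [0, 3, 5] [(.mj 0 1, 731), (.mj 1 3, 731), (.mj 5 2, 517), (.mj 5 4, 61), (.hz 3 4, 31036), (.rw 4, 1)]))))
(.ask 11
(.mark 11 2 4 5
(.spn
(.haz 5 27 3 10
(.haz 5 27 2 5
(.lp [2] [1, 4] [0, 3, 5] [(.mj 0 1, 63), (.mj 1 3, 15), (.mj 2 4, 3), (.mj 2 5, 19), (.mj 3 2, 34), (.hz 3 4, 11024), (.hz 5 27, 11974)])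
(.lp [2] [1, 4] [0, 3, 5] [(.mj 0 1, 9), (.mj 1 3, 3), (.mj 2 4, 6), (.mj 3 2, 10), (.hz 5 11, 2765), (.hz 4 27, 831)]))
(.lp [2] [1, 4] [0, 3, 5] [(.mj 0 1, 5), (.mj 1 3, 2), (.mj 2 4, 4), (.mj 3 2, 6), (.hz 4 11, 718)]))
(.lp [2] [1, 4] [0, 3, 5] [(.mj 0 1, 31), (.mj 1 3, 2), (.mj 4 2, 8), (.mj 4 5, 5), (.hz 3 4, 5842), (.hz 3 5, 1593), (.hz 2 13, 1029)])
(.cut 2 [(0, 1), (1, 1), (2, 1), (3, 1), (9, 1), (11, 1)]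
(.cut 4 [(0, 1), (1, 1), (4, 1), (5, 1), (9, 1), (13, 1)]
(.lp [2] [1, 4] [0, 3, 5] [(.mj 0 1, 12142), (.mj 5 2, 8094), (.rw 4, 16), (.rw 5, 2)])))))
(.lp [2] [0, 3] [1, 4] [(.mj 0 1, 5), (.mj 1 2, 2), (.hz 3 4, 518)])))
(.lp [2] [0, 3] [1, 4] [(.mj 0 1, 6), (.mj 4 2, 2), (.mj 4 3, 3), (.hz 0 4, 6), (.hz 3 4, 891), (.hz 3 5, 157), (.hz 1 5, 920), (.hz 2 9, 387)])))
(.haz 1 9 3 10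
(.haz 1 9 7 20
(.ask 3
(.mark 3 2 3 4
(.spn
(.con 2 3)
(.ask 9
(.mark 11 2 4 5
(.spn
(.haz 4 43 3 20
(.haz 2 19 1 20
(.haz 2 19 1 10
(.haz 4 43 1 4
(.lp [2] [1, 4] [0, 3, 5] [(.mj 1 3, 134), (.mj 2 4, 178), (.mj 2 5, 85), (.mj 3 2, 268), (.hz 0 4, 6549), (.hz 8 19, 44434), (.hz 5 41, 258), (.hz 9 43, 143858), (.hz 8 59, 8911)])
(.lp [2] [1, 4] [0, 3, 5] [(.mj 0 1, 3), (.mj 2 5, 8), (.mj 3 2, 12), (.hz 9 3, 1249), (.hz 9 11, 3966), (.hz 8 19, 2813), (.hz 6 43, 1050)]))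
(.lp [2] [1, 4] [0, 3, 5] [(.mj 1 3, 1), (.mj 2 4, 4), (.mj 2 5, 3), (.hz 8 1, 456), (.hz 8 2, 156), (.hz 0 4, 108), (.hz 8 3, 1007), (.hz 5 9, 22), (.hz 7 19, 309), (.hz 6 43, 742)]))
(.lp [2] [1, 4] [0, 3, 5] [(.mj 2 4, 1), (.mj 2 5, 1), (.hz 7 0, 98)]))
(.lp [2] [1, 4] [0, 3, 5] [(.mj 1 3, 4), (.mj 2 5, 2), (.mj 3 2, 4), (.hz 6 3, 199), (.hz 6 11, 219)]))
(.haz 5 27 1 5
(.ask 41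
(.haz 5 27 3 10
(.maj 2 5
(.mark 41 1 2 6
(.cut 2 [(0, 1), (1, 1), (2, 1), (3, 1), (9, 1), (11, 1)]
(.cut 2 [(0, 1), (1, 1), (9, 1), (41, 1)]
(.lp [2] [1, 4] [0, 3, 5, 6] [(.mj 0 1, 6517), (.mj 2 5, 2987), (.mj 3 4, 679), (.mj 4 2, 3937), (.hz 7 27, 882484), (.hz 5 105, 67883), (.hz 7 31, 313139), (.hz 5 109, 242128), (.rw 4, 1), (.rw 5, 4)]))))
(.mark 43 2 4 6
(.cut 2 [(0, 1), (1, 1), (2, 1), (3, 1), (9, 1), (11, 1)]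
(.cut 2 [(0, 1), (1, 1), (2, 1), (3, 1), (9, 1), (11, 1), (19, 1), (41, 1), (43, 1)]
(.cut 2 [(0, 1), (1, 1), (2, 1), (3, 1), (9, 1), (11, 1), (41, 1), (43, 1)]
(.lp [2] [1, 4] [0, 3, 5, 6] [(.mj 0 1, 50006), (.mj 4 2, 8556), (.mj 4 5, 13960), (.mj 5 2, 13577), (.hz 7 27, 1041791), (.hz 5 105, 520895), (.hz 7 31, 4202049), (.hz 5 109, 3170519), (.rw 4, 23), (.rw 5, 2), (.rw 6, 25)]))))))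
(.mark 43 2 4 6
(.cut 2 [(0, 1), (1, 1), (2, 1), (3, 1), (9, 1), (11, 1)]
(.cut 2 [(0, 1), (1, 1), (2, 1), (3, 1), (9, 1), (11, 1), (41, 1), (43, 1)]
(.lp [2] [1, 4] [0, 3, 5, 6] [(.mj 0 1, 5095), (.mj 4 2, 2068), (.mj 4 5, 5), (.hz 7 9, 136714), (.hz 7 11, 60226), (.hz 7 27, 6239), (.hz 5 109, 258461), (.rw 4, 1), (.rw 5, 3)])))))
(.cut 2 [(0, 1), (1, 1), (2, 1), (3, 1), (9, 1), (11, 1)]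
(.cut 2 [(0, 1), (1, 1), (9, 1), (41, 1)]
(.lp [2] [1, 4] [0, 3, 5] [(.mj 0 1, 222307), (.mj 4 2, 88923), (.mj 4 5, 33346), (.hz 6 31, 42928197), (.rw 4, 20), (.rw 5, 148)]))))
(.cut 2 [(0, 1), (1, 1), (2, 1), (3, 1), (9, 1), (11, 1)]
(.lp [2] [1, 4] [0, 3, 5] [(.mj 0 1, 3473), (.mj 4 2, 1279), (.hz 6 9, 274145), (.hz 5 13, 127089), (.hz 5 45, 52856), (.rw 4, 2)])))
(.haz 4 11 3 10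
(.cut 2 [(0, 1), (1, 1), (2, 1), (3, 1), (9, 1), (11, 1)]
(.lp [2] [1, 4] [0, 3, 5] [(.mj 1 3, 829), (.mj 5 2, 503), (.mj 5 4, 503), (.hz 6 11, 59182), (.hz 6 15, 344176), (.hz 1 23, 124185), (.rw 4, 1)]))
(.cut 2 [(0, 1), (1, 1), (2, 1), (3, 1), (9, 1), (11, 1)]
(.lp [2] [1, 4] [0, 3, 5] [(.mj 1 3, 2028), (.mj 5 2, 976), (.mj 5 4, 569), (.hz 0 4, 5822), (.hz 6 3, 52394), (.hz 1 23, 1112332), (.rw 4, 2)])))))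
(.ask 11
(.mark 11 2 4 5
(.spn
(.haz 4 43 3 20
(.ask 43
(.haz 4 43 1 5
(.mark 43 2 4 6
(.lp [2] [1, 4] [0, 3, 5, 6] [(.mj 2 4, 94), (.mj 2 5, 45), (.mj 3 2, 140), (.hz 7 43, 44912), (.hz 7 47, 28070), (.hz 7 107, 28070)]))
(.lp [2] [1, 4] [0, 3, 5, 6] [(.mj 0 1, 2), (.mj 2 5, 6), (.mj 3 2, 9), (.hz 7 3, 1172), (.hz 7 11, 2193), (.hz 6 43, 731)]))
(.lp [2] [1, 4] [0, 3, 5] [(.mj 0 1, 6), (.mj 2 4, 8), (.mj 3 2, 16)]))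
(.lp [2] [1, 4] [0, 3, 5] [(.mj 0 1, 10), (.mj 2 5, 40), (.mj 3 2, 51), (.hz 6 3, 1704), (.hz 6 11, 2998)]))
(.cut 2 [(0, 1), (1, 1), (2, 1), (3, 1), (9, 1), (11, 1)]
(.lp [2] [1, 4] [0, 3, 5] [(.mj 0 1, 1692), (.mj 4 2, 677), (.mj 4 5, 113), (.rw 4, 1)]))
(.ask 43
(.mark 43 2 4 6
(.spn
(.lp [2] [1, 4] [0, 3, 5, 6] [(.mj 5 2, 174), (.rw 4, 1)])
(.cut 2 [(0, 1), (1, 1), (2, 1), (3, 1), (9, 1), (11, 1)]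
(.lp [2] [1, 4] [0, 3, 5, 6] [(.mj 0 1, 8230), (.mj 4 2, 2286), (.rw 4, 1), (.rw 5, 7)]))
(.cut 2 [(0, 1), (1, 1), (2, 1), (3, 1), (9, 1), (11, 1)]
(.lp [2] [1, 4] [0, 3, 5, 6] [(.mj 0 1, 692), (.mj 6 2, 461), (.rw 5, 1)]))))
(.lp [2] [1, 4] [0, 3, 5] [(.mj 5 4, 1), (.rw 3, 1)]))))
(.spn
(.lp [2] [0, 3] [1, 4] [(.mj 2 4, 2), (.mj 3 2, 3)])
(.lp [2] [0, 3] [1, 4] [(.mj 0 1, 21), (.mj 4 2, 4), (.hz 3 4, 4055), (.hz 3 5, 548), (.hz 5 13, 329)])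
.fin)))
(.lp [2] [0, 3] [1, 4] [(.mj 0 1, 20722), (.mj 4 2, 1833), (.mj 4 3, 4474), (.rw 2, 1), (.hz 3 4, 3453588), (.hz 3 5, 690718), (.hz 1 5, 2762870), (.hz 5 9, 304728), (.hz 5 13, 808645)])))
(.spn
(.con 2 3)
(.ask 9
(.mark 9 1 2 4
(.ask 11
(.mark 11 2 4 5
(.spn
(.haz 5 27 3 10
(.lp [2] [1, 5] [0, 3, 4] [(.mj 1 3, 16), (.mj 2 4, 4), (.mj 2 5, 11), (.mj 3 2, 16), (.hz 6 27, 2704)])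
(.lp [2] [1, 5] [0, 3, 4] [(.mj 1 3, 3), (.mj 2 4, 2), (.mj 3 2, 3), (.hz 6 11, 369)]))
(.lp [2] [1, 5] [0, 3, 4] [(.mj 1 3, 41), (.mj 4 2, 13), (.mj 4 5, 7), (.hz 0 4, 975), (.hz 1 5, 14304), (.hz 1 7, 2276)])
(.cut 2 [(0, 1), (1, 1), (2, 1), (3, 1), (9, 1), (11, 1)]
(.cut 4 [(0, 1), (1, 1), (2, 1), (4, 1), (3, 1), (5, 1), (6, 1), (9, 1), (7, 1), (11, 1)]
(.lp [2] [1, 5] [0, 3, 4] [(.mj 1 3, 19673), (.mj 5 2, 10929), (.rw 4, 22), (.rw 5, 2)])))))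
(.lp [1] [2] [0, 3, 4] [(.mj 1 3, 3), (.mj 3 2, 1), (.hz 0 4, 61), (.hz 1 5, 827)])))
(.ask 11
(.ask 11
(.mark 11 2 4 5
(.spn
(.haz 5 27 1 4
(.haz 5 27 7 20
(.lp [2] [1, 5] [0, 3, 4] [(.mj 2 4, 34), (.mj 2 5, 70), (.mj 3 2, 105), (.hz 7 27, 7750)])
(.lp [2] [1, 5] [0, 3, 4] [(.mj 2 4, 5), (.mj 3 2, 7), (.hz 7 11, 487), (.hz 6 27, 1949)]))
(.lp [2] [1, 5] [0, 3, 4] [(.mj 2 4, 33), (.mj 3 2, 40), (.hz 6 11, 12249)]))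
(.ask 27
(.mark 27 2 5 6
(.spn
(.lp [2] [1, 5] [0, 3, 4, 6] [(.mj 4 2, 174), (.rw 4, 1)])
(.cut 2 [(0, 1), (1, 1), (2, 1), (3, 1), (9, 1), (11, 1)]
(.lp [2] [1, 5] [0, 3, 4, 6] [(.mj 4 5, 1738), (.mj 5 2, 8688), (.rw 4, 1), (.rw 5, 22)]))
(.cut 2 [(0, 1), (1, 1), (2, 1), (3, 1), (9, 1), (11, 1)]
(.lp [2] [1, 5] [0, 3, 4, 6] [(.mj 6 2, 453), (.rw 5, 1)]))))
(.lp [2] [1, 5] [0, 3, 4] [(.mj 4 5, 790), (.rw 3, 1)]))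
(.con 5 4)))
(.spn
(.lp [1] [2] [0, 3, 4] [(.mj 2 4, 2), (.mj 3 2, 3)])
(.ask 27
(.maj 2 5
(.ask 27
(.mark 27 2 5 6
(.spn
(.lp [2] [1, 6] [0, 3, 4, 5] [(.mj 4 2, 174), (.rw 4, 1)])
(.con 5 2)
(.con 6 5)))
(.lp [1] [2] [0, 3, 4, 5] [(.mj 2 5, 1), (.mj 4 2, 1)]))
(.cut 2 [(0, 1), (1, 1), (2, 1), (3, 1), (9, 1), (11, 1)]
(.lp [1] [2] [0, 3, 4, 5] [(.mj 5 2, 453), (.rw 4, 1)])))
(.lp [1] [2] [0, 3, 4] [(.rw 3, 1)]))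
.fin))
(.lp [1] [2] [0, 3] [(.mj 3 2, 1)])))
.fin))
(.lp [1] [2] [0, 3] [(.mj 1 3, 64), (.mj 3 2, 27), (.hz 5 1, 2362), (.hz 0 4, 132), (.hz 3 5, 4931), (.hz 1 5, 15944), (.hz 0 6, 132)]))
(.lp [1] [2] [0, 3] [(.mj 1 3, 4), (.mj 3 2, 2), (.hz 4 1, 295), (.hz 0 4, 12), (.hz 3 5, 307), (.hz 1 5, 959), (.hz 0 6, 12)])))
(.lp [1] [2] [0, 3] [(.mj 1 2, 5), (.mj 1 3, 7), (.hz 3 0, 1399), (.hz 0 4, 77), (.hz 1 5, 2547), (.hz 2 13, 699)])))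
(.lp [1] [2] [0, 3] [(.mj 1 2, 112), (.mj 1 3, 504), (.rw 1, 1), (.hz 2 1, 251858), (.hz 1 5, 139921)]))
(.haz 1 5 7 20
(.lp [1] [2] [0, 3] [(.mj 0 1, 26), (.mj 1 2, 7), (.hz 1 1, 1854), (.hz 0 4, 160), (.hz 2 5, 1020)])
(.lp [1] [2] [0, 3] [(.mj 0 1, 5), (.mj 1 2, 9), (.hz 2 1, 336), (.hz 1 1, 1679)])))
(.con 2 1)
(.ask 9
(.mark 9 1 2 4
(.spn
(.cut 2 [(0, 1), (1, 1), (2, 1), (3, 1), (9, 1)]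
(.lp [1] [2] [0, 3, 4] [(.mj 1 2, 2174), (.mj 1 4, 2174), (.mj 3 1, 10868), (.rw 2, 8), (.rw 3, 4)]))
(.con 2 1)
(.ask 25
(.mark 25 1 2 5
(.spn
(.lp [1] [2] [0, 3, 4, 5] [(.mj 4 1, 524), (.rw 3, 1)])
(.con 2 1)
(.haz 3 3 13 20
(.ask 4
(.mark 13 1 4 6
(.cut 1 [(0, 1)]
(.cut 2 [(0, 1), (1, 1), (9, 1), (25, 1)]
(.cut 1 [(0, 1), (1, 1), (4, 1), (5, 1), (9, 1), (13, 1)]
(.lp [1] [2, 6] [0, 3, 4, 5] [(.mj 1 2, 1112381), (.mj 5 1, 4014056), (.mj 5 2, 192942), (.rw 3, 238), (.hz 0 68, 381572459), (.hz 1 71, 342768480), (.rw 4, 1121), (.rw 5, 4118), (.rw 6, 7858)])))))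
(.ask 5
(.mark 13 1 4 6
(.cut 1 [(0, 1), (1, 1), (4, 1), (5, 1), (9, 1), (13, 1)]
(.cut 2 [(0, 1), (1, 1), (2, 1), (3, 1), (9, 1), (11, 1), (25, 1)]
(.lp [1] [2, 6] [0, 3, 4, 5] [(.mj 5 1, 401994), (.rw 3, 67), (.rw 4, 1072), (.rw 5, 268)]))))
(.cut 1 [(0, 1)]
(.cut 2 [(0, 1), (1, 1), (9, 1)]
(.cut 1 [(0, 1), (1, 1), (4, 1), (5, 1), (9, 1), (13, 1)]
(.cut 2 [(0, 1), (1, 1), (2, 1), (3, 1), (9, 1), (11, 1), (25, 1)]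
(.cut 1 [(0, 1), (1, 1), (4, 1), (5, 1), (9, 1), (25, 1)]
(.lp [1] [2] [0, 3, 4, 5] [(.mj 5 1, 267996), (.mj 5 2, 133998), (.rw 3, 67), (.rw 4, 134), (.rw 5, 402), (.rw 6, 134), (.rw 7, 134), (.rw 8, 536)]))))))))
(.cut 1 [(0, 1), (1, 1)]
(.cut 2 [(0, 1), (1, 1)]
(.lp [1] [2] [0, 3, 4, 5] [(.mj 5 1, 2384), (.mj 5 2, 2384), (.rw 2, 1), (.hz 1 1, 173764), (.hz 0 6, 3777), (.rw 4, 2), (.rw 5, 2)]))))))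
(.lp [1] [2] [0, 3, 4] [(.rw 2, 1)]))))
(.lp [1] [2] [0, 3] [(.rw 1, 1)]))))
(.spn
(.cut 2 [(0, 1), (1, 1)]
(.lp [0] [1] [2] [(.mj 0 1, 2225), (.mj 1 2, 1112), (.rw 2, 1)]))
(.con 2 1)
.fin))

theorem run0 : run (mkLeaf Leaf.nleaf) cutRow [] t0 s0 = true := by
  decide +kernel

end Pool.Agent.W3.Data
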