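import Pool.Agent.W3.CutRow
import Pool.Agent.W3.LeafRow

/-!
# The search tree, part 1
-/

set_option autoImplicit false

namespace Pool.Agent.W3.Data

/-- the state above part 1 of the tree -/
def s1 : St := ⟨[0, 0, 0], [0], [0],
  [],
  [⟨false, 0, 4, 13, 20⟩],
  [.spn 0 0 443556]⟩

/-- part 1 of the tree -/
noncomputable def t1 : Tree :=
(.haz 0 4 9 20
(.haz 0 2 1 2
(.haz 0 4 11 20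
(.haz 1 4 1 10
(.ask 1
(.mark 1 1 2 3
(.spn
(.haz 3 5 1 4
(.ask 4
(.ask 2
(.mark 3 2 3 5
(.spn
(.mark 7 3 4 5
(.lp [0, 3] [1, 5] [2, 4] [(.mj 0 1, 2862), (.mj 1 2, 1202), (.mj 1 3, 1431), (.mj 2 3, 477), (.rw 2, 1), (.hz 3 4, 14388), (.hz 4 20, 194765), (.hz 5 21, 835546)]))
(.ask 9
(.mark 15 4 5 6
(.cut 2 [(0, 1), (1, 1), (2, 1), (3, 1), (9, 1)]
(.lp [1, 5] [2, 4] [0, 3, 6] [(.mj 0 1, 5553), (.mj 1 3, 4165), (.mj 3 2, 1601), (.hz 3 20, 26276), (.hz 4 20, 646009), (.hz 4 21, 173175), (.hz 5 21, 2222430), (.rw 3, 2)])))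
(.ask 11
(.mark 11 2 5 6
(.spn
(.mark 15 4 5 6
(.lp [1, 5] [2, 4] [0, 3, 6] [(.mj 0 1, 20120), (.mj 1 3, 2835), (.mj 2 6, 2881), (.mj 3 2, 7293), (.rw 3, 4), (.hz 4 20, 2813339), (.hz 4 21, 2046065)]))
(.cut 2 [(0, 1), (1, 1), (2, 1), (3, 1), (9, 1), (11, 1)]
(.lp [1, 5] [2, 4] [0, 3, 6] [(.mj 0 1, 1055), (.mj 5 2, 372), (.mj 5 6, 21), (.rw 4, 1)]))
(.cut 2 [(0, 1), (1, 1), (2, 1), (3, 1), (9, 1), (11, 1)]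
(.cut 5 [(0, 1), (1, 1), (2, 1), (4, 1), (3, 1), (5, 1), (9, 1), (20, 1), (13, 1), (21, 1), (29, 1)]
(.lp [1, 5] [2, 4] [0, 3, 6] [(.mj 0 1, 12142), (.mj 6 2, 8094), (.rw 4, 16), (.rw 5, 2)])))))
(.lp [0, 3] [1, 5] [2, 4] [(.mj 0 1, 9), (.mj 1 2, 4), (.hz 0 4, 13), (.hz 4 4, 440)])))
(.mark 7 3 4 5
(.lp [0, 3] [1, 5] [2, 4] [(.mj 0 1, 1895), (.mj 5 2, 133), (.mj 5 3, 632), (.rw 1, 1), (.hz 3 4, 41650), (.hz 4 4, 174711), (.hz 4 20, 77731), (.hz 5 21, 236865)]))))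
(.ask 3
(.mark 3 2 3 5
(.spn
(.mark 7 3 4 5
(.spn
(.haz 3 3 3 10
(.lp [0, 3] [1, 5] [2, 4] [(.mj 0 1, 5), (.mj 1 2, 8), (.mj 2 3, 8), (.mj 2 5, 1), (.mj 3 5, 1), (.hz 3 4, 9), (.hz 6 3, 351), (.hz 6 35, 853), (.hz 5 21, 284)])
(.lp [0, 3] [1, 5] [2, 4] [(.mj 0 1, 11803), (.mj 1 2, 4558), (.mj 3 5, 253), (.rw 2, 4), (.hz 6 1, 357540), (.hz 6 3, 25275), (.hz 4 20, 1554980), (.hz 5 21, 189561)]))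
(.lp [0, 3] [1, 5] [2, 4] [(.mj 1 2, 13), (.mj 4 3, 14), (.mj 4 5, 14), (.hz 3 4, 2192)])
(.lp [0, 3] [1, 5] [2, 4] [(.mj 0 1, 3), (.mj 1 2, 3), (.mj 2 5, 4), (.mj 5 3, 6), (.hz 3 4, 121), (.hz 5 5, 1269), (.hz 5 7, 4163), (.hz 5 21, 2134), (.hz 5 39, 1944)])))
(.haz 1 5 7 20
(.haz 2 35 1 20
(.ask 9
(.mark 11 2 5 6
(.spn
(.mark 15 4 5 6
(.spn
(.lp [1, 5] [2, 4] [0, 3, 6] [(.mj 3 2, 619), (.mj 4 5, 309), (.mj 4 6, 309), (.rw 3, 1)])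
(.lp [1, 5] [2, 4] [0, 3, 6] [(.mj 2 5, 231), (.mj 3 2, 692), (.mj 5 6, 231), (.rw 3, 1)])
(.lp [1, 5] [2, 4] [0, 3, 6] [(.mj 1 3, 5600), (.mj 3 2, 5227), (.mj 6 5, 1992), (.rw 3, 10), (.hz 0 4, 387831), (.hz 3 20, 348043), (.hz 7 35, 807815), (.hz 6 21, 9910), (.hz 5 21, 1750014), (.hz 3 22, 237740)])))
(.ask 73
(.haz 6 15 1 5
(.haz 6 11 9 20
(.mark 79 4 5 7
(.lp [1, 5] [2, 4] [0, 3, 6, 7] [(.mj 0 1, 960), (.mj 5 6, 482), (.hz 3 4, 44733), (.hz 6 5, 3577), (.hz 9 11, 43659), (.hz 7 35, 1868), (.hz 6 21, 86952), (.hz 9 15, 47548), (.hz 6 29, 157247), (.hz 9 31, 403373), (.hz 9 47, 53937), (.hz 6 205, 53937)]))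
(.ask 35
(.mark 111 4 7 8
(.cut 2 [(0, 1), (1, 1), (2, 1), (3, 1), (9, 1), (11, 1), (35, 1), (73, 1), (75, 1), (201, 2), (291, 1), (203, 1)]
(.cut 2 [(0, 1), (1, 1), (2, 1), (3, 1), (9, 1), (11, 1), (73, 1), (75, 1)]
(.lp [2, 4] [1, 5, 8] [0, 3, 6, 7] [(.mj 0 1, 63072), (.mj 3 5, 886), (.mj 5 2, 9914), (.mj 5 6, 11450), (.hz 9 9, 641846), (.hz 3 20, 711625), (.hz 6 21, 7376364), (.hz 6 29, 1073422), (.hz 6 205, 3109614), (.hz 7 363, 58288), (.rw 4, 1), (.rw 5, 19)]))))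
(.ask 43
(.mark 43 2 6 8
(.spn
(.lp [2, 4] [1, 5, 8] [0, 3, 6, 7] [(.mj 5 2, 456), (.rw 4, 1), (.hz 8 15, 1141061)])
(.mark 111 4 7 8
(.cut 2 [(0, 1), (1, 1), (2, 1), (3, 1), (9, 1), (11, 1), (35, 1), (73, 1), (43, 1), (75, 1)]
(.lp [2, 4] [1, 5, 8] [0, 3, 6, 7] [(.mj 0 1, 1240), (.mj 5 6, 906), (.mj 6 2, 816), (.mj 6 8, 320), (.hz 6 205, 78105), (.rw 5, 2)])))
(.mark 111 4 7 8
(.cut 2 [(0, 1), (1, 1), (2, 1), (3, 1), (9, 1), (11, 1), (73, 1), (75, 1)]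
(.lp [2, 4] [1, 5, 8] [0, 3, 6, 7] [(.mj 8 2, 453), (.rw 5, 1)])))))
(.mark 13 1 4 6
(.lp [1, 5] [2, 4] [0, 3, 6, 7] [(.mj 0 1, 87), (.mj 5 2, 34), (.mj 5 6, 61), (.hz 3 20, 1258), (.hz 6 21, 7550), (.hz 8 15, 27264), (.hz 6 29, 5932), (.hz 8 31, 82989), (.hz 7 107, 22230)])))))
(.mark 15 4 5 6
(.lp [1, 5] [2, 4] [0, 3, 6, 7] [(.mj 0 1, 12), (.mj 5 2, 1), (.hz 6 5, 544), (.hz 8 9, 566), (.hz 3 20, 162), (.hz 8 11, 314), (.hz 8 13, 402), (.hz 6 21, 783), (.hz 8 15, 36)])))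
(.mark 13 1 4 6
(.cut 2 [(0, 1), (1, 1), (2, 1), (3, 1), (9, 1), (11, 1), (73, 1)]
(.lp [1, 5] [2, 4] [0, 3, 6] [(.mj 0 1, 4567), (.mj 5 2, 651), (.mj 5 6, 685), (.hz 3 20, 53449), (.hz 6 21, 519500), (.hz 6 29, 53167), (.hz 6 77, 140224), (.rw 4, 1)]))))
(.mark 7 3 4 5
(.cut 5 [(0, 1), (1, 1), (2, 1), (4, 1), (3, 1), (5, 1), (6, 1), (9, 1), (20, 1), (7, 1), (11, 1), (13, 1), (21, 1), (22, 1), (73, 1), (15, 1), (29, 1), (77, 1)]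
(.cut 2 [(0, 1), (1, 1), (2, 1), (3, 1), (9, 1), (11, 1)]
(.lp [1, 5] [2, 4] [0, 3, 6] [(.mj 1 3, 24877), (.mj 6 2, 10076), (.mj 6 5, 11888), (.hz 3 20, 371291), (.hz 7 35, 550618), (.hz 5 21, 15594232), (.hz 3 22, 742582), (.hz 5 23, 4519884), (.hz 5 39, 10145217), (.rw 4, 3), (.rw 5, 19)]))))))
(.ask 11
(.mark 11 2 5 6
(.spn
(.mark 15 4 5 6
(.lp [1, 5] [2, 4] [0, 3, 6] [(.mj 0 1, 12635), (.mj 2 6, 1129), (.mj 3 2, 2428), (.rw 3, 1), (.hz 3 20, 132386), (.hz 7 35, 716824), (.hz 6 21, 1591866)]))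
(.mark 15 4 5 6
(.lp [1, 5] [2, 4] [0, 3, 6] [(.mj 0 1, 12), (.mj 5 2, 1), (.mj 5 6, 1), (.hz 3 4, 173), (.hz 6 5, 423), (.hz 6 21, 961)]))
(.mark 15 4 5 6
(.cut 2 [(0, 1), (1, 1), (2, 1), (3, 1), (9, 1), (11, 1), (35, 2), (43, 1)]
(.cut 5 [(0, 1), (1, 1), (2, 1), (4, 1), (3, 1), (5, 1), (6, 1), (9, 1), (20, 1), (7, 1), (11, 1), (13, 1), (21, 1), (22, 1), (15, 1), (29, 1)]
(.cut 2 [(0, 1), (1, 1), (2, 1), (3, 1), (9, 1), (11, 1), (35, 1), (43, 2)]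
(.lp [1, 5] [2, 4] [0, 3, 6] [(.mj 0 1, 54502), (.mj 6 2, 4395), (.hz 3 4, 739610), (.hz 3 20, 195848), (.hz 7 35, 961605), (.hz 6 21, 7730436), (.hz 7 43, 167287), (.hz 6 29, 2081012), (.hz 5 55, 3725127), (.rw 4, 2), (.rw 5, 3), (.rw 6, 5)])))))))
(.mark 4 0 1 4
(.lp [0, 3] [1, 5] [2, 4] [(.mj 0 1, 19), (.mj 3 2, 3), (.hz 0 4, 323), (.hz 6 5, 869), (.hz 3 20, 584), (.hz 7 35, 383), (.hz 6 21, 1111)]))))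
(.cut 2 [(0, 1), (1, 1), (2, 1), (3, 1), (9, 2)]
(.lp [0, 3] [1, 5] [2, 4] [(.hz 7 0, 50811), (.rw 3, 1)])))
(.mark 7 3 4 5
(.lp [0, 3] [1, 5] [2, 4] [(.mj 1 3, 3), (.mj 3 2, 1), (.hz 6 1, 105), (.hz 3 4, 62), (.hz 5 5, 151), (.hz 5 21, 1217)])))
(.mark 7 3 4 5
(.cut 2 [(0, 1), (1, 1), (2, 1), (3, 1), (9, 2), (11, 1)]
(.cut 2 [(0, 1), (1, 1), (2, 1), (3, 1), (9, 2), (11, 2)]
(.cut 3 [(0, 1), (1, 1), (2, 1), (4, 1), (3, 1), (5, 1), (6, 1), (20, 1), (7, 1), (22, 1)]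
(.lp [0, 3] [1, 5] [2, 4] [(.mj 0 1, 24328), (.mj 5 2, 8510), (.mj 5 3, 12164), (.hz 3 20, 531042), (.hz 4 20, 2067466), (.hz 5 7, 2769989), (.hz 4 13, 1384995), (.hz 4 21, 4654771), (.hz 5 21, 3537681), (.rw 3, 4), (.rw 4, 10), (.rw 5, 6)])))))))
(.spn
(.lp [1] [0, 3] [2, 4] [(.mj 0 1, 1588), (.mj 1 2, 1191), (.mj 2 3, 1191), (.rw 1, 1), (.hz 5 5, 198498)])
(.ask 9
(.mark 9 1 2 5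
(.ask 11
(.mark 11 2 5 6
(.spn
(.mark 15 4 5 6
(.lp [1, 6] [2, 4] [0, 3, 5] [(.mj 1 3, 21), (.mj 2 6, 4), (.mj 3 2, 6), (.hz 3 4, 469), (.hz 5 21, 14526)]))
(.mark 15 4 5 6
(.lp [1, 6] [2, 4] [0, 3, 5] [(.mj 1 3, 5), (.mj 5 2, 1), (.mj 5 6, 1), (.hz 3 4, 370), (.hz 5 21, 1852)]))
(.mark 15 4 5 6
(.cut 5 [(0, 1), (1, 1), (2, 1), (4, 1), (3, 1), (5, 1), (6, 1), (20, 1), (7, 1), (21, 1), (22, 1), (23, 1)]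
(.cut 2 [(0, 1), (1, 1), (2, 1), (3, 1), (9, 1), (11, 1)]
(.lp [1, 6] [2, 4] [0, 3, 5] [(.mj 1 3, 12212), (.mj 6 2, 3406), (.hz 3 20, 460612), (.hz 5 21, 10165593), (.hz 5 23, 9180098), (.rw 4, 1), (.rw 5, 7)]))))))
(.lp [1] [2, 4] [0, 3, 5] [(.mj 1 3, 5), (.mj 3 2, 2), (.hz 3 4, 37), (.hz 5 5, 1130)])))
(.ask 11
(.ask 11
(.mark 11 2 5 6
(.spn
(.mark 15 4 5 6
(.spn
(.lp [1, 6] [2, 4] [0, 3, 5] [(.mj 3 2, 916), (.mj 4 5, 519), (.mj 4 6, 519), (.rw 3, 1)])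
(.haz 6 43 1 4
(.haz 6 43 3 10
(.lp [1, 6] [2, 4] [0, 3, 5] [(.mj 2 5, 12), (.mj 2 6, 2), (.mj 3 2, 19), (.mj 5 6, 14), (.hz 7 43, 2058), (.hz 7 47, 6294)])
(.lp [1, 6] [2, 4] [0, 3, 5] [(.mj 2 5, 2), (.mj 3 2, 3), (.hz 7 11, 437), (.hz 6 43, 874)]))
(.lp [1, 6] [2, 4] [0, 3, 5] [(.mj 2 5, 28), (.mj 3 2, 34), (.hz 0 4, 500), (.hz 6 11, 10497)]))
(.con 6 5)))
(.ask 43
(.mark 43 2 6 7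
(.spn
(.mark 47 4 6 7
(.lp [1, 6] [2, 4] [0, 3, 5, 7] [(.mj 5 2, 11), (.rw 4, 1)]))
(.mark 47 4 6 7
(.cut 2 [(0, 1), (1, 1), (2, 1), (3, 1), (9, 1), (11, 1)]
(.lp [1, 6] [2, 4] [0, 3, 5, 7] [(.mj 5 6, 2351), (.mj 6 2, 3918), (.rw 4, 1), (.rw 5, 12)])))
(.cut 2 [(0, 1), (1, 1), (2, 1), (3, 1), (9, 1), (11, 1)]
(.lp [1, 6] [2, 4] [0, 3, 5, 7] [(.mj 7 2, 453), (.rw 5, 1)]))))
(.lp [1, 6] [2, 4] [0, 3, 5] [(.mj 5 6, 790), (.rw 3, 1)]))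
(.con 6 5)))
(.spn
(.lp [1] [2, 4] [0, 3, 5] [(.mj 2 5, 2), (.mj 3 2, 3)])
(.ask 43
(.ask 43
(.mark 43 2 6 7
(.spn
(.mark 47 4 6 7
(.lp [1, 7] [2, 4] [0, 3, 5, 6] [(.mj 5 2, 11), (.rw 4, 1)]))
(.cut 2 [(0, 1), (1, 1), (2, 1), (3, 1), (9, 1), (11, 1)]
(.lp [1, 7] [2, 4] [0, 3, 5, 6] [(.mj 6 2, 453), (.rw 5, 1)]))
(.con 7 6)))
(.spn
(.lp [1] [2, 4] [0, 3, 5, 6] [(.mj 5 2, 1), (.rw 4, 1)])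
(.cut 2 [(0, 1), (1, 1), (2, 1), (3, 1), (9, 1), (11, 1)]
(.lp [1] [2, 4] [0, 3, 5, 6] [(.mj 6 2, 453), (.rw 5, 1)]))
.fin))
(.lp [1] [2, 4] [0, 3, 5] [(.rw 3, 1)]))
.fin))
(.lp [1] [0, 3] [2, 4] [(.mj 3 2, 1)])))
.fin)))
(.haz 3 5 7 20
(.haz 1 9 1 4
(.maj 2 3
(.lp [1] [2] [0, 3] [(.mj 0 1, 150), (.mj 1 2, 24), (.mj 2 3, 50), (.hz 0 4, 6689), (.hz 6 5, 599), (.hz 7 9, 12497)])
(.haz 3 3 7 20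
(.haz 1 9 7 20
(.ask 2
(.mark 3 2 3 4
(.spn
(.con 2 3)
(.ask 9
(.mark 11 2 4 5
(.lp [2] [1, 4] [0, 3, 5] [(.mj 0 1, 51), (.mj 1 3, 38), (.mj 3 2, 6), (.hz 0 4, 1824), (.hz 6 5, 1894)]))
(.ask 5
(.mark 7 3 4 5
(.lp [0, 3] [1, 4] [2, 5] [(.mj 0 1, 4), (.hz 0 0, 9), (.hz 0 4, 355), (.hz 2 18, 1155)]))
(.cut 2 [(0, 1), (1, 1), (2, 1), (3, 1), (9, 1)]
(.cut 4 [(0, 1), (1, 1), (4, 1), (5, 1), (9, 1), (13, 1)]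
(.lp [2] [0, 3] [1, 4] [(.mj 0 1, 18195), (.mj 1 3, 6270), (.mj 3 2, 712), (.hz 0 4, 827058), (.rw 3, 1), (.rw 4, 1)])))))
(.lp [2] [0, 3] [1, 4] [(.mj 0 1, 4), (.mj 4 2, 1), (.mj 4 3, 2), (.hz 0 4, 153), (.hz 6 5, 106), (.hz 9 9, 56)])))
(.ask 3
(.mark 3 2 3 4
(.spn
(.con 2 3)
(.haz 2 19 1 20
(.ask 9
(.mark 11 2 4 5
(.spn
(.ask 6
(.mark 15 4 5 6
(.lp [1, 4] [2, 6] [0, 3, 5] [(.mj 0 1, 21589), (.mj 1 3, 10794), (.mj 3 2, 3598), (.rw 3, 8), (.hz 0 4, 830345)]))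
(.haz 5 15 1 4
(.haz 4 43 1 5
(.ask 41
(.mark 43 2 4 6
(.lp [2] [1, 4] [0, 3, 5, 6] [(.mj 1 3, 14), (.mj 2 4, 13), (.mj 2 5, 2), (.mj 3 2, 15), (.hz 10 19, 754), (.hz 8 19, 195), (.hz 11 15, 1811), (.hz 12 43, 4804), (.hz 12 107, 6481)]))
(.lp [2] [1, 4] [0, 3, 5] [(.mj 0 1, 2088), (.mj 2 4, 53), (.mj 2 5, 292), (.mj 3 2, 253), (.hz 0 4, 199534), (.hz 10 19, 23802), (.hz 12 43, 167375)]))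
(.lp [2] [1, 4] [0, 3, 5] [(.mj 1 3, 8), (.mj 2 5, 6), (.mj 3 2, 9), (.hz 12 3, 1978), (.hz 12 11, 2430), (.hz 11 15, 3063)]))
(.lp [2] [1, 4] [0, 3, 5] [(.mj 0 1, 13), (.mj 3 2, 1), (.hz 0 4, 1040), (.hz 11 9, 826), (.hz 11 11, 508), (.hz 10 19, 252)])))
(.haz 5 27 1 5
(.maj 2 5
(.ask 19
(.mark 27 2 5 6
(.lp [2] [0, 3, 5] [1, 4, 6] [(.mj 0 1, 38176), (.mj 1 3, 3285), (.mj 2 5, 10634), (.mj 4 2, 5799), (.rw 3, 1), (.hz 0 4, 1930845), (.hz 3 6, 40052), (.hz 9 13, 261410), (.hz 9 41, 385434), (.hz 11 27, 3828206), (.hz 10 83, 227200), (.hz 11 31, 2899725), (.hz 11 91, 7443734)]))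
(.ask 27
(.mark 27 2 5 6
(.lp [2] [0, 3, 5] [1, 4, 6] [(.mj 0 1, 49), (.mj 1 3, 5), (.mj 2 5, 14), (.mj 4 2, 8), (.hz 0 4, 2537), (.hz 3 6, 133), (.hz 9 13, 232), (.hz 9 41, 483), (.hz 11 27, 5675), (.hz 11 31, 4013), (.hz 11 91, 7093)]))
(.lp [2] [1, 4] [0, 3, 5] [(.mj 2 5, 1), (.mj 4 2, 1)])))
(.cut 2 [(0, 1), (1, 1), (2, 1), (3, 1), (9, 1), (11, 1)]
(.cut 2 [(0, 1), (1, 1), (2, 1), (3, 1), (9, 1), (19, 1)]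
(.lp [2] [1, 4] [0, 3, 5] [(.mj 0 1, 169791), (.mj 4 5, 38928), (.mj 5 2, 55225), (.hz 0 4, 7417484), (.hz 9 41, 2070617), (.hz 9 45, 5624062), (.rw 4, 122), (.rw 5, 8)]))))
(.lp [2] [1, 4] [0, 3, 5] [(.mj 0 1, 21), (.mj 1 3, 3), (.mj 4 2, 1), (.hz 0 4, 1080), (.hz 11 9, 681), (.hz 3 6, 100), (.hz 11 11, 393), (.hz 10 19, 132)]))
(.cut 2 [(0, 1), (1, 1), (2, 1), (3, 1), (9, 1), (11, 1)]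
(.lp [2] [1, 4] [0, 3, 5] [(.mj 1 3, 1076), (.mj 5 2, 538), (.mj 5 4, 392), (.hz 8 19, 20853), (.hz 6 23, 43338), (.hz 10 27, 97859), (.rw 4, 1)]))))
(.ask 5
(.mark 7 3 4 5
(.lp [0, 3] [1, 4] [2, 5] [(.mj 0 1, 5), (.hz 0 0, 12), (.hz 0 4, 493), (.hz 8 19, 54)]))
(.cut 2 [(0, 1), (1, 1), (2, 1), (3, 1), (9, 1)]
(.cut 4 [(0, 1), (1, 1), (2, 1), (4, 1), (5, 1), (6, 1), (9, 1), (13, 1)]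
(.lp [2] [0, 3] [1, 4] [(.mj 0 1, 85581), (.mj 1 3, 19967), (.hz 0 4, 3713992), (.hz 8 19, 96827), (.rw 3, 1), (.rw 4, 1)])))))
(.cut 2 [(0, 1), (1, 1), (2, 1), (3, 1)]
(.lp [2] [0, 3] [1, 4] [(.hz 10 0, 50811), (.rw 3, 1)])))
(.lp [2] [0, 3] [1, 4] [(.mj 0 1, 3996), (.mj 4 3, 1810), (.rw 2, 1), (.hz 0 4, 168097), (.hz 8 3, 153674), (.hz 6 5, 90514)])))
(.spn
(.con 2 3)
(.ask 9
(.mark 9 1 2 4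
(.ask 11
(.mark 11 2 4 5
(.spn
(.haz 5 27 3 10
(.lp [2] [1, 5] [0, 3, 4] [(.mj 1 3, 16), (.mj 2 4, 4), (.mj 2 5, 11), (.mj 3 2, 16), (.hz 10 27, 2704)])
(.lp [2] [1, 5] [0, 3, 4] [(.mj 1 3, 3), (.mj 2 4, 2), (.mj 3 2, 3), (.hz 10 11, 369)]))
(.lp [2] [1, 5] [0, 3, 4] [(.mj 0 1, 5), (.mj 1 3, 13), (.mj 4 2, 3), (.mj 4 5, 2), (.hz 6 5, 932), (.hz 6 7, 83)])
(.cut 2 [(0, 1), (1, 1), (2, 1), (3, 1), (9, 1), (11, 1)]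
(.cut 4 [(0, 1), (1, 1), (2, 1), (4, 1), (3, 1), (5, 1), (6, 1), (9, 1), (7, 1), (11, 1)]
(.lp [2] [1, 5] [0, 3, 4] [(.mj 1 3, 19673), (.mj 5 2, 10929), (.rw 4, 22), (.rw 5, 2)])))))
(.lp [1] [2] [0, 3, 4] [(.mj 0 1, 1), (.mj 1 3, 3), (.mj 3 2, 1), (.hz 6 5, 114)])))
(.ask 5
(.mark 5 1 3 4
(.cut 2 [(0, 1), (1, 1), (2, 1), (3, 1), (9, 1)]
(.lp [1] [0, 3] [2, 4] [(.mj 0 1, 51500), (.mj 1 3, 8852), (.hz 0 4, 2414058), (.hz 4 21, 120703), (.hz 6 21, 442577), (.rw 3, 1)])))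
(.cut 2 [(0, 1), (1, 1), (2, 1), (3, 1), (9, 1)]
(.lp [1] [2] [0, 3] [(.mj 0 1, 51500), (.mj 1 3, 8852), (.hz 0 4, 2414058), (.rw 3, 1)]))))
.fin)))
(.lp [1] [2] [0, 3] [(.mj 0 1, 15), (.mj 1 3, 23), (.mj 3 2, 6), (.hz 9 1, 587), (.hz 0 4, 725), (.hz 6 5, 1175), (.hz 3 6, 304)]))
(.lp [1] [2] [0, 3] [(.mj 0 1, 7), (.mj 3 2, 1), (.hz 8 1, 104), (.hz 0 4, 398), (.hz 3 6, 33)])))
(.lp [1] [2] [0, 3] [(.mj 1 2, 69), (.mj 1 3, 667), (.rw 1, 1), (.hz 7 1, 333388), (.hz 0 4, 2664), (.hz 6 5, 35070)]))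
(.lp [1] [2] [0, 3] [(.mj 0 1, 7), (.mj 1 2, 1), (.hz 6 1, 107), (.hz 0 4, 364), (.hz 5 5, 110)])))
(.ask 4
(.mark 5 1 3 4
(.lp [1] [0, 3] [2, 4] [(.mj 0 1, 4), (.mj 1 2, 1), (.hz 5 1, 282), (.hz 3 4, 1081), (.hz 5 5, 3536), (.hz 4 20, 3099)]))
(.lp [1] [2] [0, 3] [(.mj 0 1, 7), (.mj 1 2, 1), (.hz 5 1, 474), (.hz 0 4, 331)])))
(.con 2 1)
(.ask 4
(.haz 1 1 3 20
(.mark 5 1 3 4
(.lp [1] [0, 3] [2, 4] [(.mj 1 2, 26), (.mj 3 1, 80), (.hz 0 0, 1690), (.hz 5 1, 1988), (.hz 3 4, 1550), (.hz 5 5, 4829), (.hz 3 20, 241), (.hz 4 20, 6990), (.hz 5 21, 5965)]))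
(.lp [1] [0, 3] [2, 4] [(.mj 3 2, 1), (.hz 0 0, 42), (.hz 5 0, 42), (.hz 3 4, 28), (.hz 4 4, 47), (.hz 4 5, 95)]))
(.lp [1] [2] [0, 3] [(.mj 3 1, 5), (.mj 3 2, 2), (.hz 0 0, 196), (.hz 2 2, 1305), (.hz 0 4, 320), (.hz 3 6, 345)]))))
(.lp [0] [1] [2] [(.mj 0 1, 5), (.mj 1 2, 2), (.hz 0 4, 11), (.hz 4 4, 332)]))
(.lp [0] [1] [2] [(.mj 1 2, 4), (.hz 0 0, 141), (.hz 4 0, 282), (.hz 3 4, 91)]))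
(.haz 1 4 3 20
(.haz 1 4 1 5
(.ask 1
(.mark 1 1 2 3
(.spn
(.ask 4
(.haz 3 5 1 4
(.haz 2 11 1 10
(.ask 2
(.mark 3 2 3 5
(.spn
(.mark 7 3 4 5
(.lp [0, 3] [1, 5] [2, 4] [(.mj 0 1, 4670), (.mj 1 2, 1740), (.mj 1 3, 2147), (.mj 2 3, 841), (.rw 2, 1), (.hz 5 20, 623658), (.hz 6 21, 1247315)]))
(.ask 9
(.mark 15 4 5 6
(.lp [1, 5] [2, 4] [0, 3, 6] [(.mj 0 1, 32), (.mj 1 3, 24), (.mj 3 2, 7), (.hz 1 4, 1), (.hz 5 4, 1876), (.hz 5 20, 5216), (.hz 7 11, 775), (.hz 6 21, 12344), (.hz 6 23, 472), (.hz 7 43, 3093), (.hz 7 75, 1654)]))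
(.mark 4 0 1 4
(.cut 2 [(0, 1), (1, 1), (2, 1), (3, 1), (9, 1)]
(.lp [0, 3] [1, 5] [2, 4] [(.mj 0 1, 13167), (.mj 3 2, 6319), (.hz 3 0, 329167), (.hz 3 4, 29390), (.hz 5 20, 3747214), (.hz 2 22, 6157187), (.rw 3, 4)]))))
(.mark 7 3 4 5
(.lp [0, 3] [1, 5] [2, 4] [(.mj 0 1, 1566), (.mj 5 3, 530), (.rw 1, 1), (.hz 5 4, 231021), (.hz 6 5, 77007), (.hz 5 20, 57755), (.hz 6 21, 198935)]))))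
(.ask 3
(.mark 3 2 3 5
(.spn
(.mark 7 3 4 5
(.spn
(.haz 3 3 3 10
(.lp [0, 3] [1, 5] [2, 4] [(.mj 0 1, 5), (.mj 1 2, 8), (.mj 2 3, 8), (.mj 2 5, 1), (.mj 3 5, 1), (.hz 1 4, 10), (.hz 8 3, 357), (.hz 8 35, 868), (.hz 6 21, 296)])
(.lp [0, 3] [1, 5] [2, 4] [(.mj 0 1, 4599), (.mj 1 2, 1383), (.rw 2, 1), (.hz 8 1, 135261), (.hz 3 4, 25048), (.hz 5 20, 1222356)]))
(.lp [0, 3] [1, 5] [2, 4] [(.mj 0 1, 1172), (.mj 1 2, 787), (.mj 4 3, 1004), (.mj 4 5, 418), (.rw 2, 1), (.hz 1 4, 12052), (.hz 6 5, 349494), (.hz 6 7, 585838)])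
(.lp [0, 3] [1, 5] [2, 4] [(.mj 0 1, 12), (.mj 1 2, 9), (.mj 2 5, 10), (.mj 5 3, 16), (.hz 1 4, 215), (.hz 6 5, 3621), (.hz 5 20, 1710), (.hz 6 7, 13615), (.hz 6 21, 6044), (.hz 6 39, 5281)])))
(.ask 9
(.mark 11 2 5 6
(.spn
(.mark 15 4 5 6
(.lp [1, 5] [2, 4] [0, 3, 6] [(.mj 3 2, 450), (.rw 3, 1), (.hz 3 4, 70456), (.hz 1 20, 61139), (.hz 6 21, 139164), (.hz 2 22, 325493)]))
(.mark 5 1 3 4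
(.lp [1, 5] [2, 4] [0, 3, 6] [(.mj 0 1, 12), (.mj 3 5, 5), (.mj 5 2, 12), (.hz 3 0, 562), (.hz 1 4, 336), (.hz 6 5, 1001), (.hz 5 20, 2227), (.hz 7 11, 2532), (.hz 5 21, 1976), (.hz 7 43, 2497), (.hz 7 75, 2497)]))
(.mark 7 3 4 5
(.lp [1, 5] [2, 4] [0, 3, 6] [(.mj 0 1, 76), (.mj 6 2, 32), (.mj 6 5, 4), (.hz 3 0, 2093), (.hz 1 4, 951), (.hz 5 4, 17434), (.hz 6 21, 3171), (.hz 6 23, 10680), (.hz 7 75, 5541)]))))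
(.mark 4 0 1 4
(.cut 2 [(0, 1), (1, 1), (2, 1), (3, 1), (9, 1)]
(.lp [0, 3] [1, 5] [2, 4] [(.mj 0 1, 13167), (.mj 3 2, 6319), (.hz 3 0, 329167), (.hz 3 4, 29390), (.hz 5 20, 3747214), (.hz 2 22, 6157187), (.rw 3, 4)]))))
(.mark 7 3 4 5
(.lp [0, 3] [1, 5] [2, 4] [(.mj 0 1, 55), (.mj 5 3, 26), (.hz 3 0, 74), (.hz 1 4, 156), (.hz 5 4, 10525), (.hz 6 5, 2442), (.hz 5 20, 2575), (.hz 6 7, 24417), (.hz 6 21, 16278), (.hz 6 23, 6511), (.hz 6 39, 6511), (.hz 5 29, 26044)]))))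
(.spn
(.lp [1] [0, 3] [2, 4] [(.mj 0 1, 1588), (.mj 1 2, 1191), (.mj 2 3, 1191), (.rw 1, 1), (.hz 6 5, 198498)])
(.mark 5 1 3 4
(.lp [1] [0, 3] [2, 4] [(.mj 0 1, 8), (.mj 3 2, 17), (.hz 3 0, 1064), (.hz 1 4, 755), (.hz 5 20, 850), (.hz 7 11, 1089), (.hz 5 21, 1581), (.hz 6 21, 747)]))
.fin)))
(.lp [1] [0, 3] [2, 4] [(.mj 0 1, 8), (.hz 3 0, 203), (.hz 7 0, 324), (.hz 5 4, 811)]))
(.mark 5 1 3 4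
(.lp [1] [0, 3] [2, 4] [(.mj 0 1, 8), (.mj 1 2, 2), (.hz 6 1, 572), (.hz 5 4, 978), (.hz 6 5, 166), (.hz 5 20, 1404)])))
(.lp [1] [2] [0, 3] [(.mj 0 1, 10539), (.rw 1, 2), (.hz 3 0, 163533), (.hz 3 4, 363406)]))
(.con 2 1)
(.lp [1] [2] [0, 3] [(.mj 3 2, 54), (.rw 1, 1), (.hz 3 0, 66313), (.hz 2 2, 442088), (.hz 1 4, 45549), (.hz 5 4, 5359)])))
(.lp [0] [1] [2] [(.mj 0 1, 3), (.mj 1 2, 1), (.hz 3 4, 10), (.hz 5 4, 306)]))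
(.lp [0] [1] [2] [(.mj 1 2, 2), (.hz 3 0, 73), (.hz 5 0, 293), (.hz 1 4, 51)]))
(.lp [0] [1] [2] [(.mj 1 2, 1), (.hz 3 0, 31), (.hz 4 0, 31), (.hz 1 4, 21)])))
(.haz 1 4 3 20
(.ask 4
(.haz 1 4 1 5
(.ask 1
(.mark 5 1 3 4
(.lp [1] [0, 4] [2, 3] [(.mj 0 1, 55), (.mj 1 2, 27), (.hz 2 0, 13730), (.hz 1 4, 1474), (.hz 4 4, 3317), (.hz 4 12, 10874)]))
(.lp [0] [1] [2, 3] [(.mj 0 1, 3), (.mj 1 2, 2), (.hz 2 2, 442)]))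
(.lp [0] [1] [2, 3] [(.mj 1 2, 1), (.hz 2 0, 310), (.hz 4 0, 124), (.hz 1 4, 21)]))
(.lp [0] [1] [2] [(.mj 0 1, 13), (.mj 1 2, 5), (.hz 2 0, 3180), (.hz 0 4, 193)]))
(.lp [0] [1] [2] [(.mj 1 2, 1), (.hz 2 0, 271), (.hz 3 0, 27), (.hz 1 4, 19)])))
(.haz 2 2 1 5
(.haz 2 1 3 20
(.lp [0] [1] [2] [(.mj 0 1, 21), (.mj 1 2, 25), (.hz 1 0, 534), (.hz 3 1, 628), (.hz 2 2, 2093)])
(.lp [0] [1] [2] [(.mj 0 1, 1), (.hz 1 0, 27), (.hz 3 0, 27), (.hz 2 2, 89)]))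
(.lp [0] [1] [2] [(.mj 0 1, 8), (.hz 1 0, 203), (.hz 2 0, 811)])))

theorem run1 : run (mkLeaf Leaf.nleaf) cutRow [] t1 s1 = true := by
  decide +kernel

end Pool.Agent.W3.Data
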