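import Pool.Agent.W3.CutRow
import Pool.Agent.W3.LeafRow

/-!
# The search tree, part 10
-/

set_option autoImplicit false

namespace Pool.Agent.W3.Data

/-- the state above part 13 of the tree -/
def s13 : St := ⟨[0, 0, 1, 3, 5, 5, 11], [7, 3, 2, 1, 0], [0, 1, 2, 3],
  [(2, 3)],
  [⟨true, 2, 3, 3, 10⟩, ⟨true, 1, 5, 2, 5⟩, ⟨true, 1, 5, 9, 20⟩],
  [.spn 0 0 666000, .spn 1 1 332000, .spn 3 2 332000, .spn 7 3 165501]⟩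

/-- part 13 of the tree -/
noncomputable def t13 : Tree :=
(.mark 15 4 5 6
(.spn
(.haz 4 39 3 20
(.haz 5 15 3 20
(.ask 21
(.mark 31 5 6 7
(.spn
(.ask 75
(.mark 79 4 5 8
(.lp [5] [0, 2, 4, 7] [1, 3, 6, 8] [(.mj 3 4, 6452), (.mj 4 5, 3537), (.mj 5 6, 2924), (.rw 4, 2), (.rw 5, 1), (.hz 4 79, 601923), (.hz 0 331, 204558), (.hz 4 159, 1842307), (.hz 4 335, 795892)]))
(.lp [5] [1, 3, 6] [0, 2, 4, 7] [(.mj 1 2, 6390), (.mj 4 5, 230), (.mj 5 6, 1412), (.rw 4, 1), (.hz 4 79, 40170), (.hz 4 159, 889679)]))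
(.ask 75
(.mark 95 5 7 8
(.lp [5] [0, 2, 4, 7] [1, 3, 6, 8] [(.mj 3 4, 12705), (.mj 4 6, 12718), (.mj 6 5, 12705), (.rw 4, 1), (.hz 4 31, 4330813), (.hz 4 79, 3369378), (.hz 4 159, 11360241), (.hz 4 335, 598142)]))
(.ask 79
(.mark 95 5 7 8
(.lp [5] [0, 2, 4, 7] [1, 3, 6, 8] [(.mj 1 2, 7), (.mj 3 4, 11), (.mj 4 6, 14), (.mj 6 5, 13), (.hz 4 31, 4210), (.hz 4 79, 3566), (.hz 4 159, 11358), (.hz 4 335, 598)]))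
(.ask 95
(.mark 95 5 7 8
(.spn
(.haz 8 223 3 10
(.lp [5] [0, 2, 4, 7] [1, 3, 6, 8] [(.mj 3 4, 34), (.mj 4 6, 14), (.mj 5 8, 15), (.mj 6 5, 32), (.hz 4 31, 6885), (.hz 4 159, 35307), (.hz 5 223, 22653)])
(.lp [5] [0, 2, 4, 7] [1, 3, 6, 8] [(.mj 3 4, 3), (.mj 4 6, 1), (.mj 5 7, 1), (.mj 6 5, 3), (.hz 5 95, 2173), (.hz 4 159, 4435)]))
(.lp [5] [0, 2, 4, 7] [1, 3, 6, 8] [(.mj 3 4, 1), (.mj 7 5, 1), (.hz 4 15, 41), (.hz 4 31, 641), (.hz 4 79, 48), (.hz 4 95, 380), (.hz 4 351, 446)])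
(.lp [5] [0, 2, 4, 7] [1, 3, 6, 8] [(.mj 0 1, 4), (.mj 3 4, 5), (.mj 4 6, 1), (.mj 8 5, 6), (.hz 4 15, 381), (.hz 2 149, 39), (.hz 4 31, 2852), (.hz 4 79, 893), (.hz 4 95, 2366)])))
(.lp [5] [1, 3, 6] [0, 2, 4, 7] [(.mj 3 4, 2), (.mj 4 6, 1), (.mj 6 5, 2), (.hz 4 31, 555), (.hz 4 159, 2081)]))))
(.lp [5] [1, 3, 6] [0, 2, 4, 7] [(.mj 3 4, 1712), (.mj 7 5, 995), (.mj 7 6, 812), (.rw 4, 1), (.hz 0 75, 61182), (.hz 4 31, 469242), (.hz 4 79, 356893), (.hz 4 159, 620979)])))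
(.ask 37
(.ask 23
(.mark 31 5 6 8
(.spn
(.mark 63 6 7 8
(.lp [5, 7] [1, 3, 6] [0, 2, 4, 8] [(.mj 3 4, 15360), (.mj 4 5, 3983), (.mj 5 6, 6336), (.rw 4, 6), (.rw 5, 2), (.hz 2 165, 130739), (.hz 3 167, 5970427), (.hz 4 287, 3488583)]))
(.haz 8 31 3 20
(.mark 39 3 4 7
(.lp [5, 7] [1, 3, 6] [0, 2, 4, 8] [(.mj 0 1, 131), (.mj 3 4, 50), (.mj 4 6, 21), (.mj 6 5, 45), (.hz 4 15, 1474), (.hz 2 165, 2116), (.hz 4 31, 23913), (.hz 4 79, 4802), (.hz 3 167, 17672), (.hz 5 63, 28579)]))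
(.mark 55 3 7 8
(.lp [5, 7] [1, 3, 6] [0, 2, 4, 8] [(.mj 0 1, 79), (.mj 3 4, 2), (.mj 4 6, 10), (.mj 6 5, 27), (.hz 4 15, 3625), (.hz 5 23, 2158), (.hz 2 165, 708), (.hz 4 31, 5151), (.hz 4 79, 4118), (.hz 2 181, 1121), (.hz 4 287, 12461)])))
(.mark 63 6 7 8
(.lp [5, 7] [1, 3, 6] [0, 2, 4, 8] [(.mj 0 1, 1502), (.mj 3 4, 2015), (.mj 8 5, 799), (.mj 8 6, 485), (.rw 4, 1), (.hz 0 75, 21210), (.hz 2 165, 27812), (.hz 4 31, 1087045), (.hz 4 79, 248882), (.hz 3 167, 268852)]))))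
(.haz 6 31 3 20
(.maj 5 6
(.ask 31
(.mark 31 5 6 8
(.spn
(.mark 63 6 7 8
(.spn
(.ask 75
(.mark 79 4 5 9
(.lp [5, 7] [0, 2, 4, 8] [1, 3, 6, 9] [(.mj 1 2, 1), (.mj 3 4, 8), (.mj 4 5, 13), (.mj 5 6, 11), (.mj 6 8, 6), (.hz 0 587, 709), (.hz 4 287, 2508), (.hz 5 287, 2457), (.hz 4 591, 4747)]))
(.lp [5, 7] [1, 3, 6] [0, 2, 4, 8] [(.mj 1 2, 31), (.mj 3 4, 3), (.mj 4 5, 11), (.mj 5 6, 20), (.mj 6 8, 7), (.hz 4 287, 2245), (.hz 5 287, 6207)]))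
(.lp [5, 7] [1, 3, 6] [0, 2, 4, 8] [(.mj 3 4, 1373), (.mj 4 5, 1554), (.mj 7 6, 1268), (.mj 7 8, 550), (.rw 5, 1), (.hz 0 75, 95526), (.hz 5 31, 85728), (.hz 4 79, 557233), (.hz 5 287, 505192)])
(.lp [5, 7] [1, 3, 6] [0, 2, 4, 8] [(.mj 1 2, 76), (.mj 3 4, 2), (.mj 5 8, 8), (.mj 8 6, 31), (.hz 0 75, 2814), (.hz 5 31, 4711), (.hz 4 79, 3784), (.hz 3 167, 7158), (.hz 5 63, 21531), (.hz 5 287, 3102), (.hz 3 175, 8535), (.hz 5 191, 56903)])))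
(.con 6 5)
(.lp [5, 7] [1, 3, 6] [0, 2, 4, 8] [(.mj 3 4, 2401), (.rw 5, 1), (.hz 4 31, 1072088), (.hz 5 31, 471719)])))
(.lp [4] [1, 3, 6] [0, 2, 5, 7] [(.mj 3 4, 2398), (.mj 4 5, 1713), (.mj 5 6, 1713), (.rw 4, 1)]))
(.mark 37 1 4 7
(.lp [4] [1, 3, 6] [0, 2, 5, 7] [(.mj 0 1, 106), (.mj 3 4, 11), (.mj 6 5, 28), (.hz 4 15, 3814), (.hz 2 53, 1057), (.hz 2 165, 1167), (.hz 4 31, 8605), (.hz 3 167, 4075)])))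
(.mark 47 4 6 7
(.lp [4] [1, 3, 6] [0, 2, 5, 7] [(.mj 1 2, 14), (.mj 3 4, 6), (.mj 4 5, 2), (.hz 5 11, 435), (.hz 5 15, 762), (.hz 4 31, 1561)]))))
(.ask 39
(.maj 5 6
(.ask 53
(.mark 63 6 7 8
(.lp [5, 7] [1, 3, 6] [0, 2, 4, 8] [(.mj 3 4, 7), (.mj 3 5, 3), (.mj 4 5, 8), (.mj 5 6, 10)]))
(.ask 23
(.mark 63 6 7 8
(.lp [5, 7] [1, 3, 6] [0, 2, 4, 8] [(.mj 0 1, 402), (.mj 3 4, 2506), (.mj 4 5, 686), (.mj 5 6, 1004), (.rw 4, 1), (.hz 4 79, 33461), (.hz 3 167, 752804), (.hz 4 95, 103213), (.hz 4 287, 674503), (.hz 3 175, 103213)]))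
(.ask 31
(.mark 31 5 6 8
(.spn
(.mark 63 6 7 8
(.spn
(.haz 6 287 1 10
(.haz 6 31 1 4
(.lp [5, 7] [1, 3, 6] [0, 2, 4, 8] [(.mj 3 4, 18), (.mj 4 5, 27), (.mj 5 6, 27), (.mj 5 8, 4), (.mj 6 8, 4), (.hz 6 31, 11710), (.hz 6 287, 38800)])
(.lp [5, 7] [1, 3, 6] [0, 2, 4, 8] [(.mj 0 1, 5), (.mj 3 4, 9), (.mj 4 5, 13), (.mj 6 8, 10), (.hz 6 11, 3310), (.hz 6 15, 9747), (.hz 6 31, 14442), (.hz 4 287, 4721)]))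
(.lp [5, 7] [1, 3, 6] [0, 2, 4, 8] [(.mj 1 2, 6), (.mj 4 5, 1), (.mj 6 8, 1), (.hz 5 11, 306), (.hz 5 15, 1097)]))
(.lp [5, 7] [1, 3, 6] [0, 2, 4, 8] [(.mj 0 1, 28), (.mj 3 4, 8), (.mj 4 5, 14), (.mj 7 6, 6), (.mj 7 8, 6), (.hz 0 75, 353), (.hz 4 79, 4372), (.hz 4 95, 2962), (.hz 4 287, 2962)])
(.haz 6 31 1 5
(.lp [5, 7] [1, 3, 6] [0, 2, 4, 8] [(.mj 3 4, 6), (.mj 4 5, 17), (.mj 5 8, 10), (.mj 8 6, 17), (.hz 0 75, 36), (.hz 5 31, 2962), (.hz 4 79, 209), (.hz 5 63, 74740), (.hz 5 287, 16369)])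
(.lp [5, 7] [1, 3, 6] [0, 2, 4, 8] [(.mj 1 2, 53), (.mj 4 5, 1), (.mj 5 8, 6), (.mj 8 6, 4), (.hz 5 11, 4400), (.hz 5 15, 5433), (.hz 3 167, 3832), (.hz 4 95, 3009)]))))
(.con 6 5)
(.mark 39 3 4 7
(.lp [5, 7] [1, 3, 6] [0, 2, 4, 8] [(.mj 0 1, 12), (.mj 3 4, 2), (.mj 8 5, 2), (.hz 4 15, 84), (.hz 4 31, 666), (.hz 4 79, 325), (.hz 3 167, 482)]))))
(.lp [4] [1, 3, 6] [0, 2, 5, 7] [(.mj 3 4, 2398), (.mj 4 5, 1713), (.mj 5 6, 1713), (.rw 4, 1)]))))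
(.mark 39 3 4 7
(.lp [4] [1, 3, 6] [0, 2, 5, 7] [(.mj 0 1, 395), (.mj 3 4, 89), (.mj 4 6, 14), (.mj 6 5, 63), (.hz 4 15, 1832), (.hz 2 53, 4022), (.hz 4 31, 22516), (.hz 4 79, 3089), (.hz 3 167, 17306)])))
(.haz 5 31 1 5
(.haz 4 79 3 10
(.maj 5 6
(.ask 23
(.mark 31 5 6 7
(.lp [5] [1, 3, 6] [0, 2, 4, 7] [(.mj 0 1, 73508), (.mj 3 4, 36261), (.mj 4 5, 23516), (.mj 5 6, 11265), (.rw 4, 1), (.hz 5 31, 8584164), (.hz 6 79, 2010372), (.hz 4 79, 4115301), (.hz 5 159, 17349221)]))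
(.ask 31
(.mark 31 5 6 7
(.spn
(.ask 53
(.mark 63 6 7 8
(.lp [5, 8] [1, 3, 6] [0, 2, 4, 7] [(.mj 0 1, 354), (.mj 3 4, 104), (.mj 4 5, 22), (.mj 4 6, 7), (.mj 5 6, 4), (.hz 6 79, 1828), (.hz 2 309, 5446)]))
(.ask 47
(.mark 63 6 7 8
(.spn
(.ask 75
(.mark 95 5 7 9
(.lp [5, 8] [0, 2, 4, 7] [1, 3, 6, 9] [(.mj 0 1, 86568), (.mj 3 4, 21969), (.mj 4 5, 13725), (.mj 5 6, 2960), (.mj 6 7, 2441), (.rw 6, 1), (.hz 5 159, 6836015), (.hz 4 591, 1718639), (.hz 5 607, 13320979)]))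
(.haz 7 319 3 20
(.ask 79
(.mark 95 5 7 9
(.lp [5, 8] [0, 2, 4, 7] [1, 3, 6, 9] [(.mj 0 1, 87), (.mj 4 5, 37), (.mj 5 6, 12), (.mj 6 7, 17), (.hz 5 159, 24664), (.hz 4 591, 2388), (.hz 7 319, 15569), (.hz 5 607, 53785)]))
(.lp [5, 8] [1, 3, 6] [0, 2, 4, 7] [(.mj 1 2, 1717), (.mj 4 5, 445), (.mj 5 6, 586), (.mj 6 7, 297), (.hz 5 95, 16406), (.hz 5 159, 666128), (.hz 7 319, 274463)]))
(.lp [5, 8] [1, 3, 6] [0, 2, 4, 7] [(.mj 3 4, 3), (.mj 4 5, 12), (.mj 5 6, 8), (.hz 7 31, 1751), (.hz 7 63, 859)])))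
(.ask 159
(.mark 191 6 8 9
(.spn
(.haz 6 31 1 5
(.lp [5, 8] [1, 3, 6] [0, 2, 4, 7, 9] [(.mj 3 4, 4), (.mj 4 5, 6), (.mj 5 7, 4), (.mj 7 6, 8), (.hz 7 31, 2170), (.hz 7 63, 31016), (.hz 7 159, 6114), (.hz 3 303, 2234), (.hz 7 319, 44680)])
(.ask 75
(.mark 255 8 9 10
(.lp [5, 8] [1, 3, 6, 10] [0, 2, 4, 7, 9] [(.mj 1 2, 6170), (.mj 4 5, 1282), (.mj 5 7, 1282), (.mj 7 6, 1035), (.rw 7, 1), (.hz 7 11, 675941), (.hz 4 1103, 624729), (.hz 5 1119, 3536446)]))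
(.lp [5, 8] [1, 3, 6] [0, 2, 4, 7, 9] [(.mj 1 2, 128), (.mj 4 5, 14), (.mj 5 7, 7), (.mj 6 9, 7), (.hz 7 15, 28293), (.hz 7 31, 18056), (.hz 4 79, 2038), (.hz 3 303, 2889), (.hz 5 671, 26072)])))
(.cut 6 [(0, 1), (1, 1), (2, 1), (3, 1), (5, 1), (7, 1), (11, 1), (21, 1), (37, 1), (15, 1), (23, 1), (39, 1), (53, 1), (31, 1), (47, 1), (55, 1), (63, 1)]
(.lp [5, 8] [1, 3, 6] [0, 2, 4, 7, 9] [(.mj 0 1, 73796), (.mj 3 4, 31867), (.mj 4 5, 16361), (.mj 8 6, 4061), (.rw 7, 3), (.hz 6 79, 3444485), (.hz 4 79, 2705208), (.hz 5 95, 26058817), (.hz 5 223, 13049274), (.hz 5 671, 9890505), (.rw 8, 2)]))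
(.cut 6 [(0, 1), (1, 1), (2, 1), (3, 1), (5, 1), (7, 1), (11, 1), (21, 1), (37, 1), (15, 1), (23, 1), (39, 1), (53, 1), (31, 1), (47, 1), (55, 1), (63, 1)]
(.lp [5, 8] [1, 3, 6] [0, 2, 4, 7, 9] [(.mj 0 1, 573), (.mj 3 4, 1708), (.mj 4 5, 1653), (.mj 5 7, 894), (.mj 9 6, 1558), (.hz 4 79, 47760), (.hz 5 95, 1701749), (.rw 8, 2)]))))
(.lp [5, 8] [1, 3, 6] [0, 2, 4, 7] [(.mj 0 1, 31), (.mj 3 4, 14), (.mj 4 5, 9), (.mj 5 6, 3), (.mj 7 6, 1), (.hz 6 79, 963), (.hz 4 79, 1596), (.hz 5 95, 5151), (.hz 3 303, 592)]))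
(.lp [5, 8] [1, 3, 6] [0, 2, 4, 7] [(.mj 0 1, 88), (.mj 3 4, 24), (.mj 4 5, 27), (.mj 8 6, 8), (.mj 8 7, 8), (.hz 4 79, 7303), (.hz 5 95, 17934), (.hz 5 159, 17934)])))
(.lp [5] [1, 3, 6] [0, 2, 4, 7] [(.mj 0 1, 170), (.mj 3 4, 45), (.mj 4 5, 11), (.mj 5 6, 3), (.hz 6 79, 1216)])))
(.con 6 5)
(.lp [5] [1, 3, 6] [0, 2, 4, 7] [(.mj 0 1, 15063), (.mj 3 4, 5021), (.mj 7 5, 2293), (.rw 5, 1), (.hz 5 31, 6276441), (.hz 6 79, 600071), (.hz 4 79, 401257)])))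
(.lp [5] [0, 2, 4] [1, 3, 6] [(.mj 3 4, 2398), (.mj 4 5, 1713), (.mj 5 6, 1713), (.rw 4, 1)])))
(.lp [5] [0, 2, 4] [1, 3, 6] [(.mj 0 1, 96), (.mj 3 4, 17), (.mj 6 5, 9), (.hz 2 53, 1653), (.hz 5 31, 8952)]))
(.lp [5] [0, 2, 4] [1, 3, 6] [(.mj 0 1, 3222), (.mj 4 5, 575), (.mj 4 6, 355), (.rw 4, 2), (.hz 6 15, 1265909), (.hz 2 53, 57541), (.hz 4 79, 180549)]))
(.lp [5] [0, 2, 4] [1, 3, 6] [(.mj 0 1, 531), (.mj 3 4, 113), (.hz 5 21, 25539), (.hz 5 15, 43062), (.hz 4 31, 4847)])))))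
(.ask 21
(.mark 31 5 6 7
(.spn
(.lp [5] [1, 3, 6] [0, 2, 4, 7] [(.mj 1 2, 10932), (.mj 3 4, 25162), (.mj 5 6, 11121), (.rw 4, 12), (.rw 5, 7), (.hz 4 7, 643048), (.hz 4 15, 1399576)])
(.ask 37
(.haz 4 47 7 20
(.haz 6 319 2 5
(.ask 75
(.mark 127 7 8 9
(.cut 5 [(0, 1), (1, 1), (2, 1), (3, 1), (5, 1), (7, 1), (11, 1), (21, 1), (15, 1), (23, 1), (75, 1), (31, 1), (79, 1), (587, 1)]
(.lp [5, 8] [0, 2, 4, 7] [1, 3, 6, 9] [(.mj 0 1, 12635), (.mj 3 4, 15687), (.mj 4 6, 7685), (.hz 4 5, 350007), (.hz 4 7, 168505), (.hz 5 47, 2752745), (.hz 3 295, 3239466), (.hz 5 303, 1302930), (.hz 6 319, 11701275), (.rw 6, 1)])))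
(.ask 79
(.mark 127 7 8 9
(.cut 5 [(0, 1), (1, 1), (2, 1), (3, 1), (5, 1), (7, 1), (11, 1), (21, 1), (15, 1), (23, 1), (75, 1), (31, 1), (79, 1)]
(.lp [5, 8] [0, 2, 4, 7] [1, 3, 6, 9] [(.mj 1 2, 9072), (.mj 3 4, 9520), (.mj 4 6, 9296), (.hz 4 7, 205161), (.hz 5 47, 1183376), (.hz 3 295, 1861522), (.hz 5 303, 2294434), (.hz 6 319, 14760660), (.rw 6, 2)])))
(.ask 95
(.mark 95 5 7 9
(.spn
(.mark 127 7 8 9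
(.spn
(.lp [5, 8] [0, 2, 4, 7] [1, 3, 6, 9] [(.mj 3 4, 937), (.mj 4 6, 191), (.mj 5 7, 367), (.mj 6 5, 817), (.mj 7 9, 500), (.rw 6, 1)])
(.lp [5, 8] [0, 2, 4, 7] [1, 3, 6, 9] [(.mj 3 4, 977), (.mj 4 6, 199), (.mj 6 5, 852), (.mj 8 7, 383), (.mj 8 9, 521), (.rw 6, 1)])
(.haz 7 127 3 20
(.ask 293
(.mark 383 7 9 10
(.lp [4, 7] [1, 3, 6, 9] [0, 2, 5, 8, 10] [(.mj 0 1, 201), (.mj 3 4, 149), (.mj 4 6, 25), (.mj 5 9, 12), (.mj 6 5, 5), (.hz 4 5, 2889), (.hz 2 1317, 1563), (.hz 5 303, 20185), (.hz 3 1319, 52296), (.hz 7 127, 41767), (.hz 5 1327, 31295), (.hz 7 639, 9319)]))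
(.lp [5, 8] [0, 2, 4, 7] [1, 3, 6, 9] [(.mj 0 1, 132468), (.mj 3 4, 73116), (.mj 4 6, 9485), (.mj 5 9, 5640), (.rw 6, 4), (.hz 4 7, 4113982), (.hz 3 295, 15539262), (.hz 5 303, 10389048), (.hz 7 127, 19247759), (.hz 6 319, 18572034), (.hz 7 383, 35183450), (.hz 7 639, 4230060)]))
(.cut 7 [(0, 1), (1, 1), (2, 1), (3, 1), (5, 1), (7, 1), (11, 1), (21, 1), (37, 1), (15, 1), (23, 1), (39, 1), (53, 1), (75, 1), (293, 1), (31, 1), (47, 1), (55, 1), (79, 1), (295, 1), (63, 1), (95, 1), (111, 1), (303, 1), (367, 1)]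
(.lp [5, 8] [0, 2, 4, 7] [1, 3, 6, 9] [(.mj 3 4, 12774), (.mj 4 6, 8101), (.mj 5 9, 9487), (.mj 6 5, 11970), (.hz 4 5, 211694), (.hz 7 21, 60340), (.hz 7 23, 177294), (.hz 2 293, 164801), (.hz 7 31, 2239396), (.hz 3 295, 6886770), (.hz 7 95, 3794950), (.hz 5 303, 6201339), (.rw 8, 4)])))))
(.mark 127 7 8 9
(.cut 5 [(0, 1), (1, 1), (2, 1), (3, 1), (5, 1), (7, 1), (11, 1), (21, 1), (15, 1), (23, 1), (75, 1), (149, 1), (31, 1), (79, 1), (151, 1), (95, 1), (159, 1)]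
(.lp [5, 8] [0, 2, 4, 7] [1, 3, 6, 9] [(.mj 1 2, 8176), (.mj 3 4, 7245), (.mj 4 6, 1166), (.mj 7 9, 1645), (.hz 5 47, 2034069), (.hz 3 295, 920709), (.hz 5 303, 77836), (.rw 7, 1)])))
(.mark 39 3 4 8
(.cut 5 [(0, 1), (1, 1), (2, 1), (3, 1), (5, 1), (7, 1), (11, 1), (21, 1), (15, 1), (23, 1), (75, 1), (31, 1), (79, 1), (95, 1)]
(.lp [5, 8] [0, 2, 4, 7] [1, 3, 6, 9] [(.mj 0 1, 3012), (.mj 3 4, 936), (.mj 4 6, 129), (.mj 9 5, 617), (.hz 2 149, 26897), (.hz 2 293, 44622), (.hz 3 295, 330868), (.hz 2 181, 61644), (.rw 7, 1)])))))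
(.mark 39 3 4 8
(.lp [5, 8] [1, 3, 6] [0, 2, 4, 7] [(.mj 1 2, 17), (.mj 3 4, 9), (.mj 4 6, 4), (.hz 4 15, 695), (.hz 5 47, 1154)])))))
(.mark 63 6 7 8
(.lp [5, 8] [1, 3, 6] [0, 2, 4, 7] [(.mj 3 4, 3311), (.rw 5, 1), (.hz 4 5, 24861), (.hz 6 11, 281763), (.hz 6 15, 917110), (.hz 6 31, 3068343), (.hz 5 47, 846866), (.hz 3 295, 447505), (.hz 6 63, 3334216)])))
(.mark 63 6 7 8
(.lp [5, 8] [1, 3, 6] [0, 2, 4, 7] [(.mj 1 2, 10), (.mj 4 6, 6), (.hz 4 7, 359), (.hz 5 15, 886), (.hz 3 39, 325), (.hz 3 295, 479)])))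
(.ask 39
(.haz 8 111 1 5
(.mark 63 6 7 8
(.cut 5 [(0, 1), (1, 1), (2, 1), (3, 1), (5, 1), (7, 1), (11, 1), (21, 1), (15, 1), (23, 1), (75, 1), (149, 1), (31, 1), (79, 1), (151, 1)]
(.cut 5 [(0, 1), (1, 1), (2, 1), (3, 1), (5, 1), (7, 1), (11, 1), (21, 1), (15, 1), (23, 1), (75, 1), (149, 2), (31, 1), (151, 1)]
(.cut 5 [(0, 1), (1, 1), (2, 1), (3, 1), (5, 1), (7, 1), (11, 1), (21, 1), (15, 1), (23, 1), (75, 1), (31, 1), (79, 2)]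
(.lp [5, 8] [1, 3, 6] [0, 2, 4, 7] [(.mj 0 1, 972035), (.mj 3 4, 301000), (.mj 4 6, 47989), (.hz 4 7, 14217770), (.hz 4 15, 12707926), (.hz 2 149, 7805364), (.hz 3 295, 56422082), (.hz 2 181, 18794844), (.hz 5 111, 113905842), (.hz 3 303, 19629391), (.rw 6, 3), (.rw 7, 1), (.rw 8, 37)])))))
(.mark 63 6 7 8
(.lp [5, 8] [1, 3, 6] [0, 2, 4, 7] [(.mj 0 1, 297), (.mj 3 4, 92), (.mj 4 6, 17), (.hz 4 7, 1725), (.hz 4 15, 5221), (.hz 5 39, 13150), (.hz 2 149, 2423), (.hz 5 47, 16414), (.hz 3 295, 13674), (.hz 2 181, 4846)])))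
(.lp [5] [1, 3, 6] [0, 2, 4, 7] [(.mj 0 1, 1284), (.mj 3 4, 356), (.mj 4 6, 43), (.hz 4 15, 35633), (.hz 2 53, 22936), (.hz 2 149, 11468)])))
(.ask 37
(.mark 63 6 7 8
(.lp [5, 8] [1, 3, 6] [0, 2, 4, 7] [(.mj 1 2, 237), (.mj 3 4, 2451), (.mj 7 6, 893), (.rw 4, 1), (.hz 4 5, 19286), (.hz 4 7, 20238), (.hz 3 39, 585910), (.hz 3 295, 195274)]))
(.cut 5 [(0, 1), (1, 1), (2, 1), (3, 1), (5, 1), (7, 1), (11, 1), (21, 1), (15, 1), (23, 1), (75, 1), (31, 1)]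
(.lp [5] [1, 3, 6] [0, 2, 4, 7] [(.mj 0 1, 19701), (.mj 3 4, 10462), (.mj 7 6, 2468), (.rw 4, 2), (.hz 4 7, 460626), (.hz 4 15, 387439), (.hz 3 39, 1080886), (.hz 2 181, 118562), (.rw 6, 1)])))))
(.haz 5 31 1 10
(.ask 37
(.ask 23
(.mark 63 6 7 8
(.lp [5, 7] [1, 3, 6] [0, 2, 4, 8] [(.mj 0 1, 20), (.mj 3 4, 4), (.hz 4 5, 236), (.hz 4 7, 54), (.hz 4 15, 119), (.hz 5 31, 388), (.hz 3 167, 844), (.hz 5 287, 548)]))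
(.ask 31
(.mark 31 5 6 8
(.spn
(.mark 63 6 7 8
(.lp [5, 7] [1, 3, 6] [0, 2, 4, 8] [(.mj 0 1, 27125), (.mj 3 4, 6480), (.rw 5, 1), (.hz 4 5, 315184), (.hz 4 15, 332849), (.hz 2 165, 19628), (.hz 3 167, 1518864)]))
(.mark 63 6 7 8
(.lp [5, 7] [1, 3, 6] [0, 2, 4, 8] [(.mj 0 1, 583), (.mj 3 4, 56), (.mj 6 5, 8), (.mj 6 8, 14), (.hz 4 5, 7654), (.hz 3 167, 1300), (.hz 5 287, 15297)]))
(.mark 63 6 7 8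
(.cut 5 [(0, 1), (1, 1), (2, 1), (3, 1), (5, 1), (7, 1), (11, 1), (21, 1), (15, 1), (23, 1), (75, 1), (31, 1)]
(.lp [5, 7] [1, 3, 6] [0, 2, 4, 8] [(.mj 0 1, 423240), (.mj 3 4, 92299), (.mj 8 5, 23623), (.hz 4 5, 3845615), (.hz 2 165, 1317685), (.hz 5 31, 16567470), (.hz 3 167, 23277938), (.hz 3 111, 9449151), (.hz 3 175, 5983519), (.rw 6, 13)])))))
(.mark 47 4 6 7
(.lp [4] [1, 3, 6] [0, 2, 5, 7] [(.mj 0 1, 6), (.mj 3 4, 1), (.hz 4 5, 105), (.hz 2 53, 4), (.hz 5 95, 26)]))))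
(.ask 39
(.mark 39 3 4 7
(.lp [4] [1, 3, 6] [0, 2, 5, 7] [(.mj 0 1, 192), (.mj 3 4, 43), (.hz 4 7, 2764), (.hz 4 15, 1588), (.hz 2 53, 3965), (.hz 5 31, 911), (.hz 3 167, 4763)]))
(.lp [5] [0, 2, 4] [1, 3, 6] [(.mj 0 1, 50), (.mj 3 4, 11), (.hz 4 5, 239), (.hz 4 15, 861), (.hz 2 53, 692)])))
(.lp [5] [0, 2, 4] [1, 3, 6] [(.mj 0 1, 61), (.mj 3 4, 14), (.hz 5 5, 1409), (.hz 5 7, 444), (.hz 5 15, 501), (.hz 3 39, 1693)]))))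
(.lp [5] [0, 2, 4] [1, 3, 6] [(.mj 1 2, 1), (.mj 4 5, 2), (.mj 4 6, 2), (.hz 3 5, 30), (.hz 3 7, 431)]))
(.con 5 4)
(.haz 3 7 7 20
(.haz 4 39 3 20
(.haz 5 15 1 5
(.lp [5] [0, 2, 4] [1, 3, 6] [(.mj 0 1, 69), (.mj 2 3, 5), (.mj 4 5, 24), (.mj 6 4, 20), (.hz 2 21, 1117), (.hz 2 37, 897), (.hz 5 15, 8581), (.hz 3 23, 2544), (.hz 4 39, 2484), (.hz 5 31, 17884), (.hz 5 79, 16686)])
(.lp [5] [0, 2, 4] [1, 3, 6] [(.mj 0 1, 49), (.mj 6 4, 11), (.hz 5 5, 2524), (.hz 5 7, 743), (.hz 2 21, 788), (.hz 3 23, 1158), (.hz 3 39, 150), (.hz 4 39, 1381), (.hz 4 47, 2485)]))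
(.lp [5] [0, 2, 4] [1, 3, 6] [(.mj 0 1, 130), (.mj 6 5, 28), (.hz 4 5, 1555), (.hz 4 7, 1829), (.hz 2 37, 1897), (.hz 3 39, 2895)]))
(.lp [5] [0, 2, 4] [1, 3, 6] [(.mj 1 2, 10), (.mj 6 4, 1), (.mj 6 5, 1), (.hz 3 3, 490)]))))

theorem run13 : run (mkLeaf Leaf.nleaf) cutRow [] t13 s13 = true := by
  decide +kernel

end Pool.Agent.W3.Data
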