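import Pool.Agent.W3.CutRow
import Pool.Agent.W3.LeafRow

/-!
# The search tree, part 11
-/

set_option autoImplicit false

namespace Pool.Agent.W3.Data

/-- the state above part 14 of the tree -/
def s14 : St := ⟨[0, 0, 1, 3, 5, 5], [11, 7, 3, 2, 1, 0], [0, 1, 2, 3],
  [(2, 3)],
  [⟨true, 2, 3, 3, 10⟩, ⟨true, 1, 5, 2, 5⟩, ⟨true, 1, 5, 9, 20⟩],
  [.spn 0 0 666000, .spn 1 1 332000, .spn 3 2 332000, .spn 7 3 165501]⟩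

/-- part 14 of the tree -/
noncomputable def t14 : Tree :=
(.ask 15
(.mark 15 4 5 6
(.spn
(.haz 5 79 1 20
(.haz 3 39 9 20
(.haz 5 79 1 10
(.ask 21
(.mark 31 5 6 7
(.spn
(.lp [5] [1, 3, 6] [0, 2, 4, 7] [(.mj 1 2, 31159), (.mj 4 5, 297), (.mj 5 6, 4451), (.rw 4, 4), (.rw 5, 2)])
(.haz 6 159 2 5
(.ask 79
(.mark 95 5 7 8
(.spn
(.haz 8 223 3 10
(.lp [5] [0, 2, 4, 7] [1, 3, 6, 8] [(.mj 1 2, 19167), (.mj 4 6, 2278), (.mj 5 8, 2139), (.mj 6 5, 2039), (.rw 6, 1), (.hz 6 159, 749088), (.hz 5 335, 445937), (.hz 5 223, 9733459), (.hz 7 223, 2994009)])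
(.lp [5] [0, 2, 4, 7] [1, 3, 6, 8] [(.mj 1 2, 15), (.mj 4 6, 2), (.mj 5 7, 1), (.mj 6 5, 2), (.hz 7 79, 694), (.hz 7 95, 1966), (.hz 5 223, 8245)]))
(.lp [5] [0, 2, 4, 7] [1, 3, 6, 8] [(.mj 1 2, 132), (.mj 4 6, 20), (.mj 7 5, 13), (.mj 7 8, 4), (.hz 5 79, 10342), (.hz 5 95, 21203), (.hz 5 335, 5935), (.hz 5 223, 53258), (.hz 5 351, 23112)])
(.lp [5] [0, 2, 4, 7] [1, 3, 6, 8] [(.mj 1 2, 182), (.mj 4 6, 133), (.mj 8 5, 87), (.mj 8 7, 38), (.hz 5 79, 96248), (.hz 5 95, 67692), (.hz 6 159, 109171), (.hz 5 335, 16825), (.hz 5 223, 451176)])))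
(.ask 95
(.mark 95 5 7 8
(.spn
(.haz 8 223 7 20
(.lp [5] [0, 2, 4, 7] [1, 3, 6, 8] [(.mj 1 2, 71), (.mj 4 6, 6), (.mj 5 8, 9), (.mj 6 5, 8), (.hz 6 159, 3505), (.hz 5 223, 36414), (.hz 7 223, 6296)])
(.lp [5] [0, 2, 4, 7] [1, 3, 6, 8] [(.mj 1 2, 36), (.mj 4 6, 3), (.mj 5 7, 4), (.mj 6 5, 4), (.hz 7 95, 2407)]))
(.lp [5] [0, 2, 4, 7] [1, 3, 6, 8] [(.mj 3 4, 6), (.mj 7 5, 4), (.mj 7 8, 1), (.hz 5 95, 5254), (.hz 5 223, 7426), (.hz 5 351, 3860)])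
(.ask 37
(.mark 127 7 8 9
(.cut 5 [(0, 1), (1, 1), (2, 1), (3, 1), (5, 1), (7, 1), (11, 1), (15, 1), (79, 1)]
(.cut 7 [(0, 1), (1, 1), (2, 1), (3, 1), (5, 1), (7, 1), (11, 1), (21, 1), (37, 1), (15, 1), (23, 1), (39, 1), (53, 1), (31, 1), (47, 1), (55, 1), (79, 1), (63, 1), (95, 1), (111, 1), (127, 1)]
(.lp [5, 9] [0, 2, 4, 7] [1, 3, 6, 8] [(.mj 0 1, 193421), (.mj 3 4, 57494), (.mj 8 5, 60008), (.hz 2 149, 1726970), (.hz 2 549, 2398407), (.hz 5 79, 21517309), (.hz 4 551, 4177829), (.hz 2 181, 3659660), (.hz 2 565, 3799309), (.hz 2 693, 1622173), (.hz 5 223, 95685870), (.hz 4 695, 2189609), (.rw 7, 92), (.rw 8, 7)]))))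
(.cut 5 [(0, 1), (1, 1), (2, 1), (3, 1), (5, 1), (7, 1), (11, 1), (21, 1), (15, 1), (23, 1), (31, 1), (79, 1), (95, 1)]
(.cut 7 [(0, 1), (1, 1), (2, 1), (3, 1), (5, 1), (7, 1), (11, 1), (21, 1), (37, 1), (15, 1), (23, 1), (39, 1), (53, 1), (31, 1), (47, 1), (55, 1), (79, 1), (63, 1), (95, 1), (111, 1), (127, 1)]
(.lp [5] [0, 2, 4, 7] [1, 3, 6, 8] [(.mj 0 1, 163878), (.mj 3 4, 47798), (.mj 8 5, 44097), (.hz 2 149, 1463200), (.hz 5 79, 13656536), (.hz 2 181, 3154320), (.hz 5 223, 68712002), (.rw 7, 68), (.rw 8, 5)]))))))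
(.lp [5] [1, 3, 6] [0, 2, 4, 7] [(.mj 1 2, 26), (.mj 4 5, 1), (.mj 4 6, 1)])))
(.lp [5] [1, 3, 6] [0, 2, 4, 7] [(.mj 1 2, 7976), (.mj 6 7, 862), (.rw 5, 2), (.hz 6 15, 646685), (.hz 6 31, 6035724)]))
(.lp [5] [1, 3, 6] [0, 2, 4, 7] [(.mj 1 2, 19654), (.mj 7 5, 524), (.mj 7 6, 2621), (.rw 4, 2), (.hz 5 79, 1310254)])))
(.haz 4 79 1 4
(.maj 5 6
(.haz 5 31 1 10
(.ask 23
(.mark 31 5 6 7
(.lp [5] [1, 3, 6] [0, 2, 4, 7] [(.mj 1 2, 631), (.mj 4 5, 53), (.mj 5 6, 104), (.hz 7 31, 52357), (.hz 6 79, 70242), (.hz 5 79, 13241), (.hz 7 159, 81411)]))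
(.haz 4 79 7 20
(.haz 4 47 2 5
(.haz 6 31 1 4
(.ask 31
(.mark 31 5 6 7
(.lp [5] [1, 3, 6] [0, 2, 4, 7] [(.mj 1 2, 10), (.mj 5 6, 2), (.hz 10 31, 1085), (.hz 9 47, 1534), (.hz 8 79, 80), (.hz 10 159, 1983)]))
(.lp [5] [0, 2, 4] [1, 3, 6] [(.mj 1 2, 6544), (.mj 4 5, 686), (.mj 5 6, 1558), (.rw 4, 1)]))
(.lp [5] [0, 2, 4] [1, 3, 6] [(.mj 1 2, 5), (.mj 3 4, 2), (.hz 10 15, 1128), (.hz 7 31, 180), (.hz 9 47, 2256)]))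
(.lp [5] [0, 2, 4] [1, 3, 6] [(.mj 1 2, 20), (.mj 4 5, 53), (.mj 5 6, 41), (.hz 9 15, 47624), (.hz 8 79, 9276), (.hz 5 79, 13229)]))
(.lp [5] [0, 2, 4] [1, 3, 6] [(.mj 1 2, 6), (.mj 4 5, 11), (.mj 5 6, 10), (.hz 8 15, 2475), (.hz 6 79, 10709), (.hz 5 79, 2750)])))
(.cut 5 [(0, 1), (1, 1), (2, 1), (3, 1), (5, 1), (7, 1), (11, 1), (21, 1)]
(.lp [5] [0, 2, 4] [1, 3, 6] [(.mj 0 1, 92220), (.mj 3 4, 13953), (.hz 7 5, 1911080), (.hz 7 7, 822238), (.hz 7 21, 573075), (.hz 7 15, 3488281), (.rw 5, 7)])))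
(.haz 5 31 1 10
(.ask 23
(.mark 31 5 6 7
(.spn
(.con 5 6)
(.ask 79
(.mark 95 5 7 8
(.spn
(.haz 7 351 1 5
(.lp [5] [0, 2, 4, 7] [1, 3, 6, 8] [(.mj 3 4, 12), (.mj 4 6, 19), (.mj 5 7, 19), (.mj 5 8, 11), (.mj 6 5, 31), (.hz 7 159, 40714), (.hz 5 335, 6150), (.hz 8 351, 62662)])
(.lp [5] [0, 2, 4, 7] [1, 3, 6, 8] [(.mj 3 4, 473), (.mj 4 6, 3873), (.mj 6 5, 2023), (.rw 6, 1), (.hz 8 23, 774898), (.hz 8 31, 1763363), (.hz 8 95, 1517753), (.hz 7 159, 1878804), (.hz 5 335, 2964163)]))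
(.lp [5] [0, 2, 4, 7] [1, 3, 6, 8] [(.mj 3 4, 14), (.mj 4 6, 7), (.mj 7 5, 11), (.hz 7 31, 11202), (.hz 5 79, 5594), (.hz 5 95, 7065), (.hz 7 159, 8497), (.hz 6 335, 1085), (.hz 5 335, 2740), (.hz 5 351, 10412)])
(.lp [5] [0, 2, 4, 7] [1, 3, 6, 8] [(.mj 3 4, 39), (.mj 4 6, 32), (.mj 8 5, 36), (.hz 7 31, 30075), (.hz 5 79, 25060), (.hz 5 95, 23669), (.hz 7 159, 50602), (.hz 5 335, 1677), (.hz 5 223, 16765)])))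
(.ask 95
(.mark 95 5 7 8
(.spn
(.haz 8 223 3 10
(.lp [5] [0, 2, 4, 7] [1, 3, 6, 8] [(.mj 3 4, 7918), (.mj 4 6, 3417), (.mj 5 7, 1973), (.mj 5 8, 6086), (.mj 6 5, 9569), (.rw 6, 1), (.hz 7 159, 17699840), (.hz 8 223, 9596936)])
(.lp [5] [0, 2, 4, 7] [1, 3, 6, 8] [(.mj 3 4, 1), (.mj 5 7, 4), (.mj 6 5, 6), (.hz 8 95, 3451)]))
(.lp [5] [0, 2, 4, 7] [1, 3, 6, 8] [(.mj 3 4, 8), (.mj 7 5, 5), (.mj 7 8, 1), (.hz 7 31, 5895), (.hz 5 95, 2339), (.hz 7 159, 5373), (.hz 5 351, 5349)])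
(.cut 5 [(0, 1), (1, 1), (2, 1), (3, 1), (5, 1), (7, 1), (11, 1), (21, 1), (15, 1), (23, 1), (31, 1), (79, 1), (95, 1)]
(.cut 7 [(0, 1), (1, 1), (2, 1), (3, 1), (5, 1), (7, 1), (11, 1), (21, 1), (37, 1), (15, 1), (23, 1), (39, 1), (53, 1), (47, 1), (79, 1), (111, 1)]
(.lp [5] [0, 2, 4, 7] [1, 3, 6, 8] [(.mj 0 1, 161685), (.mj 3 4, 42113), (.mj 8 5, 62247), (.hz 2 37, 1720051), (.hz 7 31, 70571420), (.hz 5 79, 18729444), (.hz 7 159, 22109078), (.hz 5 223, 26683370), (.rw 7, 36), (.rw 8, 5)])))))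
(.lp [5] [1, 3, 6] [0, 2, 4, 7] [(.mj 1 2, 20), (.mj 4 5, 1), (.hz 7 159, 6198), (.hz 6 111, 3302)])))
(.lp [5] [1, 3, 6] [0, 2, 4, 7] [(.mj 1 2, 18), (.mj 6 5, 2), (.mj 7 6, 3), (.hz 7 31, 2717), (.hz 6 79, 1927), (.hz 5 79, 1413), (.hz 7 159, 4377)])))
(.haz 4 79 7 20
(.ask 31
(.mark 31 5 6 7
(.spn
(.con 5 6)
(.ask 79
(.mark 95 5 7 8
(.spn
(.haz 7 351 3 20
(.maj 7 8
(.lp [5] [0, 2, 4, 7] [1, 3, 6, 8] [(.mj 0 1, 61), (.mj 4 6, 38), (.mj 5 7, 60), (.mj 6 5, 95), (.mj 7 8, 30), (.hz 7 159, 66929), (.hz 5 335, 42596), (.hz 5 351, 85168), (.hz 9 351, 28450)])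
(.lp [5] [0, 2, 4, 7] [1, 3, 6, 8] [(.mj 0 1, 16), (.mj 4 6, 7), (.mj 5 8, 10), (.mj 6 5, 22), (.mj 8 7, 10), (.hz 7 159, 30080), (.hz 5 335, 3930), (.hz 5 223, 27550), (.hz 9 351, 5868)]))
(.lp [5] [0, 2, 4, 7] [1, 3, 6, 8] [(.mj 4 6, 2), (.mj 5 8, 1), (.mj 6 5, 2), (.hz 9 31, 465), (.hz 9 95, 509)]))
(.ask 37
(.mark 63 6 7 9
(.lp [5, 9] [0, 2, 4, 7] [1, 3, 6, 8] [(.mj 0 1, 729), (.mj 3 4, 100), (.mj 6 7, 37), (.mj 7 5, 184), (.hz 2 549, 9266), (.hz 7 31, 210063), (.hz 5 79, 72795), (.hz 4 551, 17153), (.hz 2 565, 1852), (.hz 5 95, 58828), (.hz 8 335, 4175), (.hz 5 335, 46013), (.hz 5 351, 174850)]))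
(.ask 39
(.mark 63 6 7 9
(.lp [5, 9] [0, 2, 4, 7] [1, 3, 6, 8] [(.mj 0 1, 149), (.mj 3 4, 19), (.mj 6 7, 4), (.mj 7 5, 21), (.hz 7 31, 20174), (.hz 5 79, 7562), (.hz 4 551, 1389), (.hz 5 95, 7818), (.hz 5 335, 5316), (.hz 5 351, 7646)]))
(.lp [5] [0, 2, 4, 7] [1, 3, 6, 8] [(.mj 0 1, 360), (.mj 3 4, 67), (.mj 6 7, 1), (.mj 7 5, 35), (.hz 2 53, 5884), (.hz 7 31, 18284), (.hz 5 79, 6666), (.hz 5 95, 24336), (.hz 7 159, 969), (.hz 8 335, 1651), (.hz 5 335, 8691), (.hz 5 351, 33027)])))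
(.lp [5] [0, 2, 4, 7] [1, 3, 6, 8] [(.mj 0 1, 137), (.mj 8 5, 35), (.mj 8 7, 4), (.hz 2 37, 1328), (.hz 2 53, 1328), (.hz 7 31, 20063), (.hz 5 79, 17777), (.hz 5 95, 23604), (.hz 7 159, 21343), (.hz 5 335, 834)])))
(.ask 95
(.mark 95 5 7 8
(.spn
(.haz 7 351 3 20
(.haz 7 351 1 4
(.lp [5] [0, 2, 4, 7] [1, 3, 6, 8] [(.mj 0 1, 33), (.mj 5 7, 17), (.mj 5 8, 11), (.mj 6 5, 31), (.hz 7 159, 28729), (.hz 10 351, 60965)])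
(.lp [5] [0, 2, 4, 7] [1, 3, 6, 8] [(.mj 0 1, 22), (.mj 5 8, 11), (.mj 6 5, 17), (.hz 10 31, 8872), (.hz 10 95, 23631), (.hz 7 159, 15654), (.hz 9 351, 6229)]))
(.lp [5] [0, 2, 4, 7] [1, 3, 6, 8] [(.mj 0 1, 17), (.mj 5 8, 10), (.mj 6 5, 14), (.hz 9 31, 1449), (.hz 9 95, 3486), (.hz 7 159, 12464)]))
(.lp [5] [0, 2, 4, 7] [1, 3, 6, 8] [(.mj 0 1, 8), (.mj 3 4, 29), (.mj 7 5, 19), (.hz 7 31, 26509), (.hz 5 79, 2232), (.hz 5 95, 11979), (.hz 7 159, 1331), (.hz 5 351, 13310)])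
(.lp [5] [0, 2, 4, 7] [1, 3, 6, 8] [(.mj 0 1, 88), (.mj 3 4, 11), (.mj 8 5, 50), (.hz 7 31, 48008), (.hz 5 79, 24514), (.hz 5 95, 35082), (.hz 7 159, 22553)])))
(.spn
(.lp [5] [1, 3, 6] [0, 2, 4, 7] [(.mj 4 5, 1), (.mj 5 7, 2), (.mj 6 5, 2)])
(.lp [5] [1, 3, 6] [0, 2, 4, 7] [(.mj 6 7, 7), (.mj 7 5, 4), (.hz 7 159, 11628)])
.fin)))
(.lp [5] [1, 3, 6] [0, 2, 4, 7] [(.mj 3 4, 24676), (.mj 6 5, 5887), (.rw 5, 5), (.hz 7 31, 19192709), (.hz 8 79, 2102619), (.hz 7 159, 2649300)])))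
(.spn
(.con 5 6)
(.ask 79
(.mark 79 4 5 7
(.ask 95
(.mark 95 5 7 8
(.spn
(.lp [5] [0, 2, 4, 8] [1, 3, 6, 7] [(.mj 4 6, 3737), (.mj 5 8, 632), (.mj 6 5, 1967), (.rw 6, 1)])
(.lp [5] [0, 2, 4, 8] [1, 3, 6, 7] [(.mj 4 6, 4), (.mj 7 5, 3), (.mj 7 8, 1), (.hz 5 79, 2783), (.hz 5 95, 1303)])
(.lp [5] [0, 2, 4, 8] [1, 3, 6, 7] [(.mj 4 6, 24), (.mj 8 5, 13), (.hz 5 79, 18153), (.hz 5 95, 8501)])))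
(.lp [5] [0, 2, 4] [1, 3, 6, 7] [(.mj 4 6, 1628), (.rw 5, 1)])))
(.ask 95
(.ask 95
(.mark 95 5 7 8
(.spn
(.haz 7 351 1 4
(.lp [5] [0, 2, 4, 7] [1, 3, 6, 8] [(.mj 4 6, 130), (.mj 5 7, 84), (.mj 6 5, 130), (.mj 7 8, 45), (.hz 5 351, 124548), (.hz 9 351, 145306)])
(.lp [5] [0, 2, 4, 7] [1, 3, 6, 8] [(.mj 4 6, 2), (.mj 6 5, 2), (.mj 7 8, 1), (.hz 9 95, 2810), (.hz 5 351, 3211)]))
(.lp [5] [0, 2, 4, 7] [1, 3, 6, 8] [(.mj 4 6, 24), (.mj 7 5, 13), (.hz 5 79, 18153), (.hz 5 95, 8501)])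
(.con 8 7)))
(.spn
(.lp [5] [1, 3, 6] [0, 2, 4, 7] [(.mj 4 6, 1), (.mj 5 7, 1), (.mj 6 5, 2)])
(.lp [5] [1, 3, 6] [0, 2, 4, 7] [(.mj 4 6, 24), (.mj 7 5, 13), (.hz 5 79, 18153), (.hz 5 95, 8501)])
.fin))
(.lp [5] [0, 2, 4] [1, 3, 6] [(.mj 4 5, 1), (.mj 6 5, 1)])))
.fin))
(.lp [5] [0, 2, 4] [1, 3, 6] [(.mj 0 1, 5), (.mj 4 6, 6), (.mj 6 5, 6), (.hz 8 15, 1154), (.hz 7 31, 3164), (.hz 5 79, 2636)])))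
(.cut 5 [(0, 1), (1, 1), (2, 1), (3, 1), (5, 1), (7, 1), (11, 1), (21, 1), (15, 1)]
(.lp [5] [0, 2, 4] [1, 3, 6] [(.mj 0 1, 92220), (.mj 3 4, 13953), (.hz 7 5, 1911080), (.hz 7 7, 822238), (.hz 7 21, 573075), (.hz 7 15, 3488281), (.rw 5, 7)]))))
(.lp [5] [0, 2, 4] [1, 3, 6] [(.mj 0 1, 5258), (.mj 4 5, 1972), (.mj 4 6, 2247), (.rw 4, 4), (.hz 6 7, 438176), (.hz 6 15, 7010824), (.hz 2 53, 109544), (.hz 5 79, 1503911)])))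
(.ask 21
(.mark 31 5 6 7
(.spn
(.lp [5] [1, 3, 6] [0, 2, 4, 7] [(.mj 1 2, 8), (.mj 4 6, 1), (.mj 5 6, 1), (.hz 5 15, 366)])
(.haz 7 95 1 20
(.ask 79
(.mark 95 5 7 8
(.spn
(.lp [5] [0, 2, 4, 7] [1, 3, 6, 8] [(.mj 1 2, 524), (.mj 3 4, 342), (.mj 4 6, 944), (.mj 5 7, 122), (.rw 6, 1), (.hz 5 7, 58241), (.hz 5 15, 122953), (.hz 5 79, 972813), (.hz 3 335, 752392), (.hz 3 223, 114005), (.hz 6 351, 58026)])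
(.cut 5 [(0, 1), (1, 1), (2, 1), (3, 1), (5, 1), (7, 1), (11, 1), (21, 1), (15, 1), (23, 1), (31, 1), (79, 1), (95, 1)]
(.lp [5] [0, 2, 4, 7] [1, 3, 6, 8] [(.mj 1 2, 6107), (.mj 3 4, 290), (.mj 4 6, 980), (.mj 7 8, 328), (.hz 5 15, 205532), (.rw 7, 1)]))
(.cut 5 [(0, 1), (1, 1), (2, 1), (3, 1), (5, 1), (7, 1), (11, 1), (21, 1), (15, 1), (23, 1), (31, 1), (79, 1), (95, 1)]
(.lp [5] [0, 2, 4, 7] [1, 3, 6, 8] [(.mj 1 2, 2649), (.mj 3 4, 514), (.mj 4 6, 1662), (.mj 8 5, 286), (.mj 8 7, 176), (.hz 5 15, 220719), (.rw 7, 1)]))))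
(.ask 95
(.mark 95 5 7 8
(.spn
(.lp [5] [0, 2, 4, 7] [1, 3, 6, 8] [(.mj 1 2, 2659), (.mj 3 4, 4350), (.mj 5 8, 1061), (.rw 6, 1), (.hz 5 7, 295494), (.hz 5 15, 623821), (.hz 5 79, 693134)])
(.lp [5] [0, 2, 4, 7] [1, 3, 6, 8] [(.mj 1 2, 7), (.mj 3 4, 2), (.mj 7 8, 1), (.hz 5 15, 534), (.hz 5 79, 593), (.hz 3 95, 214), (.hz 3 223, 2175), (.hz 3 351, 1195)])
(.ask 351
(.mark 351 5 7 9
(.spn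
(.lp [5] [0, 2, 4, 7] [1, 3, 6, 8, 9] [(.mj 8 5, 174), (.rw 7, 1)])
(.lp [5] [0, 2, 4, 7] [1, 3, 6, 8, 9] [(.mj 8 7, 656), (.rw 7, 1), (.hz 3 223, 2486236)])
(.cut 5 [(0, 1), (1, 1), (2, 1), (3, 1), (5, 1), (7, 1), (11, 1), (21, 1), (15, 1), (23, 1), (149, 1), (31, 1), (79, 1), (151, 1), (95, 1), (159, 1), (223, 2), (351, 1), (479, 1)]
(.cut 5 [(0, 1), (1, 1), (2, 1), (3, 1), (5, 1), (7, 1), (11, 1), (15, 1), (79, 1)]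
(.lp [5] [0, 2, 4, 7] [1, 3, 6, 8, 9] [(.mj 0 1, 5638034), (.mj 3 4, 3536351), (.mj 9 5, 1347450), (.hz 5 5, 95309930), (.hz 2 53, 19073928), (.hz 6 127, 2339199350), (.hz 3 351, 357819963), (.hz 3 479, 1711660530), (.hz 6 863, 296837507), (.rw 8, 141), (.rw 9, 2755)])))))
(.lp [5] [0, 2, 4, 7] [1, 3, 6, 8] [(.mj 8 7, 1), (.rw 6, 1)]))))
(.lp [5] [1, 3, 6] [0, 2, 4, 7] [(.mj 1 2, 1), (.hz 5 15, 44), (.hz 5 79, 49)])))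
(.cut 5 [(0, 1), (1, 1), (2, 1), (3, 1), (5, 1), (7, 1), (11, 1), (21, 1), (15, 1), (23, 1), (31, 1)]
(.cut 7 [(0, 1), (1, 1), (2, 1), (3, 1), (5, 1), (7, 1), (11, 1), (21, 1), (37, 1), (15, 1), (23, 1), (39, 1), (31, 1), (47, 1), (79, 1), (111, 1)]
(.lp [5] [1, 3, 6] [0, 2, 4, 7] [(.mj 0 1, 179753), (.mj 3 4, 16617), (.hz 5 5, 5615497), (.hz 6 21, 3233989), (.hz 6 23, 901889), (.hz 2 53, 759819), (.rw 6, 2), (.rw 7, 1)]))))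
(.lp [5] [1, 3, 6] [0, 2, 4, 7] [(.mj 1 2, 16), (.mj 7 6, 4), (.hz 5 15, 715)])))
(.cut 5 [(0, 1), (1, 1), (2, 1), (3, 1), (5, 1), (7, 1), (11, 1), (15, 1)]
(.lp [5] [0, 2, 4] [1, 3, 6] [(.mj 0 1, 471904), (.mj 3 4, 77405), (.mj 4 6, 1682), (.hz 5 5, 10142733), (.hz 5 7, 5338281), (.hz 2 53, 3771611), (.hz 5 79, 4204339), (.rw 5, 10)]))))
(.lp [5] [0, 2, 4] [1, 3, 6] [(.mj 1 2, 4), (.hz 4 7, 136)]))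
(.cut 5 [(0, 1), (1, 1), (2, 1), (3, 1), (11, 1)]
(.lp [5] [0, 2, 4] [1, 3, 6] [(.hz 3 5, 50811), (.hz 3 7, 101623), (.hz 3 15, 101623), (.rw 5, 1)])))
(.con 5 4)
(.haz 3 39 9 20
(.ask 79
(.mark 79 4 5 7
(.spn
(.cut 5 [(0, 1), (1, 1), (2, 1), (3, 1), (5, 1), (7, 1), (11, 1), (15, 1)]
(.lp [5] [0, 2, 4] [1, 3, 6, 7] [(.mj 0 1, 121909), (.mj 6 4, 23344), (.rw 4, 13), (.rw 5, 37), (.hz 2 37, 1296909), (.hz 2 53, 115281), (.rw 6, 13)]))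
(.con 5 4)
(.ask 21
(.mark 31 5 6 8
(.cut 4 [(0, 1), (1, 1), (2, 1), (3, 1), (5, 1), (7, 1), (11, 1)]
(.cut 4 [(0, 1), (1, 1), (2, 1), (3, 1), (5, 1), (7, 1), (11, 1), (37, 2), (15, 1), (39, 2), (47, 1)]
(.cut 5 [(0, 1), (1, 1), (2, 1), (3, 1), (5, 1), (7, 1), (11, 1), (21, 1), (15, 1), (23, 1), (31, 1), (79, 1)]
(.cut 4 [(0, 1), (1, 1), (2, 1), (3, 1), (5, 1), (7, 1), (11, 1), (37, 2), (15, 1), (39, 2), (47, 2), (79, 1), (111, 1)]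
(.lp [5] [0, 2, 4, 8] [1, 3, 6, 7] [(.mj 0 1, 327169), (.mj 7 4, 38168), (.mj 7 5, 38168), (.rw 5, 15), (.hz 2 21, 3480526), (.hz 2 37, 3480526), (.hz 2 53, 3338878), (.hz 3 55, 13195429), (.hz 2 309, 646766), (.hz 3 311, 1903854), (.rw 6, 25), (.rw 7, 19), (.rw 8, 68), (.rw 9, 24)]))))))
(.cut 5 [(0, 1), (1, 1), (2, 1), (3, 1), (5, 1), (7, 1), (11, 1), (21, 1), (15, 1), (23, 2), (31, 1), (79, 1)]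
(.cut 5 [(0, 1), (1, 1), (2, 1), (3, 1), (5, 1), (7, 1), (11, 1), (21, 1), (15, 1), (79, 1)]
(.cut 4 [(0, 1), (1, 1), (2, 1), (3, 1), (5, 1), (7, 1), (11, 1), (15, 1), (79, 1)]
(.lp [5] [0, 2, 4] [1, 3, 6, 7] [(.mj 0 1, 28412), (.mj 7 4, 4255), (.mj 7 5, 4134), (.hz 2 37, 401355), (.hz 3 39, 517537), (.hz 2 53, 402085), (.hz 3 55, 1369969), (.rw 6, 1), (.rw 7, 1), (.rw 8, 4)])))))))
(.lp [5] [0, 2, 4] [1, 3, 6] [(.rw 4, 1)]))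
(.lp [5] [0, 2, 4] [1, 3, 6] [(.mj 1 2, 4), (.hz 3 7, 136)]))))
(.spn
(.cut 5 [(0, 1), (1, 1), (2, 1), (3, 1), (5, 1), (7, 1), (11, 1), (15, 1)]
(.lp [5] [1, 3] [0, 2, 4] [(.mj 1 2, 5699), (.rw 5, 1)]))
(.con 5 4)
.fin))

theorem run14 : run (mkLeaf Leaf.nleaf) cutRow [] t14 s14 = true := by
  decide +kernel

/-- the state above part 15 of the tree -/
def s15 : St := ⟨[0, 0, 1, 3, 5], [5, 3, 2, 1, 0], [0, 1, 2],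
  [(2, 3)],
  [⟨true, 2, 3, 3, 10⟩, ⟨true, 1, 5, 2, 5⟩, ⟨true, 1, 5, 9, 20⟩],
  [.spn 0 0 666000, .spn 1 1 332000, .spn 3 2 332000]⟩

/-- part 15 of the tree -/
noncomputable def t15 : Tree :=
(.ask 7
(.mark 7 3 4 5
(.spn
(.haz 4 7 1 4
(.haz 1 21 11 20
(.ask 21
(.mark 23 3 5 6
(.lp [5] [1, 3] [0, 2, 4, 6] [(.mj 0 1, 167), (.mj 3 4, 39), (.hz 4 21, 319), (.hz 3 15, 5220), (.hz 3 39, 19872), (.hz 4 85, 1044)]))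
(.lp [5] [1, 3] [0, 2, 4] [(.mj 0 1, 34), (.mj 3 4, 5), (.mj 3 5, 1), (.hz 3 39, 2282)]))
(.lp [5] [1, 3] [0, 2, 4] [(.mj 0 1, 36), (.mj 3 4, 17), (.hz 4 5, 1004), (.hz 2 21, 1281)]))
(.haz 5 23 1 5
(.lp [5] [1, 3] [0, 2, 4] [(.mj 0 1, 46), (.mj 3 5, 4), (.hz 3 5, 2799), (.hz 3 7, 1130), (.hz 4 23, 1644)])
(.lp [5] [1, 3] [0, 2, 4] [(.mj 0 1, 1), (.hz 3 5, 64), (.hz 3 7, 41), (.hz 4 7, 33)])))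
(.haz 3 7 1 5
(.lp [5] [1, 3] [0, 2, 4] [(.mj 1 2, 9), (.mj 4 3, 5), (.hz 3 7, 1131), (.hz 3 39, 1639)])
(.lp [5] [1, 3] [0, 2, 4] [(.mj 1 2, 10), (.mj 4 5, 2), (.hz 3 3, 1025), (.hz 3 7, 569)]))
(.ask 39
(.mark 39 3 4 6
(.spn
(.haz 4 39 3 20
(.lp [4] [1, 3] [0, 2, 5, 6] [(.mj 5 3, 7838), (.rw 4, 8), (.hz 3 47, 1763450)])
(.lp [4] [1, 3] [0, 2, 5, 6] [(.mj 0 1, 68340), (.rw 4, 4), (.hz 3 5, 632779)]))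
(.haz 3 39 1 10
(.haz 3 7 3 20
(.lp [4] [1, 3] [0, 2, 5, 6] [(.mj 1 2, 22), (.mj 4 3, 12), (.mj 5 4, 1), (.hz 4 7, 647), (.hz 4 23, 251), (.hz 4 39, 761), (.hz 4 103, 896)])
(.lp [4] [1, 3] [0, 2, 5, 6] [(.mj 1 2, 49), (.mj 4 3, 5), (.mj 4 6, 4), (.hz 4 3, 857), (.hz 3 55, 695), (.hz 3 103, 2213)]))
(.lp [4] [1, 3] [0, 2, 5, 6] [(.mj 1 2, 6), (.mj 4 6, 1), (.hz 3 3, 265), (.hz 3 7, 88), (.hz 3 39, 98)]))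
(.haz 2 11 3 4
(.ask 103
(.mark 103 3 4 7
(.spn
(.lp [4] [1, 3] [0, 2, 5, 6, 7] [(.mj 6 3, 794), (.rw 5, 1)])
(.lp [4] [1, 3] [0, 2, 5, 6, 7] [(.mj 6 4, 1634), (.rw 5, 2)])
(.haz 5 23 2 5
(.ask 231
(.mark 231 3 4 8
(.spn
(.lp [4] [1, 3] [0, 2, 5, 6, 7, 8] [(.mj 7 3, 312), (.rw 6, 1)])
(.lp [4] [1, 3] [0, 2, 5, 6, 7, 8] [(.mj 7 4, 392), (.rw 6, 1)])
(.ask 11
(.mark 111 4 7 9
(.cut 3 [(0, 1), (1, 1), (2, 1), (3, 1), (5, 1), (7, 1), (21, 1), (23, 1), (39, 1), (103, 1), (231, 1)]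
(.cut 4 [(0, 1), (1, 1), (2, 1), (3, 1), (5, 1), (7, 1), (11, 1), (15, 1), (39, 1), (523, 1), (47, 1)]
(.cut 3 [(0, 1), (1, 1), (2, 1), (3, 1), (5, 1), (7, 1), (21, 1), (23, 2), (39, 1), (55, 2), (103, 1), (119, 1), (231, 1)]
(.cut 3 [(0, 1), (1, 1), (2, 1), (3, 1), (5, 1), (7, 1), (21, 1), (23, 2), (39, 1), (55, 2)]
(.cut 4 [(0, 1), (1, 1), (2, 1), (3, 1), (5, 1), (7, 1), (11, 1), (15, 1), (39, 1), (523, 1), (47, 1), (103, 1), (527, 2), (111, 1), (231, 1), (559, 1)]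
(.lp [4] [1, 3, 9] [0, 2, 5, 6, 7, 8] [(.mj 1 2, 284338), (.mj 8 3, 56823), (.mj 8 4, 5384), (.hz 3 11, 10703385), (.hz 3 523, 30814851), (.hz 4 31, 7500095), (.rw 7, 26), (.rw 8, 35), (.rw 9, 2), (.rw 10, 69), (.rw 11, 8)])))))))
(.ask 15
(.mark 47 4 6 9
(.cut 4 [(0, 1), (1, 1), (2, 1), (3, 1), (5, 1), (7, 1), (11, 1), (15, 1), (39, 1), (47, 1), (103, 1)]
(.cut 3 [(0, 1), (1, 1), (2, 1), (3, 1), (5, 1), (7, 1), (21, 1), (23, 1), (39, 1), (55, 2), (103, 1), (119, 1)]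
(.cut 4 [(0, 1), (1, 1), (2, 1), (3, 1), (5, 1), (7, 1), (11, 1), (15, 1), (39, 1), (47, 1), (103, 1), (527, 1), (111, 1), (559, 1)]
(.lp [4] [1, 3, 9] [0, 2, 5, 6, 7, 8] [(.mj 8 3, 3961), (.mj 8 4, 29064), (.rw 6, 1), (.hz 4 31, 28061082), (.hz 4 543, 10751373), (.rw 7, 66), (.rw 8, 16), (.rw 9, 3)])))))
(.cut 3 [(0, 1), (1, 1), (2, 1), (3, 1), (5, 1), (7, 1), (21, 1), (39, 1)]
(.cut 3 [(0, 1), (1, 1), (2, 1), (3, 1), (5, 1), (7, 1), (21, 1), (23, 1), (39, 1), (55, 1)]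
(.cut 4 [(0, 1), (1, 1), (2, 1), (3, 1), (5, 1), (7, 1), (11, 1), (15, 1), (39, 1)]
(.cut 3 [(0, 1), (1, 1), (2, 1), (3, 1), (5, 1), (7, 1), (21, 1), (23, 1), (39, 1), (103, 1)]
(.cut 4 [(0, 1), (1, 1), (2, 1), (3, 1), (5, 1), (7, 1), (11, 1), (15, 1), (39, 1), (47, 1)]
(.cut 3 [(0, 1), (1, 1), (2, 1), (3, 1), (5, 1), (7, 1), (21, 1), (23, 2), (39, 1), (55, 1), (103, 1)]
(.lp [4] [1, 3] [0, 2, 5, 6, 7, 8] [(.mj 1 2, 215901), (.mj 8 3, 42334), (.mj 8 4, 5644), (.rw 7, 47), (.rw 8, 6), (.rw 9, 18), (.rw 10, 14), (.rw 11, 12), (.rw 12, 7)])))))))))))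
(.lp [4] [1, 3] [0, 2, 5, 6, 7] [(.mj 7 4, 1), (.rw 5, 1)]))
(.lp [4] [1, 3] [0, 2, 5, 6, 7] [(.mj 1 2, 489), (.rw 4, 1), (.hz 4 7, 733646)]))))
(.lp [4] [1, 3] [0, 2, 5, 6] [(.mj 6 4, 1), (.rw 4, 1)]))
(.haz 3 7 1 5
(.lp [4] [1, 3] [0, 2, 5, 6] [(.mj 1 2, 3297), (.mj 6 3, 6941), (.rw 4, 1), (.hz 3 3, 1214652), (.hz 4 7, 2082261), (.hz 4 39, 2602826)])
(.lp [4] [1, 3] [0, 2, 5, 6] [(.mj 1 2, 1), (.hz 3 3, 2192), (.hz 4 3, 1754)])))))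
(.lp [5] [1, 3] [0, 2, 4] [(.mj 5 4, 1), (.rw 3, 1)]))))
(.spn
(.haz 3 23 1 2
(.haz 3 23 3 5
(.ask 21
(.ask 21
(.mark 21 1 5 6
(.lp [6] [1, 3] [0, 2, 4, 5] [(.mj 0 1, 81), (.mj 3 4, 16), (.hz 4 23, 3650), (.hz 2 53, 913), (.hz 2 85, 913)]))
(.lp [] [1, 3] [0, 2, 4, 5] [(.mj 0 1, 81), (.mj 3 4, 16), (.hz 4 23, 3650), (.hz 2 53, 913)]))
(.lp [] [1, 3] [0, 2, 4] [(.mj 0 1, 6), (.mj 3 4, 1)]))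
(.lp [] [1, 3] [0, 2, 4] [(.mj 0 1, 24732), (.mj 3 4, 12366), (.rw 3, 1), (.hz 4 7, 4122037)]))
(.lp [] [1, 3] [0, 2, 4] [(.mj 0 1, 7941), (.mj 3 4, 3970), (.rw 3, 1), (.hz 3 7, 3970306)]))
(.lp [] [1, 3] [0, 2, 4] [(.mj 1 2, 9), (.mj 4 3, 4), (.hz 0 11, 301)])
.fin))

theorem run15 : run (mkLeaf Leaf.nleaf) cutRow [] t15 s15 = true := by
  decide +kernel

/-- the state above part 16 of the tree -/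
def s16 : St := ⟨[0, 0, 1], [1, 0], [0, 2],
  [],
  [],
  [.spn 0 0 666000, .spn 1 2 666000]⟩

/-- part 16 of the tree -/
noncomputable def t16 : Tree :=
(.ask 5
(.maj 1 3
(.ask 5
(.mark 5 1 3 4
(.spn
(.ask 21
(.haz 3 21 1 4
(.mark 21 1 3 5
(.lp [1] [3] [0, 2, 4, 5] [(.mj 1 3, 9331), (.mj 1 4, 3577), (.mj 3 4, 778), (.rw 1, 7), (.hz 0 21, 1321885), (.hz 0 53, 1166369)]))
(.cut 4 [(0, 1), (1, 1), (2, 1), (3, 1), (5, 1)]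
(.lp [1] [3] [0, 2, 4, 5] [(.mj 1 4, 2558), (.mj 3 4, 2558), (.rw 1, 3), (.hz 0 5, 639562), (.rw 3, 1)])))
(.lp [1] [4] [0, 2, 3] [(.mj 1 3, 1569), (.mj 3 4, 392), (.rw 1, 1)]))
(.con 3 1)
(.con 4 3)))
(.lp [] [1] [0, 2, 3] [(.mj 1 3, 1162), (.rw 1, 1)]))
(.ask 5
(.mark 5 1 3 4
(.spn
(.con 1 3)
(.ask 13
(.mark 13 1 4 5
(.spn
(.lp [1] [4] [0, 2, 3, 5] [(.mj 3 1, 524), (.rw 3, 1)])
(.haz 5 15 3 10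
(.maj 1 5
(.haz 5 29 7 20
(.cut 1 [(0, 1), (1, 1), (5, 1), (13, 1), (45, 1)]
(.cut 1 [(0, 1), (1, 1), (5, 1), (13, 1)]
(.lp [1] [4] [0, 2, 3, 5] [(.mj 1 5, 13952), (.mj 3 4, 11810), (.mj 4 1, 11260), (.hz 1 29, 764927), (.rw 4, 1), (.rw 5, 7)])))
(.ask 45
(.mark 45 1 4 6
(.cut 1 [(0, 1), (1, 1), (5, 1), (13, 1), (45, 1)]
(.lp [1] [4] [0, 2, 3, 5, 6] [(.mj 3 4, 777), (.mj 4 1, 545), (.hz 1 13, 11772), (.rw 4, 1)])))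
(.cut 1 [(0, 1), (1, 1), (5, 1), (13, 1), (45, 1)]
(.lp [1] [4] [0, 2, 3, 5] [(.mj 3 4, 1344), (.mj 4 1, 572), (.hz 1 29, 14294), (.rw 4, 1)]))))
(.cut 1 [(0, 1)]
(.cut 1 [(0, 1), (1, 1)]
(.cut 1 [(0, 1), (1, 1), (5, 1)]
(.cut 1 [(0, 1), (1, 1), (5, 1), (13, 1)]
(.lp [1] [4] [0, 2, 3, 5] [(.mj 3 4, 3965), (.mj 4 1, 3965), (.mj 4 5, 1982), (.mj 5 1, 5947), (.rw 4, 8), (.rw 5, 4), (.rw 6, 4), (.rw 7, 6)]))))))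
(.cut 1 [(0, 1), (1, 1), (5, 1), (13, 1)]
(.lp [1] [4] [0, 2, 3, 5] [(.mj 3 4, 1215), (.mj 4 1, 687), (.hz 0 13, 35734), (.hz 0 15, 88640), (.rw 4, 1)])))
(.ask 45
(.mark 45 1 4 6
(.spn
(.lp [1] [4] [0, 2, 3, 5, 6] [(.mj 5 1, 174), (.rw 4, 1)])
(.cut 1 [(0, 1)]
(.cut 1 [(0, 1), (1, 1)]
(.lp [1] [4] [0, 2, 3, 5, 6] [(.rw 3, 1), (.rw 4, 2), (.rw 5, 2), (.rw 6, 1)])))
(.cut 1 [(0, 1)]
(.cut 1 [(0, 1), (1, 1)]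
(.cut 1 [(0, 1), (1, 1), (5, 1)]
(.cut 1 [(0, 1), (1, 1), (5, 1), (13, 1)]
(.cut 1 [(0, 1), (1, 1), (5, 1), (21, 1)]
(.cut 4 [(0, 1), (1, 1), (2, 1), (3, 1), (5, 1), (7, 1)]
(.lp [1] [4] [0, 2, 3, 5, 6] [(.mj 6 1, 21410), (.mj 6 4, 4282), (.rw 5, 13), (.rw 6, 6), (.rw 7, 21), (.rw 8, 11), (.rw 9, 2), (.rw 10, 4)])))))))))
(.lp [1] [4] [0, 2, 3, 5] [(.mj 5 4, 1), (.rw 3, 1)]))))
(.lp [1] [4] [0, 2, 3] [(.mj 3 4, 713), (.rw 2, 1)]))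
(.con 4 3)))
(.spn
(.con 1 3)
(.ask 13
(.maj 1 4
(.ask 13
(.mark 13 1 4 5
(.spn
(.lp [1] [5] [0, 2, 3, 4] [(.rw 2, 1), (.rw 3, 3)])
(.con 4 1)
(.con 5 4)))
(.lp [] [1] [0, 2, 3, 4] [(.mj 1 4, 1), (.mj 3 1, 1)]))
(.ask 13
(.mark 13 1 4 5
(.spn
(.con 1 4)
(.haz 1 61 1 10
(.ask 29
(.mark 29 1 5 6
(.spn
(.lp [1] [5] [0, 2, 3, 4, 6] [(.mj 4 1, 174), (.rw 4, 1)])
(.cut 1 [(0, 1)]
(.cut 1 [(0, 1), (1, 1)]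
(.cut 1 [(0, 1), (1, 1), (5, 1)]
(.cut 1 [(0, 1), (1, 1), (5, 1), (13, 1)]
(.lp [1] [5] [0, 2, 3, 4, 6] [(.mj 4 5, 3910), (.mj 5 1, 19549), (.rw 4, 2), (.rw 5, 20), (.rw 6, 10), (.rw 7, 10), (.rw 8, 10)])))))
(.cut 1 [(0, 1)]
(.cut 1 [(0, 1), (1, 1)]
(.cut 1 [(0, 1), (1, 1), (5, 1)]
(.cut 1 [(0, 1), (1, 1), (5, 1), (13, 1)]
(.lp [1] [5] [0, 2, 3, 4, 6] [(.mj 6 1, 2292), (.rw 5, 2), (.rw 6, 1), (.rw 7, 1), (.rw 8, 1)])))))))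
(.lp [1] [5] [0, 2, 3, 4] [(.mj 4 5, 215), (.rw 3, 1), (.hz 0 61, 85939)]))
(.cut 1 [(0, 1)]
(.cut 1 [(0, 1), (1, 1)]
(.cut 1 [(0, 1), (1, 1), (5, 1)]
(.lp [1] [5] [0, 2, 3, 4] [(.hz 0 13, 3179477), (.rw 4, 6), (.rw 5, 3), (.rw 6, 32)])))))
(.con 5 4)))
(.spn
(.con 1 4)
(.ask 29
(.haz 1 61 1 20
(.ask 29
(.mark 29 1 5 6
(.spn
(.lp [1] [6] [0, 2, 3, 4, 5] [(.mj 4 1, 174), (.rw 4, 1)])
(.cut 1 [(0, 1)]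
(.cut 1 [(0, 1), (1, 1)]
(.cut 1 [(0, 1), (1, 1), (5, 1)]
(.cut 1 [(0, 1), (1, 1), (5, 1), (13, 1)]
(.lp [1] [6] [0, 2, 3, 4, 5] [(.mj 5 1, 2292), (.rw 5, 2), (.rw 6, 1), (.rw 7, 1), (.rw 8, 1)])))))
(.con 6 5)))
(.spn
(.lp [] [1] [0, 2, 3, 4, 5] [(.rw 4, 1)])
(.cut 1 [(0, 1)]
(.cut 1 [(0, 1), (1, 1)]
(.cut 1 [(0, 1), (1, 1), (5, 1)]
(.lp [] [1] [0, 2, 3, 4, 5] [(.mj 5 1, 18113), (.hz 0 61, 431250), (.rw 5, 17), (.rw 6, 9), (.rw 7, 9)]))))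
.fin))
(.cut 1 [(0, 1)]
(.lp [] [1] [0, 2, 3, 4, 5] [(.hz 0 1, 44593), (.rw 4, 1)])))
(.lp [] [1] [0, 2, 3, 4] [(.mj 4 1, 1)]))
.fin)))
(.lp [] [1] [0, 2, 3] [(.mj 3 1, 1)]))
.fin)))
(.lp [] [1] [0, 2] [(.mj 2 1, 1)]))

theorem run16 : run (mkLeaf Leaf.nleaf) cutRow [] t16 s16 = true := by
  decide +kernel

end Pool.Agent.W3.Data
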