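import Pool.Agent.W3.CutRow
import Pool.Agent.W3.LeafRow

/-!
# The search tree, part 2
-/

set_option autoImplicit false

namespace Pool.Agent.W3.Data

/-- the state above part 2 of the tree -/
def s2 : St := ⟨[0, 0, 1, 1, 9, 2], [1, 0], [0, 1],
  [],
  [⟨true, 1, 9, 3, 20⟩, ⟨true, 2, 9, 1, 5⟩, ⟨true, 1, 9, 1, 4⟩, ⟨true, 1, 5, 1, 4⟩],
  [.spn 0 0 666000, .spn 1 1 165501]⟩

/-- part 2 of the tree -/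
noncomputable def t2 : Tree :=
(.mark 3 2 3 5
(.spn
(.haz 2 9 3 10
(.ask 5
(.mark 7 3 5 6
(.spn
(.mark 15 4 5 6
(.spn
(.haz 5 7 1 4
(.lp [1, 5] [3, 4] [0, 2, 6] [(.mj 1 2, 3), (.mj 2 3, 3), (.mj 4 5, 4), (.mj 4 6, 1), (.hz 4 9, 228), (.hz 5 7, 473), (.hz 5 15, 5555), (.hz 5 71, 2597), (.hz 5 31, 2563)])
(.haz 6 15 7 20
(.lp [1, 5] [3, 4] [0, 2, 6] [(.mj 1 2, 6), (.mj 2 3, 49), (.mj 4 6, 58), (.hz 5 2, 6327), (.hz 5 3, 14764), (.hz 5 7, 25076), (.hz 6 15, 13698), (.hz 6 31, 3155)])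
(.lp [1, 5] [3, 4] [0, 2, 6] [(.mj 1 2, 9), (.mj 2 3, 8), (.mj 4 6, 1), (.hz 5 2, 1024), (.hz 5 3, 2390), (.hz 5 7, 4478), (.hz 6 7, 767)])))
(.haz 6 15 3 10
(.lp [1, 5] [3, 4] [0, 2, 6] [(.mj 0 1, 798), (.mj 1 2, 798), (.mj 2 3, 2509), (.mj 3 5, 2091), (.mj 5 6, 2024), (.rw 3, 1), (.hz 2 25, 56993), (.hz 5 15, 440546), (.hz 2 29, 171549), (.hz 5 31, 1977320), (.hz 5 47, 418178)])
(.lp [1, 5] [3, 4] [0, 2, 6] [(.mj 1 2, 12405), (.mj 2 3, 14420), (.mj 3 5, 13339), (.rw 4, 1), (.hz 5 5, 66693), (.hz 5 7, 2000776), (.hz 5 15, 890541)]))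
(.haz 5 11 3 20
(.haz 5 7 3 20
(.lp [1, 5] [3, 4] [0, 2, 6] [(.mj 1 2, 11), (.mj 2 3, 6), (.mj 3 6, 4), (.mj 6 5, 11), (.hz 6 7, 321), (.hz 5 11, 899), (.hz 4 25, 875), (.hz 5 15, 1776), (.hz 6 71, 525), (.hz 4 27, 617), (.hz 5 27, 1021), (.hz 5 31, 3828)])
(.lp [1, 5] [3, 4] [0, 2, 6] [(.mj 1 2, 6), (.mj 2 3, 5), (.mj 3 6, 3), (.hz 6 2, 147), (.hz 6 3, 319), (.hz 6 7, 357), (.hz 5 11, 63), (.hz 4 25, 115), (.hz 5 27, 258)]))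
(.lp [1, 5] [3, 4] [0, 2, 6] [(.mj 1 2, 5), (.mj 2 3, 1), (.hz 5 2, 62), (.hz 5 3, 224), (.hz 4 9, 287), (.hz 4 25, 408)]))))
(.haz 6 15 3 10
(.mark 13 1 4 6
(.cut 3 [(0, 1), (1, 1), (2, 1), (3, 1), (5, 1), (34, 1), (7, 1), (69, 2), (71, 2)]
(.cut 3 [(0, 1), (1, 1), (2, 1), (3, 1), (5, 1), (34, 1), (7, 1), (35, 1), (69, 2), (71, 2)]
(.lp [1, 5] [3, 4] [0, 2, 6] [(.mj 0 1, 395838), (.mj 1 2, 197919), (.mj 5 3, 79483), (.mj 5 6, 32986), (.hz 4 9, 10501400), (.hz 2 25, 572463), (.hz 4 25, 14544797), (.hz 5 15, 35235715), (.hz 2 29, 73501658), (.hz 5 31, 47759221), (.rw 4, 17), (.rw 5, 16)]))))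
(.mark 13 1 4 6
(.cut 3 [(0, 1), (1, 1), (2, 1), (3, 1), (5, 1), (34, 1), (7, 1)]
(.lp [1, 5] [3, 4] [0, 2, 6] [(.mj 0 1, 7437), (.mj 1 2, 699), (.mj 5 3, 2347), (.hz 5 5, 193579), (.hz 5 7, 232343), (.hz 2 25, 531242), (.hz 2 29, 594433), (.hz 2 77, 908309), (.rw 4, 1)]))))
(.mark 11 2 4 5
(.cut 3 [(0, 1), (1, 1), (2, 1), (3, 1), (5, 1), (34, 1), (7, 1)]
(.lp [1, 5] [3, 4] [0, 2, 6] [(.mj 0 1, 12437), (.mj 1 2, 11934), (.mj 6 3, 2808), (.mj 6 5, 869), (.hz 4 9, 354856), (.hz 4 25, 1011464), (.hz 4 27, 384695), (.hz 4 43, 940426), (.rw 4, 2)])))))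
(.ask 7
(.mark 7 3 5 6
(.spn
(.mark 15 4 5 6
(.spn
(.haz 3 3 1 4
(.lp [1, 5] [3, 4] [0, 2, 6] [(.mj 0 1, 5), (.mj 1 2, 2), (.mj 2 3, 8), (.mj 4 5, 2), (.mj 4 6, 3), (.hz 5 35, 5250), (.hz 5 39, 896), (.hz 5 71, 2074)])
(.haz 6 39 3 10
(.lp [1, 5] [3, 4] [0, 2, 6] [(.mj 0 1, 12), (.mj 4 5, 3), (.mj 4 6, 10), (.hz 5 1, 3841), (.hz 6 39, 3332)])
(.lp [1, 5] [3, 4] [0, 2, 6] [(.mj 4 5, 2), (.mj 4 6, 1), (.hz 5 1, 712), (.hz 6 7, 241)])))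
(.haz 6 15 3 10
(.haz 6 39 3 10
(.lp [1, 5] [3, 4] [0, 2, 6] [(.mj 0 1, 7280), (.mj 1 2, 2026), (.mj 2 3, 9651), (.mj 3 5, 5838), (.mj 5 6, 7589), (.rw 4, 1), (.hz 2 25, 519979), (.hz 5 15, 2459049), (.hz 6 39, 875698), (.hz 2 29, 2827268), (.hz 5 31, 5692035)])
(.lp [1, 5] [3, 4] [0, 2, 6] [(.mj 2 3, 474), (.mj 3 5, 360), (.mj 5 6, 112), (.hz 6 7, 43774), (.hz 5 31, 43774)]))
(.lp [1, 5] [3, 4] [0, 2, 6] [(.mj 0 1, 16), (.mj 2 3, 41), (.mj 3 5, 24), (.hz 5 7, 4680), (.hz 5 15, 3557)]))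
(.haz 3 39 1 10
(.haz 6 39 3 10
(.haz 3 39 1 5
(.ask 71
(.mark 79 4 5 7
(.spn
(.haz 5 7 1 10
(.lp [1, 5] [3, 4] [0, 2, 6, 7] [(.mj 2 3, 14808), (.mj 3 6, 3508), (.mj 4 5, 9872), (.mj 4 7, 1716), (.rw 5, 1), (.hz 8 15, 8226883), (.hz 8 71, 1753891), (.hz 8 31, 6947146), (.hz 8 199, 5218771), (.hz 8 95, 4485923), (.hz 7 231, 29657157)])
(.lp [1, 5] [3, 4] [0, 2, 6, 7] [(.mj 2 3, 53), (.mj 3 6, 28), (.mj 4 7, 6), (.hz 8 2, 1618), (.hz 8 3, 3417), (.hz 8 7, 1590), (.hz 7 39, 11652), (.hz 6 39, 7588)]))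
(.haz 5 95 1 10
(.haz 4 79 3 20
(.haz 7 79 1 2
(.lp [1, 5] [3, 4] [0, 2, 6, 7] [(.mj 2 3, 5331), (.mj 3 6, 2714), (.mj 5 7, 840), (.mj 6 5, 3554), (.rw 5, 4), (.hz 10 95, 4813937), (.hz 9 111, 3998153), (.hz 10 111, 3440834), (.hz 9 207, 64617)])
(.ask 199
(.mark 207 4 5 8
(.lp [1, 5] [3, 4] [0, 2, 6, 7, 8] [(.mj 2 3, 62271), (.mj 3 6, 84364), (.mj 5 4, 105427), (.mj 5 7, 47403), (.mj 6 5, 146941), (.rw 5, 14), (.hz 10 71, 22760784), (.hz 9 111, 96781504), (.hz 9 207, 60888297), (.hz 9 463, 45488883), (.hz 8 479, 13646665)]))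
(.lp [1, 5] [3, 4] [0, 2, 6, 7] [(.mj 2 3, 3479), (.mj 3 6, 868), (.mj 5 7, 475), (.mj 6 5, 1973), (.rw 5, 2), (.hz 9 111, 2609127), (.hz 9 207, 308815)])))
(.lp [1, 5] [3, 4] [0, 2, 6, 7] [(.mj 2 3, 76), (.mj 3 6, 27), (.mj 5 7, 59), (.mj 6 5, 82), (.hz 9 9, 186), (.hz 9 11, 592), (.hz 9 13, 2639), (.hz 9 15, 11060), (.hz 9 79, 9967), (.hz 8 95, 134049)]))
(.lp [1, 5] [3, 4] [0, 2, 6, 7] [(.mj 2 3, 697), (.mj 3 6, 113), (.mj 5 7, 226), (.rw 5, 1), (.hz 8 2, 15189), (.hz 8 3, 32066), (.hz 8 7, 50818), (.hz 8 79, 1058622)]))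
(.haz 4 207 1 20
(.haz 5 7 1 10
(.haz 5 3 3 20
(.lp [1, 5] [3, 4] [0, 2, 6, 7] [(.mj 1 2, 3), (.mj 2 3, 5), (.mj 3 6, 3), (.mj 7 5, 6), (.hz 10 7, 62), (.hz 10 11, 773), (.hz 2 25, 481), (.hz 10 15, 848), (.hz 10 71, 830), (.hz 10 27, 567), (.hz 10 31, 1251), (.hz 10 79, 1469)])
(.ask 199
(.mark 207 4 5 8
(.lp [1, 5] [3, 4] [0, 2, 6, 7, 8] [(.mj 1 2, 39), (.mj 2 3, 126), (.mj 3 6, 101), (.mj 7 5, 102), (.hz 10 2, 622), (.hz 10 3, 1354), (.hz 9 15, 51613), (.hz 7 39, 18111), (.hz 9 71, 48456), (.hz 9 31, 141998), (.hz 9 79, 45807), (.hz 9 199, 3195), (.hz 6 63, 36764), (.hz 9 95, 102935), (.hz 9 455, 3549)]))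
(.ask 207
(.mark 207 4 5 8
(.spn
(.lp [1, 5] [3, 4] [0, 2, 6, 7, 8] [(.mj 2 3, 3325), (.mj 4 5, 1665), (.rw 6, 1), (.hz 9 15, 1846992), (.hz 9 31, 2141774), (.hz 9 79, 944018), (.hz 9 95, 934191), (.hz 9 207, 1048909), (.hz 9 463, 1165454)])
(.lp [1, 5] [3, 4] [0, 2, 6, 7, 8] [(.mj 1 2, 393), (.mj 2 3, 1284), (.mj 3 6, 1817), (.mj 7 5, 1158), (.rw 6, 2), (.hz 10 2, 3244), (.hz 10 3, 7061), (.hz 2 29, 29517), (.hz 9 31, 2096261), (.hz 9 95, 989097)])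
(.lp [1, 5] [3, 4] [0, 2, 6, 7, 8] [(.mj 1 2, 3), (.mj 2 3, 10), (.mj 3 6, 5), (.mj 8 5, 10), (.hz 9 7, 188), (.hz 9 15, 6233), (.hz 9 71, 2911), (.hz 9 31, 8826), (.hz 9 79, 4970), (.hz 9 199, 1433), (.hz 9 95, 6202), (.hz 9 207, 7115)])))
(.lp [1, 5] [3, 4] [0, 2, 6, 7] [(.mj 2 3, 4), (.mj 3 6, 2), (.mj 7 4, 7), (.mj 7 5, 7)]))))
(.ask 34
(.mark 111 4 7 8
(.cut 5 [(0, 1), (1, 1), (2, 1), (3, 1), (5, 1), (9, 1), (13, 1), (25, 1), (29, 1)]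
(.lp [3, 4] [1, 5, 8] [0, 2, 6, 7] [(.mj 1 2, 2527), (.mj 2 3, 9740), (.mj 3 6, 7768), (.hz 9 2, 774973), (.hz 7 295, 2416943), (.hz 6 295, 4768548), (.hz 8 207, 109021), (.rw 6, 1)])))
(.ask 35
(.mark 111 4 7 8
(.cut 5 [(0, 1), (1, 1), (2, 1), (3, 1), (5, 1), (9, 1), (13, 1), (25, 1), (29, 1)]
(.lp [3, 4] [1, 5, 8] [0, 2, 6, 7] [(.mj 1 2, 3920), (.mj 2 3, 9736), (.mj 3 6, 7429), (.hz 9 3, 1124585), (.hz 2 25, 505704), (.hz 6 39, 576190), (.hz 7 295, 2080023), (.hz 6 295, 3825884), (.hz 8 207, 170993), (.rw 6, 2)])))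
(.cut 5 [(0, 1), (1, 1), (2, 1), (3, 1), (5, 1), (9, 1), (7, 1), (11, 1), (13, 1), (25, 1), (15, 1), (29, 1), (71, 1), (79, 1)]
(.lp [1, 5] [3, 4] [0, 2, 6, 7] [(.mj 1 2, 38073), (.mj 2 3, 159178), (.mj 3 6, 145734), (.hz 9 7, 22062668), (.hz 6 39, 39545398), (.rw 6, 16)])))))
(.cut 5 [(0, 1), (1, 1), (2, 1), (3, 1), (5, 1), (9, 1), (7, 1), (11, 1), (13, 1), (25, 1), (15, 1), (29, 1), (71, 1), (79, 1)]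
(.lp [1, 5] [3, 4] [0, 2, 6, 7] [(.mj 2 3, 336), (.mj 3 6, 2682), (.mj 7 5, 1095), (.hz 8 9, 431560), (.hz 8 11, 192814), (.rw 6, 2)])))))
(.ask 79
(.mark 79 4 5 7
(.spn
(.lp [1, 5] [3, 4] [0, 2, 6, 7] [(.mj 0 1, 5311), (.mj 2 3, 6759), (.mj 4 5, 366), (.rw 5, 1), (.hz 7 39, 4908473), (.hz 7 103, 402334)])
(.haz 7 95 7 20
(.lp [1, 5] [3, 4] [0, 2, 6, 7] [(.mj 2 3, 20853), (.mj 3 6, 4443), (.mj 5 7, 4533), (.mj 6 5, 13328), (.rw 5, 7), (.hz 8 95, 2946565)])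
(.lp [1, 5] [3, 4] [0, 2, 6, 7] [(.mj 2 3, 57), (.mj 3 5, 29), (.hz 8 79, 3420)]))
(.haz 5 79 3 20
(.lp [1, 5] [3, 4] [0, 2, 6, 7] [(.mj 2 3, 3), (.mj 7 5, 2), (.hz 8 79, 1387)])
(.ask 207
(.mark 207 4 5 8
(.spn
(.lp [1, 5] [3, 4] [0, 2, 6, 7, 8] [(.mj 7 4, 1490), (.rw 6, 2)])
(.lp [1, 5] [3, 4] [0, 2, 6, 7, 8] [(.mj 7 5, 318), (.rw 6, 1)])
(.cut 5 [(0, 1), (1, 1), (2, 1), (3, 1), (5, 1), (9, 1), (7, 1), (11, 1), (13, 1), (25, 1), (15, 1), (29, 1), (71, 1), (79, 1), (207, 1)]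
(.lp [1, 5] [3, 4] [0, 2, 6, 7, 8] [(.mj 1 2, 6734), (.mj 2 3, 22903), (.mj 8 5, 5938), (.hz 8 2, 120267), (.hz 8 3, 261757), (.hz 2 25, 8202305), (.hz 7 39, 3912496), (.hz 8 71, 230147), (.hz 2 29, 13225419), (.rw 7, 13)]))))
(.lp [1, 5] [3, 4] [0, 2, 6, 7] [(.mj 7 4, 1), (.rw 5, 1)])))))
(.lp [1, 5] [3, 4] [0, 2, 6] [(.mj 2 3, 4), (.mj 3 5, 3), (.mj 6 4, 1)])))
(.lp [1, 5] [3, 4] [0, 2, 6] [(.mj 0 1, 3), (.mj 3 6, 1), (.hz 7 1, 194), (.hz 7 5, 184), (.hz 7 7, 347), (.hz 5 39, 50), (.hz 6 39, 316)]))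
(.lp [1, 5] [3, 4] [0, 2, 6] [(.mj 2 3, 26), (.mj 6 5, 17), (.hz 6 7, 6752), (.hz 5 39, 12373)]))
(.lp [1, 5] [3, 4] [0, 2, 6] [(.mj 0 1, 5), (.mj 3 6, 1), (.hz 5 1, 216), (.hz 5 7, 149)]))))
(.mark 15 4 5 6
(.cut 3 [(0, 1), (1, 1), (2, 1), (3, 1), (5, 1), (34, 1), (7, 1)]
(.lp [1, 5] [3, 4] [0, 2, 6] [(.mj 0 1, 6474), (.mj 1 2, 123), (.mj 5 3, 1274), (.rw 3, 1), (.hz 2 25, 462448), (.hz 2 29, 739918), (.rw 4, 1)])))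
(.ask 71
(.mark 71 3 5 7
(.spn
(.mark 79 4 5 7
(.lp [1, 5] [3, 4] [0, 2, 6, 7] [(.mj 6 3, 529), (.rw 4, 1)]))
(.mark 15 4 5 6
(.lp [1, 5] [3, 4] [0, 2, 6, 7] [(.mj 0 1, 12432), (.rw 3, 1), (.rw 4, 4), (.hz 2 9, 1118900), (.hz 2 13, 745933)]))
(.ask 199
(.mark 199 3 5 8
(.spn
(.mark 207 4 5 8
(.lp [1, 5] [3, 4] [0, 2, 6, 7, 8] [(.mj 7 3, 93), (.rw 5, 1)]))
(.lp [1, 5] [3, 4] [0, 2, 6, 7, 8] [(.mj 7 5, 524), (.rw 5, 1)])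
(.haz 5 3 1 10
(.mark 79 4 5 7
(.cut 3 [(0, 1), (1, 1), (2, 1), (3, 1), (5, 1), (34, 1), (7, 1), (35, 1), (39, 1)]
(.lp [1, 5] [3, 4] [0, 2, 6, 7, 8] [(.mj 8 5, 93793), (.rw 5, 10), (.hz 2 9, 6228822), (.hz 4 9, 837540), (.hz 5 11, 23639586), (.hz 5 15, 60222452), (.hz 5 71, 38155020), (.hz 5 27, 18758585), (.hz 2 29, 17116847), (.hz 5 31, 70344695), (.hz 5 79, 20279922), (.hz 5 199, 16957787), (.hz 5 95, 84131755), (.hz 5 207, 55243276), (.rw 6, 38)])))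
(.mark 15 4 5 6
(.cut 5 [(0, 1), (1, 1), (2, 1), (5, 1), (9, 1), (13, 1), (25, 1), (29, 1)]
(.cut 5 [(0, 1), (1, 1), (2, 1), (3, 1), (5, 1), (9, 1), (7, 1), (11, 1), (13, 1), (25, 1), (15, 1), (29, 1)]
(.cut 3 [(0, 1), (1, 1), (2, 1), (3, 1), (5, 1), (34, 1), (7, 1), (35, 1), (39, 2), (71, 1), (199, 1)]
(.cut 3 [(0, 1), (1, 1), (2, 1), (3, 1), (5, 1), (34, 1), (7, 1), (35, 2), (39, 1)]
(.cut 3 [(0, 1), (1, 1), (2, 1), (3, 1), (5, 1), (34, 1), (7, 1), (35, 2), (39, 2)]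
(.lp [1, 5] [3, 4] [0, 2, 6, 7, 8] [(.mj 0 1, 38112), (.mj 8 3, 13829), (.hz 5 2, 1682374), (.hz 2 25, 7466395), (.hz 4 25, 177635), (.hz 2 29, 17774949), (.rw 6, 5), (.rw 7, 4), (.rw 8, 8), (.rw 9, 3), (.rw 10, 17)]))))))))))
(.lp [1, 5] [3, 4] [0, 2, 6, 7] [(.mj 7 5, 1), (.rw 4, 1)]))))
(.lp [1, 5] [3, 4] [0, 2, 6] [(.mj 6 5, 1), (.rw 3, 1)]))))
(.spn
(.mark 9 1 2 4
(.ask 13
(.mark 15 4 5 6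
(.lp [1, 5] [3, 4] [0, 2, 6] [(.mj 0 1, 6), (.mj 1 2, 6), (.mj 2 3, 5), (.mj 3 5, 3), (.hz 4 25, 340)]))
(.cut 5 [(0, 1), (1, 1), (2, 1), (3, 1), (5, 1), (9, 1), (7, 1), (13, 1)]
(.lp [2] [1, 5] [0, 3, 4] [(.mj 2 3, 15989), (.mj 3 5, 7995), (.rw 4, 1)]))))
(.lp [2] [1, 5] [0, 3, 4] [(.mj 0 1, 3), (.mj 5 3, 1), (.hz 2 9, 214), (.hz 2 13, 166)])
.fin)))
(.haz 3 3 1 4
(.mark 9 1 2 4
(.lp [2] [1, 5] [0, 3, 4] [(.mj 0 1, 3), (.mj 2 3, 5), (.hz 4 1, 452), (.hz 5 3, 703), (.hz 5 7, 350), (.hz 5 35, 1921), (.hz 1 25, 280)]))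
(.lp [2] [1, 5] [0, 3, 4] [(.mj 0 1, 8), (.hz 4 1, 744), (.hz 5 1, 1049), (.hz 5 3, 676), (.hz 1 9, 541)])))
(.con 3 2)
(.mark 9 1 2 4
(.lp [2] [1, 5] [0, 3, 4] [(.mj 0 1, 6), (.mj 5 2, 3), (.mj 5 3, 2), (.hz 3 5, 499), (.hz 2 9, 200), (.hz 1 9, 449), (.hz 1 25, 299)]))))

theorem run2 : run (mkLeaf Leaf.nleaf) cutRow [] t2 s2 = true := by
  decide +kernel

end Pool.Agent.W3.Data
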