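import Pool.Agent.W3.CutRow
import Pool.Agent.W3.LeafRow

/-!
# The search tree, part 3
-/

set_option autoImplicit false

namespace Pool.Agent.W3.Data

/-- the state above part 3 of the tree -/
def s3 : St := ⟨[0, 0, 1, 1, 9], [2, 1, 0], [0, 1],
  [],
  [⟨true, 1, 9, 3, 20⟩, ⟨true, 2, 9, 1, 5⟩, ⟨true, 1, 9, 1, 4⟩, ⟨true, 1, 5, 1, 4⟩],
  [.spn 0 0 666000, .spn 1 1 165501]⟩

/-- part 3 of the tree -/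
noncomputable def t3 : Tree :=
(.ask 3
(.mark 3 2 3 5
(.spn
(.haz 3 3 1 5
(.ask 5
(.mark 7 3 5 6
(.spn
(.mark 15 4 5 6
(.spn
(.lp [1, 5] [3, 4] [0, 2, 6] [(.mj 1 2, 2), (.mj 2 3, 4), (.mj 4 5, 2), (.mj 4 6, 2), (.hz 4 35, 1434), (.hz 4 39, 1021), (.hz 4 71, 1275)])
(.haz 5 71 3 20
(.ask 35
(.mark 39 3 6 7
(.lp [3, 4] [0, 2, 6] [1, 5, 7] [(.mj 1 2, 19), (.mj 2 3, 23), (.mj 3 5, 18), (.mj 5 6, 8), (.hz 4 71, 6531), (.hz 5 71, 1523), (.hz 4 163, 8423)]))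
(.lp [1, 5] [3, 4] [0, 2, 6] [(.mj 1 2, 52), (.mj 2 3, 63), (.mj 3 5, 52), (.mj 5 6, 21), (.hz 4 35, 1181), (.hz 4 71, 16307), (.hz 5 71, 5149)]))
(.lp [1, 5] [3, 4] [0, 2, 6] [(.mj 1 2, 2), (.mj 2 3, 2), (.mj 5 6, 1), (.hz 5 3, 110), (.hz 5 7, 133), (.hz 4 71, 826)]))
(.ask 35
(.mark 47 4 6 7
(.lp [3, 4] [0, 2, 6] [1, 5, 7] [(.mj 1 2, 17), (.mj 2 3, 18), (.mj 3 6, 10), (.mj 6 5, 10), (.hz 4 35, 10359), (.hz 1 25, 998), (.hz 4 39, 1064), (.hz 4 163, 94)]))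
(.lp [1, 5] [3, 4] [0, 2, 6] [(.mj 1 2, 20), (.mj 2 3, 9), (.mj 6 5, 5), (.hz 4 7, 250), (.hz 4 35, 1626), (.hz 1 25, 5235), (.hz 4 39, 4175), (.hz 4 71, 3295)]))))
(.mark 11 2 4 5
(.lp [1, 5] [3, 4] [0, 2, 6] [(.mj 1 2, 1), (.mj 2 5, 2), (.mj 5 3, 12), (.hz 4 3, 3283), (.hz 4 7, 4456), (.hz 3 69, 2095), (.hz 4 71, 7864)]))
(.mark 15 4 5 6
(.lp [1, 5] [3, 4] [0, 2, 6] [(.mj 1 2, 4), (.mj 6 3, 5), (.mj 6 5, 2), (.hz 4 3, 514), (.hz 4 7, 3257), (.hz 4 35, 1411)]))))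
(.maj 3 5
(.ask 7
(.mark 7 3 5 6
(.spn
(.mark 15 4 5 6
(.spn
(.lp [1, 5] [3, 4] [0, 2, 6] [(.mj 2 3, 14), (.mj 4 5, 6), (.mj 4 6, 7), (.hz 4 35, 6195), (.hz 4 39, 2564), (.hz 4 71, 3500)])
(.haz 6 39 1 5
(.haz 5 71 1 4
(.lp [1, 5] [3, 4] [0, 2, 6] [(.mj 2 3, 101), (.mj 3 5, 60), (.mj 5 6, 40), (.hz 4 35, 19052), (.hz 4 71, 18488), (.hz 6 71, 22290)])
(.lp [1, 5] [3, 4] [0, 2, 6] [(.mj 2 3, 3), (.mj 5 6, 2), (.hz 6 3, 452), (.hz 6 7, 1023), (.hz 4 35, 389), (.hz 4 71, 1069)]))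
(.lp [1, 5] [3, 4] [0, 2, 6] [(.mj 2 3, 11), (.mj 3 5, 8), (.mj 5 6, 2), (.hz 5 7, 1909)]))
(.haz 6 39 3 10
(.ask 71
(.mark 79 4 5 7
(.spn
(.cut 5 [(0, 1), (1, 1), (2, 1), (3, 1), (5, 1), (9, 1), (7, 1), (11, 1), (13, 1), (25, 1), (15, 1), (29, 1), (71, 1), (79, 1)]
(.lp [1, 5] [3, 4] [0, 2, 6, 7] [(.mj 1 2, 99), (.mj 2 3, 6451), (.mj 3 6, 627), (.mj 4 5, 318), (.mj 4 7, 562), (.rw 5, 2), (.hz 4 35, 2966439), (.hz 4 39, 1246299), (.hz 4 199, 1201290), (.hz 4 231, 841691), (.rw 6, 1)]))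
(.haz 6 39 2 5
(.haz 7 95 3 10
(.ask 35
(.mark 39 3 6 8
(.lp [3, 4] [1, 5, 8] [0, 2, 6, 7] [(.mj 2 3, 9), (.mj 3 6, 5), (.mj 5 7, 1), (.mj 6 5, 2), (.hz 4 35, 1730), (.hz 4 291, 2153), (.hz 6 295, 3989), (.hz 7 95, 1337)]))
(.ask 39
(.mark 111 4 7 8
(.lp [3, 4] [1, 5, 8] [0, 2, 6, 7] [(.mj 2 3, 4703), (.mj 3 6, 3198), (.mj 5 7, 267), (.mj 6 5, 1117), (.rw 5, 1), (.hz 6 295, 2330658), (.hz 7 95, 347555)]))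
(.lp [1, 5] [3, 4] [0, 2, 6, 7] [(.mj 2 3, 18), (.mj 3 6, 9), (.mj 5 7, 2), (.mj 6 5, 3)])))
(.lp [1, 5] [3, 4] [0, 2, 6, 7] [(.mj 2 3, 71), (.mj 3 6, 17), (.mj 6 5, 23), (.hz 4 35, 34978), (.hz 4 39, 1856), (.hz 7 71, 4312), (.hz 7 79, 7318)]))
(.lp [1, 5] [3, 4] [0, 2, 6, 7] [(.mj 2 3, 8), (.mj 6 5, 4), (.hz 6 7, 3219), (.hz 4 35, 4990), (.hz 4 39, 1125), (.hz 5 39, 336)]))
(.ask 35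
(.mark 47 4 6 8
(.cut 5 [(0, 1), (1, 1), (2, 1), (3, 1), (5, 1), (9, 1), (7, 1), (11, 1), (13, 1), (25, 1), (15, 1), (29, 1), (71, 1), (79, 1)]
(.lp [3, 4] [1, 5, 8] [0, 2, 6, 7] [(.mj 2 3, 9161), (.mj 3 6, 6339), (.mj 7 5, 871), (.hz 4 35, 1480728), (.hz 2 25, 2144487), (.hz 5 39, 360229), (.hz 4 291, 2982243), (.hz 5 295, 2865337), (.hz 5 63, 665802), (.hz 5 303, 744495), (.rw 6, 1)])))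
(.ask 39
(.mark 47 4 6 8
(.cut 5 [(0, 1), (1, 1), (2, 1), (3, 1), (5, 1), (9, 1), (7, 1), (11, 1), (13, 1), (25, 1), (15, 1), (29, 1), (71, 1), (79, 1)]
(.lp [3, 4] [1, 5, 8] [0, 2, 6, 7] [(.mj 1 2, 2453), (.mj 2 3, 5801), (.mj 3 6, 4705), (.mj 7 5, 1062), (.hz 4 35, 1056354), (.hz 2 25, 389705), (.hz 5 39, 439176), (.hz 5 295, 1706529), (.hz 5 63, 1008676), (.hz 5 303, 744903), (.rw 6, 1)])))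
(.lp [1, 5] [3, 4] [0, 2, 6, 7] [(.mj 2 3, 64), (.mj 3 6, 52), (.mj 7 5, 5), (.hz 5 39, 9217), (.hz 5 47, 1051)])))))
(.ask 79
(.mark 79 4 5 7
(.spn
(.lp [1, 5] [3, 4] [0, 2, 6, 7] [(.mj 2 3, 3842), (.mj 3 6, 249), (.mj 4 5, 462), (.rw 5, 1), (.hz 4 35, 1773964), (.hz 4 39, 734054), (.hz 4 103, 507863)])
(.haz 7 95 7 20
(.lp [1, 5] [3, 4] [0, 2, 6, 7] [(.mj 2 3, 32), (.mj 3 6, 8), (.mj 5 7, 7), (.mj 6 5, 14), (.hz 4 35, 15981), (.hz 4 39, 205), (.hz 6 95, 4392)])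
(.lp [1, 5] [3, 4] [0, 2, 6, 7] [(.mj 2 3, 12), (.mj 3 5, 1), (.mj 3 6, 2), (.mj 6 5, 3), (.hz 4 35, 5642), (.hz 6 79, 589)]))
(.ask 207
(.mark 207 4 5 8
(.spn
(.lp [1, 5] [3, 4] [0, 2, 6, 7, 8] [(.mj 7 4, 1490), (.rw 6, 2)])
(.lp [1, 5] [3, 4] [0, 2, 6, 7, 8] [(.mj 7 5, 383), (.rw 6, 1)])
(.cut 5 [(0, 1), (1, 1), (2, 1), (3, 1), (5, 1), (9, 1), (7, 1), (11, 1), (13, 1), (15, 1), (71, 1), (79, 1)]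
(.lp [1, 5] [3, 4] [0, 2, 6, 7, 8] [(.mj 1 2, 1427), (.mj 2 3, 3016), (.mj 3 6, 137), (.mj 8 5, 812), (.hz 4 35, 871376), (.hz 2 25, 511144), (.hz 4 39, 516142), (.hz 2 29, 390153), (.rw 7, 1)]))))
(.lp [1, 5] [3, 4] [0, 2, 6, 7] [(.mj 7 4, 1), (.rw 5, 1)]))))
(.lp [1, 5] [3, 4] [0, 2, 6] [(.mj 2 3, 10), (.mj 3 5, 6), (.mj 6 4, 1)])))
(.lp [1, 5] [3, 4] [0, 2, 6] [(.mj 2 3, 2), (.mj 6 5, 1), (.hz 5 7, 538), (.hz 4 35, 1231), (.hz 4 39, 454)]))))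
(.con 5 3)
(.mark 11 2 4 5
(.lp [1, 5] [3, 4] [0, 2, 6] [(.mj 6 3, 1), (.hz 4 3, 261), (.hz 4 7, 327), (.hz 4 35, 131)]))))
(.lp [2] [1, 5] [0, 3, 4] [(.mj 2 3, 3), (.mj 3 5, 1), (.hz 4 35, 990)]))
(.lp [2] [1, 5] [0, 3, 4] [(.mj 0 1, 1), (.mj 5 3, 1), (.hz 4 3, 236), (.hz 4 7, 369)])))
(.ask 5
(.mark 7 3 5 6
(.spn
(.mark 15 4 5 6
(.spn
(.lp [1, 5] [3, 4] [0, 2, 6] [(.mj 1 2, 211), (.mj 4 5, 408), (.mj 4 6, 408), (.rw 3, 1), (.hz 4 1, 211128)])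
(.haz 6 15 3 10
(.lp [1, 5] [3, 4] [0, 2, 6] [(.mj 3 5, 1), (.mj 5 6, 1), (.hz 4 1, 156), (.hz 4 3, 156), (.hz 5 15, 432), (.hz 5 31, 121), (.hz 5 47, 208)])
(.lp [1, 5] [3, 4] [0, 2, 6] [(.mj 1 2, 3), (.mj 3 5, 11), (.mj 5 6, 2), (.hz 4 1, 756), (.hz 4 3, 3964), (.hz 5 5, 155), (.hz 5 7, 1455)]))
(.haz 5 7 1 4
(.lp [1, 5] [3, 4] [0, 2, 6] [(.mj 1 2, 7), (.mj 3 5, 5), (.mj 3 6, 3), (.mj 6 5, 3), (.hz 4 1, 1624), (.hz 5 7, 952), (.hz 1 25, 1687), (.hz 5 15, 1821), (.hz 5 71, 4150)])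
(.lp [1, 5] [3, 4] [0, 2, 6] [(.mj 1 2, 7), (.mj 3 6, 5), (.mj 6 5, 1), (.hz 4 1, 585), (.hz 4 3, 1872), (.hz 5 3, 1999), (.hz 5 7, 2279), (.hz 1 25, 73)]))))
(.haz 2 11 7 20
(.haz 5 31 7 20
(.haz 2 9 3 10
(.ask 35
(.mark 39 3 6 7
(.spn
(.mark 47 4 6 7
(.spn
(.lp [3, 4] [0, 2, 6] [1, 5, 7] [(.mj 4 6, 331), (.mj 4 7, 331), (.mj 5 3, 733), (.rw 4, 1)])
(.lp [3, 4] [0, 2, 6] [1, 5, 7] [(.mj 3 6, 611), (.mj 5 3, 1426), (.mj 6 7, 611), (.rw 4, 2)])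
(.lp [3, 4] [0, 2, 6] [1, 5, 7] [(.mj 2 5, 9182), (.mj 5 3, 2624), (.mj 7 6, 2624), (.rw 3, 3), (.rw 4, 8)])))
(.haz 3 231 1 10
(.haz 6 167 1 5
(.haz 6 167 3 10
(.ask 69
(.mark 103 3 7 8
(.spn
(.mark 111 4 7 8
(.lp [3, 4] [1, 5, 7] [0, 2, 6, 8] [(.mj 3 7, 70), (.mj 5 6, 353), (.mj 6 3, 232), (.mj 6 7, 157), (.rw 5, 1)]))
(.ask 163
(.mark 239 4 8 9
(.cut 3 [(0, 1), (1, 1), (2, 1), (3, 1), (5, 1), (7, 1), (35, 1), (39, 1)]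
(.lp [3, 4] [0, 2, 6, 8] [1, 5, 7, 9] [(.mj 5 6, 1525), (.mj 6 3, 383), (.mj 6 7, 1107), (.mj 7 3, 536), (.rw 6, 2)])))
(.mark 111 4 7 8
(.cut 3 [(0, 1), (1, 1), (2, 1), (3, 1), (5, 1), (7, 1), (35, 1), (39, 1)]
(.cut 8 [(0, 1), (1, 1), (2, 1), (3, 1), (5, 1), (9, 1), (7, 1), (11, 1), (13, 1), (35, 1), (69, 1), (15, 1), (39, 1), (43, 1), (71, 1), (163, 1), (47, 1), (103, 1), (167, 1), (171, 1), (175, 1)]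
(.cut 3 [(0, 1), (1, 1), (2, 1), (3, 1), (5, 1), (7, 1), (35, 1), (69, 1), (39, 1), (71, 1), (163, 1), (325, 1), (327, 1)]
(.lp [3, 4] [1, 5, 7] [0, 2, 6, 8] [(.mj 5 6, 89763), (.mj 6 7, 80604), (.mj 7 3, 61878), (.hz 8 487, 33381285), (.rw 6, 110), (.rw 7, 2), (.rw 8, 16)]))))))
(.cut 3 [(0, 1), (1, 1), (2, 1), (3, 1), (5, 1), (7, 1), (35, 1), (39, 1)]
(.lp [3, 4] [1, 5, 7] [0, 2, 6, 8] [(.mj 2 5, 27), (.mj 5 6, 903), (.mj 8 3, 584), (.mj 8 7, 557), (.hz 5 43, 35972), (.hz 10 167, 13490), (.hz 5 171, 25216), (.rw 6, 1)]))))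
(.mark 13 1 4 6
(.ask 77
(.mark 111 4 7 8
(.lp [3, 4] [1, 5, 7] [0, 2, 6, 8] [(.mj 5 6, 5), (.mj 6 3, 10), (.mj 6 7, 13), (.hz 8 231, 19754)]))
(.ask 71
(.mark 103 3 7 8
(.spn
(.mark 111 4 7 8
(.lp [3, 4] [1, 5, 7] [0, 2, 6, 8] [(.mj 3 7, 85), (.mj 5 6, 445), (.mj 6 3, 254), (.mj 6 7, 169), (.rw 5, 1)]))
(.mark 79 4 5 8
(.cut 3 [(0, 1), (1, 1), (2, 1), (3, 1), (5, 1), (7, 1), (35, 1), (39, 1)]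
(.lp [3, 4] [1, 5, 7] [0, 2, 6, 8] [(.mj 0 1, 48355), (.mj 5 6, 9794), (.mj 6 3, 4977), (.mj 6 7, 741), (.mj 7 3, 7523), (.hz 2 25, 4202699), (.hz 5 27, 748802), (.hz 2 29, 8405399), (.hz 6 31, 4837809), (.hz 2 93, 4805015), (.rw 6, 19)])))
(.mark 111 4 7 8
(.cut 3 [(0, 1), (1, 1), (2, 1), (3, 1), (5, 1), (7, 1), (35, 1), (39, 1)]
(.lp [3, 4] [1, 5, 7] [0, 2, 6, 8] [(.mj 2 5, 46), (.mj 5 6, 712), (.mj 8 3, 445), (.mj 8 7, 399), (.hz 5 43, 46409), (.hz 10 167, 23072), (.rw 6, 1)])))))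
(.ask 103
(.mark 103 3 7 8
(.spn
(.mark 111 4 7 8
(.spn
(.lp [3, 4] [1, 5, 7] [0, 2, 6, 8] [(.mj 4 7, 316), (.mj 4 8, 316), (.mj 6 3, 527), (.rw 5, 1)])
(.lp [3, 4] [1, 5, 7] [0, 2, 6, 8] [(.mj 3 7, 259), (.mj 6 3, 526), (.mj 7 8, 259), (.rw 5, 1)])
(.haz 7 103 1 4
(.lp [3, 4] [1, 5, 7] [0, 2, 6, 8] [(.mj 3 7, 3), (.mj 3 8, 4), (.mj 5 6, 1), (.mj 6 3, 7), (.mj 8 7, 4), (.hz 11 103, 760), (.hz 11 111, 36300), (.hz 11 359, 11125)])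
(.lp [3, 4] [1, 5, 7] [0, 2, 6, 8] [(.mj 5 6, 92376), (.mj 6 3, 35121), (.rw 5, 67), (.hz 11 35, 10733914), (.hz 11 39, 29109659), (.hz 10 167, 1303099), (.hz 8 231, 13030989)]))))
(.mark 111 4 7 8
(.cut 3 [(0, 1), (1, 1), (2, 1), (3, 1), (5, 1), (7, 1), (35, 1), (39, 1)]
(.lp [3, 4] [1, 5, 7] [0, 2, 6, 8] [(.mj 0 1, 88531), (.mj 2 5, 3917), (.mj 5 6, 4307), (.mj 7 3, 24522), (.rw 5, 3), (.hz 2 25, 9573456), (.hz 2 29, 2085421), (.hz 6 31, 26551624), (.hz 2 93, 46127351), (.rw 6, 47)])))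
(.mark 111 4 7 8
(.cut 3 [(0, 1), (1, 1), (2, 1), (3, 1), (5, 1), (7, 1), (35, 1), (39, 1)]
(.lp [3, 4] [1, 5, 7] [0, 2, 6, 8] [(.mj 0 1, 3367), (.mj 5 6, 722), (.mj 8 3, 1012), (.hz 5 11, 40900), (.hz 2 25, 369162), (.hz 2 29, 277671), (.hz 2 93, 396121), (.hz 10 175, 17591), (.rw 6, 2)])))))
(.lp [3, 4] [0, 2, 6] [1, 5, 7] [(.mj 0 1, 6), (.mj 5 6, 1), (.mj 6 3, 4), (.mj 6 7, 3), (.hz 2 25, 464), (.hz 2 29, 696), (.hz 2 93, 383), (.hz 8 231, 7356)]))))))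
(.mark 47 4 6 7
(.lp [3, 4] [0, 2, 6] [1, 5, 7] [(.mj 0 1, 489), (.mj 6 7, 420), (.rw 4, 1), (.hz 10 39, 734176)])))
(.lp [3, 4] [0, 2, 6] [1, 5, 7] [(.mj 6 7, 294), (.rw 4, 1), (.hz 9 39, 1303861)]))
(.cut 3 [(0, 1), (1, 1), (2, 1), (3, 1), (5, 1), (7, 1), (35, 1), (39, 1)]
(.lp [3, 4] [0, 2, 6] [1, 5, 7] [(.mj 2 5, 1049), (.mj 5 6, 1641), (.mj 6 7, 266), (.hz 8 69, 4073017), (.hz 8 71, 11313936), (.hz 8 163, 7820192), (.hz 8 103, 18216495), (.hz 8 167, 17976906), (.rw 5, 49)])))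
(.mark 15 4 5 6
(.cut 3 [(0, 1), (1, 1), (2, 1), (3, 1), (5, 1), (7, 1), (35, 1), (39, 1)]
(.lp [3, 4] [0, 2, 6] [1, 5, 7] [(.mj 2 5, 5660), (.mj 7 3, 2466), (.mj 7 6, 3235), (.hz 5 11, 145839), (.hz 2 25, 384131), (.hz 5 27, 238292), (.hz 2 29, 768262), (.hz 2 77, 257636), (.hz 6 31, 1829692), (.rw 5, 4)])))))
(.ask 39
(.mark 39 3 6 7
(.spn
(.mark 47 4 6 7
(.spn
(.lp [3, 4] [0, 2, 6] [1, 5, 7] [(.mj 4 6, 606), (.mj 4 7, 606), (.mj 5 3, 1051), (.rw 4, 1), (.hz 7 9, 166864)])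
(.lp [3, 4] [0, 2, 6] [1, 5, 7] [(.mj 3 6, 2316), (.mj 5 3, 4422), (.mj 6 7, 2316), (.rw 4, 5)])
(.haz 6 39 1 5
(.lp [3, 4] [0, 2, 6] [1, 5, 7] [(.mj 3 7, 2), (.mj 5 3, 3), (.mj 7 6, 3), (.hz 7 9, 106), (.hz 5 27, 147), (.hz 8 47, 9980), (.hz 8 167, 1963)])
(.haz 6 167 1 10
(.haz 7 103 9 20
(.lp [3, 4] [0, 2, 6] [1, 5, 7] [(.mj 0 1, 101), (.mj 3 7, 31), (.mj 5 3, 53), (.hz 8 5, 7738), (.hz 8 7, 12511), (.hz 2 25, 10865), (.hz 8 39, 2919), (.hz 2 29, 10337), (.hz 6 31, 592), (.hz 10 103, 6915), (.hz 9 175, 13892)])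
(.lp [3, 4] [0, 2, 6] [1, 5, 7] [(.mj 0 1, 3), (.mj 5 3, 2), (.hz 8 5, 234), (.hz 8 7, 346), (.hz 8 39, 1111), (.hz 10 39, 278), (.hz 9 175, 739)]))
(.lp [3, 4] [0, 2, 6] [1, 5, 7] [(.mj 2 5, 13), (.mj 3 7, 8), (.mj 5 3, 12), (.hz 9 5, 660), (.hz 9 7, 2026), (.hz 9 39, 2089)])))))
(.haz 3 167 1 20
(.haz 6 167 1 5
(.haz 6 167 3 10
(.ask 69
(.mark 103 3 7 8
(.spn
(.mark 111 4 7 8
(.lp [3, 4] [1, 5, 7] [0, 2, 6, 8] [(.mj 3 7, 67), (.mj 5 6, 336), (.mj 6 3, 371), (.mj 6 7, 149), (.rw 5, 1)]))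
(.ask 167
(.mark 239 4 8 9
(.cut 3 [(0, 1), (1, 1), (2, 1), (3, 1), (5, 1), (7, 1), (35, 1), (39, 1)]
(.lp [3, 4] [0, 2, 6, 8] [1, 5, 7, 9] [(.mj 5 6, 2553), (.mj 6 7, 2520), (.mj 7 3, 1635), (.rw 6, 4)])))
(.mark 79 4 5 8
(.cut 3 [(0, 1), (1, 1), (2, 1), (3, 1), (5, 1), (7, 1), (35, 1), (39, 1), (167, 1)]
(.lp [3, 4] [1, 5, 7] [0, 2, 6, 8] [(.mj 7 3, 84472), (.hz 2 333, 12067464), (.rw 6, 181)]))))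
(.cut 3 [(0, 1), (1, 1), (2, 1), (3, 1), (5, 1), (7, 1), (35, 1), (69, 1), (39, 1), (71, 1), (103, 1)]
(.lp [3, 4] [1, 5, 7] [0, 2, 6, 8] [(.mj 5 6, 721), (.mj 8 3, 463), (.mj 8 7, 351), (.hz 10 167, 93584), (.rw 6, 1)]))))
(.haz 3 231 1 10
(.ask 71
(.mark 103 3 7 8
(.spn
(.mark 111 4 7 8
(.lp [3, 4] [1, 5, 7] [0, 2, 6, 8] [(.mj 3 7, 85), (.mj 5 6, 499), (.mj 6 3, 398), (.mj 6 7, 222), (.rw 5, 1)]))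
(.ask 167
(.mark 239 4 8 9
(.cut 3 [(0, 1), (1, 1), (2, 1), (3, 1), (5, 1), (7, 1), (35, 1), (39, 1)]
(.lp [3, 4] [0, 2, 6, 8] [1, 5, 7, 9] [(.mj 5 6, 1482), (.mj 6 3, 84), (.mj 6 7, 1140), (.mj 7 3, 829), (.hz 11 487, 570037), (.rw 6, 2)])))
(.mark 79 4 5 8
(.cut 3 [(0, 1), (1, 1), (2, 1), (3, 1), (5, 1), (7, 1), (35, 1), (39, 1), (167, 1)]
(.lp [3, 4] [1, 5, 7] [0, 2, 6, 8] [(.mj 7 3, 84472), (.rw 6, 181)]))))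
(.cut 3 [(0, 1), (1, 1), (2, 1), (3, 1), (5, 1), (7, 1), (35, 1), (39, 1)]
(.lp [3, 4] [1, 5, 7] [0, 2, 6, 8] [(.mj 5 6, 858), (.mj 8 3, 528), (.mj 8 7, 394), (.hz 10 167, 111466), (.rw 6, 1)]))))
(.ask 103
(.mark 103 3 7 8
(.spn
(.mark 111 4 7 8
(.spn
(.lp [3, 4] [1, 5, 7] [0, 2, 6, 8] [(.mj 4 7, 316), (.mj 4 8, 316), (.mj 6 3, 527), (.rw 5, 1)])
(.lp [3, 4] [1, 5, 7] [0, 2, 6, 8] [(.mj 3 7, 270), (.mj 6 3, 706), (.mj 7 8, 270), (.rw 5, 1)])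
(.lp [3, 4] [1, 5, 7] [0, 2, 6, 8] [(.mj 5 6, 32564), (.mj 6 3, 14473), (.mj 8 7, 6972), (.rw 5, 23), (.hz 8 167, 4946612), (.hz 10 167, 4601670), (.hz 11 231, 14641678)])))
(.ask 167
(.mark 239 4 8 9
(.cut 3 [(0, 1), (1, 1), (2, 1), (3, 1), (5, 1), (7, 1), (35, 1), (39, 1)]
(.lp [3, 4] [0, 2, 6, 8] [1, 5, 7, 9] [(.mj 0 1, 37405), (.mj 7 3, 11614), (.mj 7 8, 222), (.rw 5, 1), (.hz 2 25, 5516691), (.hz 2 29, 19725209), (.hz 6 31, 8414642), (.hz 6 95, 469607), (.hz 11 487, 5680252), (.rw 6, 22)])))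
(.mark 111 4 7 8
(.cut 3 [(0, 1), (1, 1), (2, 1), (3, 1), (5, 1), (7, 1), (35, 1), (39, 1)]
(.cut 8 [(0, 1), (1, 1), (2, 1), (3, 1), (5, 1), (9, 1), (7, 1), (11, 1), (13, 1), (35, 1), (69, 1), (15, 1), (39, 1), (43, 1), (71, 1), (77, 1), (47, 1), (79, 1), (103, 1), (167, 1), (175, 1)]
(.cut 3 [(0, 1), (1, 1), (2, 1), (3, 1), (5, 1), (7, 1), (35, 1), (69, 1), (39, 1), (71, 1), (103, 1), (167, 1)]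
(.lp [3, 4] [1, 5, 7] [0, 2, 6, 8] [(.mj 7 3, 39826), (.hz 11 487, 16901829), (.rw 6, 66), (.rw 7, 1), (.rw 8, 19)]))))))
(.mark 111 4 7 8
(.cut 3 [(0, 1), (1, 1), (2, 1), (3, 1), (5, 1), (7, 1), (35, 1), (39, 1)]
(.lp [3, 4] [1, 5, 7] [0, 2, 6, 8] [(.mj 8 3, 848), (.hz 10 175, 47098), (.rw 6, 2)])))))
(.spn
(.lp [3, 4] [0, 2, 6] [1, 5, 7] [(.mj 3 7, 2), (.mj 6 3, 3)])
(.lp [3, 4] [0, 2, 6] [1, 5, 7] [(.mj 6 7, 150), (.mj 7 3, 76), (.hz 11 231, 153729)])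
.fin)))
(.cut 3 [(0, 1), (1, 1), (2, 1), (3, 1), (5, 1), (7, 1), (35, 1), (39, 1)]
(.lp [3, 4] [0, 2, 6] [1, 5, 7] [(.mj 5 6, 250), (.hz 11 69, 1609788), (.hz 11 71, 4499151), (.hz 11 103, 7010955), (.hz 11 167, 7010955), (.rw 5, 19)]))))
(.mark 47 4 6 7
(.lp [3, 4] [0, 2, 6] [1, 5, 7] [(.mj 6 3, 165), (.mj 6 7, 791), (.rw 4, 1), (.hz 10 39, 770829), (.hz 8 167, 335255)])))
(.lp [3, 4] [0, 2, 6] [1, 5, 7] [(.mj 6 7, 398), (.rw 4, 1), (.hz 9 39, 1173946)]))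
(.cut 3 [(0, 1), (2, 1)]
(.lp [3, 4] [0, 2, 6] [1, 5, 7] [(.hz 8 1, 50811), (.hz 8 3, 50811), (.rw 5, 1)])))
(.ask 167
(.mark 167 3 6 8
(.spn
(.mark 175 4 6 8
(.lp [3, 4] [0, 2, 6] [1, 5, 7, 8] [(.mj 7 3, 97), (.rw 5, 1)]))
(.mark 175 4 6 8
(.cut 3 [(0, 1), (1, 1), (2, 1), (3, 1), (5, 1), (7, 1), (35, 1), (39, 1)]
(.lp [3, 4] [0, 2, 6] [1, 5, 7, 8] [(.mj 6 8, 1518), (.mj 7 6, 1987), (.rw 4, 1), (.rw 5, 2), (.rw 6, 4)])))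
(.mark 47 4 6 7
(.cut 3 [(0, 1), (1, 1), (2, 1), (3, 1), (5, 1), (7, 1), (69, 2), (71, 1)]
(.cut 3 [(0, 1), (1, 1), (2, 1), (3, 1), (5, 1), (7, 1), (35, 1), (39, 1)]
(.cut 6 [(0, 1), (1, 1), (2, 1), (3, 1), (5, 1), (9, 1), (7, 1), (11, 1), (13, 1), (25, 1), (35, 1), (15, 1), (27, 1), (39, 1), (43, 1), (59, 1)]
(.cut 6 [(0, 1), (1, 1), (2, 1), (3, 1), (5, 1), (9, 1), (7, 1), (11, 1), (13, 1), (35, 1), (15, 1), (39, 1), (43, 1), (47, 1)]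
(.lp [3, 4] [0, 2, 6] [1, 5, 7, 8] [(.mj 0 1, 76991), (.mj 8 3, 56799), (.mj 8 6, 31714), (.hz 2 25, 25687628), (.hz 7 25, 363739), (.hz 5 27, 20655907), (.hz 2 77, 34365454), (.hz 6 31, 28060586), (.hz 5 59, 10878668), (.hz 6 95, 9558571), (.rw 6, 10), (.rw 7, 111), (.rw 8, 27), (.rw 9, 13)]))))))))
(.lp [3, 4] [0, 2, 6] [1, 5, 7] [(.mj 7 6, 1), (.rw 4, 1)]))))
(.spn
(.lp [1, 5] [3, 4] [0, 2, 6] [(.mj 2 3, 1), (.mj 3 6, 2), (.mj 5 3, 2)])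
(.cut 3 [(0, 1), (1, 1), (2, 1), (3, 1), (5, 1), (7, 1), (35, 1), (39, 1)]
(.lp [1, 5] [3, 4] [0, 2, 6] [(.mj 5 6, 1173), (.mj 6 3, 521), (.rw 5, 1)]))
.fin)))
(.mark 9 1 2 4
(.ask 25
(.mark 25 1 2 7
(.ask 153
(.mark 159 5 6 8
(.cut 3 [(0, 1), (1, 1), (2, 1), (3, 1), (5, 1), (7, 1), (35, 2), (69, 1), (71, 2)]
(.lp [1, 5] [2, 6] [0, 3, 4, 7, 8] [(.mj 2 5, 7201), (.mj 5 3, 2903), (.hz 7 1, 564802), (.hz 5 27, 1220284), (.hz 2 153, 1535692), (.hz 6 31, 476051), (.hz 2 409, 260236), (.hz 6 95, 379178), (.hz 6 159, 1601803), (.hz 5 411, 627323), (.hz 6 415, 3161020), (.rw 4, 2)])))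
(.mark 31 5 6 7
(.cut 3 [(0, 1), (1, 1), (2, 1), (3, 1), (5, 1), (7, 1), (35, 2), (69, 1), (71, 2)]
(.lp [1, 5] [2, 6] [0, 3, 4, 7] [(.mj 2 5, 19660), (.mj 5 3, 4920), (.hz 7 1, 1585585), (.hz 4 1, 741987), (.hz 5 27, 2512118), (.hz 6 31, 1400105), (.hz 2 157, 385046), (.hz 6 95, 201605), (.hz 6 159, 5816247), (.rw 4, 4)])))))
(.cut 3 [(0, 1), (1, 1), (2, 1), (3, 1), (5, 1), (7, 1), (35, 2)]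
(.lp [1, 5] [3, 4] [0, 2, 6] [(.mj 0 1, 23284), (.mj 5 3, 6240), (.hz 7 1, 684812), (.hz 7 9, 1084104), (.hz 5 11, 711090), (.hz 5 27, 391924), (.hz 6 31, 211851), (.rw 4, 2)])))))
(.mark 15 4 5 6
(.cut 3 [(0, 1), (1, 1), (2, 1), (3, 1), (5, 1), (7, 1)]
(.lp [1, 5] [3, 4] [0, 2, 6] [(.mj 5 3, 2776), (.mj 5 6, 3182), (.rw 3, 4), (.hz 6 7, 909228), (.hz 6 11, 482798), (.hz 6 15, 1099990), (.rw 4, 5)]))))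
(.mark 11 2 4 5
(.cut 3 [(0, 1), (1, 1), (2, 1), (3, 1), (5, 1), (7, 1)]
(.lp [1, 5] [3, 4] [0, 2, 6] [(.mj 2 5, 4361), (.mj 5 3, 3217), (.hz 5 1, 85892), (.hz 5 3, 218032), (.hz 1 25, 347520), (.hz 1 27, 1014467), (.rw 4, 2)]))))
(.haz 5 11 1 4
(.mark 11 2 4 5
(.cut 3 [(0, 1), (1, 1), (2, 1), (3, 1), (5, 1), (7, 1), (35, 2), (39, 1)]
(.cut 3 [(0, 1), (1, 1), (2, 1), (3, 1), (5, 1), (7, 1), (35, 2), (39, 2)]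
(.lp [1, 5] [3, 4] [0, 2, 6] [(.mj 1 2, 13681), (.mj 6 3, 1113), (.mj 6 5, 6840), (.hz 1 25, 2982622), (.hz 5 15, 4183656), (.hz 1 27, 359192), (.hz 5 27, 8112731), (.hz 1 43, 3801944), (.hz 1 59, 12185068), (.rw 4, 1), (.rw 5, 2)]))))
(.mark 11 2 4 5
(.cut 3 [(0, 1), (1, 1), (2, 1), (3, 1), (5, 1), (7, 1)]
(.lp [1, 5] [3, 4] [0, 2, 6] [(.mj 1 2, 2797), (.mj 6 3, 935), (.mj 6 5, 509), (.hz 5 3, 254262), (.hz 5 11, 387086), (.hz 1 25, 922758), (.hz 1 27, 390985), (.hz 1 43, 488602), (.rw 4, 1)]))))))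
(.ask 7
(.mark 7 3 5 6
(.spn
(.mark 15 4 5 6
(.spn
(.lp [1, 5] [3, 4] [0, 2, 6] [(.mj 4 5, 781), (.mj 4 6, 825), (.rw 3, 1), (.hz 4 1, 331667)])
(.haz 5 71 3 20
(.lp [1, 5] [3, 4] [0, 2, 6] [(.mj 3 5, 35), (.mj 3 6, 16), (.mj 5 6, 7), (.hz 4 1, 4076), (.hz 4 3, 10910), (.hz 2 25, 1013), (.hz 5 71, 4714)])
(.lp [1, 5] [3, 4] [0, 2, 6] [(.mj 5 6, 1), (.hz 4 1, 225), (.hz 4 3, 70), (.hz 5 3, 137)]))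
(.haz 5 71 3 20
(.haz 5 7 1 5
(.lp [1, 5] [3, 4] [0, 2, 6] [(.mj 3 6, 4), (.mj 6 5, 6), (.hz 4 1, 586), (.hz 4 3, 1575), (.hz 6 7, 124), (.hz 2 25, 1138), (.hz 6 15, 6784), (.hz 6 71, 1966)])
(.lp [1, 5] [3, 4] [0, 2, 6] [(.mj 3 6, 1), (.hz 4 1, 3), (.hz 4 3, 686), (.hz 6 3, 262), (.hz 6 7, 373), (.hz 2 25, 512), (.hz 5 71, 124), (.hz 5 79, 85)]))
(.cut 5 [(0, 1), (1, 1), (2, 1), (3, 1), (5, 1), (9, 1), (7, 1), (13, 1)]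
(.lp [1, 5] [3, 4] [0, 2, 6] [(.mj 1 2, 4333), (.mj 3 6, 8187), (.hz 4 1, 144022), (.hz 4 3, 4688493), (.hz 5 3, 522006), (.hz 5 7, 614037), (.hz 2 25, 2889409), (.rw 5, 1)])))))
(.haz 3 71 1 20
(.haz 5 31 3 10
(.maj 3 6
(.haz 5 71 1 4
(.ask 35
(.mark 47 4 6 7
(.cut 3 [(0, 1), (1, 1), (2, 1), (3, 1), (5, 1), (7, 1), (35, 1)]
(.lp [3, 4] [0, 2, 6] [1, 5, 7] [(.mj 0 1, 131270), (.mj 3 6, 9062), (.mj 5 3, 38162), (.hz 2 25, 9813965), (.hz 5 71, 1839782), (.hz 7 71, 3319776), (.hz 2 29, 17330937), (.hz 6 31, 3479986), (.rw 4, 22)])))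
(.ask 39
(.mark 39 3 6 7
(.spn
(.mark 47 4 6 7
(.spn
(.lp [3, 4] [0, 2, 6] [1, 5, 7] [(.mj 0 1, 1437), (.mj 4 6, 374), (.mj 4 7, 374), (.mj 5 3, 948), (.rw 4, 1), (.hz 5 71, 143689)])
(.lp [3, 4] [0, 2, 6] [1, 5, 7] [(.mj 0 1, 18220), (.mj 3 6, 4064), (.mj 5 3, 9567), (.mj 6 7, 3207), (.rw 4, 8), (.hz 2 25, 463775), (.hz 7 71, 535875), (.hz 2 29, 927551)])
(.ask 167
(.mark 175 4 6 8
(.spn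
(.lp [3, 4] [0, 2, 6] [1, 5, 7, 8] [(.mj 0 1, 4394), (.mj 4 6, 38), (.mj 5 3, 1758), (.rw 6, 1), (.hz 5 71, 359119), (.hz 7 71, 23626)])
(.lp [3, 4] [0, 2, 6] [1, 5, 7, 8] [(.mj 0 1, 14371), (.mj 3 7, 3816), (.mj 5 3, 7811), (.mj 6 8, 122), (.mj 7 6, 4614), (.rw 6, 4), (.hz 2 25, 937251), (.hz 7 71, 422682), (.hz 2 29, 1874503)])
(.haz 6 167 1 10
(.lp [3, 4] [0, 2, 6] [1, 5, 7, 8] [(.mj 0 1, 23), (.mj 3 7, 9), (.mj 5 3, 18), (.mj 8 6, 10), (.hz 2 25, 1062), (.hz 5 71, 3853), (.hz 2 29, 2124), (.hz 5 103, 2704), (.hz 8 167, 5613), (.hz 8 175, 12510)])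
(.lp [3, 4] [0, 2, 6] [1, 5, 7, 8] [(.mj 0 1, 1), (.mj 2 5, 5), (.mj 3 7, 3), (.mj 5 3, 5), (.hz 8 7, 827), (.hz 8 39, 861)]))))
(.lp [3, 4] [0, 2, 6] [1, 5, 7] [(.mj 0 1, 7), (.mj 3 6, 2), (.mj 5 3, 5), (.hz 5 71, 620)]))))
(.con 6 3)
(.mark 15 4 5 6
(.cut 3 [(0, 1), (1, 1), (2, 1), (3, 1), (5, 1), (7, 1), (35, 1), (39, 1)]
(.lp [3, 4] [0, 2, 6] [1, 5, 7] [(.mj 0 1, 3294), (.mj 7 3, 884), (.mj 7 6, 155), (.hz 2 25, 260039), (.hz 7 71, 96877), (.hz 2 29, 390059), (.hz 7 79, 82091), (.rw 5, 1)])))))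
(.lp [1, 5] [3, 4] [0, 2, 6] [(.mj 2 3, 1), (.mj 3 6, 2), (.mj 5 3, 2)])))
(.lp [1, 5] [3, 4] [0, 2, 6] [(.mj 0 1, 673), (.mj 5 3, 337), (.mj 5 6, 688), (.rw 3, 1), (.hz 7 7, 1010132), (.hz 5 71, 146073)]))
(.mark 15 4 5 6
(.cut 3 [(0, 1), (1, 1), (2, 1), (3, 1), (5, 1), (7, 1), (35, 2)]
(.lp [1, 5] [3, 4] [0, 2, 6] [(.mj 0 1, 72769), (.mj 5 3, 6609), (.mj 5 6, 4851), (.mj 6 3, 12038), (.hz 2 25, 5230214), (.hz 1 27, 226972), (.hz 1 43, 155262), (.hz 2 29, 10460429), (.hz 6 31, 4016410), (.rw 4, 20)]))))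
(.mark 15 4 5 6
(.lp [1, 5] [3, 4] [0, 2, 6] [(.mj 5 3, 11), (.mj 5 6, 13), (.hz 6 3, 1178), (.hz 6 7, 2273), (.hz 6 15, 505), (.hz 5 71, 3153)])))
(.mark 15 4 5 6
(.lp [1, 5] [3, 4] [0, 2, 6] [(.mj 0 1, 8), (.mj 5 6, 1), (.hz 5 1, 123)])))
(.ask 71
(.mark 71 3 5 7
(.spn
(.mark 79 4 5 7
(.lp [1, 5] [3, 4] [0, 2, 6, 7] [(.mj 6 3, 529), (.rw 4, 1)]))
(.mark 79 4 5 7
(.cut 3 [(0, 1), (1, 1), (2, 1), (3, 1), (5, 1), (7, 1)]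
(.lp [1, 5] [3, 4] [0, 2, 6, 7] [(.mj 5 3, 5237), (.mj 5 7, 2417), (.mj 6 5, 8722), (.rw 4, 4), (.hz 1 43, 823393), (.rw 5, 12)])))
(.ask 199
(.mark 199 3 5 8
(.spn
(.mark 207 4 5 8
(.lp [1, 5] [3, 4] [0, 2, 6, 7, 8] [(.mj 7 3, 93), (.rw 5, 1)]))
(.lp [1, 5] [3, 4] [0, 2, 6, 7, 8] [(.mj 7 5, 794), (.rw 5, 1)])
(.mark 79 4 5 7
(.cut 3 [(0, 1), (1, 1), (2, 1), (3, 1), (5, 1), (7, 1), (35, 2), (39, 1), (71, 1)]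
(.cut 5 [(0, 1), (1, 1), (2, 1), (3, 1), (5, 1), (9, 1), (7, 1), (11, 1), (13, 1), (25, 1), (15, 1), (29, 1)]
(.cut 3 [(0, 1), (1, 1), (2, 1), (3, 1), (5, 1), (7, 1), (35, 2), (39, 2), (71, 1)]
(.cut 3 [(0, 1), (1, 1), (2, 1), (3, 1), (5, 1), (7, 1), (35, 1)]
(.cut 5 [(0, 1), (1, 1), (2, 1), (3, 1), (5, 1), (9, 1), (7, 1), (11, 1), (13, 1), (25, 1), (15, 1), (29, 1), (71, 1), (79, 1)]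
(.lp [1, 5] [3, 4] [0, 2, 6, 7, 8] [(.mj 8 3, 14829), (.mj 8 5, 7284), (.rw 5, 2), (.hz 2 25, 10812675), (.hz 1 43, 10902017), (.hz 2 29, 21625350), (.rw 6, 5), (.rw 7, 8), (.rw 8, 32), (.rw 9, 5), (.rw 10, 12)])))))))))
(.lp [1, 5] [3, 4] [0, 2, 6, 7] [(.mj 7 5, 1), (.rw 4, 1)]))))
(.lp [1, 5] [3, 4] [0, 2, 6] [(.mj 6 5, 1), (.rw 3, 1)]))))
(.spn
(.lp [2] [1, 5] [0, 3, 4] [(.mj 3 5, 1), (.hz 4 1, 489)])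
(.mark 9 1 2 4
(.ask 13
(.mark 13 1 4 6
(.cut 3 [(0, 1), (1, 1), (2, 1), (3, 1), (5, 1), (7, 1)]
(.lp [1, 5] [3, 4] [0, 2, 6] [(.mj 0 1, 21825), (.mj 5 3, 6002), (.hz 2 25, 1364064), (.hz 2 29, 2728128), (.hz 2 77, 2728128), (.rw 4, 4)])))
(.cut 3 [(0, 1), (1, 1), (2, 1), (3, 1), (5, 1), (7, 1)]
(.lp [2] [1, 5] [0, 3, 4] [(.mj 0 1, 23207), (.mj 5 3, 6229), (.hz 2 25, 1832125), (.hz 2 29, 2748188), (.rw 4, 4)]))))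
.fin))))
(.con 3 2)
(.mark 9 1 2 4
(.cut 3 [(0, 1), (1, 1), (2, 1), (3, 1), (5, 2), (7, 2)]
(.lp [2] [1, 5] [0, 3, 4] [(.mj 0 1, 9692), (.mj 5 2, 3231), (.mj 5 3, 1867), (.hz 3 5, 807692), (.hz 1 9, 23532), (.hz 1 11, 1529217), (.hz 2 25, 950198), (.hz 1 25, 516037), (.hz 1 27, 1871188), (.rw 3, 1)])))))
(.spn
(.haz 2 11 11 20
(.haz 2 11 13 20
(.mark 9 1 2 4
(.ask 11
(.ask 5
(.mark 15 4 5 6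
(.lp [1, 5] [3, 4] [0, 2, 6] [(.mj 1 2, 3), (.mj 2 3, 1), (.hz 5 11, 46), (.hz 1 25, 198)]))
(.ask 7
(.mark 15 4 5 6
(.spn
(.lp [1, 5] [3, 4] [0, 2, 6] [(.mj 1 2, 12), (.mj 2 3, 9), (.mj 3 6, 5)])
(.ask 71
(.mark 79 4 5 7
(.spn
(.lp [1, 5] [3, 4] [0, 2, 6, 7] [(.mj 6 3, 1), (.rw 4, 1)])
(.cut 3 [(0, 1), (1, 1), (2, 1), (3, 1), (5, 1), (7, 1)]
(.lp [1, 5] [3, 4] [0, 2, 6, 7] [(.mj 1 2, 16743), (.mj 7 3, 1599), (.hz 1 25, 1990757), (.hz 5 27, 459406), (.hz 5 43, 459406), (.rw 5, 4)]))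
.fin))
(.lp [1, 5] [3, 4] [0, 2, 6] [(.rw 3, 1)]))
.fin))
(.lp [2] [1, 5] [0, 3, 4] [(.mj 2 3, 1)])))
(.cut 3 [(0, 1), (1, 1), (2, 1), (3, 1), (5, 1)]
(.lp [1] [2] [0, 3, 4] [(.mj 1 2, 857792), (.hz 5 11, 18695457), (.hz 1 25, 142965263), (.hz 5 27, 14296526), (.rw 3, 4)]))))
(.lp [1] [2] [0, 3, 4] [(.mj 1 2, 3), (.mj 2 3, 5), (.hz 5 3, 360), (.hz 4 11, 119)]))
(.lp [1] [2] [0, 3, 4] [(.mj 1 2, 2), (.mj 2 3, 3), (.hz 4 3, 203), (.hz 1 9, 383)]))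
(.con 3 2)
.fin))

theorem run3 : run (mkLeaf Leaf.nleaf) cutRow [] t3 s3 = true := by
  decide +kernel

end Pool.Agent.W3.Data
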