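import Pool.Agent.W3.CutRow
import Pool.Agent.W3.LeafRow

/-!
# The search tree, part 4
-/

set_option autoImplicit false

namespace Pool.Agent.W3.Data

/-- the state above part 4 of the tree -/
def s4 : St := ⟨[0, 0, 1, 1, 2, 5], [3, 9, 1, 0], [0, 1, 2],
  [],
  [⟨true, 1, 9, 3, 20⟩, ⟨true, 2, 9, 1, 5⟩, ⟨true, 1, 9, 1, 4⟩, ⟨true, 1, 5, 1, 4⟩, ⟨true, 2, 9, 3, 10⟩],
  [.spn 0 0 666000, .spn 1 1 165501, .spn 3 2 165501]⟩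

/-- part 4 of the tree -/
noncomputable def t4 : Tree :=
(.mark 7 3 4 5
(.spn
(.haz 4 11 1 10
(.haz 3 39 3 20
(.haz 4 39 3 20
(.haz 3 39 1 5
(.ask 13
(.mark 15 4 5 6
(.spn
(.haz 6 47 3 20
(.lp [1, 4] [3, 6] [0, 2, 5] [(.mj 0 1, 123), (.mj 1 2, 123), (.mj 2 3, 46), (.mj 3 4, 27), (.mj 4 5, 7), (.hz 8 39, 12620), (.hz 7 39, 2732), (.hz 9 47, 6531)])
(.lp [1, 4] [3, 6] [0, 2, 5] [(.mj 1 2, 6), (.mj 2 3, 11), (.mj 3 4, 12), (.mj 4 5, 6), (.hz 9 13, 14), (.hz 9 15, 950), (.hz 8 39, 2029), (.hz 7 39, 1347)]))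
(.lp [1, 4] [3, 6] [0, 2, 5] [(.mj 0 1, 8), (.mj 1 2, 10), (.mj 2 3, 1), (.mj 5 4, 2), (.hz 7 39, 44), (.hz 4 27, 409)])
(.lp [1, 4] [3, 6] [0, 2, 5] [(.mj 0 1, 7), (.mj 1 2, 7), (.mj 2 3, 1), (.mj 6 4, 1), (.hz 8 39, 140), (.hz 7 39, 70), (.hz 4 27, 70)])))
(.haz 3 23 1 5
(.ask 11
(.mark 15 4 5 6
(.spn
(.haz 5 79 1 10
(.ask 37
(.mark 39 3 4 7
(.lp [1, 4] [3, 6] [0, 2, 5, 7] [(.mj 2 3, 41693), (.mj 3 4, 31799), (.mj 4 5, 23418), (.rw 4, 4), (.hz 7 39, 2755010), (.hz 5 75, 10247029), (.hz 3 165, 4190556), (.hz 7 47, 2919980), (.hz 10 79, 18719631), (.hz 8 167, 13334906), (.hz 7 167, 3974837)]))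
(.lp [1, 4] [3, 6] [0, 2, 5] [(.mj 0 1, 4598), (.mj 2 3, 9338), (.mj 3 4, 5873), (.mj 4 5, 5059), (.rw 4, 1), (.hz 8 39, 2164652), (.hz 7 39, 587329), (.hz 5 75, 2583656), (.hz 10 79, 2782673)]))
(.lp [1, 4] [3, 6] [0, 2, 5] [(.mj 2 3, 4), (.mj 3 4, 3), (.hz 10 5, 509), (.hz 10 7, 79)]))
(.haz 4 11 3 20
(.lp [1, 4] [3, 6] [0, 2, 5] [(.mj 1 2, 26), (.mj 2 3, 15), (.mj 3 5, 10), (.mj 5 4, 27), (.hz 10 11, 2717), (.hz 10 15, 5405), (.hz 7 39, 2201), (.hz 4 75, 977), (.hz 10 75, 2010), (.hz 10 79, 7370)])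
(.lp [1, 4] [3, 6] [0, 2, 5] [(.mj 1 2, 23), (.mj 2 3, 16), (.mj 3 5, 8), (.mj 5 6, 4), (.hz 10 2, 514), (.hz 10 3, 2329), (.hz 9 23, 2670), (.hz 7 39, 1254), (.hz 5 75, 4610), (.hz 5 79, 4094)]))
(.lp [1, 4] [3, 6] [0, 2, 5] [(.mj 2 3, 7), (.mj 6 4, 6), (.mj 6 5, 4), (.hz 5 11, 2271), (.hz 3 37, 1077), (.hz 5 15, 1766), (.hz 8 39, 4335), (.hz 7 39, 1069), (.hz 5 75, 461), (.hz 7 47, 3793)])))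
(.ask 15
(.mark 15 4 5 6
(.spn
(.haz 3 39 3 10
(.haz 3 23 7 20
(.haz 4 79 1 5
(.haz 5 95 1 5
(.haz 6 63 3 10
(.ask 18
(.mark 31 5 6 7
(.spn
(.lp [3, 6] [0, 2, 5] [1, 4, 7] [(.mj 0 1, 125), (.mj 1 2, 84), (.mj 2 3, 69), (.mj 3 4, 26), (.mj 4 5, 36), (.mj 5 6, 17), (.hz 10 39, 7092), (.hz 12 79, 20928), (.hz 11 151, 7384), (.hz 14 63, 16043)])
(.lp [3, 6] [0, 2, 5] [1, 4, 7] [(.mj 0 1, 20), (.mj 1 2, 13), (.mj 2 3, 8), (.mj 4 6, 1), (.mj 6 5, 2), (.hz 10 39, 852), (.hz 7 39, 123), (.hz 11 55, 684), (.hz 11 151, 1215), (.hz 13 95, 2369)])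
(.lp [3, 6] [0, 2, 5] [1, 4, 7] [(.mj 0 1, 1082), (.mj 1 2, 607), (.mj 2 3, 242), (.mj 7 5, 103), (.mj 7 6, 91), (.hz 10 39, 16883), (.hz 7 39, 5234)])))
(.ask 19
(.mark 31 5 6 7
(.spn
(.ask 37
(.mark 63 6 7 8
(.lp [3, 6] [1, 4, 7] [0, 2, 5, 8] [(.mj 0 1, 58), (.mj 1 2, 58), (.mj 2 3, 23), (.mj 3 4, 22), (.mj 4 5, 9), (.mj 5 6, 10), (.hz 12 79, 10937), (.hz 10 295, 1455), (.hz 7 295, 2784)]))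
(.lp [3, 6] [0, 2, 5] [1, 4, 7] [(.mj 0 1, 125), (.mj 1 2, 40), (.mj 2 3, 62), (.mj 3 4, 22), (.mj 4 5, 45), (.mj 5 6, 21), (.hz 10 39, 6051), (.hz 12 79, 28394), (.hz 11 151, 6062), (.hz 14 63, 18351)]))
(.ask 37
(.mark 63 6 7 8
(.lp [3, 6] [1, 4, 7] [0, 2, 5, 8] [(.mj 0 1, 121), (.mj 1 2, 73), (.mj 2 3, 32), (.mj 4 6, 7), (.mj 6 5, 8), (.hz 10 39, 3569), (.hz 11 151, 3451), (.hz 7 295, 522), (.hz 13 95, 15824), (.hz 7 303, 428), (.hz 11 311, 1772)]))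
(.lp [3, 6] [0, 2, 5] [1, 4, 7] [(.mj 0 1, 70455), (.mj 1 2, 26913), (.mj 2 3, 24367), (.mj 4 6, 7080), (.mj 6 5, 11935), (.rw 5, 1), (.hz 10 39, 1941693), (.hz 7 39, 701658), (.hz 11 151, 3110143), (.hz 13 95, 32046141)]))
(.lp [3, 6] [0, 2, 5] [1, 4, 7] [(.mj 0 1, 20), (.mj 1 2, 20), (.mj 2 3, 13), (.mj 3 4, 14), (.mj 7 5, 7), (.mj 7 6, 6), (.hz 10 39, 138), (.hz 7 39, 3258), (.hz 12 79, 7689), (.hz 11 55, 2257)])))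
(.ask 23
(.mark 31 5 6 7
(.spn
(.ask 37
(.mark 39 3 4 8
(.lp [3, 6] [1, 4, 7] [0, 2, 5, 8] [(.mj 1 2, 18), (.mj 2 3, 14), (.mj 3 4, 10), (.hz 12 79, 1864), (.hz 11 151, 466), (.hz 10 295, 1363), (.hz 7 295, 1575)]))
(.ask 45
(.mark 47 4 6 8
(.lp [3, 6] [1, 4, 7] [0, 2, 5, 8] [(.mj 1 2, 12), (.mj 2 3, 11), (.mj 3 4, 8), (.mj 4 6, 1), (.hz 11 23, 317), (.hz 12 79, 243), (.hz 11 151, 61)]))
(.ask 39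
(.mark 63 6 7 8
(.spn
(.ask 79
(.mark 127 7 8 9
(.lp [1, 4, 7] [3, 6, 9] [0, 2, 5, 8] [(.mj 2 3, 9310), (.mj 3 4, 4799), (.mj 4 5, 3824), (.mj 5 6, 504), (.rw 5, 1), (.rw 6, 1), (.hz 11 151, 465119), (.hz 10 295, 782409), (.hz 7 295, 591014), (.hz 12 591, 2900627), (.hz 13 607, 3059392)]))
(.lp [3, 6] [1, 4, 7] [0, 2, 5, 8] [(.mj 2 3, 87), (.mj 3 4, 79), (.mj 4 5, 58), (.mj 5 6, 10), (.hz 10 295, 6019), (.hz 7 295, 7871)]))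
(.lp [3, 6] [1, 4, 7] [0, 2, 5, 8] [(.mj 1 2, 17423), (.mj 2 3, 8513), (.mj 3 4, 8795), (.mj 7 6, 606), (.rw 5, 1), (.hz 10 39, 461938), (.hz 12 79, 1211560), (.hz 7 295, 1529528), (.hz 14 63, 1817341)])
(.lp [3, 6] [1, 4, 7] [0, 2, 5, 8] [(.mj 1 2, 23), (.mj 2 3, 3089), (.mj 3 4, 2809), (.mj 4 5, 1885), (.mj 8 6, 840), (.rw 5, 1), (.hz 10 39, 122249), (.hz 12 79, 1680285), (.hz 7 295, 488579), (.hz 14 63, 2859336), (.hz 14 319, 1384307)])))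
(.lp [3, 6] [0, 2, 5] [1, 4, 7] [(.mj 1 2, 7), (.mj 2 3, 7), (.mj 3 4, 4), (.hz 11 23, 417)]))))
(.lp [3, 6] [0, 2, 5] [1, 4, 7] [(.mj 1 2, 10055), (.mj 2 3, 17149), (.mj 3 4, 8342), (.mj 6 5, 2290), (.rw 5, 1), (.hz 10 39, 1773331), (.hz 7 39, 1578404), (.hz 11 55, 2142072), (.hz 11 151, 997191)])
(.lp [3, 6] [0, 2, 5] [1, 4, 7] [(.mj 1 2, 14), (.mj 2 3, 18), (.mj 3 4, 17), (.mj 7 5, 6), (.mj 7 6, 2), (.hz 10 39, 1047), (.hz 7 39, 3580), (.hz 12 79, 11779), (.hz 11 55, 2851), (.hz 13 95, 34917)])))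
(.lp [1, 4] [3, 6] [0, 2, 5] [(.mj 1 2, 10), (.mj 2 3, 9), (.mj 3 4, 4), (.mj 4 5, 1), (.hz 10 39, 1359)]))))
(.lp [1, 4] [3, 6] [0, 2, 5] [(.mj 0 1, 27), (.mj 1 2, 27), (.mj 2 3, 30), (.mj 3 4, 22), (.mj 4 5, 13), (.hz 14 15, 4268), (.hz 10 39, 2289), (.hz 7 39, 2211), (.hz 12 79, 2097), (.hz 13 95, 10485)]))
(.lp [1, 4] [3, 6] [0, 2, 5] [(.mj 0 1, 109), (.mj 2 3, 108), (.hz 13 5, 9066), (.hz 13 7, 15865), (.hz 13 13, 6926), (.hz 13 15, 352), (.hz 11 23, 11332), (.hz 7 47, 1762), (.hz 12 79, 7046)]))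
(.lp [1, 4] [3, 6] [0, 2, 5] [(.mj 1 2, 44), (.mj 2 3, 16), (.mj 4 6, 2), (.hz 12 2, 2624), (.hz 12 3, 5903), (.hz 12 7, 4463), (.hz 10 39, 3550)]))
(.lp [1, 4] [3, 6] [0, 2, 5] [(.mj 2 3, 2), (.mj 3 4, 15), (.mj 4 5, 10), (.hz 11 7, 2497), (.hz 10 39, 3957), (.hz 7 39, 1471)]))
(.lp [1, 4] [3, 6] [0, 2, 5] [(.mj 0 1, 1), (.mj 2 3, 1), (.mj 3 4, 5), (.mj 4 5, 4), (.hz 10 7, 1704), (.hz 8 39, 2984), (.hz 7 39, 462)]))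
(.lp [1, 4] [3, 6] [0, 2, 5] [(.mj 1 2, 18), (.mj 5 4, 10), (.mj 5 6, 1), (.hz 5 15, 3802), (.hz 8 39, 588), (.hz 7 39, 428), (.hz 5 79, 4736)])
(.lp [1, 4] [3, 6] [0, 2, 5] [(.mj 1 2, 5649), (.mj 2 3, 7814), (.mj 6 4, 5649), (.rw 4, 1), (.hz 5 11, 2604806), (.hz 5 15, 3281378), (.hz 8 39, 3530865), (.hz 7 39, 706173), (.hz 7 47, 2118519)])))
(.spn
(.lp [3] [1, 4] [0, 2, 5] [(.mj 1 2, 2), (.mj 2 3, 3), (.mj 3 4, 4), (.mj 4 5, 2), (.hz 8 39, 692), (.hz 7 39, 425)])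
(.lp [3] [1, 4] [0, 2, 5] [(.mj 1 2, 5), (.mj 5 4, 3), (.hz 7 39, 124)])
.fin)))
(.lp [3] [1, 4] [0, 2, 5] [(.mj 1 2, 4), (.mj 3 4, 6), (.mj 3 5, 3), (.hz 9 3, 1736), (.hz 9 7, 1983), (.hz 5 11, 9), (.hz 7 39, 1053)])))
(.lp [3] [1, 4] [0, 2, 5] [(.mj 1 2, 3), (.mj 3 4, 4), (.mj 3 5, 2), (.hz 8 3, 1262), (.hz 8 5, 140), (.hz 8 7, 1262), (.hz 6 39, 34), (.hz 7 39, 749)]))
(.lp [3] [1, 4] [0, 2, 5] [(.mj 1 2, 126), (.mj 2 3, 85), (.mj 3 5, 23), (.hz 7 2, 2312), (.hz 7 3, 5032), (.hz 7 7, 4513), (.hz 5 11, 12723), (.hz 6 39, 6638), (.hz 5 47, 6964)]))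
(.lp [3] [1, 4] [0, 2, 5] [(.mj 0 1, 3), (.mj 1 2, 5), (.mj 3 4, 3), (.mj 3 5, 2), (.hz 6 3, 319), (.hz 6 7, 237)]))
(.cut 4 [(0, 1), (1, 1), (2, 1), (3, 1), (5, 1), (9, 1), (7, 1), (13, 1), (37, 1)]
(.lp [3] [1, 4] [0, 2, 5] [(.mj 1 2, 5426), (.mj 2 3, 4429), (.mj 3 5, 1536), (.hz 5 2, 206132), (.hz 5 3, 871881), (.rw 4, 1)])))
(.haz 5 15 1 5
(.cut 3 [(0, 1), (1, 1), (2, 1), (3, 1), (5, 1), (18, 1), (7, 1)]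
(.lp [3] [1, 4] [0, 2, 5] [(.mj 0 1, 47942), (.mj 1 2, 23971), (.mj 4 3, 8119), (.mj 4 5, 3995), (.hz 4 9, 589114), (.hz 4 11, 1344127), (.hz 5 15, 7255577), (.rw 4, 1)]))
(.lp [3] [1, 4] [0, 2, 5] [(.mj 0 1, 9), (.mj 1 2, 3), (.mj 4 3, 2), (.hz 5 5, 226), (.hz 5 7, 358), (.hz 2 13, 228)]))
(.haz 3 7 1 5
(.lp [3] [1, 4] [0, 2, 5] [(.mj 0 1, 47), (.mj 1 2, 31), (.mj 5 3, 14), (.hz 5 7, 4959), (.hz 4 11, 749), (.hz 5 23, 2807), (.hz 5 39, 2807)])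
(.cut 3 [(0, 1), (1, 1), (2, 1), (3, 1), (5, 1), (18, 1), (7, 1)]
(.lp [3] [1, 4] [0, 2, 5] [(.mj 0 1, 27227), (.mj 1 2, 27227), (.mj 5 3, 162), (.mj 5 4, 2788), (.hz 5 3, 3117186), (.hz 4 9, 655537), (.hz 4 27, 554983), (.rw 4, 2)])))))

theorem run4 : run (mkLeaf Leaf.nleaf) cutRow [] t4 s4 = true := by
  decide +kernel

/-- the state above part 5 of the tree -/
def s5 : St := ⟨[0, 0, 1, 1, 2, 7, 13], [7, 5, 3, 9, 1, 0], [0, 1, 2, 3],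
  [],
  [⟨true, 1, 9, 3, 20⟩, ⟨true, 2, 9, 1, 5⟩, ⟨true, 1, 9, 1, 4⟩, ⟨true, 1, 5, 1, 4⟩, ⟨true, 2, 9, 3, 10⟩, ⟨true, 3, 39, 1, 10⟩, ⟨true, 3, 39, 3, 20⟩],
  [.spn 0 0 666000, .spn 1 1 165501, .spn 3 2 165501, .spn 7 3 77954]⟩

/-- part 5 of the tree -/
noncomputable def t5 : Tree :=
(.mark 15 4 5 6
(.spn
(.haz 5 15 7 20
(.lp [1, 4] [3, 6] [0, 2, 5] [(.mj 0 1, 60), (.mj 1 2, 60), (.mj 2 3, 47), (.mj 3 4, 49), (.mj 4 5, 49), (.hz 7 15, 6511), (.hz 2 77, 5163), (.hz 7 31, 3652), (.hz 7 79, 12174)])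
(.haz 5 79 3 20
(.haz 6 47 7 20
(.ask 18
(.mark 23 3 5 7
(.lp [3, 6] [0, 2, 5] [1, 4, 7] [(.mj 0 1, 55), (.mj 1 2, 17), (.mj 2 3, 32), (.mj 3 4, 12), (.mj 4 5, 4), (.mj 4 6, 11), (.hz 7 7, 1861), (.hz 9 47, 4167)]))
(.ask 39
(.mark 39 3 4 7
(.ask 167
(.mark 175 4 6 8
(.lp [1, 4] [3, 6] [0, 2, 5, 7, 8] [(.mj 0 1, 33), (.mj 2 3, 65), (.mj 3 4, 61), (.mj 4 5, 6), (.mj 4 6, 34), (.hz 7 7, 4711), (.hz 9 47, 6894), (.hz 9 175, 11290), (.hz 6 423, 4441), (.hz 9 431, 14464)]))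
(.lp [1, 4] [3, 6] [0, 2, 5, 7] [(.mj 2 3, 12), (.mj 3 4, 11), (.mj 4 5, 4), (.mj 4 6, 5), (.hz 9 47, 2257), (.hz 9 175, 1769)])))
(.lp [1, 4] [3, 6] [0, 2, 5] [(.mj 2 3, 5), (.mj 3 4, 4), (.mj 4 6, 2), (.hz 7 15, 567), (.hz 9 47, 603)])))
(.lp [1, 4] [3, 6] [0, 2, 5] [(.mj 0 1, 76), (.mj 2 3, 24), (.mj 4 5, 13), (.hz 9 13, 2004), (.hz 7 15, 1034), (.hz 9 15, 3088), (.hz 8 79, 3161)]))
(.lp [1, 4] [3, 6] [0, 2, 5] [(.mj 2 3, 2), (.mj 3 4, 2), (.mj 4 6, 1), (.hz 8 7, 180), (.hz 8 15, 226)])))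
(.ask 39
(.mark 47 4 6 7
(.spn
(.haz 7 111 1 4
(.haz 4 111 3 20
(.haz 4 175 3 20
(.ask 18
(.mark 63 6 7 8
(.spn
(.lp [3, 6] [1, 4, 8] [0, 2, 5, 7] [(.mj 4 6, 263), (.mj 5 4, 658), (.mj 6 7, 263), (.rw 5, 1)])
(.haz 6 47 1 4
(.lp [3, 6] [1, 4, 8] [0, 2, 5, 7] [(.mj 3 5, 546), (.mj 4 7, 729), (.mj 5 4, 1275), (.mj 7 6, 1275), (.rw 5, 1), (.hz 10 47, 273210), (.hz 10 63, 11019451), (.hz 10 175, 1912467)])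
(.haz 7 111 2 5
(.lp [3, 6] [1, 4, 8] [0, 2, 5, 7] [(.mj 3 5, 40), (.mj 4 7, 40), (.mj 5 4, 46), (.hz 10 13, 14150), (.hz 10 15, 61318), (.hz 10 47, 26701), (.hz 8 111, 433), (.hz 11 111, 83646)])
(.lp [3, 6] [1, 4, 8] [0, 2, 5, 7] [(.mj 3 5, 1), (.mj 5 4, 1), (.hz 10 13, 241), (.hz 10 15, 1045), (.hz 10 47, 2295), (.hz 11 47, 1758)])))
(.lp [3, 6] [1, 4, 8] [0, 2, 5, 7] [(.mj 5 4, 627), (.mj 8 6, 316), (.mj 8 7, 316), (.rw 5, 1)])))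
(.ask 19
(.mark 63 6 7 8
(.spn
(.lp [3, 6] [1, 4, 8] [0, 2, 5, 7] [(.mj 4 6, 263), (.mj 5 4, 658), (.mj 6 7, 263), (.rw 5, 1)])
(.haz 6 47 1 4
(.lp [3, 6] [1, 4, 8] [0, 2, 5, 7] [(.mj 3 5, 546), (.mj 4 7, 729), (.mj 5 4, 1275), (.mj 7 6, 1275), (.rw 5, 1), (.hz 10 47, 273210), (.hz 10 63, 11019451), (.hz 10 175, 1912467)])
(.haz 7 111 2 5
(.lp [3, 6] [1, 4, 8] [0, 2, 5, 7] [(.mj 3 5, 34), (.mj 4 7, 33), (.mj 5 4, 43), (.mj 7 6, 8), (.hz 10 13, 10578), (.hz 10 15, 45837), (.hz 8 111, 13755), (.hz 11 111, 69124)])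
(.lp [3, 6] [1, 4, 8] [0, 2, 5, 7] [(.mj 3 5, 1), (.mj 5 4, 1), (.hz 10 13, 241), (.hz 10 15, 1045), (.hz 10 47, 2298), (.hz 11 47, 1760)])))
(.lp [3, 6] [1, 4, 8] [0, 2, 5, 7] [(.mj 5 4, 685), (.mj 8 6, 335), (.mj 8 7, 335), (.rw 5, 1)])))
(.haz 6 47 7 20
(.lp [1, 4] [3, 6] [0, 2, 5, 7] [(.mj 3 5, 13), (.mj 4 6, 17), (.mj 4 7, 3), (.mj 5 4, 17), (.hz 10 47, 1477), (.hz 6 167, 487), (.hz 10 63, 4149), (.hz 9 175, 1635), (.hz 10 175, 7292)])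
(.ask 77
(.mark 111 4 7 8
(.lp [1, 4] [3, 6, 8] [0, 2, 5, 7] [(.mj 1 2, 379), (.mj 2 3, 63), (.mj 3 5, 47), (.mj 4 7, 82), (.mj 5 4, 192), (.hz 10 13, 758), (.hz 8 111, 43240), (.hz 7 111, 123934), (.hz 9 175, 848), (.hz 8 367, 8932), (.hz 7 367, 338109)]))
(.ask 27
(.mark 63 6 7 8
(.spn
(.lp [3, 6] [1, 4, 8] [0, 2, 5, 7] [(.mj 2 3, 1532), (.mj 3 5, 766), (.mj 4 6, 287), (.mj 5 4, 718), (.mj 6 7, 287), (.rw 5, 1)])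
(.ask 167
(.mark 191 6 8 9
(.lp [3, 6] [1, 4, 8] [0, 2, 5, 7, 9] [(.mj 2 3, 89), (.mj 3 5, 53), (.mj 4 7, 1), (.mj 5 4, 1), (.mj 7 6, 4), (.hz 10 15, 579)]))
(.ask 183
(.mark 191 6 8 9
(.lp [3, 6] [1, 4, 8] [0, 2, 5, 7, 9] [(.mj 3 4, 7), (.mj 4 6, 6), (.mj 5 4, 4)]))
(.ask 175
(.mark 191 6 8 9
(.spn
(.lp [3, 6] [1, 4, 8] [0, 2, 5, 7, 9] [(.mj 2 3, 26), (.mj 4 7, 2), (.mj 5 4, 4), (.mj 6 9, 3), (.mj 7 6, 1)])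
(.lp [3, 6] [1, 4, 8] [0, 2, 5, 7, 9] [(.mj 2 3, 32), (.mj 4 7, 2), (.mj 5 4, 4), (.mj 8 6, 1), (.mj 8 9, 3)])
(.cut 6 [(0, 1), (1, 1), (2, 1), (3, 1), (5, 1), (9, 1), (18, 1), (7, 1), (11, 1), (13, 1), (19, 1), (15, 1), (23, 1), (27, 1), (39, 1), (31, 1), (47, 1), (55, 1), (167, 1), (283, 1), (63, 1), (175, 1), (183, 1), (191, 1)]
(.lp [3, 6] [1, 4, 8] [0, 2, 5, 7, 9] [(.mj 2 3, 4696), (.mj 3 5, 3162), (.mj 4 7, 641), (.mj 5 4, 767), (.mj 9 6, 921), (.rw 8, 1)]))))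
(.lp [3, 6] [1, 4, 8] [0, 2, 5, 7] [(.mj 3 5, 14), (.mj 4 6, 9), (.mj 5 4, 16), (.hz 10 15, 1630), (.hz 8 111, 4726)]))))
(.lp [3, 6] [1, 4, 8] [0, 2, 5, 7] [(.mj 2 3, 21), (.mj 3 5, 11), (.mj 8 6, 1), (.mj 8 7, 1)])))
(.haz 6 31 3 20
(.ask 23
(.mark 63 6 7 8
(.spn
(.lp [3, 6] [1, 4, 8] [0, 2, 5, 7] [(.mj 4 6, 271), (.mj 5 4, 687), (.mj 6 7, 271), (.rw 5, 1)])
(.haz 6 175 3 20
(.lp [3, 6] [1, 4, 8] [0, 2, 5, 7] [(.mj 3 5, 17), (.mj 4 7, 38), (.mj 5 4, 53), (.mj 7 6, 50), (.hz 10 15, 1094), (.hz 11 31, 44504), (.hz 11 63, 50103), (.hz 12 175, 20096)])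
(.lp [3, 6] [1, 4, 8] [0, 2, 5, 7] [(.mj 3 5, 4), (.mj 4 7, 4), (.mj 5 4, 5), (.hz 12 15, 1400), (.hz 12 47, 1429)]))
(.lp [3, 6] [1, 4, 8] [0, 2, 5, 7] [(.mj 5 4, 703), (.mj 8 6, 278), (.mj 8 7, 278), (.rw 5, 1)])))
(.ask 55
(.mark 63 6 7 8
(.spn
(.lp [3, 6] [1, 4, 8] [0, 2, 5, 7] [(.mj 3 5, 61137), (.mj 4 6, 123312), (.mj 5 4, 210128), (.mj 6 7, 99710), (.rw 6, 28), (.hz 10 15, 14436632), (.hz 7 111, 215795454), (.hz 9 175, 115200854), (.hz 11 319, 46295878), (.hz 7 383, 925917558)])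
(.haz 6 47 1 4
(.lp [3, 6] [1, 4, 8] [0, 2, 5, 7] [(.mj 3 5, 2), (.mj 4 7, 2), (.mj 5 4, 3), (.mj 7 6, 4), (.hz 12 47, 998), (.hz 12 63, 27337), (.hz 12 175, 5043), (.hz 12 319, 416)])
(.lp [3, 6] [1, 4, 8] [0, 2, 5, 7] [(.mj 3 5, 30), (.mj 4 7, 7), (.mj 5 4, 7), (.mj 7 6, 9), (.hz 12 15, 14620), (.hz 11 63, 3666), (.hz 7 111, 18288), (.hz 11 319, 9535)]))
(.lp [3, 6] [1, 4, 8] [0, 2, 5, 7] [(.mj 3 5, 2), (.mj 5 4, 6), (.mj 8 6, 3), (.mj 8 7, 3), (.hz 10 15, 678), (.hz 11 31, 3316), (.hz 11 63, 2491), (.hz 7 111, 12218), (.hz 9 175, 3559)])))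
(.ask 31
(.mark 63 6 7 8
(.spn
(.lp [3, 6] [1, 4, 8] [0, 2, 5, 7] [(.mj 2 3, 752), (.mj 5 4, 493), (.mj 6 7, 299), (.rw 5, 1), (.hz 10 47, 43408), (.hz 6 167, 38740), (.hz 11 287, 724965)])
(.haz 6 175 3 20
(.lp [3, 6] [1, 4, 8] [0, 2, 5, 7] [(.mj 3 5, 20), (.mj 4 7, 38), (.mj 5 4, 53), (.mj 7 6, 56), (.hz 11 31, 46558), (.hz 11 63, 57376), (.hz 12 175, 21503)])
(.lp [3, 6] [1, 4, 8] [0, 2, 5, 7] [(.mj 3 5, 2), (.mj 4 7, 3), (.mj 5 4, 4), (.hz 12 15, 967), (.hz 11 31, 1008), (.hz 12 47, 586), (.hz 7 111, 8438)]))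
(.lp [3, 6] [1, 4, 8] [0, 2, 5, 7] [(.mj 3 5, 72), (.mj 5 4, 965), (.mj 8 6, 298), (.mj 8 7, 445), (.rw 5, 1), (.hz 10 15, 84374), (.hz 11 31, 687611), (.hz 7 111, 1689660), (.hz 9 175, 292437)])))
(.ask 63
(.mark 63 6 7 8
(.spn
(.ask 79
(.mark 111 4 7 9
(.lp [1, 4, 8] [3, 6, 9] [0, 2, 5, 7] [(.mj 1 2, 12860), (.mj 3 5, 410), (.mj 4 7, 2501), (.mj 5 4, 8787), (.mj 6 7, 1336), (.rw 6, 1), (.hz 10 15, 808989), (.hz 9 175, 1719551), (.hz 11 319, 333956), (.hz 8 623, 5523344), (.hz 7 623, 9691906), (.hz 7 383, 6679120)]))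
(.lp [3, 6] [1, 4, 8] [0, 2, 5, 7] [(.mj 2 3, 1322), (.mj 5 4, 5094), (.mj 6 7, 3067), (.rw 6, 1), (.hz 10 47, 2019469), (.hz 9 175, 3830867)]))
(.haz 6 175 3 20
(.lp [3, 6] [1, 4, 8] [0, 2, 5, 7] [(.mj 3 5, 20), (.mj 4 7, 38), (.mj 5 4, 53), (.mj 7 6, 56), (.hz 11 31, 46558), (.hz 11 63, 57376), (.hz 12 175, 21503)])
(.lp [3, 6] [1, 4, 8] [0, 2, 5, 7] [(.mj 2 3, 1), (.mj 4 7, 3), (.mj 5 4, 4), (.hz 12 15, 670), (.hz 11 31, 1744), (.hz 12 47, 436), (.hz 7 111, 7511)]))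
(.lp [3, 6] [1, 4, 8] [0, 2, 5, 7] [(.mj 5 4, 2577), (.mj 8 6, 341), (.rw 6, 1), (.hz 10 15, 28040), (.hz 11 31, 2219325), (.hz 6 167, 207097), (.hz 11 63, 2253372), (.hz 7 111, 597256), (.hz 9 175, 2205428)])))
(.spn
(.lp [1, 4] [3, 6] [0, 2, 5, 7] [(.mj 4 6, 263), (.mj 5 4, 658), (.mj 6 7, 263), (.rw 5, 1)])
(.haz 6 47 1 4
(.lp [1, 4] [3, 6] [0, 2, 5, 7] [(.mj 3 5, 16), (.mj 4 7, 1), (.mj 7 6, 9), (.hz 12 47, 8017), (.hz 12 63, 34742), (.hz 12 175, 2048)])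
(.lp [1, 4] [3, 6] [0, 2, 5, 7] [(.mj 3 5, 30), (.mj 4 7, 7), (.mj 5 4, 7), (.mj 7 6, 9), (.hz 12 15, 14620), (.hz 11 63, 3666), (.hz 7 111, 18288)]))
.fin)))))
(.lp [1, 4] [3, 6] [0, 2, 5, 7] [(.mj 2 3, 2), (.mj 4 7, 7), (.mj 5 4, 10), (.hz 11 15, 1972), (.hz 8 111, 4662), (.hz 7 111, 17879), (.hz 9 175, 17)])))))))
(.lp [1, 4] [3, 6] [0, 2, 5, 7] [(.mj 4 6, 110), (.mj 4 7, 327), (.rw 5, 1), (.hz 9 47, 763140), (.hz 8 111, 27517), (.hz 7 111, 1051151)]))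
(.lp [1, 4] [3, 6] [0, 2, 5, 7] [(.mj 4 6, 186), (.mj 4 7, 522), (.rw 5, 2), (.hz 8 47, 1217030), (.hz 7 111, 1695149)]))
(.lp [1, 4] [3, 6] [0, 2, 5, 7] [(.mj 2 3, 111), (.mj 4 6, 735), (.mj 5 4, 1063), (.hz 7 39, 319009), (.hz 7 47, 1202062)]))
(.haz 3 167 1 4
(.haz 4 7 1 10
(.lp [1, 4] [3, 6] [0, 2, 5, 7] [(.mj 1 2, 101), (.mj 6 4, 52), (.mj 6 7, 1), (.hz 8 7, 5635), (.hz 8 15, 17530), (.hz 8 39, 6261), (.hz 8 47, 26434), (.hz 8 79, 2013), (.hz 7 167, 5587), (.hz 8 167, 8134), (.hz 8 175, 37877)])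
(.lp [1, 4] [3, 6] [0, 2, 5, 7] [(.mj 1 2, 590), (.mj 2 3, 98), (.mj 3 5, 41), (.mj 6 4, 32), (.mj 6 7, 59), (.hz 8 2, 13466), (.hz 8 3, 42261), (.hz 7 167, 21650)]))
(.lp [1, 4] [3, 6] [0, 2, 5, 7] [(.mj 0 1, 73), (.mj 3 5, 8), (.mj 6 7, 11), (.hz 7 5, 15895), (.hz 7 7, 795), (.hz 7 39, 10331), (.hz 6 167, 2914)]))
(.haz 5 79 7 20
(.haz 2 19 9 20
(.haz 6 47 1 20
(.ask 167
(.mark 175 4 6 8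
(.spn
(.lp [1, 4] [3, 6] [0, 2, 5, 7, 8] [(.mj 1 2, 2420), (.mj 3 5, 1210), (.mj 4 6, 308), (.mj 7 4, 1517), (.rw 6, 2), (.hz 9 63, 2511198), (.hz 9 175, 63671), (.hz 9 431, 130694)])
(.cut 4 [(0, 1), (1, 1), (2, 1), (3, 1), (5, 1), (9, 1), (7, 1), (11, 1), (13, 1), (15, 1), (39, 1), (77, 1), (47, 1), (79, 1), (111, 1)]
(.cut 4 [(0, 1), (1, 1), (2, 1), (3, 1), (5, 1), (9, 1), (7, 1), (11, 1), (13, 1), (15, 1), (39, 1), (77, 1), (47, 1), (167, 1), (175, 1)]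
(.lp [1, 4] [3, 6] [0, 2, 5, 7, 8] [(.mj 0 1, 10125), (.mj 1 2, 40685), (.mj 3 5, 851), (.mj 6 4, 7877), (.mj 7 6, 4731), (.rw 6, 5), (.hz 8 19, 526896), (.hz 8 27, 1089417), (.hz 6 55, 110533), (.hz 6 439, 1036981), (.rw 7, 3), (.rw 8, 10)])))
(.ask 77
(.mark 239 4 8 9
(.cut 4 [(0, 1), (1, 1), (2, 1), (3, 1), (5, 1), (9, 1), (7, 1), (11, 1), (13, 1), (15, 1), (39, 1), (77, 1), (47, 1), (79, 1), (167, 1), (111, 1), (175, 1), (239, 1)]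
(.lp [1, 4] [3, 6, 9] [0, 2, 5, 7, 8] [(.mj 0 1, 5019), (.mj 1 2, 21192), (.mj 3 5, 1662), (.mj 8 4, 4851), (.hz 8 19, 278840), (.hz 8 27, 557680), (.hz 2 589, 2753412), (.hz 7 95, 397990), (.hz 9 175, 298571), (.hz 7 591, 338178), (.rw 7, 7)])))
(.cut 4 [(0, 1), (1, 1), (2, 1), (3, 1), (5, 1), (9, 1), (7, 1), (11, 1), (13, 1), (15, 1), (39, 1), (77, 1), (47, 1)]
(.lp [1, 4] [3, 6] [0, 2, 5, 7, 8] [(.mj 3 5, 966), (.mj 8 4, 527), (.mj 8 6, 458), (.hz 7 79, 52294), (.hz 7 95, 453932), (.hz 9 175, 129929), (.rw 7, 1)])))))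
(.ask 175
(.mark 175 4 6 8
(.spn
(.cut 6 [(0, 1), (1, 1), (2, 1), (3, 1), (5, 1), (9, 1), (18, 1), (7, 1), (11, 1), (13, 1), (19, 1), (15, 1), (23, 1), (27, 1), (39, 1), (31, 1), (47, 1), (55, 1), (167, 1), (63, 1), (175, 1), (183, 1)]
(.lp [1, 4] [3, 6] [0, 2, 5, 7, 8] [(.mj 1 2, 154227), (.mj 3 5, 77114), (.mj 4 6, 11016), (.mj 7 4, 110162), (.rw 6, 179), (.hz 9 63, 171621140), (.rw 7, 11)]))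
(.cut 4 [(0, 1), (1, 1), (2, 1), (3, 1), (5, 1), (9, 1), (7, 1), (11, 1), (13, 1), (15, 1), (39, 1), (77, 1), (47, 1), (79, 1), (111, 1)]
(.cut 4 [(0, 1), (1, 1), (2, 1), (3, 1), (5, 1), (9, 1), (7, 1), (11, 1), (13, 1), (15, 1), (39, 1), (77, 1), (47, 1), (167, 1), (175, 1)]
(.lp [1, 4] [3, 6] [0, 2, 5, 7, 8] [(.mj 0 1, 9741), (.mj 1 2, 41129), (.mj 2 3, 353), (.mj 6 4, 7832), (.mj 7 6, 4838), (.rw 6, 6), (.hz 8 19, 541176), (.hz 8 27, 964748), (.rw 7, 3), (.rw 8, 11)])))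
(.ask 77
(.mark 239 4 8 9
(.cut 4 [(0, 1), (1, 1), (2, 1), (3, 1), (5, 1), (9, 1), (7, 1), (11, 1), (13, 1), (15, 1), (39, 1), (77, 1), (47, 1), (79, 1), (167, 1), (589, 1), (111, 1), (175, 1), (239, 1)]
(.lp [1, 4] [3, 6, 9] [0, 2, 5, 7, 8] [(.mj 0 1, 13068), (.mj 1 2, 55174), (.mj 3 5, 8022), (.mj 8 4, 13881), (.hz 8 19, 725977), (.hz 8 27, 1451954), (.hz 2 589, 15999623), (.hz 7 95, 11697988), (.hz 9 175, 501489), (.hz 7 591, 501489), (.rw 7, 22)])))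
(.cut 4 [(0, 1), (1, 1), (2, 1), (3, 1), (5, 1), (9, 1), (7, 1), (11, 1), (13, 1), (15, 1), (39, 1), (77, 1), (47, 1), (79, 1), (111, 1)]
(.cut 4 [(0, 1), (1, 1), (2, 1), (3, 1), (5, 1), (9, 1), (7, 1), (11, 1), (13, 1), (15, 1), (39, 1), (77, 1), (47, 1)]
(.lp [1, 4] [3, 6] [0, 2, 5, 7, 8] [(.mj 1 2, 139818), (.mj 3 5, 22461), (.mj 8 4, 61326), (.mj 8 6, 13033), (.hz 7 95, 35634784), (.hz 9 175, 12351249), (.rw 7, 7), (.rw 8, 107)]))))))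
(.lp [1, 4] [3, 6] [0, 2, 5, 7] [(.mj 1 2, 65), (.mj 3 5, 2), (.mj 7 4, 72), (.mj 7 6, 76)])))
(.cut 4 [(0, 1), (1, 1), (2, 1), (3, 1), (5, 1), (9, 1), (7, 1), (11, 1), (13, 1), (15, 1)]
(.lp [1, 4] [3, 6] [0, 2, 5, 7] [(.mj 3 5, 1873), (.mj 7 4, 786), (.hz 9 13, 146812), (.hz 9 15, 253745), (.hz 7 95, 364955), (.rw 6, 1)])))
(.lp [1, 4] [3, 6] [0, 2, 5, 7] [(.mj 0 1, 60), (.mj 1 2, 26), (.mj 2 3, 10), (.mj 7 4, 1), (.mj 7 6, 3), (.hz 8 3, 1256), (.hz 7 79, 380)]))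
(.lp [1, 4] [3, 6] [0, 2, 5, 7] [(.mj 1 2, 65), (.mj 2 3, 6), (.mj 7 4, 62), (.mj 7 6, 52), (.hz 7 7, 4660), (.hz 7 15, 13253)]))))
(.ask 47
(.mark 47 4 6 7
(.spn
(.haz 7 111 3 10
(.haz 6 63 3 20
(.haz 4 47 1 4
(.lp [1, 4] [3, 6] [0, 2, 5, 7] [(.mj 1 2, 14487), (.mj 2 3, 4829), (.mj 5 4, 9658), (.rw 5, 1), (.hz 9 47, 14486578), (.hz 8 63, 5070302)])
(.lp [1, 4] [3, 6] [0, 2, 5, 7] [(.mj 2 3, 26183), (.mj 4 6, 2439), (.mj 4 7, 7421), (.mj 5 4, 15531), (.rw 5, 11), (.hz 9 39, 7765256), (.hz 8 63, 10428278), (.hz 7 111, 9134069)]))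
(.lp [1, 4] [3, 6] [0, 2, 5, 7] [(.mj 2 3, 4), (.mj 4 7, 14), (.mj 5 4, 19), (.hz 8 13, 616), (.hz 8 15, 2574), (.hz 8 47, 1608), (.hz 7 111, 14368)]))
(.lp [1, 4] [3, 6] [0, 2, 5, 7] [(.mj 2 3, 3), (.mj 4 6, 10), (.mj 5 4, 14), (.hz 7 47, 6519)]))
(.haz 4 7 3 20
(.lp [1, 4] [3, 6] [0, 2, 5, 7] [(.mj 1 2, 1), (.mj 2 3, 2), (.mj 6 4, 2), (.hz 7 7, 18), (.hz 7 15, 583), (.hz 7 39, 21), (.hz 7 47, 394), (.hz 7 175, 108)])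
(.cut 4 [(0, 1), (1, 1), (2, 1), (3, 1), (5, 1), (9, 1), (7, 1), (11, 1), (13, 1), (15, 1), (39, 1), (77, 1), (47, 1)]
(.lp [1, 4] [3, 6] [0, 2, 5, 7] [(.mj 1 2, 10429), (.mj 2 3, 6245), (.mj 6 4, 2686), (.rw 5, 1), (.hz 7 2, 86152), (.hz 7 3, 187508), (.rw 6, 4)])))
(.ask 175
(.mark 175 4 6 8
(.spn
(.lp [1, 4] [3, 6] [0, 2, 5, 7, 8] [(.mj 7 4, 318), (.rw 6, 1)])
(.cut 4 [(0, 1), (1, 1), (2, 1), (3, 1), (5, 1), (9, 1), (7, 1), (11, 1), (13, 1), (15, 1), (39, 1), (77, 1), (47, 1)]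
(.lp [1, 4] [3, 6] [0, 2, 5, 7, 8] [(.mj 1 2, 4693), (.mj 2 3, 552), (.rw 5, 1), (.rw 6, 2), (.rw 7, 2)]))
(.haz 6 15 3 20
(.cut 4 [(0, 1), (1, 1), (2, 1), (3, 1), (5, 1), (9, 1), (7, 1), (11, 1), (13, 1), (15, 1), (39, 1), (77, 1), (47, 1), (79, 1)]
(.cut 4 [(0, 1), (1, 1), (2, 1), (3, 1), (5, 1), (9, 1), (7, 1), (11, 1), (13, 1), (15, 1), (39, 1), (77, 1), (47, 1), (175, 1)]
(.lp [1, 4] [3, 6] [0, 2, 5, 7, 8] [(.mj 1 2, 26757), (.mj 8 6, 7968), (.rw 6, 10), (.hz 7 15, 557861), (.hz 2 77, 14158324), (.hz 7 47, 9046233), (.hz 7 175, 7420622), (.rw 7, 5), (.rw 8, 19)])))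
(.cut 4 [(0, 1), (1, 1), (2, 1), (3, 1), (5, 1), (9, 1), (7, 1), (11, 1), (13, 1), (15, 1), (39, 1), (77, 1), (47, 1)]
(.lp [1, 4] [3, 6] [0, 2, 5, 7, 8] [(.mj 2 3, 14601), (.mj 8 4, 4771), (.hz 7 13, 986064), (.hz 2 77, 2986500), (.rw 7, 11)])))))
(.lp [1, 4] [3, 6] [0, 2, 5, 7] [(.mj 7 6, 1), (.rw 5, 1)]))))
(.spn
(.lp [1, 4] [3, 6] [0, 2, 5] [(.mj 4 6, 2), (.mj 5 4, 3)])
(.cut 4 [(0, 1), (1, 1), (2, 1), (3, 1), (5, 1), (9, 1), (7, 1), (11, 1), (13, 1), (15, 1), (39, 1), (77, 1), (47, 1)]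
(.lp [1, 4] [3, 6] [0, 2, 5] [(.mj 5 6, 1862), (.rw 5, 1), (.rw 6, 1)]))
.fin)))
(.haz 5 15 7 20
(.cut 4 [(0, 1), (1, 1), (2, 1), (3, 1), (5, 1), (9, 1), (7, 1), (11, 1), (13, 1), (15, 1), (77, 1)]
(.lp [1, 4] [3, 6] [0, 2, 5] [(.mj 0 1, 7829), (.mj 1 2, 7829), (.mj 2 3, 1472), (.mj 6 4, 1174), (.mj 6 5, 1174), (.hz 7 15, 126137), (.hz 7 31, 1119439), (.rw 5, 1)]))
(.haz 5 79 1 5
(.cut 4 [(0, 1), (1, 1), (2, 1), (3, 1), (5, 1), (9, 1), (7, 1), (11, 1), (13, 1), (15, 1), (77, 1)]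
(.lp [1, 4] [3, 6] [0, 2, 5] [(.mj 0 1, 27164), (.mj 1 2, 37104), (.mj 2 3, 13713), (.mj 6 4, 11196), (.mj 6 5, 1729), (.hz 7 7, 710026), (.hz 7 15, 386885), (.hz 8 95, 15587966), (.rw 5, 7)]))
(.lp [1, 4] [3, 6] [0, 2, 5] [(.mj 0 1, 21), (.mj 1 2, 23), (.mj 2 3, 3), (.mj 6 4, 3), (.hz 8 7, 805), (.hz 8 15, 1540), (.hz 4 27, 303)])))))

theorem run5 : run (mkLeaf Leaf.nleaf) cutRow [] t5 s5 = true := by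
  decide +kernel

end Pool.Agent.W3.Data
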