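import Pool.Agent.W3.CutRow
import Pool.Agent.W3.LeafRow

/-!
# The search tree, part 5
-/

set_option autoImplicit false

namespace Pool.Agent.W3.Data

/-- the state above part 6 of the tree -/
def s6 : St := ⟨[0, 0, 1, 1, 2, 7], [13, 7, 5, 3, 9, 1, 0], [0, 1, 2, 3],
  [],
  [⟨true, 1, 9, 3, 20⟩, ⟨true, 2, 9, 1, 5⟩, ⟨true, 1, 9, 1, 4⟩, ⟨true, 1, 5, 1, 4⟩, ⟨true, 2, 9, 3, 10⟩, ⟨true, 3, 39, 1, 10⟩, ⟨true, 3, 39, 3, 20⟩],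
  [.spn 0 0 666000, .spn 1 1 165501, .spn 3 2 165501, .spn 7 3 77954]⟩

/-- part 6 of the tree -/
noncomputable def t6 : Tree :=
(.haz 4 39 1 20
(.haz 3 39 1 4
(.ask 11
(.mark 15 4 5 6
(.spn
(.lp [1, 4] [3, 6] [0, 2, 5] [(.mj 0 1, 23), (.mj 2 3, 8), (.mj 4 5, 3), (.hz 8 39, 1311)])
(.ask 39
(.mark 47 4 6 7
(.spn
(.haz 6 175 3 20
(.haz 6 63 1 4
(.lp [1, 4] [3, 6] [0, 2, 5, 7] [(.mj 0 1, 150588), (.mj 2 3, 63305), (.mj 3 5, 18862), (.mj 4 7, 4662), (.rw 5, 26), (.hz 7 167, 2361552), (.hz 10 63, 111623941), (.hz 9 175, 2564038)])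
(.lp [1, 4] [3, 6] [0, 2, 5, 7] [(.mj 0 1, 159), (.mj 2 3, 52), (.mj 3 5, 11), (.mj 4 7, 15), (.hz 10 15, 5554), (.hz 10 47, 22904), (.hz 7 167, 544), (.hz 7 111, 14444), (.hz 9 175, 8159)]))
(.lp [1, 4] [3, 6] [0, 2, 5, 7] [(.mj 0 1, 141), (.mj 2 3, 46), (.mj 3 5, 8), (.mj 4 7, 16), (.hz 9 15, 899), (.hz 9 47, 3662), (.hz 7 167, 1), (.hz 7 111, 12880)]))
(.cut 4 [(0, 1), (1, 1), (2, 1), (3, 1), (5, 1), (9, 1), (7, 1), (11, 1), (13, 1), (15, 1), (39, 1), (47, 1)]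
(.lp [1, 4] [3, 6] [0, 2, 5, 7] [(.mj 2 3, 5993), (.mj 6 4, 2108), (.mj 6 7, 1066), (.rw 5, 1), (.hz 8 167, 1563365), (.hz 8 183, 6371046), (.rw 6, 5)]))
(.ask 167
(.mark 175 4 6 8
(.cut 4 [(0, 1), (1, 1), (2, 1), (3, 1), (5, 1), (9, 1), (7, 1), (13, 1), (39, 1), (167, 1)]
(.cut 4 [(0, 1), (1, 1), (2, 1), (3, 1), (5, 1), (9, 1), (7, 1), (11, 1), (13, 1), (15, 1), (39, 1)]
(.cut 4 [(0, 1), (1, 1), (2, 1), (3, 1), (5, 1), (9, 1), (7, 1), (11, 1), (13, 1), (15, 1), (39, 1), (75, 1), (47, 1), (79, 1), (111, 1)]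
(.lp [1, 4] [3, 6] [0, 2, 5, 7, 8] [(.mj 2 3, 2003305), (.mj 3 5, 1449101), (.mj 7 4, 1244497), (.hz 7 167, 3456109), (.hz 7 111, 851757341), (.hz 7 423, 43752965), (.rw 6, 1252), (.rw 7, 813), (.rw 8, 15)])))))
(.ask 175
(.mark 175 4 6 8
(.spn
(.cut 6 [(0, 1), (1, 1), (2, 1), (3, 1), (5, 1), (9, 1), (18, 1), (7, 1), (11, 1), (13, 1), (19, 1), (15, 1), (23, 1), (27, 1), (39, 1), (31, 1), (47, 1), (55, 1), (167, 1), (63, 1), (175, 1), (183, 1)]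
(.lp [1, 4] [3, 6] [0, 2, 5, 7, 8] [(.mj 2 3, 10015), (.mj 3 5, 4573), (.mj 4 8, 1552), (.mj 7 4, 10364), (.rw 6, 14), (.hz 7 111, 19027211), (.rw 7, 2)]))
(.cut 4 [(0, 1), (1, 1), (2, 1), (3, 1), (5, 1), (9, 1), (7, 1), (11, 1), (13, 1), (15, 1), (39, 1), (75, 1), (47, 1), (79, 1), (167, 1), (111, 1), (175, 1)]
(.lp [1, 4] [3, 6] [0, 2, 5, 7, 8] [(.mj 6 4, 1461), (.mj 6 8, 1461), (.mj 7 6, 9811), (.rw 6, 7), (.hz 7 111, 17040212), (.rw 7, 4)]))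
(.cut 4 [(0, 1), (1, 1), (2, 1), (3, 1), (5, 1), (9, 1), (7, 1), (11, 1), (13, 1), (15, 1), (39, 1), (47, 1), (167, 1), (175, 1)]
(.lp [1, 4] [3, 6] [0, 2, 5, 7, 8] [(.mj 2 3, 1691), (.mj 3 5, 1151), (.mj 8 4, 1014), (.hz 7 39, 132737), (.rw 7, 2)]))))
(.lp [1, 4] [3, 6] [0, 2, 5, 7] [(.mj 2 3, 7), (.mj 3 5, 3), (.mj 7 4, 14), (.mj 7 6, 16)])))))
(.ask 47
(.mark 47 4 6 7
(.spn
(.haz 7 111 7 20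
(.lp [1, 4] [3, 6] [0, 2, 5, 7] [(.mj 0 1, 212), (.mj 2 3, 74), (.mj 3 5, 12), (.mj 4 6, 1), (.mj 4 7, 18), (.hz 7 111, 22027), (.hz 9 111, 10211)])
(.lp [1, 4] [3, 6] [0, 2, 5, 7] [(.mj 0 1, 15), (.mj 2 3, 5), (.mj 3 5, 1), (.mj 4 6, 1), (.hz 9 47, 556)]))
(.lp [1, 4] [3, 6] [0, 2, 5, 7] [(.mj 2 3, 12), (.mj 6 4, 7), (.mj 6 7, 1), (.hz 7 47, 4482), (.hz 7 111, 5462), (.hz 7 175, 3105)])
(.cut 4 [(0, 1), (1, 1), (2, 1), (3, 1), (5, 1), (9, 1), (7, 1), (13, 1), (39, 1)]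
(.lp [1, 4] [3, 6] [0, 2, 5, 7] [(.mj 2 3, 13273), (.mj 7 4, 4842), (.hz 7 47, 87319), (.rw 6, 8)]))))
(.lp [1, 4] [3, 6] [0, 2, 5] [(.mj 0 1, 21), (.mj 2 3, 10), (.hz 8 55, 5163)])))
(.lp [1, 4] [3, 6] [0, 2, 5] [(.mj 0 1, 31), (.mj 2 3, 11), (.mj 6 5, 4), (.hz 8 39, 1565), (.hz 7 39, 571)])))
(.haz 3 39 3 10
(.ask 15
(.mark 15 4 5 6
(.spn
(.haz 6 47 3 10
(.lp [1, 4] [3, 6] [0, 2, 5] [(.mj 0 1, 43), (.mj 2 3, 9), (.mj 4 5, 5), (.mj 4 6, 6), (.hz 9 39, 1075), (.hz 10 47, 5501)])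
(.lp [1, 4] [3, 6] [0, 2, 5] [(.mj 0 1, 5), (.mj 2 3, 1), (.mj 4 5, 1), (.hz 10 15, 381)]))
(.haz 5 95 3 20
(.haz 5 31 7 20
(.ask 39
(.mark 47 4 6 7
(.spn
(.haz 6 47 3 10
(.lp [1, 4] [3, 6] [0, 2, 5, 7] [(.mj 3 5, 12), (.mj 4 6, 82), (.mj 4 7, 45), (.mj 5 4, 104), (.hz 12 47, 2554), (.hz 9 167, 12345), (.hz 12 63, 64660), (.hz 12 175, 99751)])
(.haz 7 111 1 4
(.haz 7 111 7 20
(.ask 79
(.mark 111 4 7 8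
(.cut 6 [(0, 1), (1, 1), (2, 1), (3, 1), (5, 1), (9, 1), (18, 1), (7, 1), (11, 1), (13, 1), (19, 1), (15, 1), (23, 1), (27, 1), (39, 1), (55, 1), (167, 1), (183, 1)]
(.lp [1, 4] [3, 6, 8] [0, 2, 5, 7] [(.mj 3 5, 708), (.mj 4 7, 23476), (.mj 5 4, 34378), (.hz 12 15, 11003839), (.hz 7 167, 43992), (.hz 7 111, 1821018), (.hz 14 111, 4337740), (.hz 7 175, 1310906), (.hz 7 367, 18787023), (.hz 14 367, 15846083), (.rw 6, 2)])))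
(.lp [1, 4] [3, 6] [0, 2, 5, 7] [(.mj 2 3, 6), (.mj 4 7, 23), (.mj 5 4, 30), (.hz 12 47, 11258), (.hz 7 167, 237), (.hz 7 111, 9155), (.hz 14 111, 10885)]))
(.lp [1, 4] [3, 6] [0, 2, 5, 7] [(.mj 2 3, 4), (.mj 5 4, 6), (.hz 12 15, 820), (.hz 14 39, 389), (.hz 12 47, 3946), (.hz 14 47, 2140), (.hz 7 111, 3332)]))
(.lp [1, 4] [3, 6] [0, 2, 5, 7] [(.mj 2 3, 1), (.mj 5 4, 2), (.hz 12 15, 338), (.hz 13 39, 591), (.hz 12 47, 1277), (.hz 13 47, 3192)])))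
(.ask 167
(.haz 7 111 1 4
(.maj 4 7
(.mark 175 4 6 8
(.cut 4 [(0, 1), (1, 1), (2, 1), (3, 1), (5, 1), (9, 1), (7, 1), (11, 1), (13, 1), (15, 1), (39, 1), (47, 1), (167, 1), (175, 1)]
(.lp [1, 4] [3, 6] [0, 2, 5, 7, 8] [(.mj 2 3, 40257), (.mj 4 7, 14757), (.mj 5 6, 2147), (.mj 6 4, 22275), (.hz 12 111, 42020425), (.hz 9 423, 3758869), (.hz 12 127, 24483594), (.hz 7 431, 9699745), (.hz 9 439, 9327586), (.rw 6, 28)])))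
(.mark 175 4 6 8
(.cut 4 [(0, 1), (1, 1), (2, 1), (3, 1), (5, 1), (9, 1), (7, 1), (11, 1), (13, 1), (15, 1), (39, 1), (47, 1), (167, 1), (175, 1)]
(.lp [1, 4] [3, 6] [0, 2, 5, 7, 8] [(.mj 2 3, 2277), (.mj 6 4, 178), (.mj 6 7, 629), (.mj 7 4, 831), (.hz 11 95, 97704), (.hz 12 111, 474335), (.hz 9 183, 906354), (.hz 9 423, 189734), (.hz 9 439, 150975), (.rw 6, 2)]))))
(.cut 4 [(0, 1), (1, 1), (2, 1), (3, 1), (5, 1), (9, 1), (7, 1), (11, 1), (13, 1), (15, 1), (39, 1), (47, 1)]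
(.lp [1, 4] [3, 6] [0, 2, 5, 7, 8] [(.mj 2 3, 1635), (.mj 6 4, 652), (.mj 6 7, 79), (.hz 12 39, 320199), (.hz 9 55, 106733), (.hz 12 111, 25247), (.hz 9 183, 516251), (.rw 6, 1)])))
(.cut 4 [(0, 1), (1, 1), (2, 1), (3, 1), (5, 1), (9, 1), (7, 1), (11, 1), (13, 1), (15, 1), (39, 1), (47, 1)]
(.lp [1, 4] [3, 6] [0, 2, 5, 7] [(.mj 2 3, 3048), (.mj 6 4, 1284), (.mj 6 7, 383), (.hz 7 175, 207305), (.hz 9 183, 1210053), (.rw 6, 2)])))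
(.haz 6 47 3 10
(.cut 4 [(0, 1), (1, 1), (2, 1), (3, 1), (5, 1), (9, 1), (7, 1), (11, 1), (13, 1), (15, 1), (39, 1)]
(.lp [1, 4] [3, 6] [0, 2, 5, 7] [(.mj 3 5, 654), (.mj 7 4, 486), (.mj 7 6, 737), (.hz 12 47, 480720), (.hz 12 63, 2116776), (.rw 6, 1)]))
(.haz 5 79 1 2
(.haz 5 79 11 20
(.ask 167
(.mark 175 4 6 8
(.spn
(.lp [1, 4] [3, 6] [0, 2, 5, 7, 8] [(.mj 3 5, 5432), (.mj 4 6, 663), (.mj 7 4, 2626), (.rw 6, 4), (.hz 12 15, 957810), (.hz 12 47, 563417)])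
(.cut 4 [(0, 1), (1, 1), (2, 1), (3, 1), (5, 1), (9, 1), (7, 1), (11, 1), (13, 1), (15, 1), (39, 1), (47, 1), (79, 2), (167, 1), (111, 1), (175, 1), (423, 1)]
(.lp [1, 4] [3, 6] [0, 2, 5, 7, 8] [(.mj 3 5, 31763), (.mj 6 4, 4673), (.mj 6 8, 3721), (.mj 7 6, 4673), (.rw 6, 22), (.hz 12 47, 49616496), (.hz 14 95, 10351397), (.hz 7 423, 14006860), (.rw 7, 20)]))
(.cut 4 [(0, 1), (1, 1), (2, 1), (3, 1), (5, 1), (9, 1), (7, 1), (11, 1), (13, 1), (15, 1), (39, 1), (47, 1), (167, 1), (175, 1)]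
(.lp [1, 4] [3, 6] [0, 2, 5, 7, 8] [(.mj 3 5, 796), (.mj 8 4, 429), (.mj 8 6, 334), (.hz 7 39, 21079), (.hz 14 79, 34610), (.hz 14 95, 233508), (.rw 7, 1)]))))
(.ask 175
(.mark 175 4 6 8
(.spn
(.cut 6 [(0, 1), (1, 1), (2, 1), (3, 1), (5, 1), (9, 1), (18, 1), (7, 1), (11, 1), (13, 1), (19, 1), (15, 1), (23, 1), (27, 1), (39, 1), (31, 1), (47, 1), (55, 1), (167, 1), (63, 1), (183, 1)]
(.cut 6 [(0, 1), (1, 1), (2, 1), (3, 1), (5, 1), (9, 1), (18, 1), (7, 1), (11, 1), (13, 1), (19, 1), (15, 1), (23, 1), (27, 1), (39, 1), (31, 1), (47, 1), (55, 1), (167, 1), (63, 1), (175, 1), (183, 1)]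
(.lp [1, 4] [3, 6] [0, 2, 5, 7, 8] [(.mj 3 5, 70040), (.mj 4 6, 16727), (.mj 7 4, 63471), (.rw 6, 115), (.hz 14 79, 4832796), (.hz 7 111, 64691595), (.rw 7, 8), (.rw 8, 8)])))
(.cut 4 [(0, 1), (1, 1), (2, 1), (3, 1), (5, 1), (9, 1), (7, 1), (11, 1), (13, 1), (15, 1), (39, 1), (47, 1), (167, 1), (175, 1)]
(.lp [1, 4] [3, 6] [0, 2, 5, 7, 8] [(.mj 6 4, 1100), (.mj 6 8, 1100), (.mj 7 6, 2724), (.rw 6, 1), (.rw 7, 4)]))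
(.cut 4 [(0, 1), (1, 1), (2, 1), (3, 1), (5, 1), (9, 1), (7, 1), (11, 1), (13, 1), (15, 1), (39, 1), (47, 1)]
(.lp [1, 4] [3, 6] [0, 2, 5, 7, 8] [(.mj 3 5, 1129), (.mj 8 4, 6574), (.mj 8 6, 466), (.hz 14 79, 48202), (.hz 14 95, 2087669), (.hz 7 175, 800370), (.rw 7, 14)]))))
(.lp [1, 4] [3, 6] [0, 2, 5, 7] [(.mj 3 5, 3), (.mj 7 4, 4), (.mj 7 6, 4), (.hz 12 47, 2475)])))
(.cut 4 [(0, 1), (1, 1), (2, 1), (3, 1), (5, 1), (9, 1), (7, 1), (11, 1), (13, 1), (15, 1)]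
(.lp [1, 4] [3, 6] [0, 2, 5, 7] [(.mj 3 5, 269), (.mj 7 4, 1079), (.hz 14 15, 445993), (.hz 12 15, 874451), (.hz 13 79, 89107), (.hz 7 167, 86233), (.hz 13 95, 3343175), (.hz 7 111, 178214), (.rw 6, 1)])))
(.lp [1, 4] [3, 6] [0, 2, 5, 7] [(.mj 2 3, 4), (.mj 7 4, 5), (.hz 13 7, 4601), (.hz 13 15, 24243), (.hz 12 15, 4814), (.hz 11 31, 1674), (.hz 7 167, 345)])))))
(.ask 47
(.mark 47 4 6 7
(.spn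
(.ask 18
(.mark 63 6 7 8
(.lp [3, 6] [1, 4, 8] [0, 2, 5, 7] [(.mj 0 1, 11116), (.mj 2 3, 8612), (.mj 4 7, 506), (.rw 5, 1), (.hz 7 111, 1124359), (.hz 9 311, 2593692)]))
(.haz 6 175 3 20
(.ask 19
(.mark 63 6 7 8
(.lp [3, 6] [1, 4, 8] [0, 2, 5, 7] [(.mj 0 1, 72), (.mj 2 3, 36), (.mj 4 6, 6), (.mj 4 7, 5), (.hz 12 175, 4087), (.hz 9 311, 12000), (.hz 12 191, 3230)]))
(.ask 27
(.mark 63 6 7 8
(.lp [3, 6] [1, 4, 8] [0, 2, 5, 7] [(.mj 2 3, 1)]))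
(.ask 23
(.mark 63 6 7 8
(.lp [3, 6] [1, 4, 8] [0, 2, 5, 7] [(.mj 2 3, 8298), (.mj 4 6, 2978), (.mj 4 7, 2389), (.mj 5 4, 6472), (.rw 5, 2), (.hz 12 175, 1953683), (.hz 9 311, 3235989), (.hz 12 191, 3043412)]))
(.haz 4 47 3 10
(.lp [1, 4] [3, 6] [0, 2, 5, 7] [(.mj 2 3, 7), (.mj 4 6, 5), (.mj 5 4, 13), (.hz 13 47, 6116), (.hz 13 111, 20188), (.hz 12 175, 5127)])
(.lp [1, 4] [3, 6] [0, 2, 5, 7] [(.mj 2 3, 67), (.mj 4 6, 4), (.mj 4 7, 9), (.hz 13 39, 17181), (.hz 7 111, 5297), (.hz 12 175, 5271)])))))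
(.lp [1, 4] [3, 6] [0, 2, 5, 7] [(.mj 2 3, 35), (.mj 4 7, 112), (.mj 5 4, 149), (.hz 12 15, 19176), (.hz 12 47, 27752), (.hz 7 111, 60540)])))
(.cut 4 [(0, 1), (1, 1), (2, 1), (3, 1), (5, 1), (9, 1), (7, 1), (11, 1), (13, 1), (15, 1), (39, 1), (47, 1)]
(.lp [1, 4] [3, 6] [0, 2, 5, 7] [(.mj 2 3, 2007), (.mj 6 4, 845), (.mj 6 7, 115), (.rw 6, 1)]))
(.cut 4 [(0, 1), (1, 1), (2, 1), (3, 1), (5, 1), (9, 1), (7, 1), (13, 1), (39, 1)]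
(.lp [1, 4] [3, 6] [0, 2, 5, 7] [(.mj 2 3, 13273), (.mj 7 4, 4842), (.hz 7 47, 87319), (.rw 6, 8)]))))
(.spn
(.lp [1, 4] [3, 6] [0, 2, 5] [(.mj 4 6, 2), (.mj 5 4, 3)])
(.cut 4 [(0, 1), (1, 1), (2, 1), (3, 1), (5, 1), (9, 1), (7, 1), (11, 1), (13, 1), (15, 1), (39, 1), (47, 1)]
(.lp [1, 4] [3, 6] [0, 2, 5] [(.mj 2 3, 1795), (.mj 6 4, 756), (.rw 6, 1)]))
.fin)))
(.cut 4 [(0, 1), (1, 1), (2, 1), (3, 1), (5, 1), (9, 1), (7, 1), (11, 1), (13, 1), (15, 1)]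
(.lp [1, 4] [3, 6] [0, 2, 5] [(.mj 2 3, 1480), (.mj 5 4, 1136), (.mj 5 6, 516), (.hz 11 7, 103267), (.hz 11 15, 103234), (.hz 11 31, 1091864), (.hz 9 55, 1213183), (.rw 5, 1)])))
(.lp [1, 4] [3, 6] [0, 2, 5] [(.mj 5 4, 1), (.mj 5 6, 1), (.hz 10 7, 83), (.hz 10 15, 227)]))
(.cut 4 [(0, 1), (1, 1), (2, 1), (3, 1), (5, 1), (9, 1), (7, 1), (13, 1)]
(.lp [1, 4] [3, 6] [0, 2, 5] [(.mj 2 3, 14150), (.mj 6 4, 4962), (.mj 6 5, 1817), (.rw 4, 1), (.hz 9 39, 1572219), (.hz 9 55, 4545905), (.rw 5, 9)]))))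
(.spn
(.lp [3] [1, 4] [0, 2, 5] [(.mj 0 1, 5), (.mj 2 3, 1), (.mj 4 5, 1)])
(.ask 39
(.mark 39 3 4 6
(.ask 47
(.mark 47 4 6 7
(.spn
(.haz 7 111 1 4
(.haz 7 111 7 20
(.haz 4 111 3 20
(.lp [1, 4] [3, 7] [0, 2, 5, 6] [(.mj 3 5, 92), (.mj 4 6, 11), (.mj 4 7, 54), (.mj 5 4, 79), (.hz 12 111, 16468), (.hz 11 111, 21603)])
(.lp [1, 4] [3, 7] [0, 2, 5, 6] [(.mj 0 1, 17), (.mj 3 5, 3), (.mj 4 6, 4), (.mj 4 7, 9), (.hz 12 7, 485), (.hz 12 11, 485), (.hz 12 15, 1788), (.hz 12 47, 2262), (.hz 7 103, 142), (.hz 11 111, 4046)]))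
(.lp [1, 4] [3, 7] [0, 2, 5, 6] [(.mj 3 5, 27), (.mj 4 6, 9), (.mj 5 4, 19), (.hz 11 47, 4683), (.hz 7 103, 6306), (.hz 10 111, 12240)]))
(.lp [1, 4] [3, 7] [0, 2, 5, 6] [(.mj 3 5, 23), (.mj 4 6, 10), (.mj 5 4, 17), (.hz 10 47, 19166)]))
(.cut 4 [(0, 1), (1, 1), (2, 1), (3, 1), (5, 1), (9, 1), (7, 1), (11, 1), (13, 1), (15, 1), (39, 1), (47, 1)]
(.lp [1, 4] [3, 7] [0, 2, 5, 6] [(.mj 3 5, 1465), (.mj 6 4, 628), (.mj 6 7, 228), (.rw 6, 1)]))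
(.ask 175
(.mark 175 4 6 8
(.spn
(.lp [1, 4] [3, 7, 8] [0, 2, 5, 6] [(.mj 7 4, 318), (.rw 6, 1)])
(.cut 4 [(0, 1), (1, 1), (2, 1), (3, 1), (5, 1), (9, 1), (7, 1), (11, 1), (13, 1), (15, 1), (39, 1), (47, 1), (103, 1), (175, 1)]
(.cut 4 [(0, 1), (1, 1), (2, 1), (3, 1), (5, 1), (9, 1), (7, 1), (11, 1), (13, 1), (15, 1), (39, 1), (47, 1), (103, 2), (111, 1), (175, 1)]
(.lp [1, 4] [3, 7, 8] [0, 2, 5, 6] [(.mj 3 5, 12709), (.mj 6 4, 5039), (.mj 6 8, 18904), (.mj 7 6, 37331), (.rw 5, 9), (.rw 6, 16), (.hz 7 103, 12286451), (.rw 7, 27), (.rw 8, 20)])))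
(.cut 4 [(0, 1), (1, 1), (2, 1), (3, 1), (5, 1), (9, 1), (7, 1), (13, 1), (39, 1)]
(.cut 4 [(0, 1), (1, 1), (2, 1), (3, 1), (5, 1), (9, 1), (7, 1), (11, 1), (13, 1), (15, 1)]
(.cut 4 [(0, 1), (1, 1), (2, 1), (3, 1), (5, 1), (9, 1), (7, 1), (11, 1), (13, 1), (15, 1), (39, 1), (47, 1)]
(.lp [1, 4] [3, 7, 8] [0, 2, 5, 6] [(.mj 3 5, 1431), (.mj 8 4, 13283), (.hz 9 103, 223057), (.hz 9 119, 1992446), (.rw 7, 13), (.rw 8, 11), (.rw 9, 7)]))))))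
(.lp [1, 4] [3, 7] [0, 2, 5, 6] [(.mj 7 6, 1), (.rw 5, 1)]))))
(.cut 4 [(0, 1), (1, 1), (2, 1), (3, 1), (5, 1), (9, 1), (7, 1), (11, 1), (13, 1), (15, 1), (39, 1), (103, 1)]
(.lp [3] [1, 4] [0, 2, 5, 6] [(.mj 3 5, 3636), (.mj 5 4, 1664), (.hz 7 103, 739516), (.rw 5, 1)]))))
(.ask 47
(.ask 47
(.mark 47 4 6 7
(.spn
(.haz 6 175 1 4
(.haz 7 63 3 10
(.lp [1, 4] [3, 7] [0, 2, 5, 6] [(.mj 3 5, 17), (.mj 4 6, 57), (.mj 5 4, 67), (.mj 6 7, 43), (.hz 11 63, 85694), (.hz 10 175, 78552)])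
(.lp [1, 4] [3, 7] [0, 2, 5, 6] [(.mj 2 3, 4), (.mj 4 6, 18), (.mj 5 4, 23), (.hz 11 47, 7357), (.hz 10 175, 24523)]))
(.lp [1, 4] [3, 7] [0, 2, 5, 6] [(.mj 2 3, 1), (.mj 5 4, 7), (.mj 6 7, 5), (.hz 10 47, 7648), (.hz 7 175, 4707)]))
(.cut 4 [(0, 1), (1, 1), (2, 1), (3, 1), (5, 1), (9, 1), (7, 1), (13, 1), (39, 1)]
(.lp [1, 4] [3, 7] [0, 2, 5, 6] [(.mj 2 3, 13273), (.mj 6 4, 4842), (.hz 7 47, 87319), (.rw 6, 8)]))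
(.con 7 6)))
(.spn
(.lp [3] [1, 4] [0, 2, 5, 6] [(.mj 4 6, 2), (.mj 5 4, 3)])
(.cut 4 [(0, 1), (1, 1), (2, 1), (3, 1), (5, 1), (9, 1), (7, 1), (11, 1), (13, 1), (15, 1), (39, 1), (47, 1)]
(.lp [3] [1, 4] [0, 2, 5, 6] [(.mj 2 3, 1517), (.mj 6 4, 552), (.rw 6, 1)]))
.fin))
(.lp [3] [1, 4] [0, 2, 5] [(.mj 5 4, 1)])))
.fin))
(.cut 4 [(0, 1), (1, 1), (2, 1), (3, 1), (5, 1), (9, 1), (7, 1), (13, 1)]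
(.lp [3] [1, 4] [0, 2, 5] [(.mj 0 1, 32611), (.mj 3 5, 7737), (.hz 9 7, 2964655), (.hz 7 39, 993833), (.rw 4, 1)]))))
(.lp [3] [1, 4] [0, 2, 5] [(.mj 0 1, 40), (.mj 3 5, 8), (.hz 8 3, 1537), (.hz 8 7, 7465), (.hz 7 39, 1237)]))
(.cut 4 [(0, 1), (1, 1), (2, 1), (3, 1), (5, 1), (9, 1), (7, 1), (13, 1)]
(.lp [3] [1, 4] [0, 2, 5] [(.mj 2 3, 93), (.mj 3 5, 93), (.hz 7 3, 278435), (.rw 4, 1)])))

theorem run6 : run (mkLeaf Leaf.nleaf) cutRow [] t6 s6 = true := by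
  decide +kernel

end Pool.Agent.W3.Data
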