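import Pool.Agent.W3.CutRow
import Pool.Agent.W3.LeafRow

/-!
# The search tree, part 6
-/

set_option autoImplicit false

namespace Pool.Agent.W3.Data

/-- the state above part 7 of the tree -/
def s7 : St := ⟨[0, 0, 1, 1, 3, 5], [3, 2, 9, 1, 0], [0, 1, 2],
  [],
  [⟨true, 1, 9, 3, 20⟩, ⟨true, 2, 9, 1, 5⟩, ⟨true, 1, 9, 1, 4⟩, ⟨true, 1, 5, 1, 4⟩, ⟨true, 1, 5, 7, 20⟩, ⟨true, 2, 19, 3, 20⟩],
  [.spn 0 0 666000, .spn 1 1 165501, .spn 3 2 165501]⟩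

/-- part 7 of the tree -/
noncomputable def t7 : Tree :=
(.mark 7 3 4 5
(.spn
(.haz 4 39 3 20
(.haz 3 19 3 20
(.haz 3 39 3 20
(.haz 2 19 3 10
(.haz 2 19 7 20
(.haz 3 39 1 4
(.haz 3 19 1 5
(.ask 19
(.ask 13
(.mark 31 5 6 7
(.lp [3, 7] [0, 2, 5] [1, 4, 6] [(.mj 1 2, 244), (.mj 2 3, 87), (.mj 3 4, 133), (.hz 11 39, 24095), (.hz 6 39, 14007), (.hz 10 83, 3181)]))
(.haz 4 39 1 5
(.maj 4 5
(.ask 11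
(.mark 31 5 6 7
(.lp [3, 7] [0, 2, 5] [1, 4, 6] [(.mj 1 2, 65), (.mj 2 3, 134), (.mj 3 4, 70), (.mj 4 5, 38), (.hz 12 19, 16896), (.hz 11 39, 43327), (.hz 13 39, 21266), (.hz 12 83, 49438)]))
(.ask 15
(.mark 15 4 5 7
(.spn
(.mark 31 5 6 7
(.spn
(.ask 37
(.mark 47 4 7 8
(.lp [3, 7] [1, 4, 6] [0, 2, 5, 8] [(.mj 1 2, 48), (.mj 2 3, 33), (.mj 3 4, 28), (.mj 4 7, 1), (.mj 5 7, 2), (.hz 12 19, 482), (.hz 12 83, 9317), (.hz 11 295, 6750), (.hz 13 295, 15908)]))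
(.ask 45
(.mark 47 4 7 8
(.lp [3, 7] [1, 4, 6] [0, 2, 5, 8] [(.mj 1 2, 14), (.mj 2 3, 11), (.mj 3 4, 9), (.mj 4 7, 1), (.hz 12 19, 751), (.hz 12 83, 2400)]))
(.ask 39
(.mark 63 6 7 8
(.spn
(.lp [3, 7] [1, 4, 6] [0, 2, 5, 8] [(.mj 1 2, 55320), (.mj 2 3, 37721), (.mj 3 4, 26475), (.rw 5, 2), (.rw 6, 1), (.hz 12 19, 5532007), (.hz 11 39, 6180448), (.hz 10 83, 18237), (.hz 12 83, 7471249), (.hz 13 295, 17710529)])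
(.lp [3, 7] [1, 4, 6] [0, 2, 5, 8] [(.mj 1 2, 32753), (.mj 2 3, 22698), (.mj 3 4, 15740), (.mj 7 8, 458), (.rw 5, 2), (.hz 12 19, 3351663), (.hz 12 83, 4539595), (.hz 11 295, 3490048), (.hz 13 295, 10102747)])
(.ask 83
(.mark 95 5 7 9
(.lp [3, 7] [0, 2, 5, 8] [1, 4, 6, 9] [(.mj 1 2, 35), (.mj 2 3, 22), (.mj 3 4, 17), (.mj 8 7, 1), (.hz 12 19, 3599), (.hz 11 39, 3531), (.hz 13 39, 3303), (.hz 12 83, 4874), (.hz 13 295, 8515)]))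
(.lp [3, 7] [1, 4, 6] [0, 2, 5, 8] [(.mj 1 2, 112812), (.mj 2 3, 76849), (.mj 3 4, 53894), (.rw 5, 4), (.hz 12 19, 11170933), (.hz 11 39, 12634522), (.hz 12 83, 15173680), (.hz 13 295, 36011111)]))))
(.lp [3, 7] [0, 2, 5] [1, 4, 6] [(.mj 1 2, 9), (.mj 2 3, 13), (.mj 3 4, 6), (.mj 4 5, 1), (.hz 12 19, 2820), (.hz 12 83, 3595)]))))
(.lp [3, 7] [0, 2, 5] [1, 4, 6] [(.mj 1 2, 661), (.mj 2 3, 1096), (.mj 3 4, 577), (.mj 6 5, 222), (.mj 6 7, 87), (.hz 12 19, 370265), (.hz 11 39, 332093), (.hz 13 39, 328993), (.hz 13 47, 242257)])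
(.lp [3, 7] [0, 2, 5] [1, 4, 6] [(.mj 1 2, 11862), (.mj 2 3, 21154), (.mj 3 4, 9480), (.mj 7 5, 3163), (.rw 5, 1), (.hz 11 39, 8074616), (.hz 13 39, 3787386), (.hz 12 83, 10102827), (.hz 13 47, 9068082), (.hz 12 87, 3374095)])))
(.con 5 4)
(.mark 31 5 6 7
(.lp [3, 7] [0, 2, 5] [1, 4, 6] [(.mj 1 2, 7460), (.mj 2 3, 9503), (.mj 7 4, 1249), (.rw 4, 1), (.hz 12 19, 5906168), (.hz 11 39, 3711926), (.hz 13 39, 206363)]))))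
(.mark 19 2 3 6
(.lp [3] [0, 2, 5] [1, 4, 6] [(.mj 1 2, 5), (.mj 2 3, 8), (.mj 3 4, 7), (.mj 4 5, 3), (.hz 11 39, 2112), (.hz 13 39, 2777), (.hz 12 83, 978)]))))
(.mark 19 2 3 6
(.lp [3] [0, 2, 5] [1, 4, 6] [(.mj 1 2, 64), (.mj 2 3, 48), (.mj 3 5, 7), (.mj 5 4, 23), (.hz 12 19, 14451), (.hz 12 23, 19078), (.hz 11 39, 12989), (.hz 13 39, 4298), (.hz 10 83, 145), (.hz 12 83, 9647)])))
(.mark 19 2 3 6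
(.lp [3] [0, 2, 5] [1, 4, 6] [(.mj 1 2, 12), (.mj 2 3, 8), (.mj 3 5, 1), (.hz 13 3, 1111), (.hz 13 7, 1989), (.hz 12 19, 1297), (.hz 11 39, 2795), (.hz 6 39, 179), (.hz 12 83, 1621)]))))
(.haz 4 39 1 4
(.ask 13
(.mark 15 4 5 6
(.lp [1, 4] [3, 6] [0, 2, 5] [(.mj 1 2, 33), (.mj 2 3, 19), (.mj 3 4, 17), (.hz 11 39, 4826), (.hz 13 39, 8307)]))
(.maj 4 5
(.ask 37
(.mark 39 3 4 6
(.lp [3] [1, 4] [0, 2, 5, 6] [(.mj 1 2, 7), (.mj 2 3, 7), (.mj 3 4, 4), (.hz 12 19, 1587), (.hz 11 39, 118), (.hz 13 39, 975), (.hz 11 103, 1254), (.hz 13 103, 2518)]))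
(.ask 39
(.mark 39 3 4 6
(.lp [3] [1, 4] [0, 2, 5, 6] [(.mj 1 2, 115), (.mj 2 3, 95), (.mj 3 4, 61), (.hz 12 19, 17917), (.hz 11 39, 13437), (.hz 13 39, 22699), (.hz 13 103, 30266)]))
(.lp [3] [1, 4] [0, 2, 5] [(.mj 1 2, 13), (.mj 2 3, 14), (.mj 3 4, 8), (.hz 12 19, 3314), (.hz 13 39, 1797)])))
(.lp [3] [1, 4] [0, 2, 5] [(.mj 1 2, 28), (.mj 2 3, 21), (.mj 3 5, 3), (.mj 5 4, 10), (.hz 12 19, 6065), (.hz 12 23, 7763), (.hz 11 39, 5587), (.hz 13 39, 1967)])))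
(.lp [3] [1, 4] [0, 2, 5] [(.mj 1 2, 20), (.mj 2 3, 12), (.mj 3 5, 2), (.hz 13 7, 6615), (.hz 11 39, 4938), (.hz 6 39, 278)])))
(.lp [3] [1, 4] [0, 2, 5] [(.mj 1 2, 3), (.mj 3 4, 2), (.hz 12 3, 752), (.hz 10 19, 60), (.hz 7 19, 21), (.hz 11 39, 512), (.hz 6 39, 199)]))
(.maj 4 5
(.lp [3] [1, 4] [0, 2, 5] [(.mj 1 2, 123), (.mj 3 4, 238), (.mj 4 5, 113), (.hz 11 3, 79222), (.hz 11 5, 11883), (.hz 11 7, 89125), (.hz 8 39, 29603), (.hz 6 39, 23767)])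
(.lp [3] [1, 4] [0, 2, 5] [(.mj 1 2, 16), (.mj 3 5, 13), (.mj 5 4, 18), (.hz 11 3, 7912), (.hz 11 7, 7912), (.hz 10 19, 283), (.hz 7 19, 1332), (.hz 7 23, 3552), (.hz 8 39, 323), (.hz 6 39, 1615)])))
(.lp [3] [1, 4] [0, 2, 5] [(.mj 2 3, 13), (.mj 3 4, 9), (.hz 10 1, 226), (.hz 10 3, 721), (.hz 9 19, 1225), (.hz 7 19, 644), (.hz 4 37, 110), (.hz 8 39, 20), (.hz 6 39, 843)]))
(.lp [3] [1, 4] [0, 2, 5] [(.mj 2 3, 5), (.mj 3 4, 4), (.hz 9 1, 222), (.hz 9 3, 498), (.hz 5 19, 265), (.hz 7 19, 249), (.hz 8 39, 14), (.hz 6 39, 78)]))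
(.lp [3] [1, 4] [0, 2, 5] [(.mj 1 2, 1), (.mj 3 4, 4), (.mj 3 5, 2), (.hz 8 3, 253), (.hz 8 5, 87), (.hz 8 7, 272), (.hz 6 39, 643)]))
(.lp [3] [1, 4] [0, 2, 5] [(.mj 1 2, 3), (.mj 3 4, 11), (.mj 3 5, 6), (.hz 7 1, 281), (.hz 7 3, 1157), (.hz 5 19, 108), (.hz 6 39, 1760)]))
(.cut 4 [(0, 1), (1, 1), (2, 1), (3, 1), (5, 1), (9, 1), (7, 1), (13, 1), (37, 1)]
(.lp [3] [1, 4] [0, 2, 5] [(.mj 1 2, 45953), (.mj 2 3, 33797), (.mj 3 5, 12378), (.hz 6 3, 1778812), (.hz 6 7, 1630578), (.rw 4, 4)])))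
(.haz 2 9 3 10
(.haz 4 39 3 10
(.ask 19
(.mark 23 3 5 6
(.spn
(.haz 5 23 1 4
(.lp [3] [0, 2, 5] [1, 4, 6] [(.mj 2 4, 8806), (.mj 3 5, 10090), (.mj 3 6, 1284), (.mj 4 3, 10090), (.rw 4, 1), (.hz 8 23, 2935239), (.hz 8 31, 6306177), (.hz 8 87, 10273336)])
(.haz 6 31 3 10
(.lp [3] [0, 2, 5] [1, 4, 6] [(.mj 0 1, 363), (.mj 2 4, 4003), (.mj 4 3, 2222), (.rw 4, 2), (.hz 8 5, 317391), (.hz 8 7, 997515), (.hz 8 23, 570008), (.hz 9 31, 1122204)])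
(.lp [3] [0, 2, 5] [1, 4, 6] [(.mj 2 4, 11), (.mj 4 3, 8), (.hz 8 5, 1117), (.hz 8 7, 3723), (.hz 8 23, 5485), (.hz 9 23, 1808)])))
(.haz 4 11 3 10
(.haz 3 119 1 10
(.haz 5 87 1 4
(.haz 5 87 7 20
(.ask 37
(.mark 55 3 6 7
(.spn
(.lp [3] [1, 4, 6] [0, 2, 5, 7] [(.mj 3 6, 12725), (.mj 4 5, 35630), (.mj 5 3, 12725), (.rw 4, 14), (.rw 5, 20)])
(.ask 83
(.mark 119 3 7 8
(.cut 3 [(0, 1), (1, 1), (2, 1), (3, 1), (5, 1), (7, 1), (19, 1)]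
(.cut 3 [(0, 1), (1, 1), (2, 1), (3, 1), (5, 1), (7, 1), (19, 1), (37, 1), (23, 1), (39, 1)]
(.lp [3] [0, 2, 5, 7] [1, 4, 6, 8] [(.mj 2 4, 1557), (.mj 4 5, 5312), (.mj 5 6, 3131), (.mj 6 3, 3637), (.hz 9 247, 3041363), (.hz 9 375, 648507), (.rw 6, 1), (.rw 7, 5)]))))
(.cut 3 [(0, 1), (1, 1), (2, 1), (3, 1), (5, 1), (7, 1), (19, 1), (23, 1)]
(.cut 7 [(0, 1), (1, 1), (2, 1), (3, 1), (5, 1), (9, 1), (7, 1), (11, 1), (13, 1), (19, 1), (37, 1), (15, 1), (23, 1), (27, 1), (39, 1), (83, 1), (31, 1), (55, 1), (87, 1), (91, 1), (95, 1)]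
(.cut 3 [(0, 1), (1, 1), (2, 1), (3, 1), (5, 1), (7, 1), (19, 1), (37, 1), (23, 1), (39, 1), (83, 1), (55, 1)]
(.lp [3] [1, 4, 6] [0, 2, 5, 7] [(.mj 4 5, 28374), (.mj 5 6, 25479), (.mj 6 3, 20299), (.hz 9 247, 16463864), (.rw 6, 34), (.rw 7, 1), (.rw 8, 7)])))))
(.cut 3 [(0, 1), (1, 1), (2, 1), (3, 1), (5, 1), (7, 1), (19, 1), (23, 1)]
(.lp [3] [1, 4, 6] [0, 2, 5, 7] [(.mj 2 4, 192), (.mj 4 5, 746), (.mj 7 3, 507), (.mj 7 6, 315), (.hz 11 87, 41039), (.rw 6, 1)]))))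
(.ask 39
(.mark 55 3 6 7
(.spn
(.ask 13
(.mark 63 6 7 8
(.lp [3, 8] [1, 4, 6] [0, 2, 5, 7] [(.mj 3 6, 85), (.mj 4 5, 445), (.mj 5 3, 254), (.mj 5 6, 169), (.rw 5, 1)]))
(.lp [3] [1, 4, 6] [0, 2, 5, 7] [(.mj 0 1, 28729), (.mj 3 6, 5524), (.mj 4 5, 17955), (.mj 5 3, 11796), (.rw 5, 10), (.hz 8 11, 1213917), (.hz 11 87, 1026049), (.hz 9 119, 6158052)]))
(.ask 13
(.mark 47 4 7 8
(.cut 3 [(0, 1), (1, 1), (2, 1), (3, 1), (5, 1), (7, 1), (19, 1), (23, 1)]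
(.lp [3, 8] [1, 4, 6] [0, 2, 5, 7] [(.mj 0 1, 25228), (.mj 4 5, 4647), (.mj 5 3, 2440), (.mj 6 3, 3167), (.hz 4 269, 716486), (.hz 8 271, 3054494), (.hz 4 301, 749821), (.rw 6, 8)])))
(.cut 3 [(0, 1), (1, 1), (2, 1), (3, 1), (5, 1), (7, 1), (19, 1), (37, 1), (23, 1), (39, 1)]
(.lp [3] [1, 4, 6] [0, 2, 5, 7] [(.mj 0 1, 3295), (.mj 4 5, 859), (.mj 5 3, 105), (.mj 5 6, 210), (.mj 6 3, 613), (.rw 6, 1)])))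
(.cut 3 [(0, 1), (1, 1), (2, 1), (3, 1), (5, 1), (7, 1), (19, 1), (23, 1)]
(.lp [3] [1, 4, 6] [0, 2, 5, 7] [(.mj 2 4, 215), (.mj 4 5, 835), (.mj 7 3, 547), (.mj 7 6, 332), (.hz 11 87, 45976), (.hz 6 91, 21111), (.rw 6, 1)]))))
(.ask 55
(.mark 55 3 6 7
(.spn
(.haz 5 87 9 20
(.haz 7 119 3 10
(.ask 83
(.mark 119 3 7 8
(.lp [3] [0, 2, 5, 7] [1, 4, 6, 8] [(.mj 2 4, 694), (.mj 3 6, 100), (.mj 3 7, 522), (.mj 4 5, 265), (.mj 5 3, 794), (.hz 12 87, 115667), (.hz 9 119, 431563), (.hz 13 119, 120419), (.hz 9 375, 1463051), (.hz 13 375, 652439)]))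
(.ask 87
(.mark 119 3 7 8
(.lp [3] [0, 2, 5, 7] [1, 4, 6, 8] [(.mj 3 6, 6), (.mj 3 7, 8), (.mj 4 5, 9), (.mj 5 3, 12), (.hz 12 87, 2224), (.hz 9 119, 1095), (.hz 13 119, 5369), (.hz 9 375, 8760), (.hz 13 375, 9021)]))
(.lp [3] [1, 4, 6] [0, 2, 5, 7] [(.mj 3 6, 246), (.mj 4 5, 1476), (.mj 5 3, 656), (.rw 5, 1), (.hz 13 119, 110502)])))
(.lp [3] [1, 4, 6] [0, 2, 5, 7] [(.mj 3 6, 5), (.mj 4 5, 3), (.mj 5 3, 6), (.hz 13 55, 2178)]))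
(.lp [3] [1, 4, 6] [0, 2, 5, 7] [(.mj 3 6, 14), (.mj 4 5, 1), (.mj 5 3, 14), (.hz 12 23, 3835), (.hz 11 87, 3031)]))
(.cut 3 [(0, 1), (1, 1), (2, 1), (3, 1), (5, 1), (7, 1), (19, 1), (37, 1), (23, 1), (39, 1), (55, 1)]
(.lp [3] [1, 4, 6] [0, 2, 5, 7] [(.mj 0 1, 204500), (.mj 2 4, 17387), (.mj 6 3, 72030), (.rw 5, 10), (.rw 6, 148)]))
(.cut 3 [(0, 1), (1, 1), (2, 1), (3, 1), (5, 1), (7, 1), (19, 1), (23, 1)]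
(.lp [3] [1, 4, 6] [0, 2, 5, 7] [(.mj 0 1, 830), (.mj 2 4, 193), (.mj 4 5, 1360), (.mj 7 3, 924), (.mj 7 6, 316), (.hz 4 45, 5384), (.hz 11 87, 71065), (.hz 6 91, 376300), (.hz 11 95, 701300), (.rw 6, 2)]))))
(.lp [3] [0, 2, 5] [1, 4, 6] [(.mj 5 3, 11), (.mj 5 6, 10), (.hz 9 119, 21671)]))))
(.lp [3] [0, 2, 5] [1, 4, 6] [(.mj 2 4, 651), (.mj 5 6, 241), (.rw 4, 1), (.hz 11 23, 325748), (.hz 10 87, 132435), (.hz 9 119, 529741)]))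
(.lp [3] [0, 2, 5] [1, 4, 6] [(.mj 2 4, 450), (.mj 5 6, 193), (.rw 4, 1), (.hz 10 23, 1574523)]))
(.cut 3 [(0, 1), (1, 1), (2, 1), (3, 1), (5, 1), (7, 1), (19, 1), (23, 1)]
(.lp [3] [0, 2, 5] [1, 4, 6] [(.mj 2 4, 1049), (.mj 4 5, 1641), (.mj 5 6, 266), (.hz 9 37, 4073017), (.hz 9 39, 11313936), (.hz 9 83, 7820192), (.hz 9 55, 18216495), (.hz 9 87, 17976906), (.rw 5, 49)])))
(.cut 3 [(0, 1), (1, 1), (2, 1), (3, 1), (5, 1), (7, 1)]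
(.lp [3] [0, 2, 5] [1, 4, 6] [(.mj 4 5, 7688), (.mj 5 3, 8788), (.hz 8 3, 2479845), (.hz 6 9, 658893), (.hz 8 11, 589406), (.hz 4 45, 36158), (.rw 5, 10)])))
(.cut 3 [(0, 1), (1, 1), (2, 1), (3, 1), (5, 1), (7, 1)]
(.cut 3 [(0, 1), (1, 1), (2, 1), (3, 1), (5, 1), (7, 1), (19, 1), (23, 1)]
(.lp [3] [0, 2, 5] [1, 4, 6] [(.mj 2 4, 3261), (.mj 6 3, 1863), (.mj 6 5, 1597), (.hz 4 37, 18996), (.hz 7 39, 259613), (.hz 4 45, 66514), (.hz 7 47, 65960), (.rw 5, 2), (.rw 6, 1)])))))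
(.haz 2 11 2 5
(.haz 3 39 1 20
(.ask 23
(.mark 23 3 5 6
(.spn
(.haz 5 87 1 10
(.haz 5 23 1 5
(.ask 87
(.mark 87 3 5 7
(.lp [3] [0, 2, 5] [1, 4, 6, 7] [(.mj 2 4, 9), (.mj 3 5, 59), (.mj 3 6, 24), (.mj 4 3, 83), (.hz 11 23, 2357), (.hz 11 31, 70718), (.hz 11 87, 45412), (.hz 11 215, 29466)]))
(.lp [3] [0, 2, 5] [1, 4, 6] [(.mj 3 5, 2), (.mj 4 3, 3), (.hz 11 31, 2877)]))
(.haz 6 55 9 20
(.ask 13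
(.mark 31 5 6 7
(.lp [3, 7] [0, 2, 5] [1, 4, 6] [(.mj 0 1, 87), (.mj 3 6, 34), (.mj 4 3, 56), (.hz 11 5, 7424), (.hz 11 7, 13240), (.hz 11 23, 3241), (.hz 4 141, 1514), (.hz 12 55, 7675), (.hz 10 95, 16022)]))
(.lp [3] [0, 2, 5] [1, 4, 6] [(.mj 0 1, 287), (.mj 3 6, 28), (.mj 4 3, 69), (.hz 11 5, 16080), (.hz 11 7, 16099), (.hz 11 23, 2624), (.hz 9 39, 970), (.hz 4 45, 5917), (.hz 12 55, 6215)]))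
(.lp [3] [0, 2, 5] [1, 4, 6] [(.mj 0 1, 6), (.mj 4 3, 4), (.hz 11 5, 450), (.hz 11 7, 459), (.hz 11 23, 2039), (.hz 12 23, 510), (.hz 9 39, 845)])))
(.lp [3] [0, 2, 5] [1, 4, 6] [(.mj 2 4, 6), (.mj 3 6, 4), (.mj 4 3, 6), (.hz 10 5, 303), (.hz 10 7, 924), (.hz 10 23, 974)]))
(.haz 3 87 1 20
(.haz 3 119 1 10
(.ask 37
(.mark 55 3 6 7
(.spn
(.lp [3] [1, 4, 6] [0, 2, 5, 7] [(.mj 3 6, 3647), (.mj 4 5, 10404), (.mj 5 3, 3839), (.rw 4, 4), (.rw 5, 6), (.hz 10 87, 479874)])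
(.cut 3 [(0, 1), (1, 1), (2, 1), (3, 1), (5, 1), (7, 1), (37, 1), (39, 1)]
(.cut 3 [(0, 1), (1, 1), (2, 1), (3, 1), (5, 1), (7, 1), (19, 1), (37, 1), (23, 1), (39, 1), (165, 2), (167, 1)]
(.cut 3 [(0, 1), (1, 1), (2, 1), (3, 1), (5, 1), (7, 1), (19, 1), (23, 1)]
(.lp [3] [1, 4, 6] [0, 2, 5, 7] [(.mj 4 5, 95475), (.mj 5 6, 205545), (.mj 6 3, 703746), (.hz 4 165, 372337), (.hz 9 167, 34538549), (.hz 4 173, 15463209), (.hz 9 183, 245477656), (.rw 6, 457), (.rw 7, 3), (.rw 8, 1048)]))))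
(.lp [3] [1, 4, 6] [0, 2, 5, 7] [(.mj 4 5, 3387), (.mj 7 3, 1231), (.mj 7 6, 991), (.rw 4, 2), (.hz 9 39, 1238884), (.hz 10 87, 599675), (.hz 9 167, 771078), (.hz 11 119, 2942059)])))
(.haz 5 87 1 5
(.haz 5 87 3 10
(.ask 39
(.mark 55 3 6 7
(.spn
(.lp [3] [1, 4, 6] [0, 2, 5, 7] [(.mj 3 6, 877), (.mj 4 5, 1996), (.mj 5 3, 1228), (.rw 5, 1), (.hz 10 87, 153510), (.hz 13 87, 241229)])
(.cut 3 [(0, 1), (1, 1), (2, 1), (3, 1), (5, 1), (7, 1)]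
(.cut 3 [(0, 1), (1, 1), (2, 1), (3, 1), (5, 1), (7, 1), (19, 1), (37, 1)]
(.cut 3 [(0, 1), (1, 1), (2, 1), (3, 1), (5, 1), (7, 1), (19, 1), (37, 1), (23, 1), (39, 1)]
(.cut 3 [(0, 1), (1, 1), (2, 1), (3, 1), (5, 1), (7, 1), (19, 1), (37, 1), (23, 1), (39, 1), (55, 1), (87, 1)]
(.lp [3] [1, 4, 6] [0, 2, 5, 7] [(.mj 4 5, 12169), (.mj 5 6, 31650), (.mj 6 3, 133342), (.hz 9 167, 5222814), (.hz 9 183, 42173306), (.hz 11 247, 3931610), (.rw 6, 148), (.rw 7, 65), (.rw 8, 65), (.rw 9, 8)])))))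
(.lp [3] [1, 4, 6] [0, 2, 5, 7] [(.mj 4 5, 10), (.mj 7 3, 8), (.mj 7 6, 4), (.hz 9 39, 3946), (.hz 9 55, 1260), (.hz 10 87, 2712), (.hz 13 87, 2199), (.hz 9 167, 457), (.hz 11 119, 13544)])))
(.ask 55
(.mark 55 3 6 7
(.spn
(.haz 6 183 3 20
(.ask 183
(.mark 183 3 6 8
(.lp [3] [1, 4, 6] [0, 2, 5, 7, 8] [(.mj 3 6, 69), (.mj 3 7, 28), (.mj 4 5, 65), (.mj 5 3, 82), (.hz 10 87, 10255), (.hz 13 87, 7208), (.hz 14 183, 22913), (.hz 14 191, 2034), (.hz 14 439, 15590)]))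
(.lp [3] [1, 4, 6] [0, 2, 5, 7] [(.mj 3 6, 3), (.mj 5 3, 5)]))
(.lp [3] [1, 4, 6] [0, 2, 5, 7] [(.mj 4 5, 1320), (.mj 5 3, 560), (.rw 5, 1), (.hz 14 23, 78544)]))
(.cut 3 [(0, 1), (1, 1), (2, 1), (3, 1), (5, 1), (7, 1), (19, 1), (37, 1), (23, 1), (39, 1)]
(.lp [3] [1, 4, 6] [0, 2, 5, 7] [(.mj 0 1, 3118), (.mj 6 3, 1114), (.mj 6 7, 8), (.hz 13 95, 82435), (.hz 9 183, 299781), (.rw 6, 2)]))
(.cut 3 [(0, 1), (1, 1), (2, 1), (3, 1), (5, 1), (7, 1)]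
(.cut 3 [(0, 1), (1, 1), (2, 1), (3, 1), (5, 1), (7, 1), (19, 1), (37, 1), (23, 1), (39, 1)]
(.lp [3] [1, 4, 6] [0, 2, 5, 7] [(.mj 7 3, 848), (.hz 13 95, 47098), (.rw 6, 1), (.rw 7, 1)])))))
(.spn
(.lp [3] [0, 2, 5] [1, 4, 6] [(.mj 3 6, 2), (.mj 5 3, 3)])
(.lp [3] [0, 2, 5] [1, 4, 6] [(.mj 5 6, 150), (.mj 6 3, 76), (.hz 11 119, 153729)])
.fin)))
(.lp [3] [0, 2, 5] [1, 4, 6] [(.mj 0 1, 2780), (.mj 5 3, 738), (.mj 5 6, 2479), (.rw 4, 4), (.hz 13 23, 2779922), (.hz 9 39, 86273), (.hz 4 45, 52723), (.hz 10 87, 1207788)]))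
(.lp [3] [0, 2, 5] [1, 4, 6] [(.mj 0 1, 314), (.mj 5 3, 118), (.mj 5 6, 471), (.rw 4, 1), (.hz 12 23, 1295992)])))
(.cut 3 [(0, 1), (1, 1), (2, 1), (3, 1), (5, 1), (7, 1)]
(.cut 3 [(0, 1), (1, 1), (2, 1), (3, 1), (5, 1), (7, 1), (19, 1), (23, 1)]
(.lp [3] [0, 2, 5] [1, 4, 6] [(.mj 1 2, 82), (.mj 4 5, 55), (.hz 11 37, 509705), (.hz 11 39, 1447564), (.hz 11 55, 2247501), (.hz 11 87, 2247501), (.rw 5, 1), (.rw 6, 5)]))))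
(.cut 3 [(0, 1), (1, 1), (2, 1), (3, 1), (5, 1), (7, 1)]
(.lp [3] [0, 2, 5] [1, 4, 6] [(.hz 10 1, 50811), (.hz 10 3, 50811), (.rw 5, 1)])))
(.haz 5 23 3 20
(.ask 37
(.ask 13
(.mark 63 6 7 8
(.cut 3 [(0, 1), (1, 1), (2, 1), (3, 1), (5, 1), (7, 1)]
(.lp [3, 8] [1, 4, 6] [0, 2, 5, 7] [(.mj 0 1, 472296), (.mj 6 3, 99306), (.mj 6 5, 74288), (.rw 4, 19), (.hz 4 269, 9839510), (.hz 4 165, 6706751), (.hz 10 31, 67536419), (.hz 10 87, 14295969), (.hz 7 167, 28591939), (.hz 4 173, 20307434), (.hz 4 301, 16788153), (.hz 7 175, 69514077), (.hz 7 303, 4993929), (.rw 5, 200)])))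
(.mark 55 3 6 7
(.cut 3 [(0, 1), (1, 1), (2, 1), (3, 1), (5, 1), (7, 1), (19, 1), (37, 1), (23, 1), (39, 1), (55, 1)]
(.lp [3] [1, 4, 6] [0, 2, 5, 7] [(.mj 0 1, 95640), (.mj 6 3, 12482), (.mj 6 5, 17378), (.rw 4, 3), (.hz 4 45, 1399704), (.hz 4 165, 1358103), (.hz 10 31, 12917604), (.hz 10 87, 2894904), (.hz 7 167, 5789807), (.hz 4 173, 2265096), (.hz 7 175, 8737041), (.rw 5, 23)]))))
(.cut 3 [(0, 1), (1, 1), (2, 1), (3, 1), (5, 1), (7, 1)]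
(.cut 3 [(0, 1), (1, 1), (2, 1), (3, 1), (5, 1), (7, 1), (19, 1), (37, 1), (23, 1)]
(.lp [3] [0, 2, 5] [1, 4, 6] [(.mj 0 1, 22358), (.mj 6 3, 9535), (.mj 6 5, 3946), (.hz 10 23, 493189), (.hz 10 31, 3786987), (.hz 7 47, 267731), (.rw 5, 6), (.rw 6, 10)]))))
(.cut 3 [(0, 1), (1, 1), (2, 1), (3, 1), (5, 1), (7, 1)]
(.lp [3] [0, 2, 5] [1, 4, 6] [(.mj 0 1, 32874), (.mj 6 3, 7983), (.hz 10 5, 586217), (.hz 10 7, 12795), (.hz 4 13, 886656), (.hz 4 45, 85789), (.hz 7 47, 3592277), (.rw 5, 8)])))))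
(.spn
(.lp [3] [1, 4] [0, 2, 5] [(.mj 2 3, 1), (.mj 3 5, 2), (.mj 4 3, 2)])
(.lp [3] [1, 4] [0, 2, 5] [(.mj 4 5, 13), (.mj 5 3, 7), (.hz 9 39, 4095)])
.fin))
(.cut 3 [(0, 1), (2, 1)]
(.lp [3] [1, 4] [0, 2, 5] [(.hz 9 1, 50811), (.hz 9 3, 50811), (.rw 4, 1)])))
(.lp [3] [1, 4] [0, 2, 5] [(.mj 0 1, 3), (.mj 2 4, 4), (.mj 4 3, 5), (.hz 8 3, 3471), (.hz 6 9, 121), (.hz 6 11, 1307), (.hz 4 37, 288)])))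
(.lp [3] [1, 4] [0, 2, 5] [(.mj 1 2, 5363), (.mj 4 5, 1341), (.rw 3, 7), (.hz 7 7, 2681533)]))
(.lp [3] [1, 4] [0, 2, 5] [(.mj 0 1, 20), (.mj 4 3, 4), (.hz 6 1, 580), (.hz 6 9, 298), (.hz 1 11, 1116)]))
(.ask 11
(.haz 4 11 1 5
(.mark 11 2 4 6
(.cut 3 [(0, 1), (1, 1), (2, 1), (3, 1), (5, 1), (7, 1), (19, 2), (23, 2)]
(.lp [1, 4] [3, 6] [0, 2, 5] [(.mj 1 2, 13643), (.mj 5 3, 2508), (.mj 5 4, 5986), (.hz 5 19, 278438), (.hz 6 15, 920219), (.hz 1 27, 3418517), (.hz 1 75, 2986976), (.hz 6 75, 3483185), (.hz 6 79, 10803211), (.rw 4, 4)])))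
(.mark 11 2 4 6
(.cut 3 [(0, 1), (1, 1), (2, 1), (3, 1), (5, 1), (7, 1)]
(.lp [1, 4] [3, 6] [0, 2, 5] [(.mj 1 2, 1602), (.mj 5 3, 735), (.hz 6 3, 282758), (.hz 6 11, 214696), (.hz 1 27, 141336), (.hz 1 75, 384753), (.rw 4, 1)]))))
(.cut 3 [(0, 1), (1, 1), (2, 1), (3, 1), (5, 1), (7, 1)]
(.lp [3] [1, 4] [0, 2, 5] [(.mj 1 2, 4813), (.mj 5 3, 602), (.mj 5 4, 2112), (.hz 5 19, 98230), (.hz 1 27, 1043694), (.rw 4, 1)])))))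

theorem run7 : run (mkLeaf Leaf.nleaf) cutRow [] t7 s7 = true := by
  decide +kernel

end Pool.Agent.W3.Data
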