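import Pool.Agent.W3.CutRow
import Pool.Agent.W3.LeafRow

/-!
# The search tree, part 7
-/

set_option autoImplicit false

namespace Pool.Agent.W3.Data

/-- the state above part 8 of the tree -/
def s8 : St := ⟨[0, 0, 1, 1, 3, 7, 13], [7, 5, 3, 2, 9, 1, 0], [0, 1, 2, 3],
  [],
  [⟨true, 1, 9, 3, 20⟩, ⟨true, 2, 9, 1, 5⟩, ⟨true, 1, 9, 1, 4⟩, ⟨true, 1, 5, 1, 4⟩, ⟨true, 1, 5, 7, 20⟩, ⟨true, 2, 19, 3, 20⟩, ⟨true, 3, 39, 1, 20⟩, ⟨true, 3, 39, 1, 10⟩, ⟨true, 3, 23, 1, 20⟩, ⟨true, 3, 39, 3, 20⟩],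
  [.spn 0 0 666000, .spn 1 1 165501, .spn 3 2 165501, .spn 7 3 77954]⟩

/-- part 8 of the tree -/
noncomputable def t8 : Tree :=
(.mark 15 4 5 6
(.spn
(.haz 5 79 3 20
(.haz 4 39 3 20
(.haz 3 39 1 4
(.haz 5 79 1 5
(.haz 4 7 1 4
(.maj 5 6
(.ask 39
(.mark 39 3 4 7
(.lp [1, 4] [3, 6] [0, 2, 5, 7] [(.mj 1 2, 13), (.mj 2 3, 45), (.mj 3 4, 41), (.mj 4 5, 17), (.mj 5 6, 6), (.hz 14 7, 2111), (.hz 12 39, 336), (.hz 14 39, 11473), (.hz 14 79, 12468), (.hz 13 79, 17092), (.hz 14 167, 15297)]))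
(.lp [1, 4] [3, 6] [0, 2, 5] [(.mj 2 3, 27), (.mj 3 4, 16), (.mj 4 5, 4), (.hz 14 15, 11696), (.hz 14 39, 1725), (.hz 4 77, 316), (.hz 13 79, 3450)]))
(.lp [1, 4] [3, 6] [0, 2, 5] [(.mj 1 2, 6), (.mj 2 3, 53), (.mj 3 4, 45), (.mj 4 6, 13), (.mj 6 5, 17), (.hz 14 7, 993), (.hz 12 39, 902), (.hz 14 39, 37077), (.hz 13 79, 13903), (.hz 12 55, 38288)]))
(.lp [1, 4] [3, 6] [0, 2, 5] [(.mj 1 2, 1), (.mj 2 3, 25), (.mj 4 5, 19), (.mj 4 6, 3), (.hz 14 3, 5393), (.hz 14 7, 9780), (.hz 12 39, 10599), (.hz 13 79, 22174)]))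
(.lp [1, 4] [3, 6] [0, 2, 5] [(.mj 2 3, 7), (.mj 3 4, 6), (.mj 4 6, 2), (.hz 13 7, 1563), (.hz 13 15, 2013), (.hz 11 39, 423), (.hz 10 79, 552)]))
(.lp [1, 4] [3, 6] [0, 2, 5] [(.mj 2 3, 9), (.mj 3 4, 31), (.mj 4 5, 23), (.hz 12 5, 3555), (.hz 12 7, 19914), (.hz 9 39, 4608), (.hz 11 39, 2294), (.hz 4 77, 864), (.hz 10 79, 5759)]))
(.lp [1, 4] [3, 6] [0, 2, 5] [(.mj 1 2, 2), (.mj 2 3, 3), (.mj 4 5, 2), (.hz 11 3, 144), (.hz 11 7, 175), (.hz 9 39, 244), (.hz 10 79, 461)]))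
(.lp [1, 4] [3, 6] [0, 2, 5] [(.mj 2 3, 10), (.mj 3 4, 8), (.mj 4 6, 3), (.hz 10 7, 657), (.hz 10 15, 711)]))
(.haz 3 19 3 20
(.ask 39
(.mark 47 4 6 7
(.spn
(.haz 4 7 1 5
(.lp [1, 4] [3, 6] [0, 2, 5, 7] [(.mj 1 2, 13), (.mj 3 5, 2), (.mj 4 7, 3), (.mj 5 4, 20), (.hz 11 7, 6108), (.hz 11 15, 14317), (.hz 11 79, 25733), (.hz 11 167, 9)])
(.haz 4 39 1 10
(.haz 7 111 1 4
(.haz 2 19 9 20
(.haz 7 63 3 10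
(.ask 19
(.mark 63 6 7 8
(.spn
(.lp [3, 6] [1, 4, 8] [0, 2, 5, 7] [(.mj 1 2, 2207), (.mj 4 6, 1138), (.mj 5 4, 3511), (.mj 6 7, 1439), (.rw 5, 4), (.hz 12 167, 100305), (.hz 13 111, 1655027)])
(.haz 6 175 1 5
(.lp [3, 6] [1, 4, 8] [0, 2, 5, 7] [(.mj 1 2, 2062), (.mj 3 5, 5658), (.mj 4 7, 9881), (.mj 5 4, 15854), (.mj 7 6, 15148), (.rw 5, 1), (.hz 11 7, 101408), (.hz 14 275, 33803), (.hz 14 283, 84507), (.hz 16 175, 22119356), (.hz 16 191, 84062214), (.hz 15 319, 21419729), (.hz 16 447, 194394264)])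
(.lp [3, 6] [1, 4, 8] [0, 2, 5, 7] [(.mj 3 5, 7), (.mj 4 7, 7), (.mj 5 4, 8), (.hz 16 13, 1874), (.hz 16 15, 7963), (.hz 16 47, 5543), (.hz 12 111, 653), (.hz 13 111, 17074)]))
(.lp [3, 6] [1, 4, 8] [0, 2, 5, 7] [(.mj 5 4, 3059), (.mj 8 6, 1420), (.mj 8 7, 1420), (.rw 5, 4)])))
(.ask 77
(.mark 111 4 7 8
(.lp [1, 4] [3, 6, 8] [0, 2, 5, 7] [(.mj 1 2, 66), (.mj 2 3, 13), (.mj 3 5, 9), (.mj 4 7, 14), (.mj 5 4, 32), (.hz 12 167, 60), (.hz 15 63, 194), (.hz 12 111, 13349), (.hz 13 111, 18288), (.hz 12 367, 15002), (.hz 13 367, 57041)]))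
(.ask 23
(.mark 63 6 7 8
(.spn
(.lp [3, 6] [1, 4, 8] [0, 2, 5, 7] [(.mj 1 2, 859), (.mj 2 3, 643), (.mj 4 6, 643), (.mj 5 4, 2088), (.mj 6 7, 848), (.rw 5, 2), (.hz 12 167, 389524), (.hz 13 111, 1125838)])
(.ask 167
(.mark 191 6 8 9
(.lp [3, 6] [1, 4, 8] [0, 2, 5, 7, 9] [(.mj 1 2, 19429), (.mj 3 5, 9718), (.mj 4 6, 239), (.mj 4 7, 439), (.mj 5 4, 8544), (.mj 7 6, 2486), (.rw 5, 8), (.hz 11 7, 5628), (.hz 15 319, 4792965)]))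
(.ask 175
(.mark 191 6 8 9
(.spn
(.ask 79
(.mark 255 8 9 10
(.lp [1, 4, 8] [3, 6, 10] [0, 2, 5, 7, 9] [(.mj 1 2, 25650), (.mj 3 5, 2670), (.mj 4 7, 3058), (.mj 5 4, 8467), (.mj 6 9, 419), (.mj 7 6, 936), (.rw 7, 1), (.hz 11 7, 91016), (.hz 13 1135, 15313750)]))
(.lp [3, 6] [1, 4, 8] [0, 2, 5, 7, 9] [(.mj 3 5, 17303), (.mj 4 7, 16921), (.mj 5 4, 26312), (.mj 6 9, 1975), (.mj 7 6, 19939), (.rw 7, 8), (.hz 13 111, 40961706), (.hz 15 319, 5338405)]))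
(.lp [3, 6] [1, 4, 8] [0, 2, 5, 7, 9] [(.mj 1 2, 670), (.mj 3 5, 69), (.mj 4 7, 205), (.mj 8 6, 106), (.mj 8 9, 51), (.hz 11 7, 365463), (.hz 12 111, 93574), (.hz 13 111, 634756), (.hz 15 127, 171205)])
(.ask 79
(.mark 111 4 7 10
(.cut 6 [(0, 1), (1, 1), (2, 1), (3, 1), (5, 1), (9, 1), (7, 1), (11, 1), (13, 1), (19, 1), (15, 1), (23, 1), (27, 1), (39, 1), (55, 1), (167, 1), (279, 1), (183, 1)]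
(.lp [1, 4, 8] [3, 6, 10] [0, 2, 5, 7, 9] [(.mj 1 2, 110808), (.mj 3 5, 14290), (.mj 4 7, 10628), (.mj 5 4, 28051), (.hz 11 7, 4036797), (.hz 13 111, 8967754), (.hz 12 1135, 25346563), (.hz 13 1135, 42399429), (.rw 8, 1)])))
(.lp [3, 6] [1, 4, 8] [0, 2, 5, 7, 9] [(.mj 3 5, 12), (.mj 4 7, 13), (.mj 5 4, 17), (.mj 9 6, 8), (.hz 12 111, 27485), (.hz 13 111, 50674), (.hz 15 127, 23618)]))))
(.lp [3, 6] [1, 4, 8] [0, 2, 5, 7] [(.mj 1 2, 37), (.mj 3 5, 12), (.mj 4 6, 5), (.mj 5 4, 16), (.hz 10 279, 237), (.hz 12 111, 8719)])))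
(.lp [3, 6] [1, 4, 8] [0, 2, 5, 7] [(.mj 1 2, 1475), (.mj 5 4, 1041), (.mj 8 6, 132), (.mj 8 7, 333), (.rw 5, 1), (.hz 12 167, 67038), (.hz 13 111, 1106135)])))
(.maj 6 7
(.lp [1, 4] [3, 6] [0, 2, 5, 7] [(.mj 1 2, 46824), (.mj 2 3, 20811), (.mj 3 5, 17082), (.mj 4 6, 8266), (.mj 5 4, 21273), (.mj 6 7, 12094), (.rw 5, 1), (.hz 15 63, 27616944), (.hz 12 111, 10636592), (.hz 13 111, 14466343)])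
(.ask 55
(.mark 63 6 7 8
(.lp [3, 6] [1, 4, 8] [0, 2, 5, 7] [(.mj 1 2, 383), (.mj 3 5, 165), (.mj 4 7, 13), (.mj 5 4, 68), (.mj 7 6, 29), (.hz 12 111, 6685), (.hz 13 111, 32910), (.hz 15 319, 42615)]))
(.haz 4 111 1 5
(.ask 79
(.haz 6 47 3 20
(.mark 111 4 7 8
(.lp [1, 4] [3, 6, 8] [0, 2, 5, 7] [(.mj 1 2, 56), (.mj 2 3, 20), (.mj 3 5, 13), (.mj 4 7, 6), (.mj 5 4, 18), (.hz 12 167, 202), (.hz 17 63, 3873), (.hz 17 175, 1320), (.hz 16 367, 13829), (.hz 13 367, 23533)]))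
(.mark 111 4 7 8
(.lp [1, 4] [3, 6, 8] [0, 2, 5, 7] [(.mj 3 5, 4), (.mj 4 7, 4), (.mj 5 4, 6), (.hz 17 15, 1461), (.hz 15 63, 1794), (.hz 16 111, 4606), (.hz 13 111, 6135), (.hz 13 367, 14354)])))
(.lp [1, 4] [3, 6] [0, 2, 5, 7] [(.mj 4 7, 39), (.mj 5 4, 62), (.mj 7 6, 14), (.hz 15 63, 79), (.hz 16 111, 155875), (.hz 13 111, 100712)]))
(.lp [1, 4] [3, 6] [0, 2, 5, 7] [(.mj 1 2, 5089), (.mj 2 3, 15027), (.mj 4 7, 22501), (.mj 7 6, 7841), (.rw 5, 13), (.hz 16 15, 14360944), (.hz 16 39, 13754865), (.hz 16 47, 53221279), (.hz 12 111, 21563141), (.hz 13 111, 59064256)])))))))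
(.lp [1, 4] [3, 6] [0, 2, 5, 7] [(.mj 1 2, 3), (.mj 2 3, 2), (.mj 4 6, 16), (.mj 5 4, 33), (.hz 15 39, 3805), (.hz 15 47, 14832), (.hz 12 111, 31495), (.hz 13 111, 28199)]))
(.lp [1, 4] [3, 6] [0, 2, 5, 7] [(.mj 2 3, 1), (.hz 14 3, 83), (.hz 11 3, 285)]))
(.lp [1, 4] [3, 6] [0, 2, 5, 7] [(.mj 1 2, 65), (.mj 3 5, 1), (.mj 4 6, 13), (.mj 5 4, 40), (.hz 13 39, 8747), (.hz 13 47, 32625), (.hz 12 111, 35679)]))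
(.lp [1, 4] [3, 6] [0, 2, 5, 7] [(.mj 1 2, 16), (.mj 2 3, 2), (.mj 3 5, 2), (.mj 4 7, 1), (.hz 12 3, 1673)])))
(.haz 4 7 3 20
(.lp [1, 4] [3, 6] [0, 2, 5, 7] [(.mj 1 2, 5), (.mj 6 4, 3), (.hz 11 7, 159), (.hz 11 15, 505), (.hz 11 39, 187), (.hz 11 47, 814), (.hz 11 79, 20), (.hz 11 167, 240), (.hz 11 175, 23)])
(.haz 7 47 1 2
(.lp [1, 4] [3, 6] [0, 2, 5, 7] [(.mj 1 2, 26576), (.mj 2 3, 20471), (.mj 6 7, 17502), (.rw 5, 1), (.hz 11 3, 1249238), (.hz 11 7, 1312657), (.hz 12 47, 54433585), (.hz 9 55, 8751047), (.hz 12 63, 162415279)])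
(.cut 4 [(0, 1), (1, 1), (2, 1), (3, 1), (5, 1), (9, 1), (7, 1), (11, 1), (13, 1), (15, 1), (39, 1), (77, 1), (47, 1)]
(.lp [1, 4] [3, 6] [0, 2, 5, 7] [(.mj 1 2, 517499), (.mj 2 3, 103500), (.mj 3 5, 13739), (.mj 6 4, 58771), (.mj 6 7, 8396), (.rw 5, 35), (.hz 11 3, 9078931), (.hz 12 39, 54954237), (.hz 9 183, 22864789), (.rw 6, 63)]))))
(.haz 4 15 3 20
(.lp [1, 4] [3, 6] [0, 2, 5, 7] [(.mj 1 2, 24), (.mj 3 5, 11), (.mj 7 4, 19), (.mj 7 6, 2), (.hz 11 15, 2812), (.hz 11 47, 8020), (.hz 11 79, 5520), (.hz 11 175, 3358)])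
(.haz 4 47 1 10
(.ask 167
(.mark 175 4 6 8
(.cut 4 [(0, 1), (1, 1), (2, 1), (3, 1), (5, 1), (9, 1), (7, 1), (11, 1), (13, 1), (15, 1), (39, 1), (77, 1), (47, 1)]
(.lp [1, 4] [3, 6] [0, 2, 5, 7, 8] [(.mj 1 2, 32948), (.mj 3 5, 14315), (.mj 7 4, 8936), (.mj 7 6, 3563), (.hz 11 3, 578033), (.hz 11 11, 969055), (.hz 12 47, 2873162), (.hz 12 111, 14455497), (.hz 12 431, 4924786), (.rw 6, 8)])))
(.ask 175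
(.mark 175 4 6 8
(.spn
(.lp [1, 4] [3, 6] [0, 2, 5, 7, 8] [(.mj 1 2, 4415), (.mj 3 5, 1321), (.mj 4 8, 82), (.mj 7 4, 720), (.rw 6, 1), (.hz 11 3, 77449), (.hz 11 11, 129840), (.hz 12 111, 2050112)])
(.lp [1, 4] [3, 6] [0, 2, 5, 7, 8] [(.mj 1 2, 6), (.mj 2 3, 1), (.mj 6 4, 2), (.hz 11 3, 60), (.hz 12 47, 1932), (.hz 12 111, 1044), (.hz 12 175, 1623), (.hz 12 431, 1361)])
(.lp [1, 4] [3, 6] [0, 2, 5, 7, 8] [(.mj 1 2, 39), (.mj 8 4, 19), (.hz 11 3, 40), (.hz 11 11, 67), (.hz 12 47, 20336), (.hz 12 111, 8828), (.hz 12 175, 18512)])))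
(.lp [1, 4] [3, 6] [0, 2, 5, 7] [(.mj 1 2, 2), (.mj 7 4, 2), (.mj 7 6, 1), (.hz 12 111, 8942)])))
(.cut 4 [(0, 1), (1, 1), (2, 1), (3, 1), (5, 1), (9, 1), (7, 1), (11, 1), (13, 1), (15, 1), (77, 1)]
(.lp [1, 4] [3, 6] [0, 2, 5, 7] [(.mj 1 2, 4682), (.mj 3 5, 906), (.hz 12 3, 192110), (.hz 12 7, 49405), (.hz 12 11, 309511), (.hz 12 15, 1094623), (.rw 6, 1)]))))))
(.haz 3 23 3 10
(.ask 47
(.mark 47 4 6 7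
(.spn
(.ask 19
(.mark 63 6 7 8
(.lp [3, 6] [1, 4, 8] [0, 2, 5, 7] [(.mj 2 3, 15), (.mj 4 7, 1), (.mj 5 4, 3), (.hz 11 23, 2331), (.hz 10 275, 1234), (.hz 11 279, 4684)]))
(.ask 27
(.mark 63 6 7 8
(.lp [3, 6] [1, 4, 8] [0, 2, 5, 7] [(.mj 2 3, 1)]))
(.ask 23
(.mark 63 6 7 8
(.lp [3, 6] [1, 4, 8] [0, 2, 5, 7] [(.mj 2 3, 36), (.mj 4 7, 2), (.mj 5 4, 7), (.hz 11 23, 8187), (.hz 11 279, 5214)]))
(.ask 55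
(.mark 63 6 7 8
(.spn
(.haz 7 111 3 10
(.lp [3, 6] [1, 4, 8] [0, 2, 5, 7] [(.mj 2 3, 17742), (.mj 4 7, 1646), (.mj 5 4, 5236), (.rw 6, 1), (.hz 11 23, 6433239), (.hz 12 111, 1728093)])
(.lp [3, 6] [1, 4, 8] [0, 2, 5, 7] [(.mj 2 3, 24), (.mj 4 6, 76), (.mj 5 4, 115), (.hz 12 47, 49585)]))
(.ask 175
(.mark 191 6 8 9
(.spn
(.lp [3, 6] [1, 4, 8] [0, 2, 5, 7, 9] [(.mj 2 3, 25505), (.mj 4 7, 1656), (.mj 5 4, 9185), (.rw 6, 2), (.rw 7, 5), (.hz 11 311, 6919733)])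
(.haz 6 175 1 10
(.ask 311
(.mark 447 6 9 10
(.lp [3, 6] [1, 4, 8, 10] [0, 2, 5, 7, 9] [(.mj 2 3, 2098), (.mj 4 7, 114), (.mj 5 4, 1376), (.rw 7, 1), (.hz 12 175, 120127), (.hz 12 191, 5225044), (.hz 11 1335, 52087), (.hz 12 447, 2881441), (.hz 12 1471, 5902169)]))
(.lp [3, 6] [1, 4, 8] [0, 2, 5, 7, 9] [(.mj 2 3, 18), (.mj 4 7, 1), (.mj 5 4, 2), (.mj 7 8, 1)]))
(.lp [3, 6] [1, 4, 8] [0, 2, 5, 7, 9] [(.mj 2 3, 8), (.mj 4 7, 35), (.mj 5 4, 51), (.hz 12 13, 3052), (.hz 12 15, 12547), (.hz 12 47, 19206)]))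
(.haz 6 175 1 10
(.haz 8 191 1 4
(.lp [3, 6] [1, 4, 8] [0, 2, 5, 7, 9] [(.mj 2 3, 41328), (.mj 4 7, 2253), (.mj 5 4, 695), (.mj 9 8, 8841), (.rw 7, 1), (.hz 12 175, 2366106), (.hz 11 311, 11249777), (.hz 12 191, 4590574), (.hz 13 191, 92367371), (.hz 12 447, 111390798)])
(.lp [3, 6] [1, 4, 8] [0, 2, 5, 7, 9] [(.mj 2 3, 16), (.mj 4 7, 1), (.mj 5 4, 3), (.hz 13 55, 6803)]))
(.lp [3, 6] [1, 4, 8] [0, 2, 5, 7, 9] [(.mj 2 3, 8), (.mj 4 7, 35), (.mj 5 4, 51), (.hz 12 13, 3052), (.hz 12 15, 12547), (.hz 12 47, 19206)]))))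
(.lp [3, 6] [1, 4, 8] [0, 2, 5, 7] [(.mj 2 3, 18), (.mj 4 6, 8), (.mj 5 4, 19), (.hz 11 311, 4732)]))
(.haz 7 63 7 20
(.cut 6 [(0, 1), (1, 1), (2, 1), (3, 1), (5, 1), (9, 1), (7, 1), (11, 1), (13, 1), (19, 1), (15, 1), (23, 1), (27, 1), (39, 1), (47, 1), (55, 1), (311, 1)]
(.lp [3, 6] [1, 4, 8] [0, 2, 5, 7] [(.mj 2 3, 1225518), (.mj 5 4, 290225), (.mj 8 7, 79579), (.hz 11 23, 589349692), (.hz 12 63, 53974433), (.hz 12 127, 205510500), (.rw 7, 49)]))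
(.lp [3, 6] [1, 4, 8] [0, 2, 5, 7] [(.mj 2 3, 92), (.mj 5 4, 22), (.hz 11 23, 32592), (.hz 12 47, 1971)]))))
(.lp [1, 4] [3, 6] [0, 2, 5, 7] [(.mj 2 3, 1)])))))
(.lp [1, 4] [3, 6] [0, 2, 5, 7] [(.mj 1 2, 7), (.mj 2 3, 24), (.mj 6 4, 6), (.mj 6 7, 2), (.hz 10 19, 2419), (.hz 11 23, 2967), (.hz 11 55, 2077)])
(.ask 175
(.mark 175 4 6 8
(.spn
(.lp [1, 4] [3, 6] [0, 2, 5, 7, 8] [(.mj 7 4, 383), (.rw 6, 1)])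
(.lp [1, 4] [3, 6] [0, 2, 5, 7, 8] [(.mj 1 2, 3111), (.mj 2 3, 11114), (.rw 5, 1), (.rw 6, 3), (.hz 10 19, 1134068), (.hz 11 23, 1391211), (.hz 11 55, 973848)])
(.cut 4 [(0, 1), (1, 1), (2, 1), (3, 1), (5, 1), (9, 1), (7, 1), (11, 1), (13, 1), (15, 1), (39, 1), (77, 1), (47, 1)]
(.lp [1, 4] [3, 6] [0, 2, 5, 7, 8] [(.mj 1 2, 7123), (.mj 2 3, 11732), (.mj 8 4, 3265), (.hz 10 19, 1197111), (.hz 11 23, 608511), (.hz 4 77, 254468), (.hz 11 55, 608511), (.rw 7, 4)]))))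
(.lp [1, 4] [3, 6] [0, 2, 5, 7] [(.mj 7 6, 1), (.rw 5, 1)]))))
(.lp [1, 4] [3, 6] [0, 2, 5] [(.mj 2 3, 46), (.mj 5 4, 13), (.hz 10 19, 2337), (.hz 11 23, 13265)]))
(.lp [1, 4] [3, 6] [0, 2, 5] [(.mj 3 4, 5), (.mj 3 5, 1), (.mj 5 4, 1), (.hz 11 7, 2945), (.hz 10 23, 666), (.hz 4 77, 362)])))
(.cut 4 [(0, 1), (1, 1), (2, 1), (3, 1), (5, 1), (9, 1), (7, 1), (11, 1), (13, 1), (15, 1)]
(.lp [1, 4] [3, 6] [0, 2, 5] [(.mj 1 2, 16), (.mj 3 5, 2439), (.mj 5 4, 2187), (.hz 10 1, 256649), (.hz 8 23, 377117), (.rw 5, 1)])))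
(.haz 4 7 1 5
(.lp [1, 4] [3, 6] [0, 2, 5] [(.mj 1 2, 8), (.mj 2 3, 1), (.mj 6 4, 6), (.mj 6 5, 1), (.hz 10 7, 1033), (.hz 10 15, 4250), (.hz 10 39, 2060)])
(.lp [1, 4] [3, 6] [0, 2, 5] [(.mj 1 2, 71), (.mj 2 3, 23), (.mj 6 4, 10), (.mj 6 5, 23), (.hz 10 3, 8132), (.hz 10 7, 5379), (.hz 9 39, 2562)]))))

theorem run8 : run (mkLeaf Leaf.nleaf) cutRow [] t8 s8 = true := by
  decide +kernel

end Pool.Agent.W3.Data
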