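import Pool.Agent.W3.CutRow
import Pool.Agent.W3.LeafRow

/-!
# The search tree, part 8
-/

set_option autoImplicit false

namespace Pool.Agent.W3.Data

/-- the state above part 9 of the tree -/
def s9 : St := ⟨[0, 0, 1, 1, 3, 7], [13, 7, 5, 3, 2, 9, 1, 0], [0, 1, 2, 3],
  [],
  [⟨true, 1, 9, 3, 20⟩, ⟨true, 2, 9, 1, 5⟩, ⟨true, 1, 9, 1, 4⟩, ⟨true, 1, 5, 1, 4⟩, ⟨true, 1, 5, 7, 20⟩, ⟨true, 2, 19, 3, 20⟩, ⟨true, 3, 39, 1, 20⟩, ⟨true, 3, 39, 1, 10⟩, ⟨true, 3, 23, 1, 20⟩, ⟨true, 3, 39, 3, 20⟩],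
  [.spn 0 0 666000, .spn 1 1 165501, .spn 3 2 165501, .spn 7 3 77954]⟩

/-- part 9 of the tree -/
noncomputable def t9 : Tree :=
(.ask 11
(.mark 15 4 5 6
(.spn
(.haz 5 15 7 20
(.lp [1, 4] [3, 6] [0, 2, 5] [(.mj 2 3, 13), (.mj 3 4, 14), (.mj 4 5, 14), (.hz 10 15, 1602), (.hz 9 39, 206), (.hz 1 75, 1476), (.hz 10 31, 1071), (.hz 10 79, 3815)])
(.haz 4 15 1 4
(.lp [1, 4] [3, 6] [0, 2, 5] [(.mj 2 3, 13), (.mj 3 4, 11), (.hz 10 7, 933), (.hz 11 15, 2006), (.hz 10 15, 539), (.hz 11 47, 4013), (.hz 11 79, 7519)])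
(.lp [1, 4] [3, 6] [0, 2, 5] [(.mj 2 3, 16), (.mj 4 5, 3), (.hz 11 3, 2150), (.hz 11 7, 6403), (.hz 10 7, 1055)])))
(.haz 3 23 1 5
(.ask 39
(.mark 47 4 6 7
(.spn
(.haz 7 111 1 5
(.haz 4 79 1 10
(.haz 4 7 3 20
(.maj 6 7
(.lp [1, 4] [3, 6] [0, 2, 5, 7] [(.mj 2 3, 7), (.mj 3 5, 4), (.mj 4 6, 4), (.mj 5 4, 10), (.mj 6 7, 4), (.hz 13 79, 6604), (.hz 13 167, 891), (.hz 11 111, 4929), (.hz 13 175, 3819)])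
(.lp [1, 4] [3, 6] [0, 2, 5, 7] [(.mj 2 3, 105), (.mj 3 5, 51), (.mj 4 7, 73), (.mj 5 4, 125), (.mj 7 6, 20), (.hz 13 79, 95836), (.hz 13 167, 740), (.hz 13 111, 18311), (.hz 11 111, 160545)]))
(.lp [1, 4] [3, 6] [0, 2, 5, 7] [(.mj 2 3, 798), (.mj 3 5, 479), (.mj 4 6, 81), (.mj 4 7, 210), (.hz 13 3, 30834), (.hz 13 7, 51692), (.hz 12 79, 194713), (.hz 11 111, 593707), (.hz 12 239, 88193)]))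
(.lp [1, 4] [3, 6] [0, 2, 5, 7] [(.mj 2 3, 7), (.mj 3 5, 4), (.mj 4 6, 1), (.mj 4 7, 2), (.hz 12 3, 569), (.hz 12 7, 916), (.hz 11 111, 5420)]))
(.lp [1, 4] [3, 6] [0, 2, 5, 7] [(.mj 2 3, 15), (.mj 3 5, 7), (.mj 4 6, 10), (.mj 5 4, 17), (.hz 11 39, 3625), (.hz 11 47, 13788)]))
(.haz 7 47 1 2
(.cut 4 [(0, 1), (1, 1), (2, 1), (3, 1), (5, 1), (9, 1), (7, 1), (11, 1), (13, 1), (15, 1), (75, 2), (79, 1)]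
(.cut 4 [(0, 1), (1, 1), (2, 1), (3, 1), (5, 1), (9, 1), (7, 1), (11, 1), (13, 1), (15, 1)]
(.lp [1, 4] [3, 6] [0, 2, 5, 7] [(.mj 2 3, 30180), (.mj 6 4, 17447), (.mj 6 7, 17447), (.rw 5, 3), (.hz 11 47, 60359890), (.hz 10 55, 68101903), (.hz 11 63, 275258713), (.rw 6, 1), (.rw 7, 22)])))
(.cut 4 [(0, 1), (1, 1), (2, 1), (3, 1), (5, 1), (9, 1), (7, 1), (11, 1), (13, 1), (15, 1), (39, 1), (47, 1)]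
(.lp [1, 4] [3, 6] [0, 2, 5, 7] [(.mj 2 3, 11669), (.mj 3 5, 1030), (.mj 6 4, 5291), (.mj 6 7, 1515), (.hz 11 39, 4118610), (.hz 10 183, 10040894), (.rw 6, 8)])))
(.haz 4 239 1 10
(.haz 7 111 3 10
(.haz 7 111 9 20
(.haz 3 19 1 5
(.ask 19
(.mark 63 6 7 8
(.cut 4 [(0, 1), (1, 1), (2, 1), (3, 1), (5, 1), (9, 1), (7, 1), (11, 1), (13, 1), (15, 1)]
(.lp [3, 6] [1, 4, 8] [0, 2, 5, 7] [(.mj 2 3, 121453), (.mj 3 5, 95371), (.mj 7 4, 40662), (.hz 14 275, 75723556), (.hz 10 279, 46466728), (.hz 13 111, 2251907), (.hz 11 239, 45038149), (.rw 6, 67)])))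
(.ask 23
(.haz 8 63 1 10
(.mark 23 3 5 8
(.cut 4 [(0, 1), (1, 1), (2, 1), (3, 1), (5, 1), (9, 1), (7, 1), (11, 1), (13, 1), (15, 1)]
(.cut 4 [(0, 1), (1, 1), (2, 1), (3, 1), (5, 1), (9, 1), (7, 1), (11, 1), (13, 1), (15, 1), (39, 1), (75, 1), (47, 1), (79, 2), (167, 1), (111, 2)]
(.lp [3, 6] [1, 4, 8] [0, 2, 5, 7] [(.mj 2 3, 167164), (.mj 3 5, 133670), (.mj 7 4, 70060), (.hz 10 279, 87469537), (.hz 15 63, 43955617), (.hz 13 111, 3958174), (.hz 15 127, 128048374), (.hz 15 191, 52037269), (.hz 11 239, 79163487), (.rw 6, 108), (.rw 7, 14)]))))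
(.mark 63 6 7 8
(.lp [3, 6] [1, 4, 8] [0, 2, 5, 7] [(.mj 2 3, 6), (.mj 3 5, 4), (.hz 15 23, 939), (.hz 15 31, 578)])))
(.cut 4 [(0, 1), (1, 1), (2, 1), (3, 1), (5, 1), (9, 1), (7, 1), (11, 1), (13, 1), (15, 1)]
(.lp [1, 4] [3, 6] [0, 2, 5, 7] [(.mj 2 3, 9702), (.mj 3 5, 7115), (.mj 7 4, 970), (.rw 6, 1)]))))
(.cut 4 [(0, 1), (1, 1), (2, 1), (3, 1), (5, 1), (9, 1), (7, 1), (13, 1)]
(.cut 4 [(0, 1), (1, 1), (2, 1), (3, 1), (5, 1), (9, 1), (7, 1), (11, 1), (13, 1), (15, 1)]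
(.lp [1, 4] [3, 6] [0, 2, 5, 7] [(.mj 3 5, 1472), (.mj 7 4, 1359), (.hz 14 3, 637043), (.rw 6, 1), (.rw 7, 1)]))))
(.lp [1, 4] [3, 6] [0, 2, 5, 7] [(.mj 2 3, 6), (.mj 3 5, 2), (.mj 7 4, 9), (.mj 7 6, 8), (.hz 13 39, 868), (.hz 13 47, 3566), (.hz 12 111, 4418), (.hz 11 239, 44175)]))
(.lp [1, 4] [3, 6] [0, 2, 5, 7] [(.mj 7 4, 1), (.mj 7 6, 1), (.hz 12 39, 166), (.hz 12 47, 650)]))
(.cut 4 [(0, 1), (1, 1), (2, 1), (3, 1), (5, 1), (9, 1), (7, 1), (11, 1), (13, 1), (15, 1)]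
(.lp [1, 4] [3, 6] [0, 2, 5, 7] [(.mj 2 3, 11528), (.mj 3 5, 8666), (.hz 11 3, 612549), (.hz 11 7, 986884), (.hz 11 47, 5052247), (.hz 11 79, 4071043), (.rw 6, 8)])))))
(.ask 47
(.mark 47 4 6 7
(.spn
(.haz 4 11 3 20
(.lp [1, 4] [3, 6] [0, 2, 5, 7] [(.mj 2 3, 12), (.mj 3 5, 4), (.mj 4 7, 3), (.mj 5 4, 10), (.hz 11 11, 1798), (.hz 11 15, 698), (.hz 11 75, 1396), (.hz 11 79, 4579)])
(.haz 7 111 3 10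
(.lp [1, 4] [3, 6] [0, 2, 5, 7] [(.mj 2 3, 27), (.mj 3 5, 6), (.mj 4 7, 4), (.hz 11 3, 1784), (.hz 10 23, 6253), (.hz 12 111, 4443)])
(.lp [1, 4] [3, 6] [0, 2, 5, 7] [(.mj 2 3, 5), (.mj 3 5, 1), (.mj 4 6, 1), (.hz 11 3, 509), (.hz 12 47, 1019)])))
(.cut 4 [(0, 1), (1, 1), (2, 1), (3, 1), (5, 1), (9, 1), (7, 1), (11, 1), (13, 1), (15, 1)]
(.lp [1, 4] [3, 6] [0, 2, 5, 7] [(.mj 2 3, 6122), (.mj 6 4, 3061), (.mj 6 7, 835), (.hz 10 23, 5968971), (.rw 6, 2)]))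
(.cut 4 [(0, 1), (1, 1), (2, 1), (3, 1), (5, 1), (9, 1), (7, 1), (11, 1), (13, 1), (15, 1), (39, 1), (47, 1)]
(.lp [1, 4] [3, 6] [0, 2, 5, 7] [(.mj 2 3, 275558), (.mj 7 4, 100203), (.rw 6, 163)]))))
(.lp [1, 4] [3, 6] [0, 2, 5] [(.mj 2 3, 21), (.mj 3 4, 10), (.hz 5 19, 151), (.hz 10 23, 4368)])))
(.cut 4 [(0, 1), (1, 1), (2, 1), (3, 1), (5, 1), (9, 1), (7, 1), (13, 1)]
(.lp [1, 4] [3, 6] [0, 2, 5] [(.mj 3 5, 1511), (.mj 5 4, 1492), (.hz 10 3, 327600), (.hz 10 7, 627900), (.hz 10 19, 262999), (.rw 5, 1)])))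
(.cut 4 [(0, 1), (1, 1), (2, 1), (3, 1), (5, 1), (9, 1), (7, 1), (13, 1)]
(.lp [1, 4] [3, 6] [0, 2, 5] [(.mj 2 3, 1991), (.mj 6 4, 1267), (.mj 6 5, 982), (.hz 9 39, 142185), (.rw 5, 1)]))))
(.ask 15
(.mark 15 4 5 6
(.spn
(.haz 5 79 3 20
(.haz 4 39 1 5
(.haz 5 15 3 10
(.lp [1, 4] [3, 6] [0, 2, 5] [(.mj 2 3, 17), (.mj 3 4, 16), (.mj 4 5, 13), (.mj 4 6, 1), (.hz 12 15, 3072), (.hz 11 39, 4671), (.hz 12 79, 5386)])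
(.haz 4 15 1 4
(.ask 39
(.mark 39 3 4 7
(.lp [1, 4] [3, 6] [0, 2, 5, 7] [(.mj 2 3, 177), (.mj 3 4, 114), (.mj 4 5, 10), (.hz 12 7, 10686), (.hz 13 15, 74696), (.hz 11 39, 27269), (.hz 10 79, 2005), (.hz 11 167, 34086)]))
(.lp [1, 4] [3, 6] [0, 2, 5] [(.mj 2 3, 7), (.mj 3 4, 4), (.hz 13 15, 2892), (.hz 12 15, 561)]))
(.lp [1, 4] [3, 6] [0, 2, 5] [(.mj 2 3, 15), (.mj 4 5, 6), (.mj 4 6, 4), (.hz 13 3, 2856), (.hz 13 7, 7304), (.hz 12 7, 2069), (.hz 10 79, 2238)])))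
(.lp [1, 4] [3, 6] [0, 2, 5] [(.mj 2 3, 30), (.mj 4 5, 24), (.mj 4 6, 5), (.hz 11 3, 5001), (.hz 11 7, 8752), (.hz 9 39, 2764), (.hz 10 79, 6162)]))
(.lp [1, 4] [3, 6] [0, 2, 5] [(.mj 2 3, 13), (.mj 3 4, 11), (.mj 4 6, 5), (.hz 10 7, 859), (.hz 10 15, 929)]))
(.haz 3 19 3 20
(.ask 39
(.mark 47 4 6 7
(.spn
(.ask 19
(.mark 63 6 7 8
(.spn
(.haz 6 175 1 5
(.lp [3, 6] [1, 4, 8] [0, 2, 5, 7] [(.mj 3 5, 482), (.mj 4 6, 1056), (.mj 4 7, 236), (.mj 5 4, 1644), (.mj 5 6, 131), (.mj 6 7, 470), (.rw 5, 1), (.hz 11 175, 1927338)])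
(.lp [3, 6] [1, 4, 8] [0, 2, 5, 7] [(.mj 2 3, 462), (.mj 5 4, 706), (.mj 6 7, 549), (.rw 5, 1), (.hz 11 15, 318697), (.hz 11 47, 604425)]))
(.haz 5 279 1 5
(.haz 4 79 1 20
(.haz 6 175 1 5
(.haz 6 63 1 4
(.lp [3, 6] [1, 4, 8] [0, 2, 5, 7] [(.mj 3 5, 897), (.mj 4 7, 1583), (.mj 5 4, 2436), (.mj 7 6, 2436), (.rw 5, 1), (.hz 14 63, 19518434), (.hz 13 175, 3277292)])
(.lp [3, 6] [1, 4, 8] [0, 2, 5, 7] [(.mj 3 5, 22), (.mj 4 7, 15), (.mj 5 4, 22), (.mj 7 6, 1), (.hz 14 15, 25636), (.hz 14 47, 33060), (.hz 13 175, 28142)]))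
(.lp [3, 6] [1, 4, 8] [0, 2, 5, 7] [(.mj 3 5, 17), (.mj 4 7, 15), (.mj 5 4, 18), (.hz 13 15, 17108), (.hz 13 47, 21329)]))
(.lp [3, 6] [1, 4, 8] [0, 2, 5, 7] [(.mj 4 6, 1), (.mj 4 7, 1), (.hz 12 3, 219)]))
(.lp [3, 6] [1, 4, 8] [0, 2, 5, 7] [(.mj 4 6, 1), (.mj 5 4, 1), (.hz 11 7, 878)]))
(.lp [3, 6] [1, 4, 8] [0, 2, 5, 7] [(.mj 5 4, 3059), (.mj 8 6, 1420), (.mj 8 7, 1420), (.rw 5, 4)])))
(.haz 4 79 1 20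
(.haz 7 111 1 5
(.haz 6 47 7 20
(.lp [1, 4] [3, 6] [0, 2, 5, 7] [(.mj 3 5, 782), (.mj 4 6, 903), (.mj 4 7, 115), (.mj 5 4, 903), (.hz 13 47, 90192), (.hz 9 167, 3139), (.hz 13 63, 198249), (.hz 13 175, 370378), (.hz 12 127, 354551)])
(.haz 4 79 1 10
(.haz 5 79 9 20
(.haz 7 111 3 10
(.ask 79
(.mark 111 4 7 8
(.lp [1, 4] [3, 6, 8] [0, 2, 5, 7] [(.mj 4 6, 8), (.mj 4 7, 22), (.mj 5 4, 35), (.hz 14 79, 14690), (.hz 15 79, 2003), (.hz 16 111, 17137), (.hz 14 335, 22564), (.hz 16 127, 47), (.hz 16 367, 29071)]))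
(.ask 111
(.mark 111 4 7 8
(.lp [1, 4] [3, 6, 8] [0, 2, 5, 7] [(.mj 4 6, 6), (.mj 4 7, 19), (.mj 5 4, 30), (.hz 13 47, 119), (.hz 14 79, 13347), (.hz 16 111, 16767), (.hz 16 367, 17844)]))
(.lp [1, 4] [3, 6] [0, 2, 5, 7] [(.mj 4 7, 2), (.mj 5 4, 3)])))
(.lp [1, 4] [3, 6] [0, 2, 5, 7] [(.mj 2 3, 1), (.mj 5 4, 2), (.hz 16 39, 237), (.hz 13 47, 636), (.hz 16 47, 1312), (.hz 14 79, 2132), (.hz 12 111, 83)]))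
(.lp [1, 4] [3, 6] [0, 2, 5, 7] [(.mj 2 3, 26), (.mj 5 4, 28), (.hz 15 7, 2520), (.hz 15 15, 9951), (.hz 13 15, 9400), (.hz 14 79, 11019)]))
(.lp [1, 4] [3, 6] [0, 2, 5, 7] [(.mj 2 3, 2), (.mj 4 6, 3), (.mj 4 7, 5), (.hz 14 7, 1880), (.hz 14 11, 401), (.hz 14 15, 4011), (.hz 13 15, 480), (.hz 12 111, 13187)])))
(.lp [1, 4] [3, 6] [0, 2, 5, 7] [(.mj 4 6, 5), (.mj 5 4, 8), (.hz 12 39, 1691), (.hz 12 47, 6432), (.hz 11 79, 3464)]))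
(.lp [1, 4] [3, 6] [0, 2, 5, 7] [(.mj 4 6, 1), (.mj 4 7, 1), (.hz 11 3, 266)])))
(.haz 4 7 3 20
(.lp [1, 4] [3, 6] [0, 2, 5, 7] [(.mj 2 3, 1), (.mj 5 6, 1), (.mj 6 4, 7), (.hz 11 7, 571), (.hz 11 15, 1742), (.hz 11 39, 444), (.hz 11 47, 1913), (.hz 11 79, 351), (.hz 11 167, 522)])
(.haz 7 47 1 2
(.cut 4 [(0, 1), (1, 1), (2, 1), (3, 1), (5, 1), (9, 1), (7, 1), (11, 1), (13, 1), (15, 1), (39, 1), (47, 1)]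
(.cut 4 [(0, 1), (1, 1), (2, 1), (3, 1), (5, 1), (9, 1), (7, 1), (11, 1), (13, 1), (15, 1), (39, 1), (47, 1), (79, 1)]
(.lp [1, 4] [3, 6] [0, 2, 5, 7] [(.mj 2 3, 94360), (.mj 5 6, 75084), (.mj 6 4, 88267), (.mj 6 7, 91716), (.hz 11 3, 154270), (.hz 11 7, 258628), (.hz 12 47, 190321745), (.hz 9 55, 1724189), (.hz 12 63, 1219203532), (.rw 6, 151), (.rw 7, 15)])))
(.haz 7 111 1 4
(.ask 167
(.maj 4 7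
(.ask 79
(.mark 111 4 7 9
(.cut 4 [(0, 1), (1, 1), (2, 1), (3, 1), (5, 1), (9, 1), (7, 1), (11, 1), (13, 1), (15, 1), (39, 1), (47, 1)]
(.lp [1, 4] [3, 6, 9] [0, 2, 5, 7, 8] [(.mj 4 7, 2973), (.mj 5 6, 3226), (.mj 6 4, 2973), (.hz 13 111, 4300912), (.hz 13 127, 2380841), (.hz 13 623, 10035461), (.rw 6, 1)])))
(.ask 111
(.mark 239 4 8 9
(.lp [1, 4] [3, 6, 9] [0, 2, 5, 7, 8] [(.mj 2 3, 12), (.mj 4 7, 13), (.mj 6 4, 5), (.hz 11 3, 203), (.hz 11 7, 1171), (.hz 10 19, 538), (.hz 13 111, 40643), (.hz 13 127, 13892), (.hz 13 623, 23709)]))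
(.lp [1, 4] [3, 6] [0, 2, 5, 7, 8] [(.mj 4 7, 1), (.mj 6 4, 1)])))
(.mark 167 3 4 8
(.ask 423
(.haz 7 47 2 5
(.mark 431 4 6 9
(.cut 4 [(0, 1), (1, 1), (2, 1), (3, 1), (5, 1), (9, 1), (7, 1), (11, 1), (13, 1), (15, 1), (39, 1), (47, 1), (167, 1), (175, 1)]
(.cut 4 [(0, 1), (1, 1), (2, 1), (3, 1), (5, 1), (9, 1), (7, 1), (11, 1), (13, 1), (15, 1), (39, 1), (47, 1), (79, 1), (167, 1), (175, 1), (423, 1), (431, 1)]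
(.lp [1, 4] [3, 6] [0, 2, 5, 7, 8, 9] [(.mj 2 3, 16107), (.mj 5 6, 5309), (.mj 6 4, 1299), (.mj 6 7, 11278), (.mj 7 4, 9978), (.hz 14 47, 10738108), (.hz 14 127, 15267973), (.hz 9 439, 4727350), (.hz 9 951, 392481), (.rw 6, 21), (.rw 7, 1)]))))
(.mark 423 3 4 9
(.ask 935
(.mark 943 4 6 10
(.cut 4 [(0, 1), (1, 1), (2, 1), (3, 1), (5, 1), (9, 1), (7, 1), (11, 1), (13, 1), (15, 1), (39, 1), (47, 1)]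
(.cut 4 [(0, 1), (1, 1), (2, 1), (3, 1), (5, 1), (9, 1), (7, 1), (11, 1), (13, 1), (15, 1), (39, 1), (47, 1), (167, 1), (175, 1)]
(.cut 4 [(0, 1), (1, 1), (2, 1), (3, 1), (5, 1), (9, 1), (7, 1), (11, 1), (13, 1), (15, 1), (39, 1), (47, 1), (79, 1), (167, 1), (175, 1), (423, 1), (431, 1)]
(.cut 4 [(0, 1), (1, 1), (2, 1), (3, 1), (5, 1), (9, 1), (7, 1), (11, 1), (13, 1), (15, 1), (39, 1), (47, 1), (167, 1), (175, 1), (423, 1), (431, 1)]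
(.cut 4 [(0, 1), (1, 1), (2, 1), (3, 1), (5, 1), (9, 1), (7, 1), (11, 1), (13, 1), (15, 1), (39, 1), (47, 1), (167, 1), (175, 1), (423, 1), (431, 1), (935, 1), (943, 1)]
(.lp [1, 4] [3, 6] [0, 2, 5, 7, 8, 9, 10] [(.mj 1 2, 52580), (.mj 2 3, 191447), (.mj 6 4, 44783), (.mj 6 7, 22178), (.mj 7 4, 50435), (.hz 14 39, 26289761), (.hz 13 111, 7336810), (.hz 9 423, 1467362), (.hz 9 439, 6177293), (.hz 9 951, 15170333), (.hz 9 1975, 25750381), (.rw 6, 50), (.rw 7, 29), (.rw 8, 9), (.rw 9, 29), (.rw 10, 48)])))))))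
(.cut 4 [(0, 1), (1, 1), (2, 1), (3, 1), (5, 1), (9, 1), (7, 1), (11, 1), (13, 1), (15, 1), (39, 1), (47, 1), (79, 1)]
(.cut 4 [(0, 1), (1, 1), (2, 1), (3, 1), (5, 1), (9, 1), (7, 1), (11, 1), (13, 1), (15, 1), (39, 1), (47, 1)]
(.cut 4 [(0, 1), (1, 1), (2, 1), (3, 1), (5, 1), (9, 1), (7, 1), (13, 1), (39, 1), (167, 1), (423, 1), (935, 1)]
(.lp [1, 4] [3, 6] [0, 2, 5, 7, 8, 9] [(.mj 2 3, 45325), (.mj 5 6, 2), (.mj 6 4, 7679), (.mj 6 7, 6657), (.mj 7 4, 12874), (.hz 14 39, 4026147), (.hz 13 111, 2873329), (.rw 6, 2), (.rw 7, 8), (.rw 8, 28)])))))))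
(.mark 175 4 6 8
(.cut 4 [(0, 1), (1, 1), (2, 1), (3, 1), (5, 1), (9, 1), (7, 1), (11, 1), (13, 1), (15, 1), (39, 1), (47, 1), (167, 1), (175, 1)]
(.cut 4 [(0, 1), (1, 1), (2, 1), (3, 1), (5, 1), (9, 1), (7, 1), (13, 1), (39, 1), (167, 1), (423, 1)]
(.lp [1, 4] [3, 6] [0, 2, 5, 7, 8] [(.mj 2 3, 9301), (.mj 5 6, 171), (.mj 6 4, 1470), (.mj 6 7, 1886), (.mj 7 4, 2604), (.hz 13 111, 820645), (.hz 9 183, 445006), (.rw 6, 2), (.rw 7, 5)])))))))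
(.cut 4 [(0, 1), (1, 1), (2, 1), (3, 1), (5, 1), (9, 1), (7, 1), (11, 1), (13, 1), (15, 1), (39, 1), (47, 1), (167, 1)]
(.lp [1, 4] [3, 6] [0, 2, 5, 7] [(.mj 2 3, 37515), (.mj 6 4, 14783), (.mj 6 7, 2690), (.hz 12 47, 9620252), (.hz 13 127, 19755833), (.rw 6, 23)])))
(.cut 4 [(0, 1), (1, 1), (2, 1), (3, 1), (5, 1), (9, 1), (7, 1), (11, 1), (13, 1), (15, 1), (39, 1), (47, 1)]
(.cut 4 [(0, 1), (1, 1), (2, 1), (3, 1), (5, 1), (9, 1), (7, 1), (13, 1), (39, 1), (167, 1)]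
(.lp [1, 4] [3, 6] [0, 2, 5, 7] [(.mj 2 3, 366021), (.mj 6 4, 172892), (.hz 13 39, 129736784), (.hz 9 167, 488977), (.hz 9 183, 47713097), (.rw 6, 194), (.rw 7, 60)]))))))
(.haz 5 79 3 10
(.haz 6 175 1 10
(.haz 2 19 9 20
(.haz 5 79 9 20
(.haz 7 111 9 20
(.ask 167
(.mark 175 4 6 8
(.spn
(.lp [1, 4] [3, 6] [0, 2, 5, 7, 8] [(.mj 3 5, 1463), (.mj 4 6, 596), (.mj 7 4, 834), (.rw 6, 1), (.hz 14 79, 105635), (.hz 15 111, 136214), (.hz 12 431, 506863)])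
(.cut 4 [(0, 1), (1, 1), (2, 1), (3, 1), (5, 1), (9, 1), (7, 1), (11, 1), (13, 1), (15, 1)]
(.cut 4 [(0, 1), (1, 1), (2, 1), (3, 1), (5, 1), (9, 1), (7, 1), (11, 1), (13, 1), (15, 1), (39, 1), (47, 1)]
(.lp [1, 4] [3, 6] [0, 2, 5, 7, 8] [(.mj 3 5, 13931), (.mj 6 4, 7375), (.mj 7 6, 7717), (.rw 6, 1), (.hz 14 95, 4514150), (.rw 7, 7), (.rw 8, 7)])))
(.cut 4 [(0, 1), (1, 1), (2, 1), (3, 1), (5, 1), (9, 1), (7, 1), (11, 1), (13, 1), (15, 1)]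
(.cut 4 [(0, 1), (1, 1), (2, 1), (3, 1), (5, 1), (9, 1), (7, 1), (11, 1), (13, 1), (15, 1), (39, 1), (47, 1)]
(.lp [1, 4] [3, 6] [0, 2, 5, 7, 8] [(.mj 3 5, 2454), (.mj 8 4, 1365), (.mj 8 6, 1109), (.hz 14 79, 113715), (.hz 14 95, 616050), (.hz 12 431, 557206), (.rw 7, 1), (.rw 8, 1)])))))
(.ask 175
(.mark 175 4 6 8
(.spn
(.lp [1, 4] [3, 6] [0, 2, 5, 7, 8] [(.mj 3 5, 24), (.mj 4 6, 45), (.mj 4 8, 28), (.mj 7 4, 49), (.hz 14 79, 1714), (.hz 15 111, 2210), (.hz 12 191, 78242), (.hz 12 431, 76070)])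
(.cut 4 [(0, 1), (1, 1), (2, 1), (3, 1), (5, 1), (9, 1), (7, 1), (11, 1), (13, 1), (15, 1)]
(.cut 4 [(0, 1), (1, 1), (2, 1), (3, 1), (5, 1), (9, 1), (7, 1), (11, 1), (13, 1), (15, 1), (39, 1), (47, 1)]
(.cut 4 [(0, 1), (1, 1), (2, 1), (3, 1), (5, 1), (9, 1), (7, 1), (11, 1), (13, 1), (15, 1), (39, 1), (47, 1), (79, 2), (167, 1), (111, 1), (175, 1)]
(.lp [1, 4] [3, 6] [0, 2, 5, 7, 8] [(.mj 3 5, 66855), (.mj 6 4, 28652), (.mj 7 6, 44952), (.rw 6, 18), (.hz 14 95, 19166852), (.rw 7, 33), (.rw 8, 33), (.rw 9, 13)]))))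
(.cut 4 [(0, 1), (1, 1), (2, 1), (3, 1), (5, 1), (9, 1), (7, 1), (11, 1), (13, 1), (15, 1)]
(.cut 4 [(0, 1), (1, 1), (2, 1), (3, 1), (5, 1), (9, 1), (7, 1), (11, 1), (13, 1), (15, 1), (39, 1), (47, 1)]
(.lp [1, 4] [3, 6] [0, 2, 5, 7, 8] [(.mj 3 5, 4121), (.mj 8 4, 1915), (.mj 8 6, 1485), (.hz 14 79, 190953), (.hz 14 95, 1393252), (.hz 12 175, 1039635), (.hz 15 127, 631403), (.rw 7, 2), (.rw 8, 2)])))))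
(.lp [1, 4] [3, 6] [0, 2, 5, 7] [(.mj 3 5, 1), (.mj 7 4, 4), (.mj 7 6, 6), (.hz 12 191, 16006)])))
(.cut 4 [(0, 1), (1, 1), (2, 1), (3, 1), (5, 1), (9, 1), (7, 1), (11, 1), (13, 1), (15, 1), (39, 1), (47, 1)]
(.lp [1, 4] [3, 6] [0, 2, 5, 7] [(.mj 3 5, 1266), (.mj 7 4, 1266), (.mj 7 6, 1502), (.hz 15 47, 460271), (.hz 12 191, 4530853), (.rw 6, 1)])))
(.cut 4 [(0, 1), (1, 1), (2, 1), (3, 1), (5, 1), (9, 1), (7, 1), (11, 1), (13, 1), (15, 1)]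
(.lp [1, 4] [3, 6] [0, 2, 5, 7] [(.mj 3 5, 101), (.mj 7 4, 1505), (.mj 7 6, 1446), (.hz 14 7, 106711), (.hz 14 15, 408562), (.hz 11 79, 795431), (.rw 6, 1)])))
(.cut 4 [(0, 1), (1, 1), (2, 1), (3, 1), (5, 1), (9, 1), (7, 1), (11, 1), (13, 1), (15, 1)]
(.lp [1, 4] [3, 6] [0, 2, 5, 7] [(.mj 7 4, 990), (.mj 7 6, 199), (.hz 13 3, 83392), (.hz 10 19, 15317), (.hz 11 79, 60515), (.rw 6, 1)])))
(.cut 4 [(0, 1), (1, 1), (2, 1), (3, 1), (5, 1), (9, 1), (7, 1), (11, 1), (13, 1), (15, 1)]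
(.cut 4 [(0, 1), (1, 1), (2, 1), (3, 1), (5, 1), (9, 1), (7, 1), (11, 1), (13, 1), (15, 1), (39, 1), (47, 1), (79, 1)]
(.lp [1, 4] [3, 6] [0, 2, 5, 7] [(.mj 3 5, 4562), (.mj 7 4, 1899), (.hz 12 15, 1764761), (.hz 11 79, 330008), (.rw 6, 2), (.rw 7, 1)]))))
(.lp [1, 4] [3, 6] [0, 2, 5, 7] [(.mj 2 3, 6), (.mj 7 4, 40), (.mj 7 6, 49), (.hz 11 7, 6825), (.hz 11 15, 19493)]))))
(.ask 47
(.mark 47 4 6 7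
(.spn
(.haz 4 15 3 20
(.haz 4 47 1 4
(.lp [1, 4] [3, 6] [0, 2, 5, 7] [(.mj 2 3, 5), (.mj 4 7, 1), (.mj 5 4, 7), (.hz 12 47, 10430), (.hz 11 79, 2816), (.hz 12 111, 4848)])
(.lp [1, 4] [3, 6] [0, 2, 5, 7] [(.mj 2 3, 115), (.mj 4 7, 19), (.mj 5 4, 68), (.hz 11 15, 24342), (.hz 12 39, 33890), (.hz 11 79, 23923)]))
(.lp [1, 4] [3, 6] [0, 2, 5, 7] [(.mj 2 3, 32544), (.mj 4 7, 2261), (.rw 5, 8), (.hz 11 3, 610752), (.hz 11 7, 2486635)]))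
(.cut 4 [(0, 1), (1, 1), (2, 1), (3, 1), (5, 1), (9, 1), (7, 1), (11, 1), (13, 1), (15, 1), (39, 1), (47, 1)]
(.lp [1, 4] [3, 6] [0, 2, 5, 7] [(.mj 2 3, 1885), (.mj 6 4, 794), (.mj 6 7, 108), (.rw 6, 1)]))
(.cut 4 [(0, 1), (1, 1), (2, 1), (3, 1), (5, 1), (9, 1), (7, 1), (11, 1), (13, 1), (15, 1), (39, 1), (47, 1)]
(.lp [1, 4] [3, 6] [0, 2, 5, 7] [(.mj 2 3, 275558), (.mj 7 4, 100203), (.rw 6, 163)]))))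
(.spn
(.lp [1, 4] [3, 6] [0, 2, 5] [(.mj 4 6, 2), (.mj 5 4, 3)])
(.lp [1, 4] [3, 6] [0, 2, 5] [(.mj 2 3, 4), (.mj 6 4, 1), (.hz 10 19, 459), (.hz 10 23, 266), (.hz 9 55, 192)])
.fin)))
(.cut 4 [(0, 1), (1, 1), (2, 1), (3, 1), (5, 1), (9, 1), (7, 1), (11, 1), (13, 1), (15, 1)]
(.lp [1, 4] [3, 6] [0, 2, 5] [(.mj 3 5, 1376), (.mj 5 4, 1376), (.hz 10 1, 91751), (.hz 10 3, 91751), (.rw 5, 1)])))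
(.haz 3 39 3 10
(.cut 4 [(0, 1), (1, 1), (2, 1), (3, 1), (5, 1), (9, 1), (7, 1), (11, 1), (13, 1), (15, 1)]
(.lp [1, 4] [3, 6] [0, 2, 5] [(.mj 2 3, 24551), (.mj 6 4, 8359), (.mj 6 5, 2904), (.rw 4, 2), (.hz 10 39, 2727941), (.hz 10 55, 7210871), (.rw 5, 14)]))
(.lp [1, 4] [3, 6] [0, 2, 5] [(.mj 6 4, 205), (.rw 4, 1), (.hz 10 7, 757006), (.hz 9 39, 405539)]))))
(.spn
(.haz 5 23 1 4
(.lp [3] [1, 4] [0, 2, 5] [(.mj 2 3, 23), (.mj 3 4, 21), (.mj 4 5, 18), (.hz 10 23, 10497), (.hz 9 39, 1666)])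
(.lp [3] [1, 4] [0, 2, 5] [(.mj 2 3, 2), (.mj 3 4, 2), (.mj 4 5, 1), (.hz 10 7, 398)]))
(.haz 3 19 3 20
(.ask 39
(.mark 39 3 4 6
(.ask 47
(.mark 47 4 6 7
(.spn
(.haz 7 111 1 4
(.haz 4 111 1 10
(.haz 7 111 7 20
(.haz 4 111 3 20
(.haz 7 63 7 20
(.maj 6 7
(.lp [1, 4] [3, 7] [0, 2, 5, 6] [(.mj 3 5, 5), (.mj 4 6, 8), (.mj 4 7, 2), (.mj 5 4, 13), (.mj 6 7, 10), (.hz 15 63, 9405), (.hz 13 111, 2806)])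
(.ask 103
(.mark 111 4 7 8
(.lp [1, 4] [3, 7] [0, 2, 5, 6, 8] [(.mj 3 5, 6), (.mj 4 7, 4), (.mj 5 4, 6), (.hz 14 111, 171), (.hz 13 111, 577), (.hz 14 367, 1017), (.hz 13 367, 1659)]))
(.ask 111
(.mark 111 4 7 8
(.lp [1, 4] [3, 7] [0, 2, 5, 6, 8] [(.mj 3 5, 22), (.mj 4 7, 11), (.mj 5 4, 17), (.hz 14 111, 2402), (.hz 13 111, 2537), (.hz 13 367, 3902)]))
(.lp [1, 4] [3, 7] [0, 2, 5, 6] [(.mj 4 7, 4), (.mj 5 4, 6), (.mj 7 6, 1)]))))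
(.lp [1, 4] [3, 7] [0, 2, 5, 6] [(.mj 3 5, 27), (.mj 4 6, 6), (.mj 5 4, 17), (.hz 15 47, 4130), (.hz 14 111, 5310), (.hz 13 111, 1595)]))
(.lp [1, 4] [3, 7] [0, 2, 5, 6] [(.mj 3 5, 2), (.mj 4 6, 2), (.mj 4 7, 4), (.hz 14 3, 177), (.hz 14 7, 297), (.hz 14 11, 297), (.hz 14 15, 875), (.hz 14 47, 989), (.hz 12 111, 320), (.hz 13 111, 1923)]))
(.lp [1, 4] [3, 7] [0, 2, 5, 6] [(.mj 3 5, 50), (.mj 4 6, 13), (.mj 5 4, 32), (.hz 13 47, 7664), (.hz 12 111, 19984), (.hz 11 111, 17344)]))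
(.lp [1, 4] [3, 7] [0, 2, 5, 6] [(.mj 3 5, 1), (.mj 4 6, 1), (.mj 4 7, 2), (.hz 12 3, 168), (.hz 12 7, 271), (.hz 12 11, 271), (.hz 12 15, 772), (.hz 12 47, 973), (.hz 11 111, 4640)]))
(.cut 6 [(0, 1), (1, 1), (2, 1), (3, 1), (5, 1), (9, 1), (7, 1), (11, 1), (13, 1), (19, 1), (15, 1), (23, 1), (27, 1), (39, 1), (31, 1), (47, 1)]
(.lp [1, 4] [3, 7] [0, 2, 5, 6] [(.mj 3 5, 9560), (.mj 4 6, 7015), (.mj 5 4, 11538), (.hz 11 47, 12355568), (.rw 6, 1)])))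
(.cut 4 [(0, 1), (1, 1), (2, 1), (3, 1), (5, 1), (9, 1), (7, 1), (11, 1), (13, 1), (15, 1)]
(.cut 4 [(0, 1), (1, 1), (2, 1), (3, 1), (5, 1), (9, 1), (7, 1), (11, 1), (13, 1), (15, 1), (39, 1), (47, 1)]
(.lp [1, 4] [3, 7] [0, 2, 5, 6] [(.mj 3 5, 2574), (.mj 6 4, 1103), (.mj 6 7, 401), (.rw 6, 1), (.rw 7, 1)])))
(.ask 175
(.mark 175 4 6 8
(.spn
(.lp [1, 4] [3, 7, 8] [0, 2, 5, 6] [(.mj 7 4, 383), (.rw 6, 1)])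
(.cut 4 [(0, 1), (1, 1), (2, 1), (3, 1), (5, 1), (9, 1), (7, 1), (11, 1), (13, 1), (15, 1)]
(.cut 4 [(0, 1), (1, 1), (2, 1), (3, 1), (5, 1), (9, 1), (7, 1), (11, 1), (13, 1), (15, 1), (39, 1), (47, 1)]
(.cut 4 [(0, 1), (1, 1), (2, 1), (3, 1), (5, 1), (9, 1), (7, 1), (11, 1), (13, 1), (15, 1), (39, 1), (47, 1), (103, 1), (175, 1)]
(.lp [1, 4] [3, 7, 8] [0, 2, 5, 6] [(.mj 3 5, 17561), (.mj 6 4, 6914), (.mj 6 8, 2125), (.mj 7 6, 5538), (.rw 6, 3), (.rw 7, 9), (.rw 8, 2), (.rw 9, 8)]))))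
(.cut 4 [(0, 1), (1, 1), (2, 1), (3, 1), (5, 1), (9, 1), (7, 1), (11, 1), (13, 1), (39, 1)]
(.cut 4 [(0, 1), (1, 1), (2, 1), (3, 1), (5, 1), (9, 1), (7, 1), (11, 1), (13, 1), (15, 1), (39, 1)]
(.cut 4 [(0, 1), (1, 1), (2, 1), (3, 1), (5, 1), (9, 1), (7, 1), (11, 1), (13, 1), (15, 1), (39, 1), (47, 1)]
(.lp [1, 4] [3, 7, 8] [0, 2, 5, 6] [(.mj 1 2, 20062), (.mj 3 5, 1752), (.mj 8 4, 7791), (.hz 9 119, 645332), (.rw 7, 5), (.rw 8, 5), (.rw 9, 4)]))))))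
(.lp [1, 4] [3, 7] [0, 2, 5, 6] [(.mj 7 6, 1), (.rw 5, 1)]))))
(.spn
(.lp [3] [1, 4] [0, 2, 5, 6] [(.mj 4 6, 2), (.mj 5 4, 3)])
(.cut 4 [(0, 1), (1, 1), (2, 1), (3, 1), (5, 1), (9, 1), (7, 1), (11, 1), (13, 1), (15, 1)]
(.lp [3] [1, 4] [0, 2, 5, 6] [(.mj 3 5, 1934), (.mj 6 4, 829), (.rw 6, 1)]))
.fin)))
(.ask 47
(.ask 47
(.mark 47 4 6 7
(.spn
(.haz 6 175 1 4
(.ask 175
(.mark 175 4 6 8
(.ask 431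
(.mark 431 4 6 9
(.lp [1, 4] [3, 6] [0, 2, 5, 7, 8, 9] [(.mj 2 3, 1), (.mj 4 6, 75), (.mj 4 7, 14), (.mj 5 4, 120), (.mj 6 7, 14), (.hz 11 175, 77038), (.hz 11 191, 25633), (.hz 11 431, 76899), (.hz 11 943, 102533)]))
(.lp [1, 4] [3, 6] [0, 2, 5, 7, 8] [(.mj 4 6, 16), (.mj 5 4, 26), (.mj 6 7, 5), (.hz 11 175, 9711)])))
(.lp [1, 4] [3, 7] [0, 2, 5, 6] [(.mj 4 6, 4), (.mj 5 4, 6), (.mj 6 7, 1)]))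
(.haz 7 111 1 4
(.lp [1, 4] [3, 7] [0, 2, 5, 6] [(.mj 2 3, 1), (.mj 4 7, 8), (.mj 5 4, 11), (.hz 11 47, 8387), (.hz 12 111, 11182)])
(.lp [1, 4] [3, 7] [0, 2, 5, 6] [(.mj 5 4, 1), (.hz 11 47, 1105), (.hz 12 47, 1105)])))
(.cut 4 [(0, 1), (1, 1), (2, 1), (3, 1), (5, 1), (9, 1), (7, 1), (11, 1), (13, 1), (15, 1), (39, 1), (47, 1)]
(.lp [1, 4] [3, 7] [0, 2, 5, 6] [(.mj 2 3, 275558), (.mj 6 4, 100203), (.rw 6, 163)]))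
(.con 7 6)))
(.spn
(.lp [3] [1, 4] [0, 2, 5, 6] [(.mj 4 6, 2), (.mj 5 4, 3)])
(.cut 4 [(0, 1), (1, 1), (2, 1), (3, 1), (5, 1), (9, 1), (7, 1), (11, 1), (13, 1), (15, 1), (39, 1), (47, 1)]
(.lp [3] [1, 4] [0, 2, 5, 6] [(.mj 2 3, 275558), (.mj 6 4, 100203), (.rw 6, 163)]))
.fin))
(.lp [3] [1, 4] [0, 2, 5] [(.mj 5 4, 1)])))
(.cut 4 [(0, 1), (1, 1), (2, 1), (3, 1), (5, 1), (9, 1), (7, 1), (11, 1), (13, 1), (15, 1)]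
(.lp [3] [1, 4] [0, 2, 5] [(.mj 3 5, 1376), (.mj 5 4, 1376), (.hz 10 1, 91751), (.hz 10 3, 91751), (.rw 5, 1)])))
.fin)))

theorem run9 : run (mkLeaf Leaf.nleaf) cutRow [] t9 s9 = true := by
  decide +kernel

end Pool.Agent.W3.Data
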