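import Pool.Agent.W3.CutRow
import Pool.Agent.W3.LeafRow

/-!
# The search tree, part 9
-/

set_option autoImplicit false

namespace Pool.Agent.W3.Data

/-- the state above part 10 of the tree -/
def s10 : St := ⟨[0, 0, 1, 1], [3, 2, 9, 1, 0], [0, 1],
  [],
  [⟨true, 1, 9, 3, 20⟩, ⟨true, 2, 9, 1, 5⟩, ⟨true, 1, 9, 1, 4⟩, ⟨true, 1, 5, 1, 4⟩, ⟨true, 1, 5, 7, 20⟩],
  [.spn 0 0 666000, .spn 1 1 165501]⟩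

/-- part 10 of the tree -/
noncomputable def t10 : Tree :=
(.spn
(.haz 2 11 1 2
(.haz 2 11 3 5
(.ask 11
(.ask 5
(.mark 5 1 3 5
(.ask 7
(.mark 7 3 5 6
(.spn
(.mark 15 4 5 6
(.cut 5 [(0, 1), (1, 1), (2, 1), (3, 1), (5, 1), (9, 1), (7, 1), (11, 1), (27, 1)]
(.lp [1, 6] [3, 4] [0, 2, 5] [(.mj 1 2, 12249), (.mj 2 3, 4358), (.mj 3 6, 2041), (.hz 6 11, 1296260), (.hz 6 27, 619950), (.rw 4, 1)])))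
(.lp [1, 6] [3, 4] [0, 2, 5] [(.mj 1 2, 5), (.mj 5 3, 1), (.mj 5 6, 1), (.hz 6 11, 671)])
(.mark 15 4 5 6
(.cut 3 [(0, 1), (1, 1), (2, 1), (3, 1), (5, 1), (7, 1)]
(.cut 5 [(0, 1), (1, 1), (2, 1), (3, 1), (9, 1), (11, 1), (27, 1)]
(.lp [1, 6] [3, 4] [0, 2, 5] [(.mj 1 2, 35639), (.mj 6 3, 4874), (.hz 6 27, 7462961), (.rw 4, 8), (.rw 5, 4)]))))))
(.lp [3] [1, 4] [0, 2, 5] [(.mj 1 2, 3), (.mj 2 3, 1), (.hz 6 11, 198)])))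
(.ask 7
(.ask 7
(.mark 7 3 5 6
(.spn
(.mark 15 4 5 6
(.spn
(.cut 6 [(0, 1), (1, 1), (2, 1), (3, 1), (5, 1), (9, 1), (7, 1), (11, 1), (13, 1), (15, 1), (27, 1)]
(.lp [1, 6] [3, 4] [0, 2, 5] [(.mj 2 3, 90220), (.mj 4 5, 73817), (.mj 5 6, 73817), (.hz 6 11, 90220354), (.rw 5, 37)]))
(.haz 5 31 3 10
(.ask 39
(.mark 47 4 6 7
(.spn
(.haz 6 39 1 5
(.lp [1, 6] [3, 4] [0, 2, 5, 7] [(.mj 2 3, 14), (.mj 3 5, 7), (.mj 4 6, 13), (.mj 5 4, 4), (.hz 8 39, 4987), (.hz 8 47, 17132), (.hz 8 167, 3741), (.hz 8 63, 9697), (.hz 8 175, 9697)])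
(.haz 7 47 1 2
(.cut 6 [(0, 1), (1, 1), (2, 1), (3, 1), (5, 1), (9, 1), (7, 1), (11, 1), (13, 1), (15, 1), (27, 1), (39, 1)]
(.lp [1, 6] [3, 4] [0, 2, 5, 7] [(.mj 2 3, 36406), (.mj 3 5, 1865), (.mj 4 7, 23207), (.rw 5, 8), (.hz 8 7, 6241051), (.hz 8 39, 6402593), (.hz 9 47, 92827748), (.hz 7 95, 26351103), (.hz 9 111, 314191982), (.rw 6, 10)]))
(.haz 5 71 2 5
(.ask 71
(.mark 103 3 7 8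
(.lp [3, 4] [1, 6, 8] [0, 2, 5, 7] [(.mj 1 2, 119), (.mj 2 3, 88), (.mj 3 5, 50), (.mj 4 6, 5), (.hz 8 7, 3133), (.hz 10 71, 12473), (.hz 10 79, 3868), (.hz 10 327, 13537)]))
(.lp [1, 6] [3, 4] [0, 2, 5, 7] [(.mj 1 2, 199), (.mj 2 3, 138), (.mj 3 5, 64), (.mj 4 6, 11), (.hz 9 39, 11103), (.hz 10 79, 12213)]))
(.lp [1, 6] [3, 4] [0, 2, 5, 7] [(.mj 1 2, 7), (.mj 2 3, 4), (.hz 10 7, 1026), (.hz 8 7, 1026)]))))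
(.haz 3 71 3 20
(.haz 4 175 3 20
(.haz 3 167 3 20
(.haz 4 79 1 5
(.haz 5 71 3 10
(.haz 5 31 2 5
(.haz 3 71 1 5
(.ask 71
(.mark 111 4 7 8
(.spn
(.haz 7 111 7 20
(.lp [3, 4] [1, 6, 8] [0, 2, 5, 7] [(.mj 2 3, 1), (.mj 3 5, 5), (.mj 4 7, 12), (.mj 5 6, 16), (.mj 6 4, 16), (.hz 13 31, 825), (.hz 14 327, 2047), (.hz 15 111, 5823), (.hz 9 175, 5682), (.hz 11 335, 16091), (.hz 14 359, 6603), (.hz 15 367, 16210)])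
(.lp [3, 4] [1, 6, 8] [0, 2, 5, 7] [(.mj 1 2, 2499), (.mj 3 5, 1219), (.mj 4 7, 2501), (.mj 5 6, 8976), (.mj 6 4, 7506), (.rw 6, 1), (.hz 15 39, 340792), (.hz 15 47, 1169786), (.hz 9 175, 2627054), (.hz 11 335, 20686571)]))
(.lp [3, 4] [1, 6, 8] [0, 2, 5, 7] [(.mj 1 2, 18), (.mj 3 5, 25), (.mj 5 6, 7), (.mj 6 7, 7), (.mj 7 4, 19), (.hz 6 27, 3283), (.hz 13 31, 7657), (.hz 11 79, 19284), (.hz 12 327, 6454), (.hz 11 111, 45291), (.hz 9 175, 3837), (.hz 11 335, 48673), (.hz 13 351, 53775), (.hz 11 367, 45177)])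
(.lp [3, 4] [1, 6, 8] [0, 2, 5, 7] [(.mj 3 5, 5), (.mj 5 6, 9), (.mj 8 4, 10), (.mj 8 7, 5), (.hz 12 71, 629), (.hz 6 27, 164), (.hz 13 31, 1067), (.hz 11 79, 24308), (.hz 11 111, 22512), (.hz 9 175, 6347), (.hz 11 335, 4819)])))
(.ask 103
(.mark 111 4 7 8
(.lp [3, 4] [1, 6, 8] [0, 2, 5, 7] [(.mj 1 2, 84), (.mj 2 3, 63), (.mj 3 5, 35), (.mj 5 6, 6), (.hz 11 79, 1196)]))
(.haz 3 167 1 5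
(.haz 7 103 3 10
(.maj 4 7
(.lp [1, 6] [3, 4] [0, 2, 5, 7] [(.mj 1 2, 105), (.mj 2 3, 75), (.mj 3 5, 29), (.mj 4 7, 7), (.mj 5 6, 8), (.hz 11 79, 9983), (.hz 15 167, 5737), (.hz 16 111, 9330), (.hz 9 175, 10)])
(.lp [1, 6] [3, 4] [0, 2, 5, 7] [(.mj 1 2, 207), (.mj 2 3, 82), (.mj 3 5, 53), (.mj 5 6, 18), (.mj 6 7, 9), (.mj 7 4, 23), (.hz 6 27, 13204), (.hz 13 31, 12433), (.hz 11 79, 45162), (.hz 11 111, 64467), (.hz 9 175, 4959)]))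
(.lp [1, 6] [3, 4] [0, 2, 5, 7] [(.mj 1 2, 17), (.mj 2 3, 6), (.mj 5 6, 1), (.hz 16 39, 522), (.hz 6 27, 1044), (.hz 11 79, 3229), (.hz 16 103, 1047)]))
(.lp [1, 6] [3, 4] [0, 2, 5, 7] [(.mj 3 5, 1), (.hz 15 3, 265), (.hz 15 7, 509)]))))
(.lp [1, 6] [3, 4] [0, 2, 5, 7] [(.mj 3 5, 4), (.mj 5 6, 2), (.hz 14 3, 819), (.hz 14 7, 1570), (.hz 8 71, 378), (.hz 12 71, 566)]))
(.lp [1, 6] [3, 4] [0, 2, 5, 7] [(.mj 5 6, 47), (.mj 6 4, 37), (.hz 13 7, 14112), (.hz 13 15, 34091), (.hz 7 31, 16353), (.hz 11 79, 59463), (.hz 9 175, 12862)]))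
(.lp [1, 6] [3, 4] [0, 2, 5, 7] [(.mj 5 6, 16), (.mj 6 4, 10), (.hz 12 7, 4643), (.hz 8 71, 1150), (.hz 7 31, 2500), (.hz 11 79, 19445), (.hz 9 175, 3486)]))
(.lp [1, 6] [3, 4] [0, 2, 5, 7] [(.mj 1 2, 81), (.mj 3 5, 1), (.mj 5 6, 1), (.hz 11 11, 10407), (.hz 8 71, 110)]))
(.lp [1, 6] [3, 4] [0, 2, 5, 7] [(.mj 3 5, 11), (.mj 5 6, 10), (.hz 10 3, 1328), (.hz 10 39, 567)]))
(.lp [1, 6] [3, 4] [0, 2, 5, 7] [(.mj 1 2, 37), (.mj 3 5, 1), (.mj 5 6, 1), (.hz 9 11, 1154), (.hz 9 15, 21), (.hz 8 71, 94), (.hz 9 47, 37)]))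
(.lp [1, 6] [3, 4] [0, 2, 5, 7] [(.mj 3 5, 11), (.mj 5 6, 13), (.mj 6 7, 2), (.hz 8 3, 1957)]))
(.haz 6 39 1 5
(.lp [1, 6] [3, 4] [0, 2, 5, 7] [(.mj 2 3, 23), (.mj 3 5, 13), (.mj 7 6, 19), (.hz 8 39, 9576), (.hz 7 31, 7540), (.hz 8 47, 30323), (.hz 8 63, 73676)])
(.haz 5 71 3 10
(.ask 71
(.haz 6 47 3 20
(.mark 79 4 5 8
(.lp [3, 4] [1, 6, 8] [0, 2, 5, 7] [(.mj 1 2, 3000), (.mj 2 3, 2309), (.mj 3 5, 1463), (.mj 7 4, 61), (.mj 7 6, 262), (.hz 8 7, 139726), (.hz 7 31, 85692), (.hz 9 327, 367824), (.hz 10 63, 340729), (.hz 10 175, 167295), (.hz 9 335, 186226)]))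
(.mark 71 3 5 8
(.lp [3, 4] [1, 6, 8] [0, 2, 5, 7] [(.mj 1 2, 70), (.mj 2 3, 50), (.mj 3 5, 29), (.hz 10 7, 1061), (.hz 10 15, 649), (.hz 9 71, 3030), (.hz 9 327, 4329)])))
(.lp [1, 6] [3, 4] [0, 2, 5, 7] [(.mj 1 2, 123), (.mj 2 3, 92), (.mj 3 5, 51), (.mj 7 6, 9), (.hz 9 71, 3893), (.hz 9 79, 4996)]))
(.lp [1, 6] [3, 4] [0, 2, 5, 7] [(.mj 1 2, 6), (.mj 2 3, 4), (.hz 9 7, 448), (.hz 8 7, 895)])))))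
(.haz 6 15 1 4
(.lp [1, 6] [3, 4] [0, 2, 5] [(.mj 1 2, 73), (.mj 2 3, 27), (.mj 3 5, 9), (.mj 5 6, 19), (.hz 8 15, 22180), (.hz 6 27, 7938), (.hz 8 31, 25682)])
(.cut 6 [(0, 1), (1, 1), (2, 1), (3, 1), (5, 1), (9, 1), (7, 1), (11, 1), (13, 1), (27, 1), (39, 1)]
(.lp [1, 6] [3, 4] [0, 2, 5] [(.mj 1 2, 75466), (.mj 2 3, 35339), (.mj 3 5, 10092), (.hz 8 7, 7568650), (.hz 6 27, 3853131), (.rw 5, 1)]))))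
(.lp [1, 6] [3, 4] [0, 2, 5] [(.mj 2 3, 2654), (.mj 5 6, 788), (.rw 4, 2), (.hz 7 7, 118239), (.hz 7 15, 1966271)]))
(.con 6 5)))
(.ask 39
(.mark 39 3 6 7
(.spn
(.mark 47 4 6 7
(.lp [1, 6] [3, 4] [0, 2, 5, 7] [(.mj 5 3, 529), (.rw 4, 1)]))
(.mark 15 4 5 6
(.ask 27
(.mark 31 5 6 8
(.cut 3 [(0, 1), (1, 1), (2, 1), (3, 1), (5, 1), (7, 1), (39, 1)]
(.cut 3 [(0, 1), (1, 1), (2, 1), (3, 1), (5, 1), (7, 1), (71, 2)]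
(.lp [1, 6] [3, 4, 8] [0, 2, 5, 7] [(.mj 1 2, 31238), (.mj 5 3, 1369), (.mj 6 3, 1369), (.hz 6 27, 6872305), (.rw 5, 3), (.rw 6, 3)]))))
(.cut 3 [(0, 1), (1, 1), (2, 1), (3, 1), (5, 1), (7, 1)]
(.lp [1, 6] [3, 4] [0, 2, 5, 7] [(.mj 1 2, 13959), (.mj 5 3, 423), (.mj 6 3, 423), (.rw 5, 2)]))))
(.mark 15 4 5 6
(.cut 3 [(0, 1), (1, 1), (2, 1), (3, 1), (5, 1), (7, 1)]
(.lp [1, 6] [3, 4] [0, 2, 5, 7] [(.mj 1 2, 8267), (.mj 7 3, 848), (.hz 6 27, 953866), (.rw 5, 2)])))))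
(.lp [1, 6] [3, 4] [0, 2, 5] [(.mj 5 6, 906), (.rw 3, 1)]))
(.con 6 5)))
(.spn
(.lp [3] [1, 4] [0, 2, 5] [(.mj 1 2, 12), (.mj 2 3, 9), (.mj 3 5, 5)])
(.haz 2 11 7 10
(.ask 39
(.ask 39
(.mark 39 3 6 7
(.spn
(.mark 47 4 6 7
(.lp [1, 7] [3, 4] [0, 2, 5, 6] [(.mj 5 3, 529), (.rw 4, 1)]))
(.mark 47 4 6 7
(.cut 3 [(0, 1), (1, 1), (2, 1), (3, 1), (5, 1), (7, 1)]
(.lp [1, 7] [3, 4] [0, 2, 5, 6] [(.mj 1 2, 4549), (.mj 6 3, 406), (.hz 7 27, 238018), (.rw 5, 1)])))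
(.con 7 6)))
(.spn
(.lp [3] [1, 4] [0, 2, 5, 6] [(.mj 5 3, 1), (.rw 4, 1)])
(.ask 11
(.mark 11 2 4 7
(.cut 3 [(0, 1), (1, 1), (2, 1), (3, 1), (5, 1), (7, 1)]
(.lp [1, 4] [3, 7] [0, 2, 5, 6] [(.mj 1 2, 4549), (.mj 6 3, 406), (.hz 7 27, 238018), (.hz 7 139, 238018), (.rw 5, 1)])))
(.cut 3 [(0, 1), (1, 1), (2, 1), (3, 1), (5, 1), (7, 1)]
(.lp [3] [1, 4] [0, 2, 5, 6] [(.mj 1 2, 4549), (.mj 6 3, 406), (.hz 7 27, 238018), (.rw 5, 1)])))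
.fin))
(.lp [3] [1, 4] [0, 2, 5] [(.rw 3, 1)]))
(.lp [3] [1, 4] [0, 2, 5] [(.rw 3, 1), (.hz 7 3, 381940), (.hz 6 11, 560179)]))
.fin))
(.lp [1] [2] [0, 3, 4] [(.mj 2 3, 1)])))
(.cut 3 [(0, 1), (2, 1)]
(.lp [1] [3] [0, 2] [(.mj 1 2, 15989), (.rw 3, 1)])))
(.lp [1] [3] [0, 2] [(.mj 1 2, 3), (.mj 2 3, 4), (.hz 6 3, 1042), (.hz 5 11, 893)]))
(.lp [1] [3] [0, 2] [(.mj 2 3, 933), (.rw 2, 1), (.hz 5 3, 1516280), (.hz 1 9, 116637)]))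
(.con 3 2)
.fin)

theorem run10 : run (mkLeaf Leaf.nleaf) cutRow [] t10 s10 = true := by
  decide +kernel

/-- the state above part 11 of the tree -/
def s11 : St := ⟨[0, 0, 1, 1], [1, 0], [0, 2],
  [],
  [],
  [.spn 0 0 666000, .spn 1 2 443556]⟩

/-- part 11 of the tree -/
noncomputable def t11 : Tree :=
(.ask 5
(.mark 5 1 3 4
(.spn
(.cut 3 [(0, 1), (1, 1), (2, 1), (5, 1)]
(.lp [1] [3] [0, 2, 4] [(.mj 1 3, 3343), (.mj 1 4, 3343), (.mj 2 1, 13370), (.rw 2, 8), (.rw 3, 5)]))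
(.haz 4 7 3 10
(.haz 3 21 1 4
(.haz 0 2 13 20
(.haz 0 2 3 4
(.maj 1 4
(.ask 9
(.mark 13 1 4 5
(.cut 1 [(0, 1), (1, 1), (5, 1)]
(.lp [1] [3, 5] [0, 2, 4] [(.mj 1 4, 835), (.mj 2 3, 1961), (.mj 3 1, 1307), (.mj 3 4, 218), (.hz 1 21, 127114), (.rw 3, 1)])))
(.ask 13
(.mark 13 1 4 5
(.spn
(.haz 5 29 3 10
(.lp [1] [3, 5] [0, 2, 4] [(.mj 1 4, 3204), (.mj 2 3, 10572), (.mj 3 1, 5286), (.rw 3, 7), (.hz 0 7, 377587), (.hz 1 21, 1041225), (.hz 4 29, 320377)])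
(.lp [1] [3, 5] [0, 2, 4] [(.mj 1 4, 5), (.mj 2 3, 4), (.mj 3 1, 5), (.hz 0 7, 358), (.hz 4 13, 439), (.hz 1 21, 104)]))
(.con 4 1)
(.cut 1 [(0, 1), (1, 1), (5, 1)]
(.lp [1] [3, 5] [0, 2, 4] [(.mj 2 3, 1082), (.mj 5 1, 454), (.mj 5 4, 274), (.hz 1 21, 90137), (.hz 1 23, 444008), (.rw 4, 1)]))))
(.lp [1] [3] [0, 2, 4] [(.mj 1 4, 2), (.mj 3 1, 3)])))
(.haz 3 7 7 20
(.haz 4 13 3 10
(.ask 9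
(.mark 13 1 4 5
(.spn
(.con 1 4)
(.ask 21
(.mark 29 1 5 6
(.spn
(.ask 85
(.mark 93 1 5 7
(.cut 5 [(0, 1), (1, 1), (2, 1), (3, 1), (5, 1), (9, 1), (7, 1), (13, 1), (21, 1), (23, 1), (29, 1), (85, 1), (93, 1), (213, 1)]
(.lp [1] [3, 5] [0, 2, 4, 6, 7] [(.mj 1 5, 13136), (.mj 2 3, 98520), (.mj 3 4, 98520), (.mj 4 1, 98520), (.rw 4, 148), (.rw 5, 10)])))
(.cut 5 [(0, 1), (1, 1), (2, 1), (3, 1), (5, 1), (9, 1), (7, 1), (13, 1), (21, 1), (23, 1), (29, 1), (85, 1)]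
(.lp [1] [3, 5] [0, 2, 4, 6] [(.mj 1 6, 42955), (.mj 2 3, 274912), (.mj 3 4, 77319), (.mj 4 1, 214775), (.rw 4, 311), (.rw 5, 32)])))
(.cut 1 [(0, 1), (1, 1), (5, 1), (9, 1), (13, 1), (21, 1), (29, 1)]
(.lp [1] [3, 5] [0, 2, 4, 6] [(.mj 2 3, 944), (.mj 3 4, 472), (.mj 5 1, 486), (.mj 5 6, 14), (.rw 5, 1)]))
(.cut 1 [(0, 1), (1, 1), (5, 1), (9, 1), (13, 1), (21, 1), (29, 1)]
(.lp [1] [3, 5] [0, 2, 4, 6] [(.mj 2 3, 465), (.mj 3 4, 465), (.mj 6 1, 349), (.mj 6 5, 39), (.rw 5, 1)]))))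
(.ask 29
(.mark 29 1 5 6
(.spn
(.lp [1] [3, 5] [0, 2, 4, 6] [(.mj 1 6, 259), (.mj 2 3, 1785), (.mj 3 4, 233), (.mj 4 1, 931), (.rw 4, 1)])
(.cut 1 [(0, 1), (1, 1)]
(.lp [1] [3, 5] [0, 2, 4, 6] [(.mj 2 3, 1879), (.mj 5 1, 939), (.mj 5 6, 313), (.hz 4 7, 149621), (.hz 0 15, 93948), (.rw 5, 1)]))
(.cut 1 [(0, 1), (1, 1)]
(.cut 1 [(0, 1), (1, 1), (5, 1), (9, 1), (13, 1), (21, 1), (29, 1)]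
(.lp [1] [3, 5] [0, 2, 4, 6] [(.mj 2 3, 576), (.mj 6 1, 1535), (.rw 5, 2), (.rw 6, 2)])))))
(.lp [1] [3, 5] [0, 2, 4] [(.mj 2 3, 1857), (.mj 3 1, 535), (.rw 1, 1), (.hz 4 7, 112522)])))
(.lp [1] [3, 5] [0, 2, 4] [(.mj 2 3, 971), (.mj 5 4, 4128), (.rw 1, 2), (.hz 4 7, 48564), (.hz 0 7, 574678), (.hz 5 13, 364233)])))
(.ask 13
(.mark 13 1 4 5
(.spn
(.con 1 4)
(.haz 1 45 1 20
(.maj 1 5
(.ask 21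
(.mark 29 1 5 6
(.spn
(.haz 5 93 1 4
(.lp [1] [3, 5] [0, 2, 4, 6] [(.mj 1 5, 28), (.mj 1 6, 11), (.mj 3 4, 21), (.mj 4 1, 33), (.hz 6 45, 2027), (.hz 5 45, 485), (.hz 7 93, 20123)])
(.lp [1] [3, 5] [0, 2, 4, 6] [(.mj 1 6, 29), (.mj 3 4, 36), (.mj 4 1, 37), (.hz 7 13, 10750), (.hz 7 29, 14658), (.hz 6 45, 1839)]))
(.con 5 1)
(.cut 1 [(0, 1), (1, 1), (5, 1), (21, 1)]
(.lp [1] [3, 5] [0, 2, 4, 6] [(.mj 2 3, 456), (.mj 3 4, 303), (.mj 6 1, 490), (.hz 0 7, 7427), (.hz 0 15, 69793), (.hz 6 45, 24507), (.hz 5 45, 4262), (.hz 6 61, 61268), (.rw 5, 1)]))))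
(.ask 29
(.mark 29 1 5 6
(.spn
(.lp [1] [3, 5] [0, 2, 4, 6] [(.mj 1 6, 341), (.mj 2 3, 2510), (.mj 4 1, 1570), (.rw 4, 2), (.hz 6 45, 433577)])
(.con 5 1)
(.cut 1 [(0, 1), (1, 1), (5, 1), (21, 1)]
(.lp [1] [3, 5] [0, 2, 4, 6] [(.mj 2 3, 692), (.mj 6 1, 461), (.rw 5, 1)]))))
(.lp [1] [3, 5] [0, 2, 4] [(.mj 1 5, 1), (.mj 4 1, 1)])))
(.cut 1 [(0, 1), (1, 1)]
(.cut 1 [(0, 1), (1, 1), (5, 1), (9, 1), (13, 1)]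
(.lp [1] [3, 5] [0, 2, 4] [(.mj 5 1, 10648), (.hz 0 15, 1118010), (.hz 4 23, 239574), (.rw 4, 16), (.rw 5, 7)]))))
(.cut 1 [(0, 1), (1, 1)]
(.lp [1] [3, 5] [0, 2, 4] [(.hz 6 1, 44593), (.rw 4, 1)])))
(.cut 1 [(0, 1), (1, 1)]
(.lp [1] [3, 5] [0, 2, 4] [(.mj 2 3, 5965), (.rw 3, 2), (.hz 4 7, 489194), (.hz 5 13, 426072), (.rw 4, 3)]))))
(.spn
(.con 1 4)
(.ask 21
(.mark 21 1 3 5
(.ask 29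
(.mark 29 1 5 6
(.spn
(.lp [1] [3, 6] [0, 2, 4, 5] [(.mj 1 6, 297), (.mj 3 4, 1779), (.mj 4 1, 890), (.rw 4, 1)])
(.cut 1 [(0, 1), (1, 1), (5, 1), (9, 1), (13, 1), (21, 1), (29, 1)]
(.lp [1] [3, 6] [0, 2, 4, 5] [(.mj 3 4, 663), (.mj 5 1, 332), (.mj 5 6, 111), (.rw 5, 1)]))
(.cut 1 [(0, 1), (1, 1)]
(.cut 1 [(0, 1), (1, 1), (5, 1), (9, 1), (13, 1), (21, 1), (29, 1)]
(.lp [1] [3, 6] [0, 2, 4, 5] [(.mj 6 1, 1528), (.rw 5, 2), (.rw 6, 2)])))))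
(.cut 1 [(0, 1), (1, 1)]
(.lp [1] [3] [0, 2, 4, 5] [(.mj 2 3, 896), (.mj 3 4, 2638), (.mj 4 1, 1543), (.hz 4 7, 22397), (.hz 0 7, 395685), (.rw 4, 1)]))))
(.ask 29
(.maj 1 5
(.ask 29
(.mark 29 1 5 6
(.spn
(.haz 6 61 3 10
(.lp [1] [3, 6] [0, 2, 4, 5] [(.mj 1 5, 5), (.mj 1 6, 10), (.mj 4 1, 13), (.hz 6 61, 2194)])
(.lp [1] [3, 6] [0, 2, 4, 5] [(.mj 1 5, 2), (.mj 4 1, 2), (.hz 6 29, 290)]))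
(.con 5 1)
(.con 6 5)))
(.lp [1] [3] [0, 2, 4, 5] [(.mj 1 5, 1), (.mj 4 1, 1)]))
(.cut 1 [(0, 1), (1, 1)]
(.cut 1 [(0, 1), (1, 1), (5, 1), (9, 1), (13, 1), (21, 1)]
(.lp [1] [3] [0, 2, 4, 5] [(.mj 5 1, 1528), (.rw 4, 2), (.rw 5, 2)]))))
(.lp [1] [3] [0, 2, 4] [(.mj 4 1, 1)])))
.fin)))
(.cut 1 [(0, 1), (1, 1)]
(.lp [1] [3] [0, 2, 4] [(.mj 2 3, 2300), (.mj 4 1, 947), (.hz 5 5, 67640), (.hz 4 7, 170354), (.rw 3, 1)])))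
(.cut 1 [(0, 1), (1, 1), (5, 1)]
(.lp [1] [3] [0, 2, 4] [(.mj 2 3, 582), (.mj 3 4, 896), (.mj 4 1, 717), (.hz 4 5, 22398), (.hz 4 7, 17919), (.hz 0 7, 26878), (.rw 3, 1)]))))
(.lp [1] [3] [0, 2, 4] [(.mj 2 1, 1), (.hz 3 0, 227), (.hz 2 2, 28)]))
(.lp [1] [3] [0, 2, 4] [(.mj 2 1, 8), (.hz 2 0, 203)]))
(.lp [1] [3] [0, 2, 4] [(.mj 3 1, 25), (.mj 3 4, 839), (.rw 2, 1), (.hz 1 5, 419453), (.hz 0 7, 127107)]))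
(.cut 1 [(0, 1), (1, 1), (5, 1)]
(.lp [1] [3] [0, 2, 4] [(.mj 2 3, 55369), (.mj 3 1, 30942), (.hz 0 5, 1628514), (.hz 0 7, 2442772), (.rw 3, 40)])))
(.ask 21
(.mark 21 1 3 5
(.spn
(.lp [1] [3] [0, 2, 4, 5] [(.mj 4 1, 524), (.rw 3, 1)])
(.cut 1 [(0, 1)]
(.cut 1 [(0, 1), (1, 1)]
(.lp [1] [3] [0, 2, 4, 5] [(.rw 2, 1), (.rw 3, 2), (.rw 4, 2), (.rw 5, 1)])))
(.haz 2 11 2 5
(.ask 53
(.mark 53 1 3 6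
(.spn
(.lp [1] [3] [0, 2, 4, 5, 6] [(.mj 5 1, 174), (.rw 4, 1)])
(.lp [1] [3] [0, 2, 4, 5, 6] [(.mj 5 3, 524), (.rw 4, 1)])
(.cut 1 [(0, 1), (1, 1), (5, 1)]
(.cut 3 [(0, 1), (1, 1), (2, 1), (3, 1), (5, 1), (7, 1)]
(.cut 1 [(0, 1), (1, 1), (5, 1), (9, 1), (21, 1)]
(.cut 3 [(0, 1), (1, 1), (2, 1), (3, 1), (5, 1), (7, 1), (21, 1)]
(.lp [1] [3] [0, 2, 4, 5, 6] [(.mj 6 1, 111090), (.mj 6 3, 20198), (.rw 4, 5), (.hz 0 11, 15148606), (.rw 5, 242), (.rw 6, 45), (.rw 7, 15), (.rw 8, 15)])))))))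
(.lp [1] [3] [0, 2, 4, 5] [(.mj 5 3, 1), (.rw 3, 1)]))
(.lp [1] [3] [0, 2, 4, 5] [(.mj 5 3, 436), (.rw 3, 1), (.hz 0 1, 217788)]))))
(.lp [1] [3] [0, 2, 4] [(.mj 4 3, 1), (.rw 2, 1)]))))
(.spn
(.lp [1] [3] [0, 2] [(.mj 2 1, 11), (.rw 2, 1)])
(.cut 1 [(0, 1), (1, 1), (5, 1)]
(.lp [1] [3] [0, 2] [(.mj 2 3, 1325), (.mj 3 1, 663), (.rw 3, 1)]))
.fin))

theorem run11 : run (mkLeaf Leaf.nleaf) cutRow [] t11 s11 = true := by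
  decide +kernel

/-- the state above part 12 of the tree -/
def s12 : St := ⟨[0, 0, 1, 3, 5, 3], [2, 1, 0], [0, 1],
  [(2, 3)],
  [⟨true, 2, 3, 3, 10⟩, ⟨true, 1, 5, 2, 5⟩, ⟨true, 1, 5, 9, 20⟩],
  [.spn 0 0 666000, .spn 1 1 332000]⟩

/-- part 12 of the tree -/
noncomputable def t12 : Tree :=
(.mark 3 2 3 5
(.spn
(.mark 7 3 4 5
(.spn
(.ask 21
(.mark 23 3 5 6
(.ask 85
(.mark 87 3 5 7
(.cut 5 [(0, 1), (1, 1), (2, 1), (3, 1), (5, 1), (7, 1), (21, 1), (85, 1), (213, 1)]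
(.lp [5] [1, 3] [0, 2, 4, 6, 7] [(.mj 0 1, 53952), (.mj 3 4, 11555), (.hz 2 21, 629514), (.hz 2 85, 59347), (.hz 2 213, 107904), (.rw 4, 2)])))
(.cut 5 [(0, 1), (1, 1), (2, 1), (3, 1), (5, 1), (7, 1), (21, 1), (85, 1)]
(.lp [5] [1, 3] [0, 2, 4, 6] [(.mj 0 1, 21095), (.mj 3 4, 4219), (.rw 4, 1)]))))
(.lp [5] [1, 3] [0, 2, 4] [(.mj 0 1, 6), (.mj 3 4, 1)]))
(.haz 2 11 9 20
(.haz 2 35 9 20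
(.haz 3 35 1 10
(.ask 35
(.haz 2 11 1 2
(.ask 21
(.mark 23 3 5 7
(.spn
(.mark 39 3 4 6
(.cut 5 [(0, 1), (1, 1), (2, 1), (3, 1), (5, 1), (7, 1), (11, 2), (21, 1), (15, 1), (23, 1), (149, 1)]
(.lp [3] [1, 5, 6] [0, 2, 4, 7] [(.mj 1 2, 7146), (.mj 3 5, 2012), (.mj 4 3, 4871), (.rw 4, 1), (.hz 4 35, 103029), (.hz 5 35, 653146), (.hz 6 43, 3784774), (.hz 4 99, 744), (.hz 5 99, 688345), (.hz 5 103, 2610451), (.rw 5, 1)])))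
(.con 5 3)
(.mark 39 3 4 6
(.lp [3] [1, 5, 6] [0, 2, 4, 7] [(.mj 1 2, 22), (.mj 7 3, 10), (.mj 7 5, 7), (.hz 6 11, 3040), (.hz 4 35, 194), (.hz 5 35, 3415), (.hz 6 43, 18752), (.hz 5 99, 973), (.hz 5 103, 3405)]))))
(.ask 23
(.mark 23 3 5 7
(.spn
(.ask 151
(.ask 11
(.mark 191 6 8 9
(.cut 5 [(0, 1), (1, 1), (2, 1), (3, 1), (5, 1), (7, 1), (11, 1), (21, 1), (15, 1), (23, 1), (523, 1), (151, 1)]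
(.lp [5, 6] [1, 3, 9] [0, 2, 4, 7, 8] [(.mj 1 2, 85794), (.mj 3 7, 11976), (.mj 4 3, 65971), (.rw 4, 68), (.hz 6 523, 16133110), (.hz 5 99, 28629806), (.hz 5 103, 28677556), (.hz 6 107, 145647558), (.hz 5 119, 143249), (.rw 5, 27)])))
(.ask 15
(.mark 191 6 8 9
(.cut 5 [(0, 1), (1, 1), (2, 1), (3, 1), (5, 1), (7, 1), (11, 1), (21, 1), (15, 1), (23, 1)]
(.lp [5, 6] [1, 3, 9] [0, 2, 4, 7, 8] [(.mj 1 2, 21359), (.mj 3 5, 6999), (.mj 3 7, 8025), (.mj 4 3, 20854), (.rw 4, 10), (.hz 5 99, 7119616), (.hz 5 103, 7119616), (.hz 6 107, 29872752), (.rw 5, 12)])))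
(.maj 5 7
(.haz 7 31 7 20
(.mark 55 3 6 7
(.lp [3] [1, 5, 6] [0, 2, 4, 7, 8] [(.mj 0 1, 45), (.mj 3 5, 8), (.mj 4 3, 12), (.mj 5 7, 16), (.hz 5 35, 2477), (.hz 5 39, 2230), (.hz 5 99, 1948), (.hz 7 31, 3621), (.hz 5 103, 7359)]))
(.mark 55 3 6 7
(.lp [3] [1, 5, 6] [0, 2, 4, 7, 8] [(.mj 1 2, 1), (.mj 3 5, 2), (.mj 4 3, 6), (.hz 5 35, 886), (.hz 7 23, 401), (.hz 5 39, 1983), (.hz 5 99, 646), (.hz 5 103, 2868)])))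
(.mark 183 3 6 8
(.cut 5 [(0, 1), (1, 1), (2, 1), (3, 1), (5, 1), (7, 1), (11, 1), (21, 1), (15, 1), (23, 1)]
(.lp [3] [1, 5, 6] [0, 2, 4, 7, 8] [(.mj 1 2, 3127), (.mj 3 5, 400), (.mj 4 3, 938), (.mj 7 5, 608), (.hz 4 99, 47213), (.hz 5 99, 130354), (.hz 5 103, 768940), (.rw 5, 1)]))))))
(.mark 55 3 6 7
(.cut 5 [(0, 1), (1, 1), (2, 1), (3, 1), (5, 1), (7, 1), (11, 1), (21, 1), (15, 1), (23, 1), (151, 1)]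
(.lp [3] [1, 5, 6] [0, 2, 4, 7] [(.mj 1 2, 1203), (.mj 3 5, 4046), (.mj 3 7, 2231), (.mj 4 3, 15460), (.hz 5 35, 2308422), (.hz 5 99, 1635506), (.hz 5 103, 11749254), (.hz 5 119, 1672933), (.rw 5, 4)]))))
(.con 5 3)
(.mark 39 3 4 6
(.cut 3 [(0, 1), (1, 1), (2, 1), (3, 1), (5, 1), (7, 1), (21, 1), (35, 1), (39, 1)]
(.cut 5 [(0, 1), (1, 1), (2, 1), (3, 1), (5, 1), (7, 1), (11, 2), (21, 1), (15, 2), (23, 1), (31, 2)]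
(.lp [3] [1, 5, 6] [0, 2, 4, 7] [(.mj 1 2, 86439), (.mj 7 3, 11980), (.mj 7 5, 11432), (.rw 4, 9), (.hz 6 11, 12348443), (.hz 4 35, 1325896), (.hz 6 43, 6071747), (.hz 5 99, 962955), (.hz 5 103, 3605369), (.rw 5, 15), (.rw 6, 14)]))))))
(.lp [3] [0, 2, 4] [1, 5, 6] [(.mj 3 5, 3), (.mj 4 3, 5)])))
(.haz 5 23 3 20
(.mark 39 3 4 6
(.lp [3] [0, 2, 4] [1, 5, 6] [(.mj 3 5, 67), (.mj 4 3, 88), (.hz 6 1, 26002), (.hz 6 3, 62509), (.hz 3 11, 5829), (.hz 4 35, 6302), (.hz 5 35, 7925), (.hz 7 23, 5166), (.hz 5 39, 18931), (.hz 5 99, 8805), (.hz 5 103, 30818)]))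
(.lp [3] [0, 2, 4] [1, 5, 6] [(.mj 1 2, 2), (.mj 4 3, 3), (.hz 6 3, 2454), (.hz 7 3, 231), (.hz 3 11, 220), (.hz 5 35, 293)])))
(.haz 5 23 3 20
(.haz 2 11 11 20
(.ask 21
(.mark 23 3 5 6
(.lp [5] [1, 3] [0, 2, 4, 6] [(.mj 1 2, 12), (.mj 3 5, 6), (.mj 4 3, 7), (.hz 7 11, 140), (.hz 6 23, 399), (.hz 6 31, 1071), (.hz 6 87, 735)]))
(.ask 23
(.mark 23 3 5 6
(.spn
(.ask 11
(.mark 11 2 5 7
(.lp [5] [1, 3, 7] [0, 2, 4, 6] [(.mj 1 2, 11718), (.mj 3 5, 4866), (.mj 4 3, 5852), (.rw 4, 1), (.hz 6 23, 413573), (.hz 7 139, 123346), (.hz 6 31, 962485), (.hz 6 87, 486556)]))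
(.lp [5] [1, 3] [0, 2, 4, 6] [(.mj 1 2, 29), (.mj 3 5, 12), (.mj 4 3, 12), (.hz 6 23, 1037), (.hz 6 31, 1548), (.hz 6 87, 1221)]))
(.con 5 3)
(.lp [5] [1, 3] [0, 2, 4, 6] [(.mj 1 2, 24031), (.mj 3 5, 839), (.mj 6 3, 2024), (.rw 4, 4), (.hz 7 11, 329195), (.hz 6 23, 1018460), (.hz 7 43, 252960), (.hz 5 55, 2895087), (.hz 6 87, 183080), (.hz 5 119, 1984430)])))
(.lp [5] [1, 3] [0, 2, 4] [(.mj 3 5, 3), (.mj 4 3, 5)])))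
(.lp [5] [1, 3] [0, 2, 4] [(.mj 1 2, 24), (.mj 3 5, 18), (.mj 4 3, 29), (.hz 7 3, 2033), (.hz 3 11, 1900), (.hz 5 35, 54), (.hz 6 23, 1758), (.hz 5 39, 7211)]))
(.lp [5] [1, 3] [0, 2, 4] [(.mj 1 2, 32), (.mj 4 3, 11), (.hz 6 7, 1062), (.hz 3 11, 383), (.hz 5 39, 1977), (.hz 3 43, 383)])))
(.cut 5 [(0, 1), (1, 1), (2, 1), (3, 1), (5, 1), (7, 1), (21, 1)]
(.lp [5] [1, 3] [0, 2, 4] [(.mj 1 2, 8574), (.mj 3 5, 2363), (.mj 4 5, 1026), (.hz 5 3, 695153), (.hz 4 35, 138339), (.rw 4, 1)])))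
(.lp [5] [1, 3] [0, 2, 4] [(.mj 0 1, 4), (.hz 4 1, 67)]))
(.lp [5] [1, 3] [0, 2, 4] [(.mj 0 1, 4), (.hz 3 1, 67)]))
(.con 5 3)))
(.con 3 2)
(.con 5 3)))

theorem run12 : run (mkLeaf Leaf.nleaf) cutRow [] t12 s12 = true := by
  decide +kernel

end Pool.Agent.W3.Data
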