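import Pool.Agent.W3.Data.D0
import Pool.Agent.W3.Data.D1
import Pool.Agent.W3.Data.D2
import Pool.Agent.W3.Data.D3
import Pool.Agent.W3.Data.D4
import Pool.Agent.W3.Data.D5
import Pool.Agent.W3.Data.D6
import Pool.Agent.W3.Data.D7
import Pool.Agent.W3.Data.D8
import Pool.Agent.W3.Data.D9
import Pool.Agent.W3.Data.D10
import Pool.Agent.W3.Data.D11

/-!
# The search tree, top
-/

set_option autoImplicit false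

namespace Pool.Agent.W3.Data

/-- the bad states of the parts -/
def parts : List St := [s0, s1, s2, s3, s4, s5, s6, s7, s8, s9, s10, s11, s12, s13, s14, s15, s16]

/-- the top of the tree -/
noncomputable def top : Tree :=
(.ask 0
(.ask 0
(.ask 0
(.mark 0 0 1 2
(.spn
(.haz 0 4 13 20
(.ref 0)
(.ref 1))
(.con 1 0)
(.con 2 1)))
(.spn
(.ask 1
(.ask 1
(.mark 1 1 2 3
(.spn
(.haz 1 9 3 20
(.haz 2 9 1 5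
(.haz 1 9 1 4
(.haz 1 5 1 4
(.ask 9
(.ask 2
(.ref 2)
(.ref 3))
(.ask 2
(.mark 3 2 3 4
(.spn
(.haz 2 9 3 10
(.ask 5
(.ref 4)
(.ask 7
(.mark 7 3 4 5
(.spn
(.haz 3 39 1 10
(.haz 3 39 3 20
(.ask 13
(.ref 5)
(.ref 6))
(.lp [3] [1, 4] [0, 2, 5] [(.mj 0 1, 5), (.mj 3 5, 1), (.hz 6 3, 50), (.hz 6 5, 139), (.hz 6 7, 84)]))
(.lp [3] [1, 4] [0, 2, 5] [(.mj 0 1, 4), (.mj 3 5, 1), (.hz 5 1, 223)]))
(.lp [3] [1, 4] [0, 2, 5] [(.mj 0 1, 86), (.mj 1 2, 26), (.mj 4 3, 19), (.mj 4 5, 10), (.hz 2 13, 3189)])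
(.ask 39
(.mark 39 3 4 6
(.spn
(.lp [3] [1, 4] [0, 2, 5, 6] [(.mj 5 3, 794), (.rw 4, 1)])
(.lp [3] [1, 4] [0, 2, 5, 6] [(.mj 0 1, 18330), (.mj 1 2, 5431), (.rw 3, 1), (.rw 4, 4), (.hz 2 13, 678907)])
(.ask 103
(.mark 103 3 4 7
(.spn
(.lp [3] [1, 4] [0, 2, 5, 6, 7] [(.mj 6 3, 312), (.rw 5, 1)])
(.lp [3] [1, 4] [0, 2, 5, 6, 7] [(.mj 6 4, 524), (.rw 5, 1)])
(.ask 13
(.mark 47 4 6 8
(.cut 3 [(0, 1), (1, 1), (2, 1), (3, 1), (5, 1), (18, 1), (7, 1), (19, 1), (23, 2)]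
(.cut 3 [(0, 1), (1, 1), (2, 1), (3, 1), (5, 1), (18, 1), (7, 1), (19, 2), (23, 1), (39, 1), (103, 1)]
(.cut 3 [(0, 1), (1, 1), (2, 1), (3, 1), (5, 1), (18, 1), (7, 1), (19, 2), (23, 2), (39, 1), (55, 1)]
(.cut 4 [(0, 1), (1, 1), (2, 1), (3, 1), (5, 1), (9, 1), (7, 1), (11, 1), (13, 1), (15, 1), (39, 1), (269, 1), (47, 1)]
(.lp [1, 4] [3, 8] [0, 2, 5, 6, 7] [(.mj 0 1, 148773), (.mj 1 2, 73935), (.mj 7 3, 14724), (.rw 5, 1), (.hz 2 269, 13884726), (.rw 6, 13), (.rw 7, 7), (.rw 8, 5), (.rw 9, 15)]))))))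
(.cut 3 [(0, 1), (1, 1), (2, 1), (3, 1), (5, 1), (7, 1)]
(.cut 4 [(0, 1), (1, 1), (2, 1), (5, 1), (9, 1), (13, 1)]
(.lp [3] [1, 4] [0, 2, 5, 6, 7] [(.mj 0 1, 124129), (.mj 7 3, 10344), (.rw 6, 5), (.rw 7, 19)]))))))
(.lp [3] [1, 4] [0, 2, 5, 6] [(.mj 6 4, 1), (.rw 4, 1)]))))
(.lp [3] [1, 4] [0, 2, 5] [(.mj 5 4, 1), (.rw 3, 1)]))))
(.spn
(.haz 4 15 3 20
(.lp [3] [0, 2] [1, 4] [(.mj 0 1, 1), (.mj 1 2, 1), (.mj 2 3, 3), (.mj 3 4, 2), (.hz 5 15, 301)])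
(.lp [3] [0, 2] [1, 4] [(.mj 2 3, 1), (.hz 5 2, 14), (.hz 5 3, 30), (.hz 5 7, 49)]))
(.lp [3] [0, 2] [1, 4] [(.mj 0 1, 4), (.mj 1 2, 1), (.mj 4 3, 1), (.hz 2 13, 163)])
.fin)))
(.lp [3] [0, 2] [1, 4] [(.mj 0 1, 2), (.mj 2 3, 1), (.hz 4 1, 134)]))
(.con 3 2)
(.lp [3] [0, 2] [1, 4] [(.mj 0 1, 4), (.mj 4 2, 2), (.mj 4 3, 1), (.hz 3 5, 347), (.hz 1 9, 101), (.hz 1 11, 850)])))
(.haz 1 5 7 20
(.ask 3
(.mark 3 2 3 4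
(.spn
(.haz 2 19 3 20
(.ask 5
(.ref 7)
(.ask 7
(.mark 7 3 4 5
(.spn
(.haz 3 39 1 20
(.haz 3 39 1 10
(.haz 3 23 1 20
(.haz 3 39 3 20
(.ask 13
(.ref 8)
(.ref 9))
(.lp [3] [1, 4] [0, 2, 5] [(.mj 3 4, 10), (.mj 3 5, 11), (.hz 9 3, 621), (.hz 9 5, 414), (.hz 9 7, 804), (.hz 8 23, 53)]))
(.lp [3] [1, 4] [0, 2, 5] [(.mj 3 4, 1), (.mj 3 5, 1), (.hz 8 1, 98)]))
(.lp [3] [1, 4] [0, 2, 5] [(.mj 3 4, 1), (.mj 3 5, 1), (.hz 7 1, 136), (.hz 7 7, 111)]))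
(.lp [3] [1, 4] [0, 2, 5] [(.mj 3 4, 1), (.mj 3 5, 1), (.hz 6 1, 98)]))
(.haz 3 7 1 5
(.lp [3] [1, 4] [0, 2, 5] [(.mj 0 1, 11), (.mj 2 4, 1), (.mj 4 3, 7), (.hz 6 7, 2737), (.hz 6 23, 1369), (.hz 6 39, 1369)])
(.haz 5 15 1 4
(.ask 13
(.maj 3 5
(.haz 5 23 3 10
(.mark 15 4 5 6
(.lp [1, 4] [3, 6] [0, 2, 5] [(.mj 0 1, 127), (.mj 3 5, 17), (.mj 4 3, 6), (.hz 6 5, 13409), (.hz 8 23, 4293)]))
(.mark 15 4 5 6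
(.lp [1, 4] [3, 6] [0, 2, 5] [(.mj 0 1, 31), (.mj 4 3, 1), (.hz 6 5, 2798), (.hz 8 7, 481)])))
(.mark 15 4 5 6
(.cut 3 [(0, 1), (1, 1), (2, 1), (3, 1), (5, 1), (7, 1), (39, 2)]
(.lp [1, 4] [3, 6] [0, 2, 5] [(.mj 0 1, 9734), (.mj 4 5, 779), (.mj 5 3, 987), (.hz 6 5, 486673), (.hz 4 77, 109304), (.hz 7 79, 1838946), (.rw 4, 1)]))))
(.lp [3] [1, 4] [0, 2, 5] [(.mj 0 1, 97), (.mj 4 3, 12), (.mj 4 5, 7), (.hz 7 15, 10874)]))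
(.lp [3] [1, 4] [0, 2, 5] [(.mj 0 1, 62), (.mj 4 3, 4), (.hz 6 5, 4542), (.hz 7 7, 2206)])))
(.ask 39
(.mark 39 3 4 6
(.spn
(.lp [3] [1, 4] [0, 2, 5, 6] [(.mj 5 3, 794), (.rw 4, 1)])
(.cut 3 [(0, 1), (1, 1), (2, 1), (3, 1), (5, 1), (7, 1), (39, 1)]
(.lp [3] [1, 4] [0, 2, 5, 6] [(.mj 4 3, 1150), (.mj 4 6, 1150), (.mj 5 4, 2832), (.rw 4, 1), (.rw 5, 3)]))
(.ask 103
(.mark 103 3 4 7
(.spn
(.lp [3] [1, 4] [0, 2, 5, 6, 7] [(.mj 6 3, 312), (.rw 5, 1)])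
(.lp [3] [1, 4] [0, 2, 5, 6, 7] [(.mj 6 4, 794), (.rw 5, 1)])
(.ask 19
(.mark 55 3 6 8
(.cut 3 [(0, 1), (1, 1), (2, 1), (3, 1), (5, 1), (7, 1)]
(.cut 3 [(0, 1), (1, 1), (2, 1), (3, 1), (5, 1), (7, 1), (19, 1), (23, 1)]
(.cut 3 [(0, 1), (1, 1), (2, 1), (3, 1), (5, 1), (7, 1), (19, 1), (23, 1), (39, 1), (275, 1), (279, 1)]
(.cut 4 [(0, 1), (1, 1), (2, 1), (3, 1), (5, 1), (9, 1), (7, 1), (11, 1), (13, 1), (15, 1), (39, 1)]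
(.cut 3 [(0, 1), (1, 1), (2, 1), (3, 1), (5, 1), (7, 1), (19, 1), (23, 1), (39, 1), (55, 1)]
(.lp [3] [1, 4, 8] [0, 2, 5, 6, 7] [(.mj 7 3, 14240), (.mj 7 4, 1557), (.rw 5, 2), (.hz 1 27, 4803270), (.hz 1 283, 5335217), (.rw 6, 26), (.rw 7, 1), (.rw 8, 2), (.rw 9, 9), (.rw 10, 11)])))))))
(.cut 3 [(0, 1), (1, 1), (2, 1), (3, 1), (5, 1), (7, 1)]
(.cut 3 [(0, 1), (1, 1), (2, 1), (3, 1), (5, 1), (7, 1), (19, 1), (23, 1)]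
(.cut 4 [(0, 1), (1, 1), (2, 1), (3, 1), (5, 1), (9, 1), (7, 1), (11, 1), (13, 1), (15, 1)]
(.cut 3 [(0, 1), (1, 1), (2, 1), (3, 1), (5, 1), (7, 1), (19, 1)]
(.cut 3 [(0, 1), (1, 1), (2, 1), (3, 1), (5, 1), (7, 1), (39, 1)]
(.cut 4 [(0, 1), (1, 1), (2, 1), (3, 1), (5, 1), (9, 1), (7, 1), (11, 2), (13, 1), (15, 1), (39, 1)]
(.lp [3] [1, 4] [0, 2, 5, 6, 7] [(.mj 7 3, 26692), (.mj 7 4, 6189), (.rw 6, 25), (.rw 7, 3), (.rw 8, 8), (.rw 9, 21), (.rw 10, 13), (.rw 11, 2)]))))))))))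
(.lp [3] [1, 4] [0, 2, 5, 6] [(.mj 6 4, 1), (.rw 4, 1)]))))
(.lp [3] [1, 4] [0, 2, 5] [(.mj 5 4, 1), (.rw 3, 1)]))))
(.spn
(.haz 4 11 1 4
(.lp [3] [0, 2] [1, 4] [(.mj 1 2, 1), (.mj 2 3, 6), (.mj 3 4, 4), (.hz 6 11, 3214)])
(.cut 4 [(0, 1), (1, 1), (2, 1), (3, 1), (5, 1), (9, 1), (7, 1), (13, 1)]
(.lp [3] [0, 2] [1, 4] [(.mj 1 2, 3160), (.mj 2 3, 5900), (.mj 3 4, 3130), (.hz 6 3, 287308), (.rw 4, 1)])))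
(.cut 3 [(0, 1), (1, 1), (2, 1), (3, 1), (5, 1), (7, 1)]
(.lp [3] [0, 2] [1, 4] [(.mj 0 1, 864804), (.mj 4 3, 198272), (.hz 4 13, 21092777), (.rw 4, 59)]))
.fin)))
(.lp [3] [0, 2] [1, 4] [(.mj 0 1, 4), (.mj 2 3, 2), (.mj 2 4, 1), (.hz 5 1, 111)]))
(.con 3 2)
(.lp [3] [0, 2] [1, 4] [(.mj 0 1, 10011), (.mj 4 2, 1452), (.mj 4 3, 176), (.rw 2, 1), (.hz 4 5, 147226), (.hz 4 13, 122090)])))
(.ref 10))
(.lp [1] [3] [0, 2] [(.mj 1 2, 3), (.mj 2 3, 1), (.hz 4 1, 107), (.hz 1 9, 112)]))))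
(.lp [1] [3] [0, 2] [(.mj 1 2, 4), (.mj 2 3, 2), (.hz 3 0, 362), (.hz 3 1, 483), (.hz 2 9, 515), (.hz 1 9, 386)]))
(.lp [1] [3] [0, 2] [(.mj 1 2, 13), (.mj 2 3, 8), (.hz 2 0, 1192), (.hz 2 1, 1589), (.hz 0 9, 391), (.hz 1 9, 1271)]))
(.haz 3 3 1 4
(.lp [1] [3] [0, 2] [(.mj 0 1, 5), (.mj 2 3, 4), (.hz 1 1, 408), (.hz 2 3, 1020)])
(.lp [1] [3] [0, 2] [(.mj 0 1, 4), (.hz 1 1, 268), (.hz 2 1, 335)])))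
(.lp [1] [3] [0, 2] [(.mj 1 2, 316), (.mj 2 3, 316), (.rw 1, 1), (.hz 0 1, 52638)]))
(.ref 11)
(.con 3 2)))
(.spn
(.ask 2
(.ask 2
(.mark 3 2 3 4
(.cut 3 [(0, 1), (1, 1), (2, 1), (5, 1)]
(.cut 4 [(0, 1), (1, 1), (5, 1)]
(.lp [4] [0, 2] [1, 3] [(.mj 0 1, 6081), (.rw 1, 9), (.rw 2, 1), (.rw 3, 1)]))))
(.ask 3
(.mark 3 2 3 4
(.spn
(.ask 5
(.mark 7 3 4 5
(.spn
(.lp [4] [1, 3] [0, 2, 5] [(.mj 0 1, 1598), (.mj 3 4, 266), (.mj 3 5, 266), (.rw 1, 1)])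
(.haz 5 7 7 20
(.lp [4] [1, 3] [0, 2, 5] [(.mj 0 1, 60), (.mj 2 4, 1), (.mj 4 5, 31), (.hz 0 7, 2299)])
(.lp [4] [1, 3] [0, 2, 5] [(.mj 0 1, 13), (.mj 4 5, 1), (.hz 0 5, 144)]))
(.cut 3 [(0, 1), (1, 1), (2, 1), (5, 1), (37, 1)]
(.cut 4 [(0, 1), (1, 1), (2, 1), (3, 1), (5, 1), (37, 1)]
(.lp [4] [1, 3] [0, 2, 5] [(.mj 0 1, 20560), (.mj 5 4, 4569), (.rw 1, 19), (.rw 4, 1), (.rw 5, 1)])))))
(.cut 3 [(0, 1), (1, 1), (2, 1), (5, 1)]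
(.lp [4] [0, 2] [1, 3] [(.mj 0 1, 6167), (.rw 3, 1)])))
(.lp [4] [0, 2] [1, 3] [(.mj 0 1, 1765), (.mj 3 2, 588), (.mj 3 4, 588), (.rw 1, 1)])
(.cut 2 [(0, 1), (1, 1), (2, 1)]
(.lp [4] [0, 2] [1, 3] [(.mj 0 1, 5049), (.mj 4 2, 2525), (.rw 3, 1)]))))
(.cut 3 [(0, 1), (1, 1), (2, 1), (5, 1)]
(.lp [] [0, 2] [1, 3] [(.mj 0 1, 5644), (.rw 1, 6), (.rw 2, 1)]))))
(.haz 2 3 3 10
(.haz 1 5 2 5
(.haz 1 5 9 20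
(.ask 3
(.ask 5
(.maj 2 3
(.ask 3
(.ref 12)
(.spn
(.ask 5
(.mark 7 3 4 5
(.spn
(.ask 11
(.ref 13)
(.ref 14))
(.lp [5] [1, 3] [0, 2, 4] [(.mj 1 2, 9), (.mj 4 3, 4), (.hz 0 11, 301)])
(.con 5 4)))
(.ref 15))
(.con 3 2)
.fin))
(.lp [] [1, 3] [0, 2, 4] [(.mj 0 1, 1), (.mj 3 2, 1), (.hz 0 3, 65)]))
(.cut 3 [(0, 1), (1, 1), (2, 1), (5, 1)]
(.lp [] [0, 2] [1, 3] [(.mj 0 1, 15989), (.rw 2, 1)])))
(.spn
(.ask 5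
(.cut 3 [(0, 1), (1, 1), (2, 1), (3, 1)]
(.lp [] [1] [0, 2, 3] [(.mj 1 2, 11512), (.rw 3, 1)]))
(.ask 7
(.ask 7
(.ask 7
(.mark 7 3 4 5
(.dec 7))
(.dec 7))
(.dec 7))
(.cmp 5)))
.fin
.fin))
(.lp [] [1] [0, 2] [(.mj 1 2, 2), (.hz 2 1, 66)]))
(.lp [] [1] [0, 2] [(.mj 1 2, 1), (.hz 1 1, 131)]))
(.lp [] [1] [0, 2] [(.mj 0 1, 1), (.hz 0 1, 33)])))
(.ref 16)
.fin))
(.lp [] [0] [1] [(.mj 0 1, 1)]))
(.con 1 0)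
.fin))
(.dec 0))
(.cmp 0))

theorem run_top : run (mkLeaf Leaf.nleaf) cutRow parts top root = true := by
  decide +kernel

theorem parts_bad (hl : LeafSound (mkLeaf Leaf.nleaf)) : ∀ a ∈ parts, Bad a := by
  intro a ha
  unfold parts at ha
  simp only [List.mem_cons, List.not_mem_nil, or_false] at ha
  rcases ha with rfl | rfl | rfl | rfl | rfl | rfl | rfl | rfl | rfl | rfl | rfl | rfl | rfl | rfl | rfl | rfl | rfl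
  · exact run_sound hl cutRow_sound (fun _ h => absurd h List.not_mem_nil) t0 s0 run0
  · exact run_sound hl cutRow_sound (fun _ h => absurd h List.not_mem_nil) t1 s1 run1
  · exact run_sound hl cutRow_sound (fun _ h => absurd h List.not_mem_nil) t2 s2 run2
  · exact run_sound hl cutRow_sound (fun _ h => absurd h List.not_mem_nil) t3 s3 run3
  · exact run_sound hl cutRow_sound (fun _ h => absurd h List.not_mem_nil) t4 s4 run4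
  · exact run_sound hl cutRow_sound (fun _ h => absurd h List.not_mem_nil) t5 s5 run5
  · exact run_sound hl cutRow_sound (fun _ h => absurd h List.not_mem_nil) t6 s6 run6
  · exact run_sound hl cutRow_sound (fun _ h => absurd h List.not_mem_nil) t7 s7 run7
  · exact run_sound hl cutRow_sound (fun _ h => absurd h List.not_mem_nil) t8 s8 run8
  · exact run_sound hl cutRow_sound (fun _ h => absurd h List.not_mem_nil) t9 s9 run9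
  · exact run_sound hl cutRow_sound (fun _ h => absurd h List.not_mem_nil) t10 s10 run10
  · exact run_sound hl cutRow_sound (fun _ h => absurd h List.not_mem_nil) t11 s11 run11
  · exact run_sound hl cutRow_sound (fun _ h => absurd h List.not_mem_nil) t12 s12 run12
  · exact run_sound hl cutRow_sound (fun _ h => absurd h List.not_mem_nil) t13 s13 run13
  · exact run_sound hl cutRow_sound (fun _ h => absurd h List.not_mem_nil) t14 s14 run14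
  · exact run_sound hl cutRow_sound (fun _ h => absurd h List.not_mem_nil) t15 s15 run15
  · exact run_sound hl cutRow_sound (fun _ h => absurd h List.not_mem_nil) t16 s16 run16

/-- **The search is complete.** -/
theorem bad_root (hl : LeafSound (mkLeaf Leaf.nleaf)) : Bad root :=
  run_sound hl cutRow_sound (parts_bad hl) top root run_top

end Pool.Agent.W3.Data
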